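import Pool.Agent.P.MP_6277db_ag.KEW.L3.CycL

/-!
Finite correspondences between schemes over a base, computed by their matrix entries at pairs of
geometric points.
-/

noncomputable section

open CategoryTheory Limits AlgebraicGeometry IsLocalRing Function TensorProduct

namespace Pool.Agent.KEW

variable {T T' T'' : Scheme.{0}}

/-- Finite correspondences from `W` to `U` over `T`. -/
abbrev Corr (m : ℕ) (W U : Over T) [IsSeparated U.hom] : Type := Cyc m (pullback.fst W.hom U.hom)

namespace Corr

variable {m : ℕ} {W W' U U' V : Over T} [IsSeparated U.hom] [IsSeparated U'.hom]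
  [IsSeparated V.hom]

open Classical in
/-- The matrix entry of a function on `W ×_T U` at a pair of geometric points. -/
def entF (c : ↑(pullback W.hom U.hom) → ℚ) {Om : Type} [Field Om] (a : Spec (.of Om) ⟶ W.left)
    (b : Spec (.of Om) ⟶ U.left) : ℚ :=
  if h : a ≫ W.hom = b ≫ U.hom then c (gen (pullback.lift a b h)) else 0

/-- The matrix entry of a correspondence at a pair of geometric points. -/
def ent (c : Corr m W U) {Om : Type} [Field Om] (a : Spec (.of Om) ⟶ W.left)
    (b : Spec (.of Om) ⟶ U.left) : ℚ := entF c.1 a b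

/-- The projection `(W × U) ×_U (U × V) ⟶ W × V`. -/
def p13 (W U V : Over T) :
    pullback (pullback.snd W.hom U.hom) (pullback.fst U.hom V.hom) ⟶ pullback W.hom V.hom :=
  pullback.lift (pullback.fst _ _ ≫ pullback.fst _ _) (pullback.snd _ _ ≫ pullback.snd _ _) (by
    rw [Category.assoc, Category.assoc, pullback.condition (f := W.hom) (g := U.hom),
      ← pullback.condition (f := U.hom) (g := V.hom), pullback.condition_assoc])

@[reassoc] theorem p13_fst (W U V : Over T) :
    p13 W U V ≫ pullback.fst _ _ = pullback.fst _ _ ≫ pullback.fst _ _ := pullback.lift_fst _ _ _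

/-- Composition of correspondences. -/
def comp (c : Corr m W U) (d : Corr m U V) : Corr m W V :=
  Cyc.pushHom m (p13 W U V) (p13_fst W U V)
    ⟨_, Cyc.mul_mem c.2 (Cyc.pull m (IsPullback.of_hasPullback (pullback.snd W.hom U.hom)
      (pullback.fst U.hom V.hom)).flip d).2⟩

/-- The graph of a morphism as a map `W ⟶ W × U`. -/
def graphMap (f : W ⟶ U) : W.left ⟶ pullback W.hom U.hom :=
  pullback.lift (𝟙 _) f.left (by simp)

@[reassoc] theorem graphMap_fst (f : W ⟶ U) : graphMap f ≫ pullback.fst _ _ = 𝟙 _ :=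
  pullback.lift_fst _ _ _

variable (m) in
/-- The graph of a morphism as a correspondence. -/
def graph (f : W ⟶ U) : Corr m W U :=
  Cyc.pushHom m (graphMap f) (graphMap_fst f) ⟨1, Cyc.one_mem (𝟙 _)⟩

/-- The map `W' × U ⟶ W × U`. -/
def lmap (f : W' ⟶ W) (U : Over T) : pullback W'.hom U.hom ⟶ pullback W.hom U.hom :=
  pullback.map _ _ _ _ f.left (𝟙 _) (𝟙 _) (by simp) (by simp)

/-- The map `W × U ⟶ W × U'`. -/
def rmap (W : Over T) (f : U ⟶ U') : pullback W.hom U.hom ⟶ pullback W.hom U'.hom :=
  pullback.map _ _ _ _ (𝟙 _) f.left (𝟙 _) (by simp) (by simp)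

@[reassoc] theorem Corr_lmap_fst (f : W' ⟶ W) (U : Over T) :
    lmap f U ≫ pullback.fst _ _ = pullback.fst _ _ ≫ f.left := pullback.lift_fst _ _ _

@[reassoc] theorem Corr_lmap_snd (f : W' ⟶ W) (U : Over T) :
    lmap f U ≫ pullback.snd _ _ = pullback.snd _ _ :=
  (pullback.lift_snd _ _ _).trans (Category.comp_id _)

@[reassoc] theorem Corr_rmap_snd (W : Over T) {U U' : Over T} (f : U ⟶ U') :
    rmap W f ≫ pullback.snd _ _ = pullback.snd _ _ ≫ f.left := pullback.lift_snd _ _ _

@[reassoc] theorem Corr_p13_snd (W U V : Over T) :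
    p13 W U V ≫ pullback.snd _ _ = pullback.snd _ _ ≫ pullback.snd _ _ := pullback.lift_snd _ _ _

@[reassoc] theorem Corr_graphMap_snd {W U : Over T} (f : W ⟶ U) :
    graphMap f ≫ pullback.snd _ _ = f.left := pullback.lift_snd _ _ _

theorem Corr_pushHom_congr {X X' Z : Scheme.{0}} {p : X ⟶ Z} [IsSeparated p] {p' : X' ⟶ Z}
    [IsSeparated p'] {f g : X ⟶ X'} (hf : f ≫ p' = p) (hg : g ≫ p' = p) (h : f = g)
    (c : Cyc m p) : Cyc.pushHom m f hf c = Cyc.pushHom m g hg c := by
  subst h
  rfl

theorem Corr_finsum_assoc {α β : Type} (f : α → ℚ) (g : α → β → ℚ) (k : β → ℚ)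
    (hf : (support f).Finite) (hg : ∀ a, (support (g a)).Finite) :
    ∑ᶠ b, (∑ᶠ a, f a * g a b) * k b = ∑ᶠ a, f a * ∑ᶠ b, g a b * k b := by
  classical
  have h1 : ∀ u : α → ℚ, ∑ᶠ a, f a * u a = ∑ a ∈ hf.toFinset, f a * u a := fun u =>
    finsum_eq_sum_of_support_subset _ fun a ha => by
      simpa using left_ne_zero_of_mul ha
  simp only [h1, Finset.sum_mul]
  rw [finsum_sum_comm]
  · refine Finset.sum_congr rfl fun a _ => ?_
    rw [mul_finsum]
    exact finsum_congr fun b => mul_assoc _ _ _
  · intro a _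
    exact (hg a).subset fun b hb => right_ne_zero_of_mul (left_ne_zero_of_mul hb)

theorem isPullback_lmap (f : W' ⟶ W) (U : Over T) :
    IsPullback (lmap f U) (pullback.fst _ _) (pullback.fst _ _) f.left := by
  have h : IsPullback (pullback.fst W'.hom U.hom) (lmap f U ≫ pullback.snd W.hom U.hom)
      (f.left ≫ W.hom) U.hom := by
    rw [Corr_lmap_snd, Over.w]
    exact IsPullback.of_hasPullback _ _
  exact (IsPullback.of_right h.flip (Corr_lmap_fst f U).symm.symm
    (IsPullback.of_hasPullback W.hom U.hom).flip)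

@[reassoc] theorem rmap_fst (W : Over T) (f : U ⟶ U') :
    rmap W f ≫ pullback.fst _ _ = pullback.fst _ _ :=
  (pullback.lift_fst _ _ _).trans (Category.comp_id _)

variable (m) in
/-- Pull back of correspondences along a map of the source. -/
def pull (f : W' ⟶ W) (U : Over T) [IsSeparated U.hom] : Corr m W U →+ Corr m W' U := Cyc.pull m (isPullback_lmap f U)

variable (m) in
/-- Push forward of correspondences along a map of the target. -/
def push (W : Over T) (f : U ⟶ U') :
    Corr m W U →+ Corr m W U' := Cyc.pushHom m (rmap W f) (rmap_fst W f)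

variable (m) in
/-- A cycle on a separated `W`-scheme `X` with a map to `U` gives a correspondence. -/
def ofCyc {X : Scheme.{0}} (p : X ⟶ W.left) [IsSeparated p] (q : X ⟶ U.left)
    (h : p ≫ W.hom = q ≫ U.hom) : Cyc m p →+ Corr m W U :=
  Cyc.pushHom m (pullback.lift p q h) (pullback.lift_fst _ _ _)

section ent

variable {Om : Type} [Field Om]

theorem ent_lift (c : Corr m W U) (a : Spec (.of Om) ⟶ W.left) (b : Spec (.of Om) ⟶ U.left)
    (h : a ≫ W.hom = b ≫ U.hom) : ent c a b = c.1 (gen (pullback.lift a b h)) := by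
  simp only [ent, entF, dif_pos h]

theorem ent_fst_snd (c : Corr m W U) (z : Spec (.of Om) ⟶ pullback W.hom U.hom) :
    ent c (z ≫ pullback.fst _ _) (z ≫ pullback.snd _ _) = c.1 (gen z) := by
  have h : (z ≫ pullback.fst _ _) ≫ W.hom = (z ≫ pullback.snd _ _) ≫ U.hom := by
    rw [Category.assoc, Category.assoc, pullback.condition]
  have e : pullback.lift _ _ h = z := by
    apply pullback.hom_ext
    · rw [pullback.lift_fst]
    · rw [pullback.lift_snd]
  rw [ent_lift c _ _ h, e]

theorem ent_of_ne (c : Corr m W U) (a : Spec (.of Om) ⟶ W.left) (b : Spec (.of Om) ⟶ U.left)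
    (h : a ≫ W.hom ≠ b ≫ U.hom) : ent c a b = 0 := by
  simp only [ent, entF, dif_neg h]

theorem ent_add (c d : Corr m W U) (a : Spec (.of Om) ⟶ W.left) (b : Spec (.of Om) ⟶ U.left) :
    ent (c + d) a b = ent c a b + ent d a b := by
  by_cases h : a ≫ W.hom = b ≫ U.hom
  · simp only [ent_lift _ a b h]
    rfl
  · simp only [ent_of_ne _ a b h, add_zero]

theorem ent_zero (a : Spec (.of Om) ⟶ W.left) (b : Spec (.of Om) ⟶ U.left) :
    ent (0 : Corr m W U) a b = 0 := by
  by_cases h : a ≫ W.hom = b ≫ U.hom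
  · simp only [ent_lift _ a b h]
    rfl
  · simp only [ent_of_ne _ a b h]

theorem ent_neg (c : Corr m W U) (a : Spec (.of Om) ⟶ W.left) (b : Spec (.of Om) ⟶ U.left) :
    ent (-c) a b = -ent c a b := by
  by_cases h : a ≫ W.hom = b ≫ U.hom
  · simp only [ent_lift _ a b h]
    rfl
  · simp only [ent_of_ne _ a b h, neg_zero]

theorem ent_sub (c d : Corr m W U) (a : Spec (.of Om) ⟶ W.left) (b : Spec (.of Om) ⟶ U.left) :
    ent (c - d) a b = ent c a b - ent d a b := by
  rw [sub_eq_add_neg, ent_add, ent_neg, sub_eq_add_neg]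

theorem ent_nsmul (n : ℕ) (c : Corr m W U) (a : Spec (.of Om) ⟶ W.left)
    (b : Spec (.of Om) ⟶ U.left) : ent (n • c) a b = n * ent c a b := by
  induction n with
  | zero => rw [zero_nsmul, ent_zero, Nat.cast_zero, zero_mul]
  | succ n ih => rw [succ_nsmul, ent_add, ih, Nat.cast_succ, add_mul, one_mul]

theorem ent_spm {Om' : Type} [Field Om'] (j : Om →+* Om') (c : Corr m W U)
    (a : Spec (.of Om) ⟶ W.left) (b : Spec (.of Om) ⟶ U.left) :
    ent c (spm j ≫ a) (spm j ≫ b) = ent c a b := by
  by_cases h : a ≫ W.hom = b ≫ U.hom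
  · have h' : (spm j ≫ a) ≫ W.hom = (spm j ≫ b) ≫ U.hom := by
      rw [Category.assoc, Category.assoc, h]
    have e : pullback.lift _ _ h' = spm j ≫ pullback.lift a b h := by
      apply pullback.hom_ext
      · rw [pullback.lift_fst, Category.assoc, pullback.lift_fst]
      · rw [pullback.lift_snd, Category.assoc, pullback.lift_snd]
    rw [ent_lift _ _ _ h, ent_lift _ _ _ h', e, gen_spm_comp j.injective]
  · rw [ent_of_ne _ a b h, ent_of_ne]
    intro h'
    rw [Category.assoc, Category.assoc] at h'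
    exact h (spm_cancel j h')

theorem ent_pull (f : W' ⟶ W) (c : Corr m W U) (a : Spec (.of Om) ⟶ W'.left)
    (b : Spec (.of Om) ⟶ U.left) : ent (pull m f U c) a b = ent c (a ≫ f.left) b := by
  by_cases h : a ≫ W'.hom = b ≫ U.hom
  · have h' : (a ≫ f.left) ≫ W.hom = b ≫ U.hom := by rw [Category.assoc, Over.w, h]
    have e : pullback.lift _ _ h' = pullback.lift a b h ≫ lmap f U := by
      apply pullback.hom_ext
      · rw [pullback.lift_fst, Category.assoc, Corr_lmap_fst, pullback.lift_fst_assoc]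
      · rw [pullback.lift_snd, Category.assoc, Corr_lmap_snd, pullback.lift_snd]
    rw [ent_lift _ _ _ h, ent_lift _ _ _ h', e, gen_comp]
    rfl
  · rw [ent_of_ne _ a b h, ent_of_ne]
    rwa [Category.assoc, Over.w]

variable [IsAlgClosed Om]

theorem finite_ent (c : Corr m W U) (a : Spec (.of Om) ⟶ W.left) :
    (support fun b : Spec (.of Om) ⟶ U.left => ent c a b).Finite := by
  refine ((Cyc.gfin c Om a).image fun y => y ≫ pullback.snd _ _).subset fun b hb => ?_
  have h : a ≫ W.hom = b ≫ U.hom := by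
    by_contra h
    exact hb (ent_of_ne c a b h)
  refine ⟨pullback.lift a b h, ⟨pullback.lift_fst _ _ _, ?_⟩, pullback.lift_snd _ _ _⟩
  rw [mem_support, ← ent_lift]
  exact hb

theorem Corr_finite_mul (c : Corr m W U) (a : Spec (.of Om) ⟶ W.left)
    (u : (Spec (.of Om) ⟶ U.left) → ℚ) :
    (support fun b : Spec (.of Om) ⟶ U.left => ent c a b * u b).Finite :=
  (finite_ent c a).subset fun _ hb => left_ne_zero_of_mul hb

theorem Corr_ent_pushHom {X : Scheme.{0}} {p : X ⟶ W.left} [IsSeparated p]
    (f : X ⟶ pullback W.hom U.hom) (hf : f ≫ pullback.fst _ _ = p) (c : Cyc m p)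
    (a : Spec (.of Om) ⟶ W.left) (b : Spec (.of Om) ⟶ U.left) :
    ent (Cyc.pushHom m f hf c) a b =
      ∑ᶠ y : {y : Spec (.of Om) ⟶ X // y ≫ p = a ∧ y ≫ f ≫ pullback.snd _ _ = b},
        c.1 (gen y.1) := by
  by_cases h : a ≫ W.hom = b ≫ U.hom
  · have hc : GFin f (support c.1) :=
      GFin.of_comp (q := pullback.fst _ _) (by rw [hf]; exact Cyc.gfin c)
    rw [ent_lift _ a b h, Cyc.pushHom_coe, push_geo hc]
    refine CycB_finsum (fun y => ⟨y.1, ?_, ?_⟩) (fun y y' e => ?_) (fun y => rfl) fun y _ => ?_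
    · rw [← hf, reassoc_of% y.2, pullback.lift_fst]
    · rw [reassoc_of% y.2, pullback.lift_snd]
    · exact Subtype.ext (congrArg Subtype.val e :)
    · refine ⟨⟨y.1, ?_⟩, rfl⟩
      apply pullback.hom_ext
      · rw [Category.assoc, hf, y.2.1, pullback.lift_fst]
      · rw [Category.assoc, y.2.2, pullback.lift_snd]
  · rw [ent_of_ne _ a b h]
    refine (finsum_eq_zero_of_forall_eq_zero fun y => (h ?_).elim).symm
    obtain ⟨y, rfl, rfl⟩ := y
    subst hf
    simp only [Category.assoc, pullback.condition]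

theorem ent_comp (c : Corr m W U) (d : Corr m U V)
    (a : Spec (.of Om) ⟶ W.left) (e : Spec (.of Om) ⟶ V.left) :
    ent (comp c d) a e = ∑ᶠ b : Spec (.of Om) ⟶ U.left, ent c a b * ent d b e := by
  rw [comp, Corr_ent_pushHom]
  refine CycB_finsum (fun y => y.1 ≫ pullback.fst _ _ ≫ pullback.snd _ _) (fun y y' h => ?_)
    (fun y => ?_) fun b hb => ?_
  · have h1 : y.1 ≫ pullback.fst _ _ ≫ pullback.snd _ _ =
        y'.1 ≫ pullback.fst _ _ ≫ pullback.snd _ _ := h
    have h2 := y.2.1.trans y'.2.1.symm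
    have h3 := y.2.2.trans y'.2.2.symm
    simp only [Corr_p13_snd] at h3
    apply Subtype.ext
    apply pullback.hom_ext
    · apply pullback.hom_ext
      · simpa only [Category.assoc] using h2
      · simpa only [Category.assoc] using h1
    · apply pullback.hom_ext
      · simpa only [Category.assoc, pullback.condition] using h1
      · simpa only [Category.assoc] using h3
  · obtain ⟨y, rfl, rfl⟩ := y
    change c.1 (pullback.fst (pullback.snd W.hom U.hom) (pullback.fst U.hom V.hom) (gen y)) *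
      d.1 (pullback.snd (pullback.snd W.hom U.hom) (pullback.fst U.hom V.hom) (gen y)) = _
    rw [← gen_comp, ← gen_comp, ← ent_fst_snd, ← ent_fst_snd]
    simp only [Category.assoc, Corr_p13_snd, pullback.condition]
  · have h1 : a ≫ W.hom = b ≫ U.hom := by
      by_contra h
      exact left_ne_zero_of_mul hb (ent_of_ne c a b h)
    have h2 : b ≫ U.hom = e ≫ V.hom := by
      by_contra h
      exact right_ne_zero_of_mul hb (ent_of_ne d b e h)
    refine ⟨⟨pullback.lift (pullback.lift a b h1) (pullback.lift b e h2)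
      (by rw [pullback.lift_snd, pullback.lift_fst]), ?_, ?_⟩, ?_⟩
    · rw [pullback.lift_fst_assoc, pullback.lift_fst]
    · rw [Corr_p13_snd, pullback.lift_snd_assoc, pullback.lift_snd]
    · change pullback.lift _ _ _ ≫ _ = b
      rw [pullback.lift_fst_assoc, pullback.lift_snd]

open Classical in
theorem ent_graph (f : W ⟶ U) (a : Spec (.of Om) ⟶ W.left)
    (b : Spec (.of Om) ⟶ U.left) : ent (graph m f) a b = if a ≫ f.left = b then 1 else 0 := by
  rw [graph, Corr_ent_pushHom]
  split_ifs with h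
  · rw [finsum_eq_single _ ⟨a, Category.comp_id _, by rw [Corr_graphMap_snd, h]⟩]
    · rfl
    · intro y hy
      exact (hy (Subtype.ext ((Category.comp_id _).symm.trans y.2.1))).elim
  · refine finsum_eq_zero_of_forall_eq_zero fun y => (h ?_).elim
    obtain ⟨y, h0, h1⟩ := y
    rw [Corr_graphMap_snd] at h1
    rw [← h0, Category.comp_id, h1]

theorem ent_push (f : U ⟶ U') (c : Corr m W U)
    (a : Spec (.of Om) ⟶ W.left) (b' : Spec (.of Om) ⟶ U'.left) :
    ent (push m W f c) a b' = ∑ᶠ b ∈ {b : Spec (.of Om) ⟶ U.left | b ≫ f.left = b'}, ent c a b := by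
  rw [push, Corr_ent_pushHom, ← finsum_set_coe_eq_finsum_mem]
  refine CycB_finsum (fun y => ⟨y.1 ≫ pullback.snd _ _, ?_⟩) (fun y y' h => ?_)
    (fun y => ?_) fun b hb => ?_
  · have h1 := y.2.2
    simp only [Corr_rmap_snd] at h1
    exact (Category.assoc _ _ _).trans h1
  · apply Subtype.ext
    apply pullback.hom_ext
    · exact y.2.1.trans y'.2.1.symm
    · exact congrArg Subtype.val h
  · obtain ⟨y, rfl, rfl⟩ := y
    exact (ent_fst_snd c y).symm
  · have h1 : a ≫ W.hom = b.1 ≫ U.hom := by
      by_contra h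
      exact hb (ent_of_ne c a b.1 h)
    refine ⟨⟨pullback.lift a b.1 h1, pullback.lift_fst _ _ _, ?_⟩,
      Subtype.ext (pullback.lift_snd _ _ _)⟩
    rw [Corr_rmap_snd, pullback.lift_snd_assoc]
    exact b.2

theorem ent_ofCyc {X : Scheme.{0}} (p : X ⟶ W.left) [IsSeparated p] [IsSeparated U.hom]
    (q : X ⟶ U.left) (h : p ≫ W.hom = q ≫ U.hom) (c : Cyc m p) (a : Spec (.of Om) ⟶ W.left)
    (b : Spec (.of Om) ⟶ U.left) :
    ent (ofCyc m p q h c) a b =
      ∑ᶠ y ∈ {y : Spec (.of Om) ⟶ X | y ≫ p = a ∧ y ≫ q = b}, c.1 (gen y) := by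
  rw [ofCyc, Corr_ent_pushHom, pullback.lift_snd, ← finsum_set_coe_eq_finsum_mem]
  rfl

end ent

theorem ext_ent {c d : Corr m W U}
    (h : ∀ (Om : Type) [Field Om] [IsAlgClosed Om] (a : Spec (.of Om) ⟶ W.left)
      (b : Spec (.of Om) ⟶ U.left), ent c a b = ent d a b) : c = d := by
  refine Subtype.ext (funext_geo fun Om _ _ z => ?_)
  rw [← ent_fst_snd, ← ent_fst_snd, h]

section

variable [IsSeparated V.hom]

theorem graph_comp (f : W ⟶ U) (d : Corr m U V) : comp (graph m f) d = pull m f V d := by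
  classical
  refine ext_ent fun Om _ _ a e => ?_
  rw [ent_comp, ent_pull, finsum_eq_single _ (a ≫ f.left), ent_graph, if_pos rfl, one_mul]
  intro b hb
  rw [ent_graph, if_neg hb.symm, zero_mul]

theorem comp_graph (c : Corr m W U) (f : U ⟶ V) : comp c (graph m f) = push m W f c := by
  classical
  refine ext_ent fun Om _ _ a e => ?_
  rw [ent_comp, ent_push, finsum_mem_def]
  refine finsum_congr fun b => ?_
  rw [ent_graph, Set.indicator_apply]
  simp only [Set.mem_ofPred_eq, mul_ite, mul_one, mul_zero]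

theorem add_comp (c c' : Corr m W U) (d : Corr m U V) : comp (c + c') d = comp c d + comp c' d := by
  refine ext_ent fun Om _ _ a e => ?_
  rw [ent_add, ent_comp, ent_comp, ent_comp,
    ← finsum_add_distrib (Corr_finite_mul c a _) (Corr_finite_mul c' a _)]
  exact finsum_congr fun b => by rw [ent_add, add_mul]

theorem comp_add (c : Corr m W U) (d d' : Corr m U V) : comp c (d + d') = comp c d + comp c d' := by
  refine ext_ent fun Om _ _ a e => ?_
  rw [ent_add, ent_comp, ent_comp, ent_comp,
    ← finsum_add_distrib (Corr_finite_mul c a _) (Corr_finite_mul c a _)]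
  exact finsum_congr fun b => by rw [ent_add, mul_add]

theorem comp_assoc (c : Corr m W U) (d : Corr m U U') (e : Corr m U' V) :
    comp (comp c d) e = comp c (comp d e) := by
  refine ext_ent fun Om _ _ a z => ?_
  simp only [ent_comp]
  exact Corr_finsum_assoc _ _ _ (finite_ent c a) (fun b => finite_ent d b)

theorem pull_comp (f : W' ⟶ W) (c : Corr m W U) (d : Corr m U V) :
    pull m f V (comp c d) = comp (pull m f U c) d := by
  refine ext_ent fun Om _ _ a z => ?_
  simp only [ent_comp, ent_pull]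

theorem push_graph (f : W ⟶ U) (g : U ⟶ V) : push m W g (graph m f) = graph m (f ≫ g) := by
  rw [← comp_graph, graph_comp]
  refine ext_ent fun Om _ _ a z => ?_
  rw [ent_pull, ent_graph, ent_graph, Over.comp_left, Category.assoc]

theorem pull_push (f : W' ⟶ W) (g : U ⟶ V) (c : Corr m W U) :
    pull m f V (push m W g c) = push m W' g (pull m f U c) := by
  refine ext_ent fun Om _ _ a z => ?_
  simp only [ent_pull, ent_push]

theorem push_push (f : U ⟶ U') (g : U' ⟶ V) (c : Corr m W U) :
    push m W g (push m W f c) = push m W (f ≫ g) c := by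
  rw [← comp_graph, ← comp_graph, comp_assoc, comp_graph, push_graph, comp_graph]

end

theorem pull_id (c : Corr m W U) : pull m (𝟙 W) U c = c := by
  refine ext_ent fun Om _ _ a z => ?_
  simp only [ent_pull, Over.id_left, Category.comp_id]

theorem pull_pull {W'' : Over T} (f : W' ⟶ W) (g : W'' ⟶ W') (c : Corr m W U) :
    pull m g U (pull m f U c) = pull m (g ≫ f) U c := by
  refine ext_ent fun Om _ _ a z => ?_
  simp only [ent_pull, Over.comp_left, Category.assoc]

theorem push_id (c : Corr m W U) : push m W (𝟙 U) c = c := by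
  refine ext_ent fun Om _ _ a z => ?_
  simp only [ent_push, Over.id_left, Category.comp_id, Set.mem_ofPred_eq, finsum_cond_eq_left]

theorem pull_graph (f : W' ⟶ W) (g : W ⟶ U) :
    pull m f U (graph m g) = graph m (f ≫ g) := by
  refine ext_ent fun Om _ _ a z => ?_
  rw [ent_pull, ent_graph, ent_graph, Over.comp_left, Category.assoc]

theorem push_injective (f : U ⟶ U') [Mono f.left] :
    Function.Injective (push m W f) := by
  have : Mono (rmap W f) := by
    refine ⟨fun x y h => ?_⟩
    apply pullback.hom_ext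
    · rw [← rmap_fst W f, reassoc_of% h]
    · rw [← cancel_mono f.left, Category.assoc, Category.assoc, ← Corr_rmap_snd, reassoc_of% h]
  exact Cyc.pushHom_injective _ _

section ofCyc

variable {X X' : Scheme.{0}} (p : X ⟶ W.left) [IsSeparated p] (q : X ⟶ U.left)
  (h : p ≫ W.hom = q ≫ U.hom)

theorem push_ofCyc (f : U ⟶ V) (c : Cyc m p) :
    push m W f (ofCyc m p q h c) = ofCyc m p (q ≫ f.left) (by simp [h]) c := by
  refine (Cyc.pushHom_pushHom _ _ _ _ c).trans (Corr_pushHom_congr _ _ ?_ c)
  apply pullback.hom_ext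
  · rw [Category.assoc, rmap_fst, pullback.lift_fst, pullback.lift_fst]
  · rw [Category.assoc, Corr_rmap_snd, pullback.lift_snd_assoc, pullback.lift_snd]

theorem pull_ofCyc (g : W' ⟶ W) {p' : X' ⟶ W'.left} [IsSeparated p'] {f : X' ⟶ X}
    (sq : IsPullback f p' p g.left) (c : Cyc m p) :
    pull m g U (ofCyc m p q h c) =
      ofCyc m p' (f ≫ q) (by rw [Category.assoc, ← h, sq.w_assoc, Over.w]) (Cyc.pull m sq c) := by
  refine Cyc.pull_pushHom _ _ sq _ _ _ ?_ c
  apply pullback.hom_ext
  · rw [Category.assoc, Corr_lmap_fst, pullback.lift_fst_assoc, Category.assoc, pullback.lift_fst,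
      sq.w]
  · rw [Category.assoc, Corr_lmap_snd, pullback.lift_snd, Category.assoc, pullback.lift_snd]

theorem ofCyc_pushHom {p' : X' ⟶ W.left} [IsSeparated p'] (f : X' ⟶ X) (hf : f ≫ p = p')
    (c : Cyc m p') : ofCyc m p q h (Cyc.pushHom m f hf c) =
      ofCyc m p' (f ≫ q) (by rw [Category.assoc, ← h, ← hf, Category.assoc]) c := by
  refine (Cyc.pushHom_pushHom _ _ _ _ c).trans (Corr_pushHom_congr _ _ ?_ c)
  apply pullback.hom_ext
  · rw [Category.assoc, pullback.lift_fst, pullback.lift_fst, hf]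
  · rw [Category.assoc, pullback.lift_snd, pullback.lift_snd]

end ofCyc

theorem isPullback_rmap (W : Over T) (f : U ⟶ U') :
    IsPullback (pullback.snd W.hom U.hom) (rmap W f) f.left (pullback.snd W.hom U'.hom) := by
  have h : IsPullback (rmap W f ≫ pullback.fst W.hom U'.hom) (pullback.snd W.hom U.hom)
      W.hom (f.left ≫ U'.hom) := by
    rw [rmap_fst, Over.w]
    exact IsPullback.of_hasPullback _ _
  exact (IsPullback.of_right h (Corr_rmap_snd W f) (IsPullback.of_hasPullback W.hom U'.hom)).flip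

theorem isPullback_lmap_rmap (g : W' ⟶ W) (f : U ⟶ U') :
    IsPullback (lmap g U) (rmap W' f) (rmap W f) (lmap g U') := by
  have h : IsPullback (lmap g U) (rmap W' f ≫ pullback.fst _ _) (rmap W f ≫ pullback.fst _ _)
      g.left := by
    rw [rmap_fst, rmap_fst]
    exact isPullback_lmap g U
  refine IsPullback.of_bot h ?_ (isPullback_lmap g U')
  apply pullback.hom_ext
  · simp only [Category.assoc, rmap_fst, Corr_lmap_fst, rmap_fst_assoc]
  · simp only [Category.assoc, Corr_rmap_snd, Corr_lmap_snd, Corr_lmap_snd_assoc]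

instance (f : U ⟶ U') [IsImmersion f.left] : IsImmersion (rmap W f) := by
  exact MorphismProperty.of_isPullback (isPullback_rmap W f) ‹_›

end Corr

end Pool.Agent.KEW
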