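import Pool.Agent.P.MP_6277db_ag.KEW.L3.Div
import Pool.Agent.P.MP_6277db_ag.KEW.L3.Corr
import Pool.Agent.P.MP_6277db_ag.KEW.CA.Defs

/-!
The transfer correspondence of a function on an etale chart over the line, for rings.
-/

noncomputable section

open CategoryTheory Limits AlgebraicGeometry IsLocalRing Function Polynomial

namespace Pool.Agent.KEW

open _root_.KEW

variable {A R Y R' Y' : Type} [CommRing A] [CommRing R] [CommRing Y] [CommRing R'] [CommRing Y']

/-- The spectrum of an `A`-algebra as an object over `Spec A`. -/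
abbrev spO (a : A →+* R) : Over (Spec (.of A)) := Over.mk (spm a)

instance (a : A →+* R) : IsSeparated (spO a).hom := inferInstanceAs (IsSeparated (spm a))

/-- The map of spectra induced by a map of `A`-algebras. -/
def spH {a : A →+* R} {b : A →+* Y} (φ : R →+* Y) (h : φ.comp a = b) : spO b ⟶ spO a :=
  Over.homMk (spm φ) ((spm_comp a φ).trans (congrArg spm h))

/-- Admissible transfer data. -/
structure TrOK (m : ℕ) (φ : R →+* Y) (u σ : Y) : Prop where
  inv : IsUnit ((m : ℕ) : R)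
  et : Et1 φ u
  fin : FinMod φ (Ideal.span {σ})

theorem TrC_finOver {m : ℕ} {φ : R →+* Y} {u σ : Y} (h : TrOK m φ u σ) :
    FinOver (spm φ) (zl (fn σ)) := by
  rw [zl_fn]
  exact finOver_spm φ _ h.fin

theorem TrOK.divOK {m : ℕ} {φ : R →+* Y} {u σ : Y} (h : TrOK m φ u σ) :
    DivOK m (spm φ) (fn u) (fn σ) 1 := by
  have : Etale (lineMap (spm φ) (fn u)) := (etale_lineMap_spm φ u).2 h.et
  refine DivOK.one ?_ (TrC_finOver h).gfin
  have := (h.inv.map φ).map fn
  rwa [map_natCast, map_natCast] at this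

theorem TrOK.mem {m : ℕ} {φ : R →+* Y} {u σ : Y} (h : TrOK m φ u σ) :
    Div (spm φ) (fn u) (fn σ) 1 ∈ Cyc m (spm φ) := by
  exact Div_mem_Cyc h.divOK ((TrC_finOver h).mono Set.inter_subset_right)

open Classical in
/-- The correspondence from `Spec R` to `Spec Y` given by the divisor of `σ`. -/
def trC (m : ℕ) {a : A →+* R} {b : A →+* Y} (φ : R →+* Y) (hφ : φ.comp a = b) (u σ : Y) :
    Corr m (spO a) (spO b) :=
  if h : TrOK m φ u σ then
    Corr.ofCyc m (W := spO a) (U := spO b) (spm φ) (𝟙 _)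
      ((Over.w (spH φ hφ)).trans (Category.id_comp _).symm) ⟨_, h.mem⟩
  else 0

variable {m : ℕ} {a : A →+* R} {b : A →+* Y} {a' : A →+* R'} {b' : A →+* Y'}

open Classical in
theorem ent_trC (φ : R →+* Y) (hφ : φ.comp a = b) {u σ : Y} (h : TrOK m φ u σ) {Om : Type}
    [Field Om] [IsAlgClosed Om] (x : R →+* Om) (y : Y →+* Om) :
    Corr.ent (trC m φ hφ u σ) (spm x) (spm y) =
      if y.comp φ = x then Div (spm φ) (fn u) (fn σ) 1 (gen (spm y)) else 0 := by
  rw [trC, dif_pos h, Corr.ent_ofCyc]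
  split_ifs with hy
  · have : {z : Spec (.of Om) ⟶ Spec (.of Y) | z ≫ spm φ = spm x ∧ z ≫ 𝟙 _ = spm y} = {spm y} := by
      ext z
      simp only [Set.mem_ofPred_eq, Category.comp_id, Set.mem_singleton_iff]
      exact ⟨fun hz => hz.2, fun hz => ⟨by rw [hz, spm_comp, hy], hz⟩⟩
    exact (congrArg (fun s => ∑ᶠ z ∈ s, Div (spm φ) (fn u) (fn σ) 1 (gen z)) this).trans
      finsum_mem_singleton
  · have : {z : Spec (.of Om) ⟶ Spec (.of Y) | z ≫ spm φ = spm x ∧ z ≫ 𝟙 _ = spm y} = ∅ := by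
      ext z
      simp only [Set.mem_ofPred_eq, Category.comp_id, Set.mem_empty_iff_false, iff_false]
      rintro ⟨h1, rfl⟩
      exact hy (spm_injective (by rw [← spm_comp, h1]))
    exact (congrArg (fun s => ∑ᶠ z ∈ s, Div (spm φ) (fn u) (fn σ) 1 (gen z)) this).trans
      finsum_mem_empty

theorem TrC_Div_zero {φ : R →+* Y} {u σ : Y} {Om : Type} [Field Om] (y : Y →+* Om)
    (hy : y σ ≠ 0) : Div (spm φ) (fn u) (fn σ) 1 (gen (spm y)) = 0 := by
  by_contra hne
  have h1 := (support_Div hne).2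
  rw [gen_mem_zeroLocus, ev_spm_fn] at h1
  exact hy h1

theorem TrC_Div_bc {φ : R →+* Y} {φ' : R' →+* Y'} {f : R →+* R'} {g : Y →+* Y'} {u σ : Y}
    (hsq : g.comp φ = φ'.comp f) (h : TrOK m φ u σ) (h' : TrOK m φ' (g u) (g σ)) :
    Div (spm φ') (fn (g u)) (fn (g σ)) 1 = Div (spm φ) (fn u) (fn σ) 1 ∘ spm g := by
  have sq := IsPullback.of_hasPullback (spm φ) (spm f)
  have hw : spm g ≫ spm φ = spm φ' ≫ spm f := by rw [spm_comp, spm_comp, hsq]
  have hq₁ := sq.lift_fst _ _ hw
  have hq₂ := sq.lift_snd _ _ hw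
  generalize sq.lift _ _ hw = q at hq₁ hq₂
  have ha : ∀ r : Y, q.appTop ((pullback.fst (spm φ) (spm f)).appTop (fn r)) = fn (g r) := by
    intro r
    rw [← appTop_spm_fn, ← hq₁, Scheme.Hom.comp_appTop]
    rfl
  have e0 : Etale (lineMap (spm φ) (fn u)) := (etale_lineMap_spm φ u).2 h.et
  have e1 : Etale (lineMap (pullback.snd (spm φ) (spm f))
      ((pullback.fst (spm φ) (spm f)).appTop (fn u))) :=
    MorphismProperty.of_isPullback (isPullback_lineMap sq (fn u)) e0
  have e2 : Etale (q ≫ lineMap (pullback.snd (spm φ) (spm f))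
      ((pullback.fst (spm φ) (spm f)).appTop (fn u))) := by
    rw [comp_lineMap, hq₂, ha]
    exact (etale_lineMap_spm φ' (g u)).2 h'.et
  have e3 : Etale q := Etale.of_comp q (lineMap (pullback.snd (spm φ) (spm f))
      ((pullback.fst (spm φ) (spm f)).appTop (fn u)))
  have h1 := Div_etale q (h.divOK.pullback sq)
  rw [Div_pullback sq h.divOK, hq₂, ha, ha] at h1
  refine h1.trans ?_
  funext z
  simp only [Function.comp_apply]
  rw [← Scheme.Hom.comp_apply, hq₁]

theorem TrC_po {φ : R →+* Y} {φ' : R' →+* Y'} {f : R →+* R'} {g : Y →+* Y'} {σ : Y} {σ' : Y'}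
    {hσ : g σ = σ'}
    (po : IsPO ((Ideal.Quotient.mk (Ideal.span {σ})).comp φ) f (qmap g hσ)
      ((Ideal.Quotient.mk (Ideal.span {σ'})).comp φ'))
    {Om : Type} [CommRing Om] (y : Y →+* Om) (x : R' →+* Om) (h : y.comp φ = x.comp f)
    (hy : y σ = 0) : ∃! y' : Y' →+* Om, y'.comp g = y ∧ y'.comp φ' = x := by
  have hl : ∀ {S : Type} [CommRing S] (z : S →+* Om) (s : S), z s = 0 →
      ∃ zb : S ⧸ Ideal.span {s} →+* Om, zb.comp (Ideal.Quotient.mk _) = z := by
    intro S _ z s hs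
    refine ⟨Ideal.Quotient.lift _ z fun t ht => ?_, RingHom.ext fun _ => rfl⟩
    obtain ⟨c, rfl⟩ := Ideal.mem_span_singleton'.1 ht
    rw [map_mul, hs, mul_zero]
  obtain ⟨yb, rfl⟩ := hl y σ hy
  have hw : CommRingCat.ofHom ((Ideal.Quotient.mk (Ideal.span {σ})).comp φ) ≫
      CommRingCat.ofHom yb = CommRingCat.ofHom f ≫ CommRingCat.ofHom x :=
    CommRingCat.hom_ext h
  have k1 : (po.desc _ _ hw).hom.comp (qmap g hσ) = yb := congrArg (·.hom) (po.inl_desc _ _ hw)
  have k2 : (po.desc _ _ hw).hom.comp ((Ideal.Quotient.mk (Ideal.span {σ'})).comp φ') = x :=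
    congrArg (·.hom) (po.inr_desc _ _ hw)
  refine ⟨(po.desc _ _ hw).hom.comp (Ideal.Quotient.mk _), ⟨?_, k2⟩, ?_⟩
  · exact congrArg (fun z => RingHom.comp z (Ideal.Quotient.mk _)) k1
  · rintro y' ⟨h1, h2⟩
    obtain ⟨zb, rfl⟩ := hl y' σ' (by rw [← hσ]; exact (RingHom.congr_fun h1 σ).trans hy)
    have : CommRingCat.ofHom zb = po.desc _ _ hw := by
      refine po.hom_ext ?_ ?_
      · rw [po.inl_desc]
        exact CommRingCat.hom_ext (Ideal.Quotient.ringHom_ext h1)
      · rw [po.inr_desc]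
        exact CommRingCat.hom_ext h2
    rw [← this]
    rfl

/-- Base change and change of the neighbourhood of the zero locus. Hint: compare entries; the
points of `Y'` above `x'` killing `σ'` are the points of `Y` above `x' ∘ f` killing `σ`; the values
of `Div` agree by `Div_eq` and `etale_lift`: for a datum `(j, e)` the unique lift `x'` for `Y'`
restricts to the unique lift for `Y`. -/
theorem trC_bc (φ : R →+* Y) (φ' : R' →+* Y') (f : R →+* R') (g : Y →+* Y') (hφ : φ.comp a = b)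
    (hφ' : φ'.comp a' = b') (hf : f.comp a = a') (hg : g.comp b = b') {u σ : Y} {u' σ' : Y'}
    (hsq : g.comp φ = φ'.comp f) (hu : g u = u') (hσ : g σ = σ') (h : TrOK m φ u σ)
    (h' : TrOK m φ' u' σ')
    (po : IsPO ((Ideal.Quotient.mk (Ideal.span {σ})).comp φ) f (qmap g hσ)
      ((Ideal.Quotient.mk (Ideal.span {σ'})).comp φ')) :
    Corr.pull m (spH f hf) _ (trC m φ hφ u σ) =
      Corr.push m _ (spH g hg) (trC m φ' hφ' u' σ') := by
  classical
  subst hu hσ
  refine Corr.ext_ent fun Om _ _ x0 y0 => ?_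
  obtain ⟨x, rfl⟩ := spm_surjective (R := R') (S := Om) x0
  obtain ⟨y, rfl⟩ := spm_surjective (R := Y) (S := Om) y0
  rw [Corr.ent_pull, Corr.ent_push]
  have e1 : Corr.ent (trC m φ hφ u σ) (spm x ≫ (spH f hf).left) (spm y) =
      if y.comp φ = x.comp f then Div (spm φ) (fn u) (fn σ) 1 (gen (spm y)) else 0 := by
    rw [← ent_trC φ hφ h, ← spm_comp]
    rfl
  rw [e1]
  have key : ∀ y' : Y' →+* Om, y'.comp g = y →
      Corr.ent (trC m φ' hφ' (g u) (g σ)) (spm x) (spm y') =
        if y'.comp φ' = x then Div (spm φ) (fn u) (fn σ) 1 (gen (spm y)) else 0 := by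
    rintro y' rfl
    rw [ent_trC φ' hφ' h', TrC_Div_bc hsq h h', ← spm_comp, gen_comp]
    rfl
  have hmem : ∀ y' : Y' →+* Om, spm y' ≫ (spH g hg).left = spm y ↔ y'.comp g = y := fun y' =>
    ⟨fun hh => spm_injective ((spm_comp g y').symm.trans hh),
      fun hh => (spm_comp g y').trans (congrArg spm hh)⟩
  by_cases h0 : y.comp φ = x.comp f ∧ y σ = 0
  · obtain ⟨y', ⟨h1, h2⟩, h3⟩ := TrC_po po y x h0.1 h0.2
    rw [if_pos h0.1, finsum_mem_def]
    refine Eq.symm ((finsum_eq_single _ (spm y') fun z hz => ?_).trans ?_)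
    swap
    · rw [Set.indicator_of_mem (by exact (hmem y').2 h1), key y' h1, if_pos h2]
    · obtain ⟨y'', rfl⟩ := spm_surjective (R := Y') (S := Om) z
      refine Set.indicator_apply_eq_zero.2 fun hm => ?_
      have h4 := (hmem y'').1 hm
      rw [key y'' h4, if_neg]
      intro h5
      exact hz (congrArg spm (h3 y'' ⟨h4, h5⟩))
  · have h1 : ∀ P : Prop, (P → y.comp φ = x.comp f) → ∀ [Decidable P],
        (if P then Div (spm φ) (fn u) (fn σ) 1 (gen (spm y)) else 0) = 0 := by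
      intro P hP _
      split_ifs with hp
      · exact TrC_Div_zero y fun hy => h0 ⟨hP hp, hy⟩
      · rfl
    rw [h1 _ id]
    symm
    refine finsum_mem_of_eqOn_zero fun z hz => ?_
    obtain ⟨y', rfl⟩ := spm_surjective (R := Y') (S := Om) z
    have h4 := (hmem y').1 hz
    refine (key y' h4).trans (h1 _ fun h5 => ?_)
    rw [← h4, ← h5, RingHom.comp_assoc, RingHom.comp_assoc, hsq]

theorem TrOK.mul {φ : R →+* Y} {u σ σ' : Y} (h : TrOK m φ u σ) (h' : TrOK m φ u σ') :
    TrOK m φ u (σ * σ') := by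
  refine ⟨h.inv, h.et, RingHom.IsIntegral.to_finite (fun z => ?_) ?_⟩
  · obtain ⟨y, rfl⟩ := Ideal.Quotient.mk_surjective z
    obtain ⟨P, hP, h0⟩ := h.fin.to_isIntegral (Ideal.Quotient.mk _ y)
    obtain ⟨P', hP', h0'⟩ := h'.fin.to_isIntegral (Ideal.Quotient.mk _ y)
    refine ⟨P * P', hP.mul hP', ?_⟩
    rw [← hom_eval₂, Ideal.Quotient.eq_zero_iff_mem, Ideal.mem_span_singleton] at h0 h0' ⊢
    rw [eval₂_mul]
    exact mul_dvd_mul h0 h0'
  · have : LocallyOfFiniteType (spm φ) := h.divOK.lft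
    have h1 : φ.FiniteType := HasRingHomProperty.Spec_iff.1 this
    exact (RingHom.FiniteType.of_surjective _ Ideal.Quotient.mk_surjective).comp h1

theorem trC_mul (φ : R →+* Y) (hφ : φ.comp a = b) {u σ σ' : Y} (h : TrOK m φ u σ)
    (h' : TrOK m φ u σ') : trC m φ hφ u (σ * σ') = trC m φ hφ u σ + trC m φ hφ u σ' := by
  rw [trC, trC, trC, dif_pos h, dif_pos h', dif_pos (h.mul h'), ← map_add]
  congr 1
  refine Subtype.ext ?_
  show Div (spm φ) (fn u) (fn (σ * σ')) 1 = _
  rw [map_mul]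
  exact Div_mul h.divOK h'.divOK

theorem trC_unit (φ : R →+* Y) (hφ : φ.comp a = b) {u σ : Y} (h : IsUnit σ) :
    trC m φ hφ u σ = 0 := by
  rw [trC]
  split_ifs with h0
  · refine (congrArg _ (Subtype.ext ?_)).trans (map_zero _)
    funext z
    by_contra hne
    have h1 := (support_Div hne).2
    rw [zl_fn, Ideal.span_singleton_eq_top.2 h, Submodule.top_coe,
      PrimeSpectrum.zeroLocus_univ] at h1
    exact h1
  · rfl

theorem trC_sec (φ : R →+* Y) (hφ : φ.comp a = b) {u σ : Y} (s : Y →+* R) (hs : s.comp b = a)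
    (h : TrOK m φ u σ) (hsφ : s.comp φ = RingHom.id R) (hk : RingHom.ker s = Ideal.span {σ}) :
    trC m φ hφ u σ = Corr.graph m (spH s hs) := by
  rw [trC, dif_pos h]
  refine Subtype.ext ?_
  have e : spm s ≫ pullback.lift (f := (spO a).hom) (g := (spO b).hom) (spm φ) (𝟙 _)
      ((Over.w (spH φ hφ)).trans (Category.id_comp _).symm) = Corr.graphMap (spH s hs) := by
    refine pullback.hom_ext ?_ ?_
    · rw [Category.assoc, pullback.lift_fst, Corr.graphMap_fst]
      exact (spm_comp φ s).trans ((congrArg spm hsφ).trans spm_id)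
    · rw [Category.assoc, pullback.lift_snd, Corr.graphMap, pullback.lift_snd]
      exact Category.comp_id _
  show push _ (Div (spm φ) (fn u) (fn σ) 1) = push (Corr.graphMap (spH s hs)) 1
  rw [Div_one_sec φ u σ h.et s hsφ hk, ← e]
  refine (push_comp (GFin.of_comp (q := pullback.fst _ _) ?_)).symm
  rw [e, Corr.graphMap_fst]
  exact GFin.of_mono (𝟙 (Spec (.of R))) _

theorem TrC_ofCyc_congr {T X : Scheme.{0}} {W U : Over T} [IsSeparated U.hom] (p : X ⟶ W.left)
    [IsSeparated p] {q q' : X ⟶ U.left} (e : q = q') (h : p ≫ W.hom = q ≫ U.hom)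
    (h' : p ≫ W.hom = q' ≫ U.hom) (c : Cyc m p) :
    Corr.ofCyc m p q h c = Corr.ofCyc m p q' h' c := by
  subst e
  rfl

theorem trC_push {Y0 : Type} [CommRing Y0] {b0 : A →+* Y0} (φ : R →+* Y0) (p : Y0[X])
    (Q σ : AdjoinRoot p) (j : AdjoinRoot p →+* Y) (hφ : φ.comp a = b0)
    (hj : (j.comp (AdjoinRoot.of p)).comp b0 = b)
    (h : ((j.comp (AdjoinRoot.of p)).comp φ).comp a = b) {u : Y0} (hp : p.Monic) (hQ : IsAway j Q)
    (hc : IsCoprime σ Q) (h0 : TrOK m φ u (Algebra.norm Y0 σ))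
    (h1 : TrOK m ((j.comp (AdjoinRoot.of p)).comp φ) (j (AdjoinRoot.of p u)) (j σ)) :
    Corr.push m _ (spH (j.comp (AdjoinRoot.of p)) hj)
      (trC m ((j.comp (AdjoinRoot.of p)).comp φ) h (j (AdjoinRoot.of p u)) (j σ)) =
      trC m φ hφ u (Algebra.norm Y0 σ) := by
  let _ : Algebra (AdjoinRoot p) Y := j.toAlgebra
  have : IsLocalization.Away Q Y := hQ
  have hN := push_Div_norm h0.inv φ u p hp Q σ hc h0.et (j.comp (AdjoinRoot.of p)) rfl h1.et h1.fin
  rw [trC, trC, dif_pos h0, dif_pos h1, Corr.push_ofCyc]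
  have e : (⟨_, h0.mem⟩ : Cyc m (spm φ)) =
      Cyc.pushHom m (spm (j.comp (AdjoinRoot.of p))) (spm_comp _ _) ⟨_, h1.mem⟩ :=
    Subtype.ext hN.symm
  rw [e, Corr.ofCyc_pushHom]
  exact TrC_ofCyc_congr _ ((Category.id_comp _).trans (Category.comp_id _).symm) _ _ _

theorem TrC_simple (P : R[X]) (het : (AdjoinRoot.of P).Etale) {k : Type} [Field k] (t : R →+* k)
    (a : k) (h1 : (P.map t).IsRoot a) (h2 : (derivative (P.map t)).IsRoot a) : False := by
  have : Algebra.Etale R (AdjoinRoot P) := RingHom.etale_algebraMap.1 het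
  let _ : Algebra R (DualNumber k) := ((algebraMap k (DualNumber k)).comp t).toAlgebra
  have hev : ∀ (F : R[X]) (z : DualNumber k), eval₂ (Algebra.ofId R (DualNumber k)) z F =
      aeval z (F.map t) := fun F z => by
    rw [aeval_def, eval₂_map]
    rfl
  have e1 : aeval (algebraMap k (DualNumber k) a) (P.map t) = 0 := by
    rw [aeval_algebraMap_apply, coe_aeval_eq_eval, h1.eq_zero, map_zero]
  have e2 : aeval (algebraMap k (DualNumber k) a) (derivative (P.map t)) = 0 := by
    rw [aeval_algebraMap_apply, coe_aeval_eq_eval, h2.eq_zero, map_zero]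
  have e3 : aeval (algebraMap k (DualNumber k) a + DualNumber.eps) (P.map t) = 0 := by
    rw [aeval_add_of_sq_eq_zero _ _ _ (by rw [sq, DualNumber.eps_mul_eps]), e1, e2, zero_mul,
      add_zero]
  have hk : IsNilpotent (RingHom.ker (TrivSqZeroExt.fstHom k k k).toRingHom) := by
    refine ⟨2, ?_⟩
    rw [Submodule.pow_succ, Submodule.pow_one, Ideal.zero_eq_bot, eq_bot_iff, Ideal.mul_le]
    intro r hr s hs
    have hr' : r.fst = 0 := hr
    have hs' : s.fst = 0 := hs
    rw [Ideal.mem_bot]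
    ext <;> simp [hr', hs']
  have := Algebra.FormallyUnramified.lift_unique_of_ringHom _ hk
    (AdjoinRoot.liftAlgHom P (Algebra.ofId R (DualNumber k)) _ ((hev _ _).trans e1))
    (AdjoinRoot.liftAlgHom P (Algebra.ofId R (DualNumber k)) _ ((hev _ _).trans e3))
    (AdjoinRoot.ringHom_ext (by ext r; simp) (by simp [TrivSqZeroExt.algebraMap_eq_inl]))
  have h3 := AlgHom.congr_fun this (AdjoinRoot.root P)
  rw [AdjoinRoot.liftAlgHom_root, AdjoinRoot.liftAlgHom_root] at h3
  simpa using congrArg TrivSqZeroExt.snd h3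

/-- The fundamental cycle of a finite etale monogenic cover of degree `n`, pushed to the base, is
`n` times the identity. -/
theorem push_one_adjoinRoot (P : R[X]) (hP : P.Monic) (het : (AdjoinRoot.of P).Etale) :
    push (spm (AdjoinRoot.of P)) 1 = fun _ => (P.natDegree : ℚ) := by
  classical
  funext x
  obtain ⟨t, ht⟩ := spm_surjective (R := R) (S := geoF x) (geo x)
  have h0 : P.map t ≠ 0 := (hP.map t).ne_zero
  have hr : ∀ a : (P.map t).roots.toFinset, eval₂ t a.1 P = 0 := fun a => by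
    have := a.2
    rw [Multiset.mem_toFinset, mem_roots h0, IsRoot.def, Polynomial.eval_map] at this
    exact this
  let e : (P.map t).roots.toFinset →
      {y : Spec (.of (geoF x)) ⟶ Spec (.of (AdjoinRoot P)) // y ≫ spm (AdjoinRoot.of P) = geo x} :=
    fun a => ⟨spm (AdjoinRoot.lift t a.1 (hr a)), by rw [spm_comp, AdjoinRoot.lift_comp_of, ht]⟩
  have he : Bijective e := by
    refine ⟨fun a a' haa => Subtype.ext ?_, fun y => ?_⟩
    · have h1 := RingHom.congr_fun (spm_injective (congrArg Subtype.val haa)) (AdjoinRoot.root P)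
      rwa [AdjoinRoot.lift_root, AdjoinRoot.lift_root] at h1
    · obtain ⟨y, hy⟩ := y
      obtain ⟨y0, rfl⟩ := spm_surjective (R := AdjoinRoot P) (S := geoF x) y
      have h1 : y0.comp (AdjoinRoot.of P) = t := spm_injective (by rw [← spm_comp, hy, ht])
      refine ⟨⟨y0 (AdjoinRoot.root P), ?_⟩, Subtype.ext (congrArg spm ?_)⟩
      · rw [Multiset.mem_toFinset, mem_roots h0, IsRoot.def, Polynomial.eval_map, ← h1, ← hom_eval₂,
          AdjoinRoot.eval₂_root, map_zero]
      · exact AdjoinRoot.ringHom_ext (by rw [AdjoinRoot.lift_comp_of, h1]) (AdjoinRoot.lift_root _)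
  have hn : (P.map t).roots.Nodup := by
    refine Multiset.nodup_iff_count_le_one.2 fun a => ?_
    rw [count_roots]
    by_contra hlt
    obtain ⟨h1, h2⟩ := (one_lt_rootMultiplicity_iff_isRoot h0).1 (not_le.1 hlt)
    exact TrC_simple P het t a h1 h2
  refine (finsum_eq_of_bijective (f := fun _ => (1 : ℚ)) e he fun _ => rfl).symm.trans ?_
  rw [finsum_eq_sum_of_fintype, Finset.sum_const, Finset.card_univ, Fintype.card_coe,
    Multiset.toFinset_card_of_nodup hn, IsAlgClosed.card_roots_eq_natDegree, hP.natDegree_map]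
  simp

end Pool.Agent.KEW
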