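import Pool.Agent.P.MP_6277db_ag.KEW.L3.Corr

/-!
Nisnevich local structure of finite cycles: splitting of the support and excision.
-/

noncomputable section

open CategoryTheory Limits AlgebraicGeometry IsLocalRing Function

namespace Pool.Agent.KEW

variable {X Y W : Scheme.{0}} {m : ℕ}

/-- `(W', w')` is an affine etale neighbourhood of `(W, w)` with trivial residue field
extension. -/
structure EtNb {W' W : Scheme.{0}} (g : W' ⟶ W) (w' : W') (w : W) : Prop where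
  aff : IsAffine W'
  etale : Etale g
  eq : g w' = w
  res : IsIso (g.residueFieldMap w')

theorem EtNb.comp {W'' W' : Scheme.{0}} {g' : W'' ⟶ W'} {g : W' ⟶ W} {w'' : W''} {w' : W'} {w : W}
    (h' : EtNb g' w'' w') (h : EtNb g w' w) : EtNb (g' ≫ g) w'' w := by
  obtain ⟨a', e', rfl, r'⟩ := h'
  obtain ⟨a, e, rfl, r⟩ := h
  refine ⟨a', inferInstance, by simp, ?_⟩
  rw [Scheme.residueFieldMap_comp]
  exact IsIso.comp_isIso' r r'

theorem exists_etNb_of_isOpen {V : Set W} (hV : IsOpen V) {w : W} (hw : w ∈ V) :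
    ∃ (W' : Scheme.{0}) (g : W' ⟶ W) (w' : W'), EtNb g w' w ∧ IsOpenImmersion g ∧
      Set.range g ⊆ V := by
  obtain ⟨_, ⟨U, hU, rfl⟩, hwU, hUV⟩ := W.isBasis_affineOpens.exists_subset_of_mem_open hw hV
  refine ⟨Scheme.Opens.toScheme U, Scheme.Opens.ι U, ⟨w, hwU⟩,
    ⟨hU, inferInstance, rfl, inferInstance⟩, inferInstance, ?_⟩
  rw [Scheme.Opens.range_ι]
  exact hUV

theorem LocA_factor {k : Type} [Field k] (t : Spec (.of k) ⟶ W) {w : W} (ht : gen t = w) :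
    ∃ φ : W.residueField w ⟶ .of k, Spec.map φ ≫ W.fromSpecResidueField w = t := by
  have h : t (closedPoint k) = w := by
    rw [← ht]
    exact congrArg t (Subsingleton.elim _ _)
  subst h
  exact ⟨_, Scheme.descResidueField_stalkClosedPointTo_fromSpecResidueField k W t⟩

theorem LocA_gen_res {k : Type} [Field k] {w : W} (φ : W.residueField w ⟶ .of k) :
    gen (Spec.map φ ≫ W.fromSpecResidueField w) = w := by
  rw [gen_comp]
  exact Scheme.fromSpecResidueField_apply _ _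

/-- Geometric points above `w` lift uniquely to geometric points above `w'`. -/
theorem EtNb.existsUnique_lift {W' : Scheme.{0}} {g : W' ⟶ W} {w' : W'} {w : W} (h : EtNb g w' w)
    {k : Type} [Field k] (t : Spec (.of k) ⟶ W) (ht : gen t = w) :
    ∃! t' : Spec (.of k) ⟶ W', t' ≫ g = t ∧ gen t' = w' := by
  obtain ⟨a, e, rfl, r⟩ := h
  obtain ⟨φ, rfl⟩ := LocA_factor t ht
  refine ⟨Spec.map (inv (g.residueFieldMap w') ≫ φ) ≫ W'.fromSpecResidueField w',
    ⟨?_, LocA_gen_res _⟩, ?_⟩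
  · rw [Category.assoc, ← Scheme.Hom.SpecMap_residueFieldMap_fromSpecResidueField,
      ← Spec.map_comp_assoc, IsIso.hom_inv_id_assoc]
  · rintro t' ⟨h1, h2⟩
    obtain ⟨ψ, rfl⟩ := LocA_factor t' h2
    rw [Category.assoc, ← Scheme.Hom.SpecMap_residueFieldMap_fromSpecResidueField,
      ← Spec.map_comp_assoc, cancel_mono, Spec.map_inj] at h1
    rw [← h1, IsIso.inv_hom_id_assoc]

/-- The fibres agree. -/
theorem EtNb.bijOn_fibre {W' X' : Scheme.{0}} {g : W' ⟶ W} {w' : W'} {w : W} (h : EtNb g w' w)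
    {p : X ⟶ W} {p' : X' ⟶ W'} {f : X' ⟶ X} (sq : IsPullback f p' p g) :
    Set.BijOn f (p' ⁻¹' {w'}) (p ⁻¹' {w}) := by
  have hw : ∀ x : X', p (f x) = g (p' x) := fun x => by
    rw [← Scheme.Hom.comp_apply, sq.w, Scheme.Hom.comp_apply]
  refine ⟨fun x hx => ?_, fun x₁ hx₁ x₂ hx₂ he => ?_, fun x hx => ?_⟩
  · have hx' : p' x = w' := hx
    show p (f x) = w
    rw [hw, hx', h.eq]
  · have h1 : p' x₁ = w' := hx₁
    have h2 : p' x₂ = w' := hx₂
    obtain ⟨Om, _, _, j, y, hy, hy2⟩ := exists_ext_lift f (geo x₁ ≫ f) x₂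
      (by rw [gen_comp, gen_geo, he])
    have hg : gen (spm j ≫ geo x₁) = x₁ := by rw [gen_spm_comp j.injective, gen_geo]
    have hu := h.existsUnique_lift (y ≫ f ≫ p)
      (by rw [gen_comp, Scheme.Hom.comp_apply, hw, hy2, h2, h.eq])
    have : y ≫ p' = (spm j ≫ geo x₁) ≫ p' := by
      refine hu.unique ⟨?_, ?_⟩ ⟨?_, ?_⟩
      · rw [Category.assoc, sq.w]
      · rw [gen_comp, hy2, h2]
      · rw [Category.assoc, ← sq.w, reassoc_of% hy, Category.assoc]
      · rw [gen_comp, hg, h1]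
    have hyy : y = spm j ≫ geo x₁ := sq.hom_ext (by rw [hy, Category.assoc]) this
    rw [← hy2, hyy, hg]
  · have hx' : p x = w := hx
    obtain ⟨t', ⟨h1, h2⟩, -⟩ := h.existsUnique_lift (geo x ≫ p) (by rw [gen_comp, gen_geo, hx'])
    refine ⟨gen (sq.lift (geo x) t' h1.symm), ?_, ?_⟩
    · show p' _ = w'
      rw [← gen_comp, sq.lift_snd, h2]
    · rw [← gen_comp, sq.lift_fst, gen_geo]

theorem FinOver.exists_shrink {p : X ⟶ W} {S O : Set X} (h : FinOver p S) (hS : IsClosed S)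
    (hO : IsOpen O) {w : W} (hw : S ∩ p ⁻¹' {w} ⊆ O) :
    ∃ V : Set W, IsOpen V ∧ w ∈ V ∧ S ∩ p ⁻¹' V ⊆ O := by
  have hc : IsClosed (p '' (S \ O)) :=
    (h.mono Set.diff_subset).isClosed_image (hS.sdiff hO)
  refine ⟨(p '' (S \ O))ᶜ, hc.isOpen_compl, ?_, ?_⟩
  · rintro ⟨x, hx, rfl⟩
    exact hx.2 (hw ⟨hx.1, rfl⟩)
  · rintro x ⟨hx, hx'⟩
    by_contra hxO
    exact hx' ⟨x, ⟨hx, hxO⟩, rfl⟩

theorem LocA_res_iso {R R' : Type} [CommRing R] [CommRing R'] [Algebra R R'] (p : Ideal R)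
    (P : Ideal R') [p.IsPrime] [hP : P.IsPrime] [P.LiesOver p]
    (h : Bijective (Ideal.ResidueField.mapₐ p P (Algebra.ofId _ _) (P.over_def p))) :
    IsIso ((Spec.map (CommRingCat.ofHom (algebraMap R R'))).residueFieldMap ⟨P, hP⟩) := by
  obtain rfl : p = P.comap (algebraMap R R') := P.over_def p
  let θ : (P.comap (algebraMap R R')).ResidueField →+* P.ResidueField :=
    Ideal.ResidueField.map _ P (algebraMap R R') rfl
  have hθ : Bijective θ := h
  have : IsIso (CommRingCat.ofHom θ) :=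
    (ConcreteCategory.isIso_iff_bijective _).mpr hθ
  let x : Spec (.of R') := ⟨P, hP⟩
  let φ := Spec.map (CommRingCat.ofHom (algebraMap R R'))
  have key : φ.residueFieldMap x = (Scheme.Spec.residueFieldIso (.of R) (φ x)).hom ≫
      CommRingCat.ofHom θ ≫ (Scheme.Spec.residueFieldIso (.of R') x).inv := by
    rw [← Spec.map_inj, ← cancel_mono ((Spec (.of R)).fromSpecResidueField (φ x)),
      Scheme.Hom.SpecMap_residueFieldMap_fromSpecResidueField,
      ← Scheme.Spec.map_residueFieldIso_inv_eq_fromSpecResidueField,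
      ← Scheme.Spec.map_residueFieldIso_inv_eq_fromSpecResidueField]
    simp only [φ, ← Spec.map_comp, Category.assoc, Iso.inv_hom_id_assoc]
    congr 1
    rw [← Category.assoc, ← Category.assoc]
    congr 1
    ext r
    exact (Ideal.ResidueField.map_algebraMap _ P (algebraMap R R') rfl r).symm
  show IsIso (φ.residueFieldMap x)
  rw [key]
  exact IsIso.comp_isIso' inferInstance (IsIso.comp_isIso' this inferInstance)

theorem LocA_open_res (j : X ⟶ W) [IsOpenImmersion j] (x : X) : IsIso (j.residueFieldMap x) :=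
  inferInstance

theorem LocA_fin_range {X' W' Z : Scheme.{0}} (p' : X' ⟶ W') (j : Z ⟶ X') [IsOpenImmersion j]
    (h : IsFinite (j ≫ p')) : IsFinite (j.opensRange.ι ≫ p') := by
  rw [← MorphismProperty.cancel_left_of_respectsIso @IsFinite j.isoOpensRange.hom]
  simpa [Scheme.Hom.isoOpensRange] using h

open TensorProduct in
theorem LocA_finite_part (p : X ⟶ W) [LocallyOfFiniteType p] (x : X) (hx : p.QuasiFiniteAt x) :
    ∃ (W' : Scheme.{0}) (g : W' ⟶ W) (w' : W'), EtNb g w' (p x) ∧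
      ∀ (X' : Scheme.{0}) (p' : X' ⟶ W') (f : X' ⟶ X), IsPullback f p' p g →
        ∃ (V : X'.Opens) (x' : X'), IsFinite (V.ι ≫ p') ∧ f x' = x ∧
          (V : Set X') ∩ p' ⁻¹' {w'} = {x'} := by
  obtain ⟨_, ⟨U, hU, rfl⟩, hxU, -⟩ := W.isBasis_affineOpens.exists_subset_of_mem_open
    (Set.mem_univ (p x)) isOpen_univ
  obtain ⟨_, ⟨V, hV, rfl⟩, hxV, hUV : V ≤ p ⁻¹ᵁ U⟩ :=
    X.isBasis_affineOpens.exists_subset_of_mem_open hxU (p ⁻¹ᵁ U).2
  have : (p.appLE U V hUV).hom.FiniteType := p.finiteType_appLE hU hV hUV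
  algebraize [(p.appLE U V hUV).hom]
  have : (hV.primeIdealOf ⟨x, hxV⟩).asIdeal.LiesOver (hU.primeIdealOf ⟨p x, hxU⟩).asIdeal := by
    suffices hU.primeIdealOf ⟨p x, hxU⟩ = Spec.map (p.appLE U V hUV) (hV.primeIdealOf ⟨x, hxV⟩) from
      ⟨congr(($this).1)⟩
    apply hU.isoSpec.inv.homeomorph.injective
    apply Subtype.ext
    simp only [IsAffineOpen.primeIdealOf, Scheme.Hom.homeomorph_apply,
      ← Scheme.Hom.comp_apply, ← Scheme.Opens.ι_apply, IsAffineOpen.isoSpec_hom]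
    simp
  have : Algebra.QuasiFiniteAt Γ(W, U) (hV.primeIdealOf ⟨x, hxV⟩).asIdeal :=
    hx.quasiFiniteAt hV hU hUV hxV
  obtain ⟨R, _, _, _, P, hP, _, e, _, P', hP'p, _, hP', heP', hres, hfin, huniq⟩ :=
    Algebra.exists_etale_isIdempotentElem_forall_liesOver_eq
    (hU.primeIdealOf ⟨p x, hxU⟩).asIdeal (hV.primeIdealOf ⟨x, hxV⟩).asIdeal
  have hfin' : (algebraMap R (Localization.Away e)).Finite := RingHom.finite_algebraMap.mpr hfin
  let φ : Γ(W, U) ⟶ .of R := CommRingCat.ofHom <| algebraMap Γ(W, U) R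
  have hφ : φ.hom.Etale := RingHom.etale_algebraMap.mpr ‹_›
  have : Etale (Spec.map φ) := HasRingHomProperty.Spec_iff.mpr hφ
  have hres' : IsIso ((Spec.map φ).residueFieldMap ⟨P, hP⟩) := LocA_res_iso _ P hres
  refine ⟨Spec (.of R), Spec.map φ ≫ hU.fromSpec, ⟨P, hP⟩, ⟨inferInstance, inferInstance, ?_, ?_⟩,
    fun X' p' f sq => ?_⟩
  · rw [Scheme.Hom.comp_apply]
    convert! hU.fromSpec_primeIdealOf ⟨p x, hxU⟩
    exact PrimeSpectrum.ext (Ideal.over_def _ _).symm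
  · rw [Scheme.residueFieldMap_comp]
    exact IsIso.comp_isIso' (LocA_open_res _ _) hres'
  let e₁ : Spec (.of (R ⊗ Γ(X, V))) ≅ pullback (Spec.map (p.appLE U V hUV)) (Spec.map φ) :=
    (pullbackSpecIso _ _ _).symm ≪≫ pullbackSymmetry _ _
  have he₁ : e₁.hom ≫ pullback.fst _ _ =
      Spec.map (CommRingCat.ofHom Algebra.TensorProduct.includeRight.toRingHom) := by
    dsimp [e₁, RingHom.algebraMap_toAlgebra]
    rw [Category.assoc, pullbackSymmetry_hom_comp_fst]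
    exact pullbackSpecIso_inv_snd ..
  have he₂ : e₁.hom ≫ pullback.snd _ _ =
      Spec.map (CommRingCat.ofHom (algebraMap R (R ⊗[Γ(W, U)] Γ(X, V)))) := by
    dsimp [e₁, RingHom.algebraMap_toAlgebra]
    rw [Category.assoc, pullbackSymmetry_hom_comp_snd]
    exact pullbackSpecIso_inv_fst ..
  let G : Spec (.of (R ⊗[Γ(W, U)] Γ(X, V))) ⟶ X' :=
    e₁.hom ≫ pullback.map _ _ _ _ hV.fromSpec (𝟙 _) hU.fromSpec
      (IsAffineOpen.SpecMap_appLE_fromSpec ..) (by simp) ≫ sq.isoPullback.inv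
  have hG : IsOpenImmersion G := inferInstance
  have hG₁ : G ≫ f = Spec.map (CommRingCat.ofHom Algebra.TensorProduct.includeRight.toRingHom) ≫
      hV.fromSpec := by
    simp only [G, Category.assoc, IsPullback.isoPullback_inv_fst, pullback.lift_fst]
    rw [← Category.assoc, he₁]
  have hG₂ : G ≫ p' =
      Spec.map (CommRingCat.ofHom (algebraMap R (R ⊗[Γ(W, U)] Γ(X, V)))) := by
    simp only [G, Category.assoc, IsPullback.isoPullback_inv_snd, pullback.lift_snd,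
      Category.comp_id]
    exact he₂
  let j : Spec (.of (Localization.Away e)) ⟶ X' :=
    Spec.map (CommRingCat.ofHom <| algebraMap _ _) ≫ G
  have hj : IsFinite (j ≫ p') := by
    simp only [j, Category.assoc, hG₂, ← Spec.map_comp, IsFinite.SpecMap_iff]
    rw [IsScalarTower.algebraMap_eq R (R ⊗[Γ(W, U)] Γ(X, V)) (Localization.Away e)] at hfin'
    exact hfin'
  have hr : Set.range j = G '' (PrimeSpectrum.basicOpen e : Set (PrimeSpectrum _)) := by
    simp only [j, Scheme.Hom.comp_base, TopCat.coe_comp, Set.range_comp]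
    congr 1
    exact PrimeSpectrum.localization_away_comap_range _ _
  refine ⟨j.opensRange, G ⟨P', hP'p⟩, LocA_fin_range p' j hj, ?_, ?_⟩
  · rw [← Scheme.Hom.comp_apply, hG₁, Scheme.Hom.comp_apply]
    convert! hV.fromSpec_primeIdealOf ⟨x, hxV⟩
    exact PrimeSpectrum.ext hP'
  · rw [Scheme.Hom.coe_opensRange, hr]
    ext y
    constructor
    · rintro ⟨⟨Q, hQ, rfl⟩, hy⟩
      have hy' : p' (G Q) = ⟨P, hP⟩ := hy
      rw [← Scheme.Hom.comp_apply, hG₂] at hy'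
      have hQP : Q.asIdeal.LiesOver P := ⟨congr(($hy').1).symm⟩
      have : Q = ⟨P', hP'p⟩ := PrimeSpectrum.ext (huniq Q.asIdeal Q.isPrime hQP hQ)
      rw [this]
      rfl
    · rintro rfl
      refine ⟨⟨_, heP', rfl⟩, ?_⟩
      show p' (G _) = _
      rw [← Scheme.Hom.comp_apply, hG₂]
      exact PrimeSpectrum.ext (P'.over_def P).symm

theorem LocA_clopen {Z : Scheme.{0}} (π : Z ⟶ W) [IsFinite π] (w : W) {B : Set Z}
    (hB : B.Finite) (hBw : B ⊆ π ⁻¹' {w}) :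
    ∃ (W' : Scheme.{0}) (g : W' ⟶ W) (w' : W'), EtNb g w' w ∧
      ∀ (Z' : Scheme.{0}) (π' : Z' ⟶ W') (f : Z' ⟶ Z), IsPullback f π' π g →
        ∃ T : Set Z', IsClopen T ∧ ∀ z, π' z = w' → (z ∈ T ↔ f z ∈ B) := by
  induction B, hB using Set.Finite.induction_on with
  | empty =>
    obtain ⟨W', g, w', h, -, -⟩ := exists_etNb_of_isOpen isOpen_univ (Set.mem_univ w)
    exact ⟨W', g, w', h, fun Z' π' f _ => ⟨∅, isClopen_empty, fun z _ => Iff.rfl⟩⟩
  | @insert z B _ _ ih =>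
    obtain ⟨W₁, g₁, w₁, h₁, H₁⟩ := ih ((Set.subset_insert _ _).trans hBw)
    have sq₁ := IsPullback.of_hasPullback π g₁
    obtain ⟨T₁, hT₁, hT₁'⟩ := H₁ _ _ _ sq₁
    obtain ⟨z₁, hz₁, hz₁'⟩ := (h₁.bijOn_fibre sq₁).surjOn (hBw (Set.mem_insert z B))
    have hz₁w : pullback.snd π g₁ z₁ = w₁ := hz₁
    obtain ⟨W₂, g₂, w₂, h₂, H₂⟩ := LocA_finite_part (pullback.snd π g₁) z₁
      ((pullback.snd π g₁).quasiFiniteAt z₁)
    rw [hz₁w] at h₂
    refine ⟨W₂, g₂ ≫ g₁, w₂, h₂.comp h₁, fun Z' π' f sq => ?_⟩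
    have hl₁ := sq₁.lift_fst f (π' ≫ g₂) (by rw [sq.w, Category.assoc])
    have hl₂ := sq₁.lift_snd f (π' ≫ g₂) (by rw [sq.w, Category.assoc])
    generalize sq₁.lift f (π' ≫ g₂) (by rw [sq.w, Category.assoc]) = l at hl₁ hl₂
    have sq₂ : IsPullback l π' (pullback.snd π g₁) g₂ :=
      IsPullback.of_right (by rw [hl₁]; exact sq) hl₂ sq₁
    obtain ⟨V, x', hV, hx', hVx⟩ := H₂ _ _ _ sq₂
    have hπ' : IsFinite π' := MorphismProperty.of_isPullback sq inferInstance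
    have hVι : IsFinite V.ι := .of_comp _ π'
    have hVc : IsClosed (V : Set Z') := by simpa using V.ι.isClosedMap.isClosed_range
    have hfl : ∀ y, pullback.fst π g₁ (l y) = f y := fun y => by
      rw [← Scheme.Hom.comp_apply, hl₁]
    have hx'V : x' ∈ (V : Set Z') ∩ π' ⁻¹' {w₂} := by rw [hVx]; rfl
    have hfx : f x' = z := by rw [← hfl, hx', hz₁']
    refine ⟨l ⁻¹' T₁ ∪ V, (hT₁.preimage l.continuous).union ⟨hVc, V.2⟩, fun y hy => ?_⟩
    have hly : pullback.snd π g₁ (l y) = w₁ := by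
      rw [← Scheme.Hom.comp_apply, hl₂, Scheme.Hom.comp_apply, hy, h₂.eq]
    have e1 : y ∈ l ⁻¹' T₁ ↔ f y ∈ B := by rw [← hfl]; exact hT₁' _ hly
    have e2 : y ∈ (V : Set Z') ↔ f y = z := by
      constructor
      · intro hyV
        have : y ∈ (V : Set Z') ∩ π' ⁻¹' {w₂} := ⟨hyV, hy⟩
        rw [hVx] at this
        rw [show y = x' from this, hfx]
      · intro hyz
        have : y = x' := ((h₂.comp h₁).bijOn_fibre sq).injOn hy hx'V.2 (by rw [hyz, hfx])
        rw [this]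
        exact hx'V.1
    rw [Set.mem_union, e1, e2, Set.mem_insert_iff, or_comm]

/-- Splitting of a closed finite set along a partition of a fibre.
Hint: `FinOver.exists_range`, `Algebra.exists_etale_completeOrthogonalIdempotents_forall_liesOver_eq`
over an affine neighbourhood of `w`, group the idempotents, then shrink to remove `S₁ ∩ S₂` and the
parts outside `O₁`, `O₂`. -/
theorem FinOver.exists_split {p : X ⟶ W} [IsSeparated p] {S : Set X} (h : FinOver p S)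
    (hS : IsClosed S) (w : W) (A : Set X) {O₁ O₂ : Set X} (h₁ : IsOpen O₁) (h₂ : IsOpen O₂)
    (hA₁ : S ∩ p ⁻¹' {w} ∩ A ⊆ O₁) (hA₂ : (S ∩ p ⁻¹' {w}) \ A ⊆ O₂) :
    ∃ (W' : Scheme.{0}) (g : W' ⟶ W) (w' : W'), EtNb g w' w ∧
      ∀ (X' : Scheme.{0}) (p' : X' ⟶ W') (f : X' ⟶ X), IsPullback f p' p g →
        ∃ S₁ S₂ : Set X', IsClosed S₁ ∧ IsClosed S₂ ∧ Disjoint S₁ S₂ ∧ S₁ ∪ S₂ = f ⁻¹' S ∧
          S₁ ⊆ f ⁻¹' O₁ ∧ S₂ ⊆ f ⁻¹' O₂ ∧ (∀ x ∈ S₁, p' x = w' → f x ∈ A) ∧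
          ∀ x ∈ S₂, p' x = w' → f x ∉ A := by
  obtain ⟨Z, i, hi, hr⟩ := h.exists_range
  rw [hS.closure_eq] at hr
  obtain ⟨W₁, g₁, w₁, hg₁, H₁⟩ := LocA_clopen (i ≫ p) w (B := i ⁻¹' A ∩ (i ≫ p) ⁻¹' {w})
    (((i ≫ p).finite_preimage_singleton w).subset Set.inter_subset_right) Set.inter_subset_right
  have sq₁ := IsPullback.of_hasPullback p g₁
  have sqi := IsPullback.of_hasPullback i (pullback.fst p g₁)
  have hri : Set.range (pullback.snd i (pullback.fst p g₁)) = pullback.fst p g₁ ⁻¹' S := by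
    rw [Scheme.Pullback.range_snd, hr]
  generalize pullback.fst i (pullback.fst p g₁) = fZ at sqi
  generalize pullback.snd i (pullback.fst p g₁) = i₁ at sqi hri
  generalize pullback i (pullback.fst p g₁) = Z₁ at fZ i₁ sqi hri
  generalize pullback.fst p g₁ = f₁ at sq₁ sqi hri
  generalize pullback.snd p g₁ = p₁ at sq₁
  generalize pullback p g₁ = X₁ at f₁ p₁ i₁ sq₁ sqi hri
  have sqZ : IsPullback fZ (i₁ ≫ p₁) (i ≫ p) g₁ := sqi.paste_vert sq₁
  obtain ⟨T, hT, hT'⟩ := H₁ _ _ _ sqZ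
  have hp₁ : IsSeparated p₁ := MorphismProperty.of_isPullback sq₁ inferInstance
  have hfin : IsFinite (i₁ ≫ p₁) := MorphismProperty.of_isPullback sqZ hi
  have hc₁ : IsClosed (i₁ '' T) := (FinOver.of_isFinite (i₁ ≫ p₁) T).isClosed_image' hT.isClosed
  have hc₂ : IsClosed (i₁ '' Tᶜ) :=
    (FinOver.of_isFinite (i₁ ≫ p₁) Tᶜ).isClosed_image' hT.compl.isClosed
  have hun : i₁ '' T ∪ i₁ '' Tᶜ = f₁ ⁻¹' S := by
    rw [← Set.image_union, Set.union_compl_self, Set.image_univ, hri]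
  have hfi : ∀ y, f₁ (i₁ y) = i (fZ y) := fun y => by
    rw [← Scheme.Hom.comp_apply, ← sqi.w, Scheme.Hom.comp_apply]
  have hpf : ∀ x, p₁ x = w₁ → p (f₁ x) = w := fun x hx => (hg₁.bijOn_fibre sq₁).mapsTo hx
  have hA₁' : ∀ x ∈ i₁ '' T, p₁ x = w₁ → f₁ x ∈ A := by
    rintro _ ⟨y, hy, rfl⟩ hw
    rw [hfi]
    exact ((hT' y (by rw [Scheme.Hom.comp_apply, hw])).1 hy).1
  have hA₂' : ∀ x ∈ i₁ '' Tᶜ, p₁ x = w₁ → f₁ x ∉ A := by
    rintro _ ⟨y, hy, rfl⟩ hw hA
    refine hy ((hT' y (by rw [Scheme.Hom.comp_apply, hw])).2 ⟨?_, ?_⟩)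
    · rw [hfi] at hA
      exact hA
    · show (i ≫ p) (fZ y) = w
      rw [Scheme.Hom.comp_apply, ← hfi]
      exact hpf _ hw
  have hS₁ : i₁ '' T ⊆ f₁ ⁻¹' S := hun ▸ Set.subset_union_left
  have hS₂ : i₁ '' Tᶜ ⊆ f₁ ⁻¹' S := hun ▸ Set.subset_union_right
  have hF : FinOver p₁ (f₁ ⁻¹' S) := FinOver.pull sq₁ h
  obtain ⟨V₁, hV₁, hw₁, hV₁'⟩ := (hF.mono hS₁).exists_shrink hc₁
    ((h₁.preimage f₁.continuous).inter hc₂.isOpen_compl) (w := w₁) (by
      rintro x ⟨hx, hxw⟩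
      exact ⟨hA₁ ⟨⟨hS₁ hx, hpf x hxw⟩, hA₁' x hx hxw⟩, fun hx2 => hA₂' x hx2 hxw (hA₁' x hx hxw)⟩)
  obtain ⟨V₂, hV₂, hw₂, hV₂'⟩ := (hF.mono hS₂).exists_shrink hc₂
    (h₂.preimage f₁.continuous) (w := w₁) (by
      rintro x ⟨hx, hxw⟩
      exact hA₂ ⟨⟨hS₂ hx, hpf x hxw⟩, hA₂' x hx hxw⟩)
  obtain ⟨W₂, g₂, w₂, hg₂, -, hrg⟩ := exists_etNb_of_isOpen (hV₁.inter hV₂) ⟨hw₁, hw₂⟩
  refine ⟨W₂, g₂ ≫ g₁, w₂, hg₂.comp hg₁, fun X' p' f sq => ?_⟩
  have hl₁ := sq₁.lift_fst f (p' ≫ g₂) (by rw [sq.w, Category.assoc])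
  have hl₂ := sq₁.lift_snd f (p' ≫ g₂) (by rw [sq.w, Category.assoc])
  generalize sq₁.lift f (p' ≫ g₂) (by rw [sq.w, Category.assoc]) = l at hl₁ hl₂
  have hfl : ∀ y, f₁ (l y) = f y := fun y => by rw [← Scheme.Hom.comp_apply, hl₁]
  have hpl : ∀ y, p₁ (l y) = g₂ (p' y) := fun y => by
    rw [← Scheme.Hom.comp_apply, hl₂, Scheme.Hom.comp_apply]
  have hV : ∀ y, p₁ (l y) ∈ V₁ ∩ V₂ := fun y => hrg ⟨_, (hpl y).symm⟩
  refine ⟨l ⁻¹' (i₁ '' T), l ⁻¹' (i₁ '' Tᶜ), hc₁.preimage l.continuous, hc₂.preimage l.continuous,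
    ?_, ?_, fun y hy => ?_, fun y hy => ?_, fun y hy hw => ?_, fun y hy hw => ?_⟩
  · exact Set.disjoint_left.2 fun y hy hy' => (hV₁' ⟨hy, (hV y).1⟩).2 hy'
  · rw [← Set.preimage_union, hun]
    ext y
    simp only [Set.mem_preimage, hfl]
  · have := (hV₁' ⟨hy, (hV y).1⟩).1
    rwa [Set.mem_preimage, hfl] at this
  · have := hV₂' ⟨hy, (hV y).2⟩
    rwa [Set.mem_preimage, hfl] at this
  · rw [← hfl]
    exact hA₁' _ hy (by rw [hpl, hw, hg₂.eq])
  · rw [← hfl]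
    exact hA₂' _ hy (by rw [hpl, hw, hg₂.eq])

/-- Splitting of a cycle. -/
theorem Cyc.exists_split {p : X ⟶ W} [IsSeparated p] (c : Cyc m p) (w : W) (A : Set X)
    {O₁ O₂ : Set X} (h₁ : IsOpen O₁) (h₂ : IsOpen O₂)
    (hA₁ : closure (support c.1) ∩ p ⁻¹' {w} ∩ A ⊆ O₁)
    (hA₂ : (closure (support c.1) ∩ p ⁻¹' {w}) \ A ⊆ O₂) :
    ∃ (W' : Scheme.{0}) (g : W' ⟶ W) (w' : W'), EtNb g w' w ∧
      ∀ (X' : Scheme.{0}) (p' : X' ⟶ W') [IsSeparated p'] (f : X' ⟶ X)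
        (sq : IsPullback f p' p g), ∃ c₁ c₂ : Cyc m p', Cyc.pull m sq c = c₁ + c₂ ∧
          closure (support c₁.1) ⊆ f ⁻¹' (O₁ ∩ closure (support c.1)) ∧
          closure (support c₂.1) ⊆ f ⁻¹' (O₂ ∩ closure (support c.1)) ∧
          (∀ x ∈ closure (support c₁.1), p' x = w' → f x ∈ A) ∧
          ∀ x ∈ closure (support c₂.1), p' x = w' → f x ∉ A := by
  obtain ⟨W', g, w', hg, H⟩ := (FinOver.closure c.2.2.2).exists_split isClosed_closure w A h₁ h₂
    hA₁ hA₂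
  refine ⟨W', g, w', hg, fun X' p' _ f sq => ?_⟩
  obtain ⟨S₁, S₂, hc₁, hc₂, hd, hun, hO₁, hO₂, hA₁', hA₂'⟩ := H X' p' f sq
  have hs : support (Cyc.pull m sq c).1 ⊆ S₁ ∪ S₂ := by
    rw [hun]
    exact fun x hx => subset_closure hx
  have hS₁ : S₁ ⊆ f ⁻¹' closure (support c.1) := hun ▸ Set.subset_union_left
  have hS₂ : S₂ ⊆ f ⁻¹' closure (support c.1) := hun ▸ Set.subset_union_right
  have k₁ : closure (support (S₁.indicator (Cyc.pull m sq c).1)) ⊆ S₁ :=
    closure_minimal (Set.support_indicator_subset) hc₁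
  have k₂ : closure (support (S₂.indicator (Cyc.pull m sq c).1)) ⊆ S₂ :=
    closure_minimal (Set.support_indicator_subset) hc₂
  refine ⟨⟨_, Cyc.indicator_mem (Cyc.pull m sq c).2 hc₁ hc₂ hd hs⟩,
    ⟨_, Cyc.indicator_mem (Cyc.pull m sq c).2 hc₂ hc₁ hd.symm (by rwa [Set.union_comm])⟩, ?_,
    fun x hx => ⟨hO₁ (k₁ hx), hS₁ (k₁ hx)⟩, fun x hx => ⟨hO₂ (k₂ hx), hS₂ (k₂ hx)⟩,
    fun x hx => hA₁' x (k₁ hx), fun x hx => hA₂' x (k₂ hx)⟩
  refine Subtype.ext ?_
  show _ = S₁.indicator (Cyc.pull m sq c).1 + S₂.indicator (Cyc.pull m sq c).1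
  have := Set.indicator_union_of_disjoint hd (Cyc.pull m sq c).1
  rw [Set.indicator_eq_self.2 hs] at this
  exact this

/-- A quasi-finite point has, etale locally on the base, an open neighbourhood that is finite
over the base and meets the fibre only in the point.
Hint: copy the proof of `exists_etale_isCompl_of_quasiFiniteAt`, keeping the residue field and
the uniqueness statements of `Algebra.exists_etale_isIdempotentElem_forall_liesOver_eq`. -/
theorem exists_finite_part (p : X ⟶ W) [LocallyOfFiniteType p] (x : X) (hx : p.QuasiFiniteAt x) :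
    ∃ (W' : Scheme.{0}) (g : W' ⟶ W) (w' : W'), EtNb g w' (p x) ∧
      ∀ (X' : Scheme.{0}) (p' : X' ⟶ W') (f : X' ⟶ X), IsPullback f p' p g →
        ∃ (V : X'.Opens) (x' : X'), IsFinite (V.ι ≫ p') ∧ f x' = x ∧
          (V : Set X') ∩ p' ⁻¹' {w'} = {x'} := by
  exact LocA_finite_part p x hx

theorem LocB_lqf (φ : X ⟶ Y) [Etale φ] : LocallyQuasiFinite φ := by
  refine ⟨fun {U} hU {V} hV e => ?_⟩
  have h := φ.etale_appLE hU hV e
  algebraize [(φ.appLE U V e).hom]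
  exact (inferInstance : Algebra.QuasiFinite Γ(Y, U) Γ(X, V))

theorem LocB_factor {k : Type} [Field k] (a : Spec (.of k) ⟶ Y) {y : Y} (ha : gen a = y) :
    ∃ α : Y.residueField y ⟶ .of k, Spec.map α ≫ Y.fromSpecResidueField y = a := by
  obtain ⟨⟨x, α⟩, rfl⟩ := (Scheme.SpecToEquivOfField k Y).symm.surjective a
  have hx : x = y := by
    rw [← ha]
    exact (Scheme.fromSpecResidueField_apply x _).symm
  subst hx
  exact ⟨α, rfl⟩

theorem LocB_res_ext (q : Y ⟶ X) (y : Y) [IsIso (q.residueFieldMap y)] {k : Type} [Field k]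
    {a b : Spec (.of k) ⟶ Y} (ha : gen a = y) (hb : gen b = y) (h : a ≫ q = b ≫ q) : a = b := by
  obtain ⟨α, rfl⟩ := LocB_factor a ha
  obtain ⟨β, rfl⟩ := LocB_factor b hb
  rw [Category.assoc, Category.assoc, ← Scheme.Hom.SpecMap_residueFieldMap_fromSpecResidueField,
    ← Category.assoc, ← Category.assoc, cancel_mono, ← Spec.map_comp, ← Spec.map_comp,
    Spec.map_inj, cancel_epi] at h
  rw [h]

/-- An etale map of finite schemes that is bijective on the geometric points of one fibre is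
bijective on the geometric points of the fibres nearby. -/
theorem LocB_key {V Z : Scheme.{0}} (φ : V ⟶ Z) [Etale φ] (π : Z ⟶ W) [IsFinite π]
    [IsFinite (φ ≫ π)] (w : W) (h1 : ∀ t : Z, π t = w → t ∈ Set.range φ)
    (h2 : ∀ (Om : Type) [Field Om] [IsAlgClosed Om] (a b : Spec (.of Om) ⟶ V), a ≫ φ = b ≫ φ →
      π (φ (gen a)) = w → a = b) :
    ∃ U : Set W, IsOpen U ∧ w ∈ U ∧ ∀ (Om : Type) [Field Om] [IsAlgClosed Om]
      (z : Spec (.of Om) ⟶ Z), π (gen z) ∈ U → ∃! z' : Spec (.of Om) ⟶ V, z' ≫ φ = z := by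
  have hφ : IsFinite φ := IsFinite.of_comp φ π
  have c1 : IsClosed (π '' (Set.range φ)ᶜ) :=
    π.isClosedMap _ φ.isOpenMap.isOpen_range.isClosed_compl
  have c2 : IsClosed ((pullback.fst φ φ ≫ φ ≫ π) '' (Set.range (pullback.diagonal φ))ᶜ) :=
    (pullback.fst φ φ ≫ φ ≫ π).isClosedMap _
      (pullback.diagonal φ).isOpenEmbedding.isOpen_range.isClosed_compl
  refine ⟨_, (c1.union c2).isOpen_compl, ?_, ?_⟩
  · rintro (⟨t, ht, hw⟩ | ⟨t, ht, hw⟩)
    · exact ht (h1 t hw)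
    · apply ht
      have e : geo t ≫ pullback.fst φ φ = geo t ≫ pullback.snd φ φ := by
        apply h2
        · rw [Category.assoc, Category.assoc, pullback.condition]
        · rw [gen_comp, gen_geo, ← hw, Scheme.Hom.comp_apply, Scheme.Hom.comp_apply]
      have e' : (geo t ≫ pullback.fst φ φ) ≫ pullback.diagonal φ = geo t := by
        apply pullback.hom_ext
        · rw [Category.assoc, pullback.diagonal_fst, Category.comp_id]
        · rw [Category.assoc, pullback.diagonal_snd, Category.comp_id, e]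
      exact ⟨gen (geo t ≫ pullback.fst φ φ), by rw [← gen_comp, e', gen_geo]⟩
  · intro Om _ _ z hz
    have hz1 : gen z ∈ Set.range φ := by
      by_contra hn
      exact hz (Or.inl ⟨_, hn, rfl⟩)
    obtain ⟨v, hv⟩ := hz1
    obtain ⟨a, ha, -⟩ := (GFin.of_locallyQuasiFinite φ Set.univ).lift z (Set.mem_univ v) hv
    refine ⟨a, ha, fun b hb => ?_⟩
    have hab : b ≫ φ = a ≫ φ := hb.trans ha.symm
    have hd : gen (pullback.lift b a hab) ∈ Set.range (pullback.diagonal φ) := by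
      by_contra hn
      refine hz (Or.inr ⟨_, hn, ?_⟩)
      rw [← gen_comp, pullback.lift_fst_assoc, ← Category.assoc, hb, gen_comp]
    obtain ⟨d, hd'⟩ := lift_immersion_field (pullback.diagonal φ) _ hd
    have e1 : d = b := by
      rw [← pullback.lift_fst b a hab, ← hd', Category.assoc, pullback.diagonal_fst,
        Category.comp_id]
    have e2 : d = a := by
      rw [← pullback.lift_snd b a hab, ← hd', Category.assoc, pullback.diagonal_snd,
        Category.comp_id]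
    rw [← e1, e2]

/-- Lifting of a finite set with one point in the fibre along an etale map that is an isomorphism
on the residue field at that point. Hint: `FinOver.exists_closed`, `exists_finite_part` for the
preimage of the closed subscheme, then shrink twice: the complement of the image of `V` and the
complement of the diagonal in `V ×_X V` are closed, finite over the base and miss the fibre. -/
theorem FinOver.exists_lift {p : X ⟶ W} [IsSeparated p] [LocallyOfFiniteType p] (q : Y ⟶ X)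
    [Etale q] [IsSeparated q] {S : Set X} (h : FinOver p S) (hS : IsClosed S) (y : Y)
    (hy : S ∩ p ⁻¹' {p (q y)} = {q y}) [IsIso (q.residueFieldMap y)] :
    ∃ (W' : Scheme.{0}) (g : W' ⟶ W) (w' : W'), EtNb g w' (p (q y)) ∧
      ∀ (X' Y' : Scheme.{0}) (p' : X' ⟶ W') (f : X' ⟶ X) (q' : Y' ⟶ X') (f' : Y' ⟶ Y),
        IsPullback f p' p g → IsPullback f' q' q f →
        ∃ V V' : Set Y', IsClosed V ∧ IsClosed V' ∧ Disjoint V V' ∧
          V ∪ V' = q' ⁻¹' (f ⁻¹' S) ∧ FinOver (q' ≫ p') V ∧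
          ∀ (Om : Type) [Field Om] [IsAlgClosed Om] (z : Spec (.of Om) ⟶ X'), gen z ∈ f ⁻¹' S →
            ∃! z' : Spec (.of Om) ⟶ Y', z' ≫ q' = z ∧ gen z' ∈ V := by
  obtain ⟨Z, i, hi, hfin, hr⟩ := h.exists_closed
  rw [hS.closure_eq] at hr
  have hinj : Function.Injective i := i.isClosedEmbedding.injective
  have hyS : q y ∈ S ∩ p ⁻¹' {p (q y)} := by
    rw [hy]
    rfl
  obtain ⟨ZY, qZ, iY, sq0⟩ : ∃ (ZY : Scheme.{0}) (qZ : ZY ⟶ Z) (iY : ZY ⟶ Y),
      IsPullback qZ iY i q := ⟨_, _, _, IsPullback.of_hasPullback i q⟩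
  have hqZ : Etale qZ := MorphismProperty.of_isPullback (P := @Etale) sq0.flip ‹_›
  have hqZ' : IsSeparated qZ := MorphismProperty.of_isPullback (P := @IsSeparated) sq0.flip ‹_›
  have hiY : IsClosedImmersion iY :=
    MorphismProperty.of_isPullback (P := @IsClosedImmersion) sq0 ‹_›
  have hrY : Set.range iY = q ⁻¹' S := by
    rw [← hr, ← Scheme.Pullback.range_snd, ← sq0.isoPullback_hom_snd, Scheme.Hom.comp_base,
      TopCat.coe_comp]
    exact Function.Surjective.range_comp sq0.isoPullback.hom.homeomorph.surjective _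
  obtain ⟨y0, hy0⟩ : y ∈ Set.range iY := by
    rw [hrY]
    exact hyS.1
  have hlq : LocallyQuasiFinite qZ := LocB_lqf qZ
  have hz0 : i (qZ y0) = q y := by
    rw [← Scheme.Hom.comp_apply, sq0.w, Scheme.Hom.comp_apply, hy0]
  have hw0 : (qZ ≫ i ≫ p) y0 = p (q y) := by
    rw [Scheme.Hom.comp_apply, Scheme.Hom.comp_apply, hz0]
  obtain ⟨W1, g1, w1, hg1, H1⟩ := exists_finite_part (qZ ≫ i ≫ p) y0
    ((qZ ≫ i ≫ p).quasiFiniteAt y0)
  rw [hw0] at hg1
  obtain ⟨Z1, a, π, sqa⟩ : ∃ (Z1 : Scheme.{0}) (a : Z1 ⟶ Z) (π : Z1 ⟶ W1),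
      IsPullback a π (i ≫ p) g1 := ⟨_, _, _, IsPullback.of_hasPullback _ _⟩
  obtain ⟨ZY1, b, φ0, sqb⟩ : ∃ (ZY1 : Scheme.{0}) (b : ZY1 ⟶ ZY) (φ0 : ZY1 ⟶ Z1),
      IsPullback b φ0 qZ a := ⟨_, _, _, IsPullback.of_hasPullback _ _⟩
  have hπ : IsFinite π := MorphismProperty.of_isPullback (P := @IsFinite) sqa ‹_›
  have hφ0 : Etale φ0 := MorphismProperty.of_isPullback (P := @Etale) sqb ‹_›
  have hφ0' : IsSeparated φ0 := MorphismProperty.of_isPullback (P := @IsSeparated) sqb ‹_›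
  have sq1 : IsPullback b (φ0 ≫ π) (qZ ≫ i ≫ p) g1 := sqb.paste_vert sqa
  obtain ⟨V1, y1, hV1, hy1, hfib⟩ := H1 ZY1 (φ0 ≫ π) b sq1
  have hy1' : y1 ∈ (V1 : Set ZY1) ∩ (φ0 ≫ π) ⁻¹' {w1} := by
    rw [hfib]
    rfl
  have hV1' : IsFinite ((V1.ι ≫ φ0) ≫ π) := by rwa [Category.assoc]
  obtain ⟨U, hU, hwU, HU⟩ := LocB_key (V1.ι ≫ φ0) π w1 (by
    intro t ht
    have h1 : i (a t) ∈ S ∩ p ⁻¹' {p (q y)} := by
      refine ⟨hr ▸ Set.mem_range_self _, ?_⟩
      change p (i (a t)) = p (q y)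
      rw [← Scheme.Hom.comp_apply i p, ← Scheme.Hom.comp_apply a, sqa.w, Scheme.Hom.comp_apply, ht,
        hg1.eq]
    rw [hy, Set.mem_singleton_iff, ← hz0] at h1
    have h2 : π (φ0 y1) = w1 := by
      rw [← Scheme.Hom.comp_apply]
      exact hy1'.2
    have h3 : a (φ0 y1) = a t := by
      rw [hinj h1, ← Scheme.Hom.comp_apply, ← sqb.w, Scheme.Hom.comp_apply, hy1]
    obtain ⟨v1, hv1⟩ : y1 ∈ Set.range V1.ι := by
      rw [Scheme.Opens.range_ι]
      exact hy1'.1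
    refine ⟨v1, ?_⟩
    rw [Scheme.Hom.comp_apply, hv1]
    exact (hg1.bijOn_fibre sqa).injOn h2 ht h3) (by
    intro Om _ _ a' b' hab hw
    have key : ∀ c : Spec (.of Om) ⟶ V1, π ((V1.ι ≫ φ0) (gen c)) = w1 →
        gen (c ≫ V1.ι ≫ b ≫ iY) = y := by
      intro c hc
      have h1 : V1.ι (gen c) ∈ (V1 : Set ZY1) ∩ (φ0 ≫ π) ⁻¹' {w1} := by
        refine ⟨(gen c).2, ?_⟩
        change (φ0 ≫ π) (V1.ι (gen c)) = w1
        rw [← hc, Scheme.Hom.comp_apply, Scheme.Hom.comp_apply]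
      rw [hfib, Set.mem_singleton_iff] at h1
      rw [gen_comp, Scheme.Hom.comp_apply, Scheme.Hom.comp_apply, h1, hy1, hy0]
    have hw' : π ((V1.ι ≫ φ0) (gen b')) = w1 := by
      rw [← gen_comp, ← hab, gen_comp, hw]
    have h2 : a' ≫ V1.ι ≫ b ≫ iY = b' ≫ V1.ι ≫ b ≫ iY := by
      apply LocB_res_ext q y (key a' hw) (key b' hw')
      simp only [Category.assoc] at hab ⊢
      rw [← sq0.w, reassoc_of% sqb.w, reassoc_of% hab]
    rw [← cancel_mono V1.ι]
    apply sqb.hom_ext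
    · rw [← cancel_mono iY]
      simpa only [Category.assoc] using h2
    · simpa only [Category.assoc] using hab)
  obtain ⟨W2, g2, w2, hg2, -, hrU⟩ := exists_etNb_of_isOpen hU hwU
  refine ⟨W2, g2 ≫ g1, w2, hg2.comp hg1, ?_⟩
  intro X' Y' p' f q' f' sX sY
  obtain ⟨ZY', c, iY', sqc⟩ : ∃ (ZY' : Scheme.{0}) (c : ZY' ⟶ ZY) (iY' : ZY' ⟶ Y'),
      IsPullback c iY' iY f' := ⟨_, _, _, IsPullback.of_hasPullback _ _⟩
  have hiY' : IsClosedImmersion iY' :=
    MorphismProperty.of_isPullback (P := @IsClosedImmersion) sqc ‹_›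
  have hinj' : Function.Injective iY' := iY'.isClosedEmbedding.injective
  have hrY' : Set.range iY' = q' ⁻¹' (f ⁻¹' S) := by
    have h1 : Set.range iY' = f' ⁻¹' Set.range iY := by
      rw [← Scheme.Pullback.range_snd, ← sqc.isoPullback_hom_snd, Scheme.Hom.comp_base,
        TopCat.coe_comp]
      exact Function.Surjective.range_comp sqc.isoPullback.hom.homeomorph.surjective _
    rw [h1, hrY]
    ext t
    simp only [Set.mem_preimage]
    rw [← Scheme.Hom.comp_apply, sY.w, Scheme.Hom.comp_apply]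
  have big : IsPullback c (iY' ≫ q' ≫ p') (qZ ≫ i ≫ p) (g2 ≫ g1) := by
    rw [reassoc_of% sq0.w]
    exact sqc.paste_vert (sY.paste_vert sX)
  obtain ⟨e, he1, he2⟩ : ∃ e : ZY' ⟶ ZY1, e ≫ b = c ∧ e ≫ φ0 ≫ π = (iY' ≫ q' ≫ p') ≫ g2 :=
    ⟨sq1.lift c ((iY' ≫ q' ≫ p') ≫ g2) (by rw [big.w, Category.assoc _ g2]), sq1.lift_fst _ _ _,
      sq1.lift_snd _ _ _⟩
  have sqe : IsPullback e (iY' ≫ q' ≫ p') (φ0 ≫ π) g2 :=
    IsPullback.of_right (by rw [he1]; exact big) he2 sq1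
  have hVc : IsClosed (V1 : Set ZY1) := by
    have h1 : IsFinite V1.ι := IsFinite.of_comp V1.ι (φ0 ≫ π)
    rw [← Scheme.Opens.range_ι]
    exact V1.ι.isClosedMap.isClosed_range
  have hcomp : e ≫ φ0 ≫ a ≫ i = iY' ≫ q' ≫ f := by
    rw [← reassoc_of% sqb.w, reassoc_of% he1, sq0.w, reassoc_of% sqc.w, sY.w]
  refine ⟨iY' '' (e ⁻¹' V1), iY' '' (e ⁻¹' V1)ᶜ,
    iY'.isClosedEmbedding.isClosedMap _ (hVc.preimage e.continuous),
    iY'.isClosedEmbedding.isClosedMap _ (V1.isOpen.preimage e.continuous).isClosed_compl,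
    Set.disjoint_image_of_injective hinj' disjoint_compl_right, ?_, ?_, ?_⟩
  · rw [← Set.image_union, Set.union_compl_self, Set.image_univ, hrY']
  · apply FinOver.image
    apply FinOver.pull sqe
    exact ⟨V1, V1.ι, hV1, by rw [Scheme.Opens.range_ι]⟩
  · intro Om _ _ z hz
    obtain ⟨zZ, hzZ⟩ := lift_closed i (z ≫ f) (by rw [gen_comp, hr]; exact hz)
    obtain ⟨z1, hz1, hz2⟩ : ∃ z1 : Spec (.of Om) ⟶ Z1, z1 ≫ a = zZ ∧ z1 ≫ π = z ≫ p' ≫ g2 :=
      ⟨sqa.lift zZ (z ≫ p' ≫ g2) (by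
        rw [reassoc_of% hzZ, sX.w]
        simp only [Category.assoc]), sqa.lift_fst _ _ _, sqa.lift_snd _ _ _⟩
    obtain ⟨v, hv, hv'⟩ := HU Om z1 (by
      rw [← gen_comp, hz2, ← Category.assoc, gen_comp]
      exact hrU (Set.mem_range_self _))
    rw [← Category.assoc] at hv
    obtain ⟨u, hu1, hu2⟩ : ∃ u : Spec (.of Om) ⟶ ZY', u ≫ e = v ≫ V1.ι ∧
        u ≫ iY' ≫ q' ≫ p' = z ≫ p' :=
      ⟨sqe.lift (v ≫ V1.ι) (z ≫ p') (by rw [Category.assoc, reassoc_of% hv, hz2, Category.assoc]),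
        sqe.lift_fst _ _ _, sqe.lift_snd _ _ _⟩
    refine ⟨u ≫ iY', ⟨?_, ?_⟩, ?_⟩
    · apply sX.hom_ext
      · simp only [Category.assoc]
        rw [← hcomp, reassoc_of% hu1, reassoc_of% hv, reassoc_of% hz1, hzZ]
      · simpa only [Category.assoc] using hu2
    · refine ⟨gen u, ?_, (gen_comp u iY').symm⟩
      change e (gen u) ∈ V1
      rw [← gen_comp, hu1, gen_comp]
      exact (gen v).2
    · rintro z' ⟨hz', t, ht, htz⟩
      obtain ⟨u', hu'⟩ := lift_closed iY' z' ⟨t, htz⟩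
      have hgu : gen u' = t := hinj' (by rw [← gen_comp, hu', htz])
      obtain ⟨v', hv1⟩ := lift_immersion_field V1.ι (u' ≫ e) (by
        rw [Scheme.Opens.range_ι, gen_comp, hgu]
        exact ht)
      have hvv : v' = v := by
        apply hv'
        apply sqa.hom_ext
        · rw [← cancel_mono i]
          simp only [Category.assoc]
          rw [reassoc_of% hv1, hcomp, reassoc_of% hu', reassoc_of% hz', reassoc_of% hz1, hzZ]
        · simp only [Category.assoc]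
          rw [reassoc_of% hv1, he2, hz2]
          simp only [Category.assoc]
          rw [reassoc_of% hu', reassoc_of% hz']
      have huu : u' = u := by
        apply sqe.hom_ext
        · rw [hu1, ← hv1, hvv]
        · rw [hu2, reassoc_of% hu', reassoc_of% hz']
      rw [← hu', huu]

/-- A section over the residue field gives a point with trivial residue field extension. -/
theorem LocC_res (q : Y ⟶ X) (x : X) (s : Spec (X.residueField x) ⟶ Y)
    (hs : s ≫ q = X.fromSpecResidueField x) :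
    ∃ y : Y, q y = x ∧ IsIso (q.residueFieldMap y) := by
  obtain ⟨y, φ, rfl⟩ : ∃ (y : Y) (φ : Y.residueField y ⟶ X.residueField x),
      Spec.map φ ≫ Y.fromSpecResidueField y = s := by
    obtain ⟨⟨y, φ⟩, h⟩ := (Scheme.SpecToEquivOfField (X.residueField x) Y).symm.surjective s
    exact ⟨y, φ, h⟩
  have h1 : q y = x := by
    obtain ⟨a⟩ : Nonempty (Spec (X.residueField x)) := inferInstance
    have h2 := congrArg (fun t : Spec (X.residueField x) ⟶ X => t a) hs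
    simpa only [Scheme.Hom.comp_apply, Scheme.fromSpecResidueField_apply] using h2
  subst h1
  refine ⟨y, rfl, ?_⟩
  rw [Category.assoc, ← Scheme.Hom.SpecMap_residueFieldMap_fromSpecResidueField,
    ← Category.assoc, ← Spec.map_comp] at hs
  have h3 : q.residueFieldMap y ≫ φ = 𝟙 _ := by
    apply Spec.map_injective
    rw [Spec.map_id, ← cancel_mono (X.fromSpecResidueField (q y)), hs, Category.id_comp]
  refine ⟨φ, h3, ?_⟩
  ext a
  apply φ.hom.injective
  exact congrArg (fun t : X.residueField (q y) ⟶ X.residueField (q y) => t (φ a)) h3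

/-- Points with trivial residue field extension are stable under base change. -/
theorem LocC_res_pull {X' Y' : Scheme.{0}} {q : Y ⟶ X} {f : X' ⟶ X} {q' : Y' ⟶ X'} {f' : Y' ⟶ Y}
    (sq : IsPullback f' q' q f) (x : X') (h : ∃ y : Y, q y = f x ∧ IsIso (q.residueFieldMap y)) :
    ∃ y : Y', q' y = x ∧ IsIso (q'.residueFieldMap y) := by
  obtain ⟨y, hy, _⟩ := h
  refine LocC_res q' x (sq.lift (Spec.map (inv (q.residueFieldMap y) ≫
    (X.residueFieldCongr hy).hom ≫ f.residueFieldMap x) ≫ Y.fromSpecResidueField y)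
    (X'.fromSpecResidueField x) ?_) (sq.lift_snd _ _ _)
  rw [Category.assoc, ← Scheme.Hom.SpecMap_residueFieldMap_fromSpecResidueField,
    ← Spec.map_comp_assoc, IsIso.hom_inv_id_assoc, Spec.map_comp, Category.assoc,
    Scheme.residueFieldCongr_fromSpecResidueField,
    Scheme.Hom.SpecMap_residueFieldMap_fromSpecResidueField]

theorem LocC_over {X' W' : Scheme.{0}} {f : X' ⟶ X} {p' : X' ⟶ W'} {p : X ⟶ W} {g : W' ⟶ W}
    (w : f ≫ p = p' ≫ g) (x : X') : p (f x) = g (p' x) := by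
  rw [← Scheme.Hom.comp_apply, w, Scheme.Hom.comp_apply]

theorem LocC_closure {X' : Scheme.{0}} (f : X' ⟶ X) (c : X → ℚ) :
    closure (support (c ∘ f)) ⊆ f ⁻¹' closure (support c) :=
  f.continuous.closure_preimage_subset (support c)

/-- The conclusion of `Cyc.exists_exc_surj`. -/
def LocC_Good (p : X ⟶ W) [IsSeparated p] (q : Y ⟶ X) (O : Set X) (w : W) (c : Cyc m p) : Prop :=
  ∃ (W' : Scheme.{0}) (g : W' ⟶ W) (w' : W'), EtNb g w' w ∧
    ∀ (X' Y' : Scheme.{0}) (p' : X' ⟶ W') [IsSeparated p'] (f : X' ⟶ X) (q' : Y' ⟶ X')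
      [IsSeparated q'] (f' : Y' ⟶ Y), IsPullback f p' p g → IsPullback f' q' q f →
      ∃ (d : Cyc m (q' ≫ p')) (a : Cyc m p'), c.1 ∘ f = push q' d.1 + a.1 ∧
        closure (support a.1) ⊆ f ⁻¹' O

theorem LocC_desc {p : X ⟶ W} [IsSeparated p] {q : Y ⟶ X} {O : Set X} {w : W} {c : Cyc m p}
    {W₁ X₁ Y₁ : Scheme.{0}} {g₁ : W₁ ⟶ W} {w₁ : W₁} (h₁ : EtNb g₁ w₁ w) {p₁ : X₁ ⟶ W₁}
    [IsSeparated p₁] {f₁ : X₁ ⟶ X} {q₁ : Y₁ ⟶ X₁} [IsSeparated q₁] {f₁' : Y₁ ⟶ Y}
    (s₁ : IsPullback f₁ p₁ p g₁) (s₂ : IsPullback f₁' q₁ q f₁) (d₁ : Cyc m (q₁ ≫ p₁))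
    (c₁ : Cyc m p₁) (e : c.1 ∘ f₁ = push q₁ d₁.1 + c₁.1) (h : LocC_Good p₁ q₁ (f₁ ⁻¹' O) w₁ c₁) :
    LocC_Good p q O w c := by
  obtain ⟨W', g, w', hg, H⟩ := h
  refine ⟨W', g ≫ g₁, w', hg.comp h₁, fun X' Y' p' _ f q' _ f' t₁ t₂ => ?_⟩
  obtain ⟨k, rfl, hk⟩ : ∃ k : X' ⟶ X₁, k ≫ f₁ = f ∧ k ≫ p₁ = p' ≫ g :=
    ⟨s₁.lift f (p' ≫ g) (by rw [t₁.w, Category.assoc]), s₁.lift_fst _ _ _, s₁.lift_snd _ _ _⟩
  obtain ⟨k', rfl, hk'⟩ : ∃ k' : Y' ⟶ Y₁, k' ≫ f₁' = f' ∧ k' ≫ q₁ = q' ≫ k :=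
    ⟨s₂.lift f' (q' ≫ k) (by rw [t₂.w, Category.assoc]), s₂.lift_fst _ _ _, s₂.lift_snd _ _ _⟩
  have u₁ : IsPullback k p' p₁ g := t₁.of_right hk s₁
  have u₂ : IsPullback k' q' q₁ k := t₂.of_right hk' s₂
  obtain ⟨d, a, e', ha⟩ := H X' Y' p' k q' k' u₁ u₂
  refine ⟨Cyc.pull m (u₂.paste_vert u₁) d₁ + d, a, ?_, ha.trans fun x hx => ?_⟩
  · have h1 : c.1 ∘ (k ≫ f₁) = (c.1 ∘ f₁) ∘ k := funext fun x => by
      simp only [Function.comp_apply, Scheme.Hom.comp_apply]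
    rw [h1, e, AddSubgroup.coe_add, push_add (Cyc.gfin _).of_comp (Cyc.gfin _).of_comp,
      Cyc.pull_coe, ← push_pullback u₂ (Cyc.gfin d₁).of_comp, add_assoc, ← e']
    rfl
  · rwa [Set.mem_preimage, Scheme.Hom.comp_apply]

theorem LocC_base {p : X ⟶ W} [IsSeparated p] (q : Y ⟶ X) {O : Set X} (hO : IsOpen O) (w : W)
    (c : Cyc m p) (h : closure (support c.1) ∩ p ⁻¹' {w} ⊆ O) : LocC_Good p q O w c := by
  obtain ⟨V, hV, hw, hV'⟩ := c.2.2.2.closure.exists_shrink isClosed_closure hO h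
  obtain ⟨W', g, w', hg, -, hr⟩ := exists_etNb_of_isOpen hV hw
  refine ⟨W', g, w', hg, fun X' Y' p' _ f q' _ f' t₁ _ => ⟨0, Cyc.pull m t₁ c, ?_, fun x hx => ?_⟩⟩
  · rw [AddSubgroup.coe_zero, push_zero, zero_add, Cyc.pull_coe]
  · refine hV' ⟨LocC_closure f c.1 hx, ?_⟩
    rw [Set.mem_preimage, LocC_over t₁.w]
    exact hr ⟨_, rfl⟩

/-- A cycle with at most one point in the fibre is a push forward. -/
theorem LocC_one {p : X ⟶ W} [IsSeparated p] [LocallyOfFiniteType p] (q : Y ⟶ X) [Etale q]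
    [IsSeparated q] (c : Cyc m p) (y : Y) [IsIso (q.residueFieldMap y)]
    (h : closure (support c.1) ∩ p ⁻¹' {p (q y)} ⊆ {q y}) :
    LocC_Good p q ∅ (p (q y)) c := by
  rcases Set.subset_singleton_iff_eq.mp h with h | h
  · exact LocC_base q isOpen_empty _ c h.le
  obtain ⟨W', g, w', hg, H⟩ := c.2.2.2.closure.exists_lift q isClosed_closure y h
  refine ⟨W', g, w', hg, fun X' Y' p' _ f q' _ f' t₁ t₂ => ?_⟩
  obtain ⟨V, V', hV, hV', hd, hu, hf, hl⟩ := H X' Y' p' f q' f' t₁ t₂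
  have : Etale q' := MorphismProperty.of_isPullback (P := @Etale) t₂ inferInstance
  refine ⟨⟨V.indicator ((c.1 ∘ f) ∘ q'), fun y' => ?_, ?_, hf.mono Set.support_indicator_subset⟩,
    0, ?_, by simp⟩
  · by_cases hy : y' ∈ V
    · rw [Set.indicator_of_mem hy]
      exact c.2.1 _
    · rw [Set.indicator_of_notMem hy]
      simp
  · refine (c.2.2.1.pull t₁).comp_etale.indicator hV hV' hd ?_
    rw [hu]
    exact fun y' hy => subset_closure hy
  · rw [AddSubgroup.coe_zero, add_zero]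
    exact (push_indicator_of_bij (d := c.1 ∘ f) fun Om _ _ z hz =>
      hl Om z (subset_closure (s := support c.1) hz)).symm

theorem LocC_ind (n : ℕ) : ∀ {X Y W : Scheme.{0}} {p : X ⟶ W} [IsSeparated p]
    [LocallyOfFiniteType p] (q : Y ⟶ X) [Etale q] [IsSeparated q] {O : Set X} (_ : IsOpen O)
    (w : W) (_ : ∀ x : X, p x = w → x ∉ O → ∃ y : Y, q y = x ∧ IsIso (q.residueFieldMap y))
    (c : Cyc m p), ((closure (support c.1) ∩ p ⁻¹' {w}) \ O).ncard = n → LocC_Good p q O w c := by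
  induction n using Nat.strong_induction_on with
  | _ n ih =>
  intro X Y W p _ _ q _ _ O hO w hq c hn
  rcases ((closure (support c.1) ∩ p ⁻¹' {w}) \ O).eq_empty_or_nonempty with h0 | ⟨x, hx⟩
  · exact LocC_base q hO w c (Set.sdiff_eq_empty.mp h0)
  have hfin : ((closure (support c.1) ∩ p ⁻¹' {w}) \ O).Finite :=
    (c.2.2.2.closure.gfin.finite_fibre w).subset Set.sdiff_subset
  obtain ⟨W₁, g₁, w₁, h₁, H₁⟩ := Cyc.exists_split c w {x} isOpen_univ isOpen_univ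
    (Set.subset_univ _) (Set.subset_univ _)
  have s₁ := IsPullback.of_hasPullback p g₁
  have s₂ := IsPullback.of_hasPullback q (pullback.fst p g₁)
  obtain ⟨c₁, c₂, e, -, hc₂, hA₁, hA₂⟩ := H₁ _ _ _ s₁
  obtain ⟨x₁, hx₁, rfl⟩ := (h₁.bijOn_fibre s₁).surjOn hx.1.2
  obtain ⟨y₁, rfl, _⟩ := LocC_res_pull s₂ x₁ (hq _ hx.1.2 hx.2)
  obtain rfl : pullback.snd p g₁ (pullback.snd q (pullback.fst p g₁) y₁) = w₁ := hx₁
  obtain ⟨W₂, g₂, w₂, h₂, H₂⟩ := LocC_one (pullback.snd q (pullback.fst p g₁)) c₁ y₁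
    fun x' hx' => (h₁.bijOn_fibre s₁).injOn hx'.2 rfl (hA₁ x' hx'.1 hx'.2)
  have t₁ := IsPullback.of_hasPullback (pullback.snd p g₁) g₂
  have t₂ := IsPullback.of_hasPullback (pullback.snd q (pullback.fst p g₁))
    (pullback.fst (pullback.snd p g₁) g₂)
  obtain ⟨d, a, e', ha⟩ := H₂ _ _ _ _ _ _ t₁ t₂
  have ha0 : a.1 = 0 := support_eq_empty_iff.mp
    (Set.subset_empty_iff.mp (subset_closure.trans ha))
  have u₁ := t₁.paste_horiz s₁
  have u₂ := t₂.paste_horiz s₂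
  refine LocC_desc (h₂.comp h₁) u₁ u₂ d (Cyc.pull m t₁ c₂) ?_ (ih _ ?_ _
    (hO.preimage (Scheme.Hom.continuous _)) w₂ (fun x' hx' hO' => LocC_res_pull u₂ x'
      (hq _ (by rw [LocC_over u₁.w, hx', (h₂.comp h₁).eq]) hO')) _ rfl)
  · rw [ha0, add_zero] at e'
    rw [← e', Cyc.pull_coe]
    funext x'
    simp only [Function.comp_apply, Scheme.Hom.comp_apply, Pi.add_apply]
    exact congrFun (congrArg Subtype.val e) _
  · rw [← hn]
    refine lt_of_le_of_lt (Set.ncard_le_ncard_of_injOn _ (fun x' hx' => ?_)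
      (((h₂.comp h₁).bijOn_fibre u₁).injOn.mono fun x' hx' => hx'.1.2)
      (hfin.subset Set.sdiff_subset)) (Set.ncard_sdiff_singleton_lt_of_mem hx hfin)
    have h3 := LocC_closure _ c₂.1 hx'.1.1
    refine ⟨⟨⟨?_, ((h₂.comp h₁).bijOn_fibre u₁).mapsTo hx'.1.2⟩, hx'.2⟩, ?_⟩
    · rw [Scheme.Hom.comp_apply]
      exact (hc₂ h3).2
    · rw [Scheme.Hom.comp_apply]
      exact hA₂ _ h3 ((h₂.bijOn_fibre t₁).mapsTo hx'.1.2)

/-- An etale map that is injective on the geometric points of a finite set in a fibre is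
injective on its geometric points near the fibre. -/
theorem LocC_inj {p : X ⟶ W} [IsSeparated p] (q : Y ⟶ X) [Etale q] {S : Set Y}
    (h : FinOver (q ≫ p) S) (hS : IsClosed S) (w : W)
    (hq : ∀ (Om : Type) [Field Om] [IsAlgClosed Om] (y y' : Spec (.of Om) ⟶ Y), y ≫ q = y' ≫ q →
      gen y ∈ S → (q ≫ p) (gen y) = w → y = y') :
    ∃ V : Set W, IsOpen V ∧ w ∈ V ∧ ∀ (Om : Type) [Field Om] (y y' : Spec (.of Om) ⟶ Y),
      y ≫ q = y' ≫ q → gen y ∈ S → gen y' ∈ S → (q ≫ p) (gen y) ∈ V → y = y' := by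
  have h1 : FinOver (pullback.fst q q ≫ q ≫ p)
      (pullback.snd q q ⁻¹' S ∩ pullback.fst q q ⁻¹' S) :=
    h.comp (FinOver.pull (IsPullback.of_hasPullback q q).flip h.of_comp)
  obtain ⟨V, hV, hw, hV'⟩ := h1.exists_shrink (w := w)
    ((hS.preimage (Scheme.Hom.continuous _)).inter (hS.preimage (Scheme.Hom.continuous _)))
    (pullback.diagonal q).isOpenEmbedding.isOpen_range (by
      rintro z ⟨⟨-, hz⟩, hz'⟩
      have h2 : gen (geo z ≫ pullback.fst q q) = pullback.fst q q z := by rw [gen_comp, gen_geo]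
      have h3 := hq _ (geo z ≫ pullback.fst q q) (geo z ≫ pullback.snd q q)
        (by rw [Category.assoc, Category.assoc, pullback.condition]) (h2 ▸ hz)
        (by rw [h2, ← Scheme.Hom.comp_apply]; exact hz')
      have h4 : (geo z ≫ pullback.fst q q) ≫ pullback.diagonal q = geo z := by
        refine pullback.hom_ext ?_ ?_
        · rw [Category.assoc, pullback.diagonal_fst, Category.comp_id]
        · rw [Category.assoc, pullback.diagonal_snd, Category.comp_id, h3]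
      exact ⟨gen (geo z ≫ pullback.fst q q), by rw [← gen_comp, h4, gen_geo]⟩)
  refine ⟨V, hV, hw, fun Om _ y y' e hy hy' hp => ?_⟩
  have h5 : pullback.fst q q (gen (pullback.lift y y' e)) = gen y := by
    rw [← gen_comp, pullback.lift_fst]
  have h6 : pullback.snd q q (gen (pullback.lift y y' e)) = gen y' := by
    rw [← gen_comp, pullback.lift_snd]
  obtain ⟨z, hz⟩ := lift_immersion_field (pullback.diagonal q) (pullback.lift y y' e)
    (hV' ⟨⟨by rwa [Set.mem_preimage, h6], by rwa [Set.mem_preimage, h5]⟩, by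
      rwa [Set.mem_preimage, Scheme.Hom.comp_apply, h5]⟩)
  rw [← pullback.lift_fst y y' e, ← hz, Category.assoc, pullback.diagonal_fst,
    ← pullback.diagonal_snd q, ← Category.assoc, hz, pullback.lift_snd]

/-- Excision, surjectivity. Hint: induction on the number of points of the closure of the
support in the fibre, for all data at once; `Cyc.exists_split`, `FinOver.exists_lift`,
`push_indicator_of_bij`. -/
theorem Cyc.exists_exc_surj {p : X ⟶ W} [IsSeparated p] [LocallyOfFiniteType p] (q : Y ⟶ X)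
    [Etale q] [IsSeparated q] {O : Set X} (hO : IsOpen O) (w : W)
    (hq : ∀ x : X, p x = w → x ∉ O → ∃ y : Y, q y = x ∧ IsIso (q.residueFieldMap y))
    (c : Cyc m p) :
    ∃ (W' : Scheme.{0}) (g : W' ⟶ W) (w' : W'), EtNb g w' w ∧
      ∀ (X' Y' : Scheme.{0}) (p' : X' ⟶ W') [IsSeparated p'] (f : X' ⟶ X) (q' : Y' ⟶ X')
        [IsSeparated q'] (f' : Y' ⟶ Y), IsPullback f p' p g → IsPullback f' q' q f →
        ∃ (d : Cyc m (q' ≫ p')) (a : Cyc m p'), c.1 ∘ f = push q' d.1 + a.1 ∧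
          closure (support a.1) ⊆ f ⁻¹' O :=
  LocC_ind _ q hO w hq c rfl

/-- Excision, injectivity. Hint: split `d = d₁ + d₂` along `q ⁻¹' O`; shrink so that `q` is
injective on the geometric points of the closure of the support of `d₂`. -/
theorem Cyc.exists_exc_inj {p : X ⟶ W} [IsSeparated p] (q : Y ⟶ X) [Etale q] [IsSeparated q]
    {O : Set X} (hO : IsOpen O) (w : W)
    (hq : ∀ (Om : Type) [Field Om] [IsAlgClosed Om] (y y' : Spec (.of Om) ⟶ Y), y ≫ q = y' ≫ q →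
      p (q (gen y)) = w → q (gen y) ∉ O → y = y')
    (d : Cyc m (q ≫ p)) (hd : closure (support (push q d.1)) ⊆ O) :
    ∃ (W' : Scheme.{0}) (g : W' ⟶ W) (w' : W'), EtNb g w' w ∧
      ∀ (Y' : Scheme.{0}) (p' : Y' ⟶ W') (f' : Y' ⟶ Y), IsPullback f' p' (q ≫ p) g →
        closure (support (d.1 ∘ f')) ⊆ f' ⁻¹' (q ⁻¹' O) := by
  obtain ⟨W₁, g₁, w₁, h₁, H₁⟩ := Cyc.exists_split d w (q ⁻¹' O) (hO.preimage q.continuous)
    isOpen_univ Set.inter_subset_right (Set.subset_univ _)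
  obtain ⟨X₁, f₁, p₁, s₁⟩ : ∃ (X₁ : Scheme.{0}) (f₁ : X₁ ⟶ X) (p₁ : X₁ ⟶ W₁),
    IsPullback f₁ p₁ p g₁ := ⟨_, _, _, IsPullback.of_hasPullback p g₁⟩
  obtain ⟨Y₁, f₁', q₁, s₂⟩ : ∃ (Y₁ : Scheme.{0}) (f₁' : Y₁ ⟶ Y) (q₁ : Y₁ ⟶ X₁),
    IsPullback f₁' q₁ q f₁ := ⟨_, _, _, IsPullback.of_hasPullback q f₁⟩
  have : IsSeparated p₁ := MorphismProperty.of_isPullback (P := @IsSeparated) s₁ inferInstance
  have : IsSeparated q₁ := MorphismProperty.of_isPullback (P := @IsSeparated) s₂ inferInstance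
  have : Etale q₁ := MorphismProperty.of_isPullback (P := @Etale) s₂ inferInstance
  have s₃ := s₂.paste_vert s₁
  obtain ⟨d₁, d₂, e, hd₁, -, -, hA⟩ := H₁ _ _ _ s₃
  have e' : d.1 ∘ f₁' = d₁.1 + d₂.1 := congrArg Subtype.val e
  have hqf : ∀ y, q (f₁' y) = f₁ (q₁ y) := LocC_over s₂.w
  -- `q₁` is injective on the geometric points of the support of `d₂`
  obtain ⟨V₁, hV₁, hw₁, hinj⟩ := LocC_inj q₁ d₂.2.2.2.closure isClosed_closure w₁
    fun Om _ _ y y' h hy hy' => s₂.hom_ext (hq Om _ _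
      (by rw [Category.assoc, Category.assoc, s₂.w, ← Category.assoc, h, Category.assoc])
      (by rw [gen_comp, ← Scheme.Hom.comp_apply, LocC_over s₃.w, hy', h₁.eq])
      (by rw [gen_comp]; exact hA _ hy hy')) h
  -- the image of the support of `d₂` misses the other supports
  have hT : IsClosed (f₁ ⁻¹' closure (support (push q d.1)) ∪ q₁ '' closure (support d₁.1)) :=
    (isClosed_closure.preimage f₁.continuous).union
      (d₁.2.2.2.closure.isClosed_image' isClosed_closure)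
  obtain ⟨V₂, hV₂, hw₂, hdis⟩ := ((d₂.2.2.2.closure.image q₁ p₁).mono
    Set.inter_subset_left).exists_shrink (w := w₁)
    ((d₂.2.2.2.closure.isClosed_image' isClosed_closure).inter hT) isOpen_empty (by
      rintro _ ⟨⟨⟨y, hy, rfl⟩, hy'⟩, hy''⟩
      refine hA y hy (by rw [Scheme.Hom.comp_apply]; exact hy'') ?_
      rw [Set.mem_preimage, hqf]
      rcases hy' with hy' | ⟨y', hy', h⟩
      · exact hd hy'
      · rw [← h, ← hqf]
        exact (hd₁ hy').1)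
  have hz : ∀ y : Y₁, (q₁ ≫ p₁) y ∈ V₁ ∩ V₂ → d₂.1 y = 0 := by
    intro y hy
    by_contra hne
    have hy₂ : y ∈ closure (support d₂.1) := subset_closure hne
    have h1 : q₁ y ∉ f₁ ⁻¹' closure (support (push q d.1)) ∪ q₁ '' closure (support d₁.1) :=
      fun h => hdis ⟨⟨⟨y, hy₂, rfl⟩, h⟩, by
        rw [Set.mem_preimage, ← Scheme.Hom.comp_apply]; exact hy.2⟩
    have h2 : push q d.1 (f₁ (q₁ y)) = 0 := by
      by_contra h
      exact h1 (Or.inl (subset_closure h))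
    have h3 : push q₁ d₁.1 (q₁ y) = 0 := by
      by_contra h
      exact h1 (Or.inr (Set.image_mono subset_closure (support_push h)))
    have h4 := congrFun (push_pullback s₂ (Cyc.gfin d).of_comp) (q₁ y)
    rw [e', push_add (Cyc.gfin d₁).of_comp (Cyc.gfin d₂).of_comp, Function.comp_apply, h2,
      Pi.add_apply, h3, zero_add] at h4
    have h5 := push_apply_of_inj (Cyc.gfin d₂).of_comp (geo y) fun y' h h' =>
      (hinj _ _ _ h.symm (by rw [gen_geo]; exact hy₂) (subset_closure h')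
        (by rw [gen_geo]; exact hy.1)).symm
    rw [gen_geo, ← h4] at h5
    exact hne h5.symm
  obtain ⟨W', g, w', hg, -, hr⟩ := exists_etNb_of_isOpen (hV₁.inter hV₂) ⟨hw₁, hw₂⟩
  refine ⟨W', g ≫ g₁, w', hg.comp h₁, fun Y' p' f' t => ?_⟩
  obtain ⟨k, rfl, hk⟩ : ∃ k : Y' ⟶ Y₁, k ≫ f₁' = f' ∧ k ≫ q₁ ≫ p₁ = p' ≫ g :=
    ⟨s₃.lift f' (p' ≫ g) (by rw [t.w, Category.assoc]), s₃.lift_fst _ _ _, s₃.lift_snd _ _ _⟩
  have h6 : d.1 ∘ (k ≫ f₁') = d₁.1 ∘ k := by
    funext y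
    have h7 := congrFun e' (k y)
    rw [Pi.add_apply, hz (k y) (hr ⟨p' y, (LocC_over hk y).symm⟩), add_zero] at h7
    rw [Function.comp_apply, Scheme.Hom.comp_apply]
    exact h7
  intro y hy
  rw [h6] at hy
  rw [Set.mem_preimage, Scheme.Hom.comp_apply]
  exact (hd₁ (LocC_closure k d₁.1 hy)).1

end Pool.Agent.KEW
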