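import Pool.Agent.P.MP_6277db_ag.KEW.L3.TrF
import Pool.Agent.P.MP_6277db_ag.KEW.L3.Loc
import Pool.Agent.P.MP_6277db_ag.KEW.L1.Cell
import Pool.Agent.P.MP_6277db_ag.KEW.L1.Site

/-!
The input of the local replacement with transfers: `TrData` and local exactness of `rho`.
-/

noncomputable section

open CategoryTheory Limits AlgebraicGeometry IsLocalRing Function TensorProduct Opposite

namespace Pool.Agent.KEW

variable {T : Scheme.{0}} {C : Type 1} [Category.{0} C]

section

variable (m : ℕ) (v : C ⥤ Over T) [SepSite v] (L : Type 1) [CommRing L]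

theorem rho_yoneda (U : Tr m v) (F : PSh (Tr m v) L) [F.Additive] :
    Function.Bijective fun a : rho m v L (v.obj U.as) ⟶ F =>
      a.app (op U) ((1 : L) ⊗ₜ[ℤ] (𝟙 U : U ⟶ U)) := by
  have h := rhoYoneda_bijective m v L U F
  refine (Function.Bijective.of_comp_iff _ h).1 ?_
  have e : ((fun a : rho m v L (v.obj U.as) ⟶ F =>
      a.app (op U) ((1 : L) ⊗ₜ[ℤ] (𝟙 U : U ⟶ U))) ∘ rhoYoneda m v L U F) = id :=
    funext fun x => rhoYoneda_app_one m v L U F x
  rw [e]
  exact Function.bijective_id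

/-- Additive presheaves on `Tr` and the presheaves `rho U`. -/
def trData : TrData L (gam m v) where
  P F := F.Additive
  closed := closedCl_additive
  ρ := gam m v ⋙ rhoTr m v L
  mem U := inferInstanceAs (rho m v L (v.obj U)).Additive
  e U := (1 : L) ⊗ₜ[ℤ] (𝟙 ((gam m v).obj U) : (gam m v).obj U ⟶ (gam m v).obj U)
  e_nat φ := congrArg (fun c => (1 : L) ⊗ₜ[ℤ] c)
    ((Category.id_comp ((gam m v).map φ)).trans (Category.comp_id ((gam m v).map φ)).symm)
  yoneda U F hF := rho_yoneda m v L ((gam m v).obj U) F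

end

section tensor

variable {u : C ⥤ Scheme.{0}}

/-- Local injectivity for presheaves of abelian groups. -/
def LocInjA (u : C ⥤ Scheme.{0}) {F G : Cᵒᵖ ⥤ AddCommGrpCat.{0}} (φ : F ⟶ G) : Prop :=
  ∀ (U : C) (a : F.obj (op U)), φ.app (op U) a = 0 → ∀ x : u.obj U,
    Locally u U x fun _ f => F.map f.op a = 0

/-- Local surjectivity for presheaves of abelian groups. -/
def LocSurjA (u : C ⥤ Scheme.{0}) {F G : Cᵒᵖ ⥤ AddCommGrpCat.{0}} (φ : F ⟶ G) : Prop :=
  ∀ (U : C) (b : G.obj (op U)) (x : u.obj U),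
    Locally u U x fun V f => ∃ a : F.obj (op V), φ.app (op V) a = G.map f.op b

/-- Finitely many local properties hold on a common neighbourhood. -/
theorem TrLA_fin {U : C} {ι : Type} [Fintype ι] (p : ι → ∀ V : C, (V ⟶ U) → Prop)
    (hs : ∀ i (V W : C) (f : V ⟶ U) (g : W ⟶ V), p i V f → p i W (g ≫ f))
    (hl : ∀ i (V : C) (f : V ⟶ U) (y : u.obj V), Locally u V y fun W g => p i W (g ≫ f))
    {V : C} (f : V ⟶ U) (y : u.obj V) : Locally u V y fun W g => ∀ i, p i W (g ≫ f) := by
  classical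
  have key : ∀ s : Finset ι, Locally u V y fun W g => ∀ i ∈ s, p i W (g ≫ f) := by
    intro s
    induction s using Finset.induction_on with
    | empty => exact Locally.of_forall y fun i hi => absurd hi (Finset.notMem_empty i)
    | insert a s _ ih =>
      refine ih.bind fun W g hg z => (hl a W (g ≫ f) z).mono fun W' g' hg' i hi => ?_
      rw [Category.assoc]
      rcases Finset.mem_insert.1 hi with rfl | hi
      · exact hg'
      · exact hs i W W' _ g' (hg i hi)
  exact (key Finset.univ).mono fun W g hg i => hg i (Finset.mem_univ i)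

/-- The equational criterion for the kernel of a map of tensor products. -/
theorem TrLA_van {M : Type 1} {A B : Type} [AddCommGroup M] [AddCommGroup A] [AddCommGroup B]
    (φ : A →ₗ[ℤ] B) (x : M ⊗[ℤ] A) (hx : LinearMap.lTensor M φ x = 0) :
    ∃ (n k : ℕ) (s : Fin n → M) (a : Fin n → A) (c : Fin n → Fin k → ℤ) (y : Fin k → B),
      x = ∑ i, s i ⊗ₜ a i ∧ (∀ i, φ (a i) = ∑ j, c i j • y j) ∧ ∀ j, ∑ i, c i j • s i = 0 := by
  obtain ⟨P, hP, t, rfl⟩ := TensorProduct.exists_of_fg x
  have h1 : LinearMap.rTensor B P.subtype (LinearMap.lTensor P φ t) = 0 := by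
    rw [← hx, ← LinearMap.comp_apply, ← LinearMap.comp_apply, LinearMap.rTensor_comp_lTensor,
      LinearMap.lTensor_comp_rTensor]
  obtain ⟨Q, hPQ, hQ, h2⟩ := TensorProduct.eq_zero_of_fg_of_subtype_eq_zero hP h1
  have : Module.Finite ℤ Q := Module.Finite.iff_fg.2 hQ
  obtain ⟨n, s, hs⟩ := Module.Finite.exists_fin (R := ℤ) (M := Q)
  have hrep : ∀ z : Q ⊗[ℤ] A, ∃ a : Fin n → A, z = ∑ i, s i ⊗ₜ a i := by
    intro z
    induction z using TensorProduct.induction_on with
    | zero => exact ⟨0, by simp⟩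
    | tmul q a =>
      obtain ⟨r, rfl⟩ := (Submodule.mem_span_range_iff_exists_fun ℤ).1
        (hs ▸ Submodule.mem_top : q ∈ Submodule.span ℤ (Set.range s))
      exact ⟨fun i => r i • a, by simp only [TensorProduct.sum_tmul, TensorProduct.smul_tmul]⟩
    | add z z' hz hz' =>
      obtain ⟨a, rfl⟩ := hz
      obtain ⟨a', rfl⟩ := hz'
      exact ⟨a + a', by simp only [Pi.add_apply, TensorProduct.tmul_add, Finset.sum_add_distrib]⟩
  obtain ⟨a, ha⟩ := hrep (LinearMap.rTensor A (Submodule.inclusion hPQ) t)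
  have h3 : ∑ i, s i ⊗ₜ[ℤ] φ (a i) = 0 := by
    rw [← h2, ← LinearMap.comp_apply, LinearMap.rTensor_comp_lTensor,
      ← LinearMap.lTensor_comp_rTensor, LinearMap.comp_apply, ha, map_sum]
    simp only [LinearMap.lTensor_tmul]
  obtain ⟨k, c, y, h4, h5⟩ := TensorProduct.vanishesTrivially_of_sum_tmul_eq_zero ℤ hs h3
  refine ⟨n, k, fun i => (s i : M), a, c, y, ?_, h4, fun j => ?_⟩
  · rw [← Submodule.subtype_comp_inclusion P Q hPQ, LinearMap.rTensor_comp, LinearMap.comp_apply,
      ha, map_sum]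
    simp only [LinearMap.rTensor_tmul, Submodule.subtype_apply]
  · have h6 := congrArg Q.subtype (h5 j)
    simpa only [map_sum, map_smul, map_zero, Submodule.subtype_apply] using h6

theorem TrLA_nat {F G : Cᵒᵖ ⥤ AddCommGrpCat.{0}} (φ : F ⟶ G) {U V : C} (f : V ⟶ U)
    (a : F.obj (op U)) : φ.app (op V) (F.map f.op a) = G.map f.op (φ.app (op U) a) :=
  NatTrans.naturality_apply φ f.op a

theorem TrLA_res (F : Cᵒᵖ ⥤ AddCommGrpCat.{0}) {U V W : C} (g : W ⟶ V) (f : V ⟶ U)
    (a : F.obj (op U)) : F.map (g ≫ f).op a = F.map g.op (F.map f.op a) := by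
  simp

variable (L : Type 1) [CommRing L] {F G : Cᵒᵖ ⥤ AddCommGrpCat.{0}}

theorem LocSurjA.coef {φ : F ⟶ G} (h : LocSurjA u φ) :
    LocSurj u (Functor.whiskerRight φ (coef L)) := by
  refine fun U b => Site_im_locally ?_
  have key : ∀ b : L ⊗[ℤ] G.obj (op U),
      (b : (G ⋙ KEW.coef L).obj (op U)) ∈ Site_im u (Functor.whiskerRight φ (KEW.coef L)) U := by
    intro b
    induction b using TensorProduct.induction_on with
    | zero => exact zero_mem _
    | tmul l g =>
      refine fun V f x => (h V (G.map f.op g) x).mono ?_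
      rintro W g' ⟨a, ha⟩
      refine ⟨(l ⊗ₜ[ℤ] a : L ⊗[ℤ] F.obj (op W)), ?_⟩
      change (l ⊗ₜ[ℤ] (φ.app (op W) a) : L ⊗[ℤ] G.obj (op W)) = l ⊗ₜ[ℤ] (G.map (g' ≫ f).op g)
      rw [ha, TrLA_res]
    | add z z' hz hz' => exact add_mem hz hz'
  exact key b

/-- Local isomorphisms survive extension of scalars. Hint: if `x ∈ L ⊗ F(U)` dies in `L ⊗ G(U)`,
it comes from a finitely generated `M₀ ≤ F(U)` and dies in `L ⊗ N₀` for a finitely generated
`N₀ ≤ G(U)` containing the image of `M₀`; lift the generators of `N₀` locally, kill the finitely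
many relations and the differences on the generators of `M₀`: this gives `s : N₀ →+ F(V)` with
`s ∘ φ = res` on `M₀`. -/
theorem LocInjA.coef {φ : F ⟶ G} (h : LocInjA u φ) (h' : LocSurjA u φ) :
    LocInj u (Functor.whiskerRight φ (coef L)) := by
  intro U b hb x
  obtain ⟨n, k, s, a, c, y, rfl, h1, h2⟩ :=
    TrLA_van (M := L) (φ.app (op U)).hom.toIntLinearMap b hb
  have h3 := TrLA_fin (u := u) (fun j V f => ∃ z : F.obj (op V), φ.app (op V) z = G.map f.op (y j))
    (fun j V W f g ⟨z, hz⟩ => ⟨F.map g.op z, by rw [TrLA_nat, hz, TrLA_res]⟩)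
    (fun j V f z => (h' V (G.map f.op (y j)) z).mono fun W g ⟨z, hz⟩ =>
      ⟨z, by rw [hz, TrLA_res]⟩) (𝟙 U) x
  refine h3.bind fun V f hf w => ?_
  rw [Category.comp_id] at hf
  choose z hz using hf
  have h4 : ∀ i, φ.app (op V) (F.map f.op (a i) - ∑ j, c i j • z j) = 0 := by
    intro i
    have e : φ.app (op U) (a i) = ∑ j, c i j • y j := h1 i
    rw [map_sub, TrLA_nat, e, map_sum, map_sum, sub_eq_zero]
    exact Finset.sum_congr rfl fun j _ => by rw [map_zsmul, map_zsmul, hz]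
  have h5 := TrLA_fin (u := u)
    (fun i W g => F.map g.op (F.map f.op (a i) - ∑ j, c i j • z j) = 0)
    (fun i W W' g g' hg => by rw [TrLA_res, hg, map_zero])
    (fun i W g w' => (h W (F.map g.op (F.map f.op (a i) - ∑ j, c i j • z j))
      (by rw [TrLA_nat, h4, map_zero]) w').mono fun W' g' hg => by rw [TrLA_res, hg]) (𝟙 V) w
  refine h5.mono fun W g hg => ?_
  rw [Category.comp_id] at hg
  have h6 : ∀ i, F.map (g ≫ f).op (a i) = ∑ j, c i j • F.map g.op (z j) := by
    intro i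
    have e := hg i
    rw [map_sub, sub_eq_zero, map_sum] at e
    rw [TrLA_res, e]
    exact Finset.sum_congr rfl fun j _ => map_zsmul _ _ _
  change LinearMap.lTensor L (F.map (g ≫ f).op).hom.toIntLinearMap (∑ i, s i ⊗ₜ[ℤ] a i) = 0
  rw [map_sum]
  exact TensorProduct.sum_tmul_eq_zero_of_vanishesTrivially ℤ ⟨k, c, _, h6, h2⟩

end tensor

section

variable {m : ℕ} {v : C ⥤ Over T}

/-- An affine etale neighbourhood of a point of an object of the site is an object of the site. -/
theorem IsSite.exists_nbhd {u : C ⥤ Scheme.{0}} (hu : IsSite u) {U : C} {W' : Scheme.{0}}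
    {g : W' ⟶ u.obj U} {w' : W'} {w : u.obj U} (h : EtNb g w' w) :
    ∃ (V : C) (f : V ⟶ U) (y : u.obj V) (e : u.obj V ≅ W'), IsNbhd u f y w ∧
      u.map f = e.hom ≫ g := by
  have := h.aff
  have := h.etale
  have := hu.noeth U
  have h1 : IsSeparated (g ≫ terminal.from _) := by
    rw [terminal.comp_from]
    infer_instance
  have h2 : IsSeparated g := IsSeparated.of_comp g (terminal.from _)
  have h3 : QuasiCompact g := inferInstance
  obtain ⟨V, f, e, he⟩ := hu.etale U W' g h.etale h2 h3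
  obtain ⟨y, rfl⟩ : ∃ y : u.obj V, e.hom y = w' := ⟨e.inv w', by simp⟩
  refine ⟨V, f, y, e, ⟨?_, ?_, ?_⟩, he⟩
  · rw [he]
    infer_instance
  · rw [he, ← h.eq]
    simp
  · have h4 : ∀ φ : u.obj V ⟶ u.obj U, φ = e.hom ≫ g → IsIso (φ.residueFieldMap y) := by
      rintro _ rfl
      have h5 : IsIso (g.residueFieldMap (e.hom y)) := h.res
      have h6 : IsIso (e.hom.residueFieldMap y) := inferInstance
      rw [Scheme.residueFieldMap_comp]
      exact IsIso.comp_isIso' h5 h6
    exact h4 _ he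

section geom

variable {X Y X' Y' W W' : Scheme.{0}}

theorem TrLB_fac {K : Type} [Field K] (a : Spec (.of K) ⟶ X) {x : X} (t : Spec (.of K))
    (h : a t = x) : ∃ α : X.residueField x ⟶ .of K, a = Spec.map α ≫ X.fromSpecResidueField x := by
  have h' : a (IsLocalRing.closedPoint K) = x := (congrArg a (Subsingleton.elim _ _)).trans h
  subst h'
  exact ⟨_, (Scheme.descResidueField_stalkClosedPointTo_fromSpecResidueField K X a).symm⟩

theorem TrLB_pt_ext (f : Y ⟶ X) {y : Y} (hres : IsIso (f.residueFieldMap y)) {K : Type} [Field K]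
    {a b : Spec (.of K) ⟶ Y} (ha : gen a = y) (hb : gen b = y) (h : a ≫ f = b ≫ f) : a = b := by
  obtain ⟨α, rfl⟩ := TrLB_fac a _ ha
  obtain ⟨β, rfl⟩ := TrLB_fac b _ hb
  simp only [Category.assoc, ← Scheme.Hom.SpecMap_residueFieldMap_fromSpecResidueField] at h
  rw [← Category.assoc, ← Category.assoc, cancel_mono, ← Spec.map_comp, ← Spec.map_comp,
    Spec.map_inj, cancel_epi] at h
  rw [h]

theorem TrLB_res_of_sec (f : Y ⟶ X) (x : X) (s : Spec (X.residueField x) ⟶ Y)
    (hs : s ≫ f = X.fromSpecResidueField x) (t : Spec (X.residueField x)) :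
    f (s t) = x ∧ IsIso (f.residueFieldMap (s t)) := by
  have h1 : f (s t) = x := by
    rw [← Scheme.Hom.comp_apply, hs, Scheme.fromSpecResidueField_apply]
  refine ⟨h1, ?_⟩
  obtain ⟨y, hy⟩ : ∃ y, y = s t := ⟨_, rfl⟩
  rw [← hy] at h1 ⊢
  subst h1
  obtain ⟨α, hα⟩ := TrLB_fac (K := X.residueField (f y)) s t hy.symm
  rw [hα, Category.assoc, ← Scheme.Hom.SpecMap_residueFieldMap_fromSpecResidueField,
    ← Category.assoc, ← Spec.map_comp] at hs
  have h2 : f.residueFieldMap y ≫ α = 𝟙 _ := by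
    rw [← Spec.map_inj, Spec.map_id, ← cancel_mono (X.fromSpecResidueField (f y)), hs]
    exact (Category.id_comp _).symm
  have : Mono α := ConcreteCategory.mono_of_injective _ (RingHom.injective _)
  refine ⟨α, h2, ?_⟩
  rw [← cancel_mono α, Category.assoc, h2, Category.comp_id, Category.id_comp]

/-- Points with trivial residue field extension are stable under base change. -/
theorem TrLB_res_bc {b : Y' ⟶ Y} {q : Y' ⟶ X'} {f : Y ⟶ X} {a : X' ⟶ X} (sq : IsPullback b q f a)
    (x : X') (y : Y) (h : f y = a x) (hres : IsIso (f.residueFieldMap y)) :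
    ∃ y' : Y', q y' = x ∧ IsIso (q.residueFieldMap y') := by
  obtain ⟨t⟩ : Nonempty (Spec (X'.residueField x)) := ⟨IsLocalRing.closedPoint _⟩
  have ht : (X'.fromSpecResidueField x ≫ a) t = f y := by
    rw [Scheme.Hom.comp_apply, Scheme.fromSpecResidueField_apply, h]
  obtain ⟨α, hα⟩ := TrLB_fac (K := X'.residueField x) (X'.fromSpecResidueField x ≫ a) t ht
  have w : (Spec.map (inv (f.residueFieldMap y) ≫ α) ≫ Y.fromSpecResidueField y) ≫ f =
      X'.fromSpecResidueField x ≫ a := by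
    rw [Category.assoc, ← Scheme.Hom.SpecMap_residueFieldMap_fromSpecResidueField,
      ← Category.assoc, ← Spec.map_comp, IsIso.hom_inv_id_assoc]
    exact hα.symm
  exact ⟨_, TrLB_res_of_sec q x (sq.lift _ _ w) (sq.lift_snd _ _ w) t⟩

theorem TrLB_range {b : Y' ⟶ Y} {q : Y' ⟶ X'} {f : Y ⟶ X} {a : X' ⟶ X} (sq : IsPullback b q f a) :
    Set.range q = a ⁻¹' Set.range f := by
  ext x
  constructor
  · rintro ⟨y, rfl⟩
    exact ⟨b y, by rw [← Scheme.Hom.comp_apply, sq.w, Scheme.Hom.comp_apply]⟩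
  · rintro ⟨y, hy⟩
    obtain ⟨y', -, h⟩ := Scheme.exists_preimage_of_isPullback sq y x hy
    exact ⟨y', h⟩

theorem TrLB_mem_congr {p p' : X ⟶ W} [IsSeparated p] [IsSeparated p'] (h : p = p') {c : X → ℚ}
    (hc : c ∈ Cyc m p) : c ∈ Cyc m p' := by
  subst h
  exact hc

theorem TrLB_mem_iso {p : X ⟶ W} {p' : X ⟶ W'} [IsSeparated p] [IsSeparated p'] (e : W ≅ W')
    (h : p' = p ≫ e.hom) {c : X → ℚ} (hc : c ∈ Cyc m p') : c ∈ Cyc m p :=
  TrLB_mem_congr (by rw [h, Category.assoc, e.hom_inv_id, Category.comp_id])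
    (Cyc.comp_finite_etale_mem (q := e.inv) hc)

theorem TrLB_pb {f : X' ⟶ X} {p' : X' ⟶ Y'} {p : X ⟶ W} {g' : Y' ⟶ W} (sq : IsPullback f p' p g')
    (e : Y' ≅ W') {g : W' ⟶ W} (h : g' = e.hom ≫ g) : IsPullback f (p' ≫ e.hom) p g := by
  subst h
  have h1 : IsPullback (e.hom ≫ g) e.hom (𝟙 W) g :=
    IsPullback.of_vert_isIso ⟨Category.comp_id _⟩
  have h2 := sq.paste_vert h1
  rwa [Category.comp_id] at h2

end geom

section alg

variable (L : Type 1) [CommRing L] {A B : Type} [AddCommGroup A] [AddCommGroup B]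

theorem TrLB_exact (h : A →+ B) (y : L ⊗[ℤ] B)
    (hy : (ext1 L (QuotientAddGroup.mk' h.range)).hom y = 0) : ∃ a, (ext1 L h).hom a = y := by
  have h1 : Function.Exact h.toIntLinearMap (QuotientAddGroup.mk' h.range).toIntLinearMap :=
    fun b => QuotientAddGroup.eq_zero_iff b
  exact (lTensor_exact L h1 (QuotientAddGroup.mk'_surjective _) y).1 hy

theorem TrLB_surj (N : AddSubgroup B) (y : L ⊗[ℤ] (B ⧸ N)) :
    ∃ a, (ext1 L (QuotientAddGroup.mk' N)).hom a = y :=
  LinearMap.lTensor_surjective L (g := (QuotientAddGroup.mk' N).toIntLinearMap)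
    (QuotientAddGroup.mk'_surjective _) y

theorem TrLB_sq {A' B' : Type} [AddCommGroup A'] [AddCommGroup B'] {f : A →+ B} {g : B →+ B'}
    {f' : A →+ A'} {g' : A' →+ B'} (h : ∀ a, g (f a) = g' (f' a)) (x : L ⊗[ℤ] A) :
    (ext1 L g).hom ((ext1 L f).hom x) = (ext1 L g').hom ((ext1 L f').hom x) := by
  have h1 : ext1 L f ≫ ext1 L g = ext1 L f' ≫ ext1 L g' :=
    (ext1_comp (k := g.comp f) fun _ => rfl).symm.trans (ext1_comp h)
  exact congrArg (fun θ => θ.hom x) h1

theorem TrLB_zero {B' : Type} [AddCommGroup B'] {f : A →+ B} {g : B →+ B'}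
    (h : ∀ a, g (f a) = 0) (x : L ⊗[ℤ] A) : (ext1 L g).hom ((ext1 L f).hom x) = 0 := by
  induction x using TensorProduct.induction_on with
  | zero => rw [map_zero, map_zero]
  | tmul l a => rw [ext1_tmul, ext1_tmul, h, tmul_zero]
  | add x y hx hy => rw [map_add, map_add, hx, hy, add_zero]

end alg

section quot

variable {A X B Y : Over T} [IsSeparated A.hom] [IsSeparated X.hom] [IsSeparated B.hom]
  [IsSeparated Y.hom]

theorem TrLB_pull_le {W W' : Over T} (f : W' ⟶ W) (i : A ⟶ X) :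
    (Corr.push m W i).range ≤ (Corr.push m W' i).range.comap (Corr.pull m f X) := by
  rintro _ ⟨a, rfl⟩
  exact ⟨Corr.pull m f A a, (Corr.pull_push f i a).symm⟩

variable (m v) in
/-- Correspondences to `X` modulo correspondences to `A`. -/
def TrLB_Q (i : A ⟶ X) : Cᵒᵖ ⥤ AddCommGrpCat.{0} where
  obj W := AddCommGrpCat.of (Corr m (v.obj W.unop) X ⧸ (Corr.push m (v.obj W.unop) i).range)
  map f := AddCommGrpCat.ofHom
    (QuotientAddGroup.map _ _ (Corr.pull m (v.map f.unop) X) (TrLB_pull_le _ i))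
  map_id W := by
    ext c
    refine congrArg QuotientAddGroup.mk ?_
    change Corr.pull m (v.map (𝟙 W.unop)) X c = c
    rw [v.map_id, Corr.pull_id]
  map_comp f g := by
    ext c
    refine congrArg QuotientAddGroup.mk ?_
    change Corr.pull m (v.map (g.unop ≫ f.unop)) X c =
      Corr.pull m (v.map g.unop) X (Corr.pull m (v.map f.unop) X c)
    rw [v.map_comp, Corr.pull_pull]

theorem TrLB_push_le (W : Over T) {j : B ⟶ Y} {f : Y ⟶ X} {g : B ⟶ A} {i : A ⟶ X}
    (w : j ≫ f = g ≫ i) :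
    (Corr.push m W j).range ≤ (Corr.push m W i).range.comap (Corr.push m W f) := by
  rintro _ ⟨b, rfl⟩
  exact ⟨Corr.push m W g b, by rw [Corr.push_push, Corr.push_push, w]⟩

variable (m v) in
/-- The excision map. -/
def TrLB_phi {j : B ⟶ Y} {f : Y ⟶ X} {g : B ⟶ A} {i : A ⟶ X} (w : j ≫ f = g ≫ i) :
    TrLB_Q m v j ⟶ TrLB_Q m v i where
  app W := AddCommGrpCat.ofHom
    (QuotientAddGroup.map _ _ (Corr.push m (v.obj W.unop) f) (TrLB_push_le _ w))
  naturality W W' φ := by
    ext c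
    obtain ⟨c, rfl⟩ := QuotientAddGroup.mk_surjective c
    exact congrArg QuotientAddGroup.mk (Corr.pull_push (v.map φ.unop) f c).symm

theorem TrLB_mem_range (W : Over T) (i : A ⟶ X) [IsOpenImmersion i.left] (c : Corr m W X) :
    c ∈ (Corr.push m W i).range ↔
      closure (support c.1) ⊆ pullback.snd W.hom X.hom ⁻¹' Set.range i.left := by
  rw [← TrLB_range (Corr.isPullback_rmap W i)]
  exact Cyc.mem_range_pushHom _ _ c

theorem TrLB_lmap_snd {W W' : Over T} (f : W' ⟶ W) (U : Over T) :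
    Corr.lmap f U ≫ pullback.snd W.hom U.hom = pullback.snd W'.hom U.hom :=
  (pullback.lift_snd _ _ _).trans (Category.comp_id _)

theorem TrLB_surjA (hu : IsSite (v ⋙ Over.forget T)) [LocallyOfFiniteType X.hom] {j : B ⟶ Y}
    {f : Y ⟶ X} {g : B ⟶ A} {i : A ⟶ X} (w : j ≫ f = g ≫ i) [IsOpenImmersion i.left]
    [Etale f.left]
    (h : ∀ x : X.left, x ∉ Set.range i.left → ∃ y, f.left y = x ∧ IsIso (f.left.residueFieldMap y)) :
    LocSurjA (v ⋙ Over.forget T) (TrLB_phi m v w) := by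
  intro U b x
  obtain ⟨c, rfl⟩ := QuotientAddGroup.mk_surjective b
  have sf : IsSeparated f.left := by
    have : IsSeparated (f.left ≫ X.hom) := by
      rw [Over.w]
      infer_instance
    exact IsSeparated.of_comp f.left X.hom
  have eq : ∀ W : Over T, Etale (Corr.rmap W f) := fun W =>
    MorphismProperty.of_isPullback (P := @Etale) (Corr.isPullback_rmap W f) ‹_›
  have sq : ∀ W : Over T, IsSeparated (Corr.rmap W f) := fun W =>
    MorphismProperty.of_isPullback (P := @IsSeparated) (Corr.isPullback_rmap W f) ‹_›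
  obtain ⟨W', g', w', hg', H⟩ := Cyc.exists_exc_surj (p := pullback.fst (v.obj U).hom X.hom)
    (Corr.rmap (v.obj U) f) (O := pullback.snd (v.obj U).hom X.hom ⁻¹' Set.range i.left)
    (i.left.isOpenEmbedding.isOpen_range.preimage (Scheme.Hom.continuous _)) x
    (fun t _ ht => by
      obtain ⟨y, hy, hr⟩ := h _ ht
      exact TrLB_res_bc (Corr.isPullback_rmap (v.obj U) f) t y hy hr) c
  obtain ⟨V, φ, y, e0, hφ, he0⟩ := hu.exists_nbhd (U := U) hg'
  refine ⟨V, φ, y, hφ, ?_⟩
  obtain ⟨e, he⟩ : ∃ e : (v.obj V).left ≅ W', (v.map φ).left = e.hom ≫ g' := ⟨e0, he0⟩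
  obtain ⟨d, a, hda, ha⟩ := H _ _ (pullback.fst (v.obj V).hom X.hom ≫ e.hom)
    (Corr.lmap (v.map φ) X) (Corr.rmap (v.obj V) f) (Corr.lmap (v.map φ) Y)
    (TrLB_pb (Corr.isPullback_lmap (v.map φ) X) e he) (Corr.isPullback_lmap_rmap (v.map φ) f)
  have hd : d.1 ∈ Cyc m (pullback.fst (v.obj V).hom Y.hom) :=
    TrLB_mem_iso e (by rw [Corr.rmap_fst_assoc]) d.2
  have ha' : a.1 ∈ Cyc m (pullback.fst (v.obj V).hom X.hom) := TrLB_mem_iso e rfl a.2
  refine ⟨QuotientAddGroup.mk (⟨d.1, hd⟩ : Corr m (v.obj V) Y), ?_⟩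
  change (QuotientAddGroup.mk (Corr.push m (v.obj V) f ⟨d.1, hd⟩) :
      _ ⧸ (Corr.push m (v.obj V) i).range) = QuotientAddGroup.mk (Corr.pull m (v.map φ) X c)
  have h1 : Corr.pull m (v.map φ) X c = Corr.push m (v.obj V) f ⟨d.1, hd⟩ + ⟨a.1, ha'⟩ :=
    Subtype.ext hda
  rw [QuotientAddGroup.eq, h1, neg_add_cancel_left, TrLB_mem_range]
  refine ha.trans fun t ht => ?_
  rw [← TrLB_lmap_snd (v.map φ) X, Set.mem_preimage, Scheme.Hom.comp_apply]
  exact ht

theorem TrLB_injA (hu : IsSite (v ⋙ Over.forget T)) {j : B ⟶ Y}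
    {f : Y ⟶ X} {g : B ⟶ A} {i : A ⟶ X} (w : j ≫ f = g ≫ i) [IsOpenImmersion i.left]
    [Etale f.left] (pb : IsPullback j.left g.left f.left i.left)
    (h : ∀ y y' : Y.left, f.left y ∉ Set.range i.left → f.left y = f.left y' → y = y')
    (h' : ∀ y : Y.left, f.left y ∉ Set.range i.left → IsIso (f.left.residueFieldMap y)) :
    LocInjA (v ⋙ Over.forget T) (TrLB_phi m v w) := by
  intro U b hb x
  obtain ⟨d, rfl⟩ := QuotientAddGroup.mk_surjective b
  have oj : IsOpenImmersion j.left :=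
    MorphismProperty.of_isPullback (P := @IsOpenImmersion) pb.flip ‹_›
  have sf : IsSeparated f.left := by
    have : IsSeparated (f.left ≫ X.hom) := by
      rw [Over.w]
      infer_instance
    exact IsSeparated.of_comp f.left X.hom
  have eq : Etale (Corr.rmap (v.obj U) f) :=
    MorphismProperty.of_isPullback (P := @Etale) (Corr.isPullback_rmap _ f) ‹_›
  have sq : IsSeparated (Corr.rmap (v.obj U) f) :=
    MorphismProperty.of_isPullback (P := @IsSeparated) (Corr.isPullback_rmap _ f) ‹_›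
  have hb' : Corr.push m (v.obj U) f d ∈ (Corr.push m (v.obj U) i).range :=
    (QuotientAddGroup.eq_zero_iff _).1 hb
  rw [TrLB_mem_range] at hb'
  have hs := (Corr.isPullback_rmap (v.obj U) f).w
  obtain ⟨W', g', w', hg', H⟩ := Cyc.exists_exc_inj (m := m)
    (p := pullback.fst (v.obj U).hom X.hom)
    (Corr.rmap (v.obj U) f) (O := pullback.snd (v.obj U).hom X.hom ⁻¹' Set.range i.left)
    (i.left.isOpenEmbedding.isOpen_range.preimage (Scheme.Hom.continuous _)) x
    (fun Om _ _ y y' hy _ hO => by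
      have h1 : (y ≫ pullback.snd _ _) ≫ f.left = (y' ≫ pullback.snd _ _) ≫ f.left := by
        rw [Category.assoc, Category.assoc, hs, reassoc_of% hy]
      have h2 : f.left (gen (y ≫ pullback.snd (v.obj U).hom Y.hom)) ∉ Set.range i.left := by
        rw [← gen_comp, Category.assoc, hs, ← Category.assoc, gen_comp, gen_comp]
        exact hO
      apply pullback.hom_ext
      · rw [← Corr.rmap_fst (v.obj U) f, reassoc_of% hy]
      · exact TrLB_pt_ext f.left (h' _ h2) rfl
          (h _ _ h2 (by rw [← gen_comp, h1, gen_comp])).symm h1)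
    ⟨d.1, TrLB_mem_congr (Corr.rmap_fst (v.obj U) f).symm d.2⟩ hb'
  obtain ⟨V, φ, y, e0, hφ, he0⟩ := hu.exists_nbhd (U := U) hg'
  refine ⟨V, φ, y, hφ, ?_⟩
  obtain ⟨e, he⟩ : ∃ e : (v.obj V).left ≅ W', (v.map φ).left = e.hom ≫ g' := ⟨e0, he0⟩
  have ha := H _ (pullback.fst (v.obj V).hom Y.hom ≫ e.hom) (Corr.lmap (v.map φ) Y) (by
    rw [Corr.rmap_fst]
    exact TrLB_pb (Corr.isPullback_lmap (v.map φ) Y) e he)
  change (QuotientAddGroup.mk (Corr.pull m (v.map φ) Y d) :
      _ ⧸ (Corr.push m (v.obj V) j).range) = 0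
  rw [QuotientAddGroup.eq_zero_iff, TrLB_mem_range]
  refine ha.trans fun t ht => ?_
  rw [← TrLB_lmap_snd (v.map φ) Y, Set.mem_preimage, Scheme.Hom.comp_apply, TrLB_range pb.flip,
    Set.mem_preimage, ← Scheme.Hom.comp_apply _ f.left, hs, Scheme.Hom.comp_apply]
  exact ht

end quot

/-- Local exactness of `rho` on elementary Nisnevich squares. Hint: `Cyc.exists_exc_surj`,
`Cyc.exists_exc_inj` for `W × X`, `W × Y`, `O = W × A` show that
`Corr W Y / Corr W B → Corr W X / Corr W A` is a local isomorphism of presheaves of abelian groups;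
then `LocInjA.coef`, `LocSurjA.coef`, right exactness of the tensor product and
`Cyc.lTensor_pushHom_injective`. -/
theorem locExact_rho [SepSite v] (hu : IsSite (v ⋙ Over.forget T))
    (hl : ∀ U : C, LocallyOfFiniteType (v.obj U).hom) (L : Type 1) [CommRing L] :
    LocExact (v ⋙ Over.forget T) ((trData m v L).ρ ⋙ rs L (gam m v)) := by
  have hmap : ∀ {A X : C} (i : A ⟶ X) (W : C) (a : L ⊗[ℤ] Corr m (v.obj W) (v.obj A)),
      (((trData m v L).ρ ⋙ rs L (gam m v)).map i).app (op W) a =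
        (ext1 L (Corr.push m (v.obj W) (v.map i))).hom a := fun i W a =>
    congrArg (fun k => (ext1 L k).hom a)
      (AddMonoidHom.ext fun c => Corr.comp_graph c (v.map i) :
        Corr.postHom (v.obj W) (Corr.graph m (v.map i)) = Corr.push m (v.obj W) (v.map i))
  have hres : ∀ (U : C) {W W' : C} (φ : W' ⟶ W) (a : L ⊗[ℤ] Corr m (v.obj W) (v.obj U)),
      (((trData m v L).ρ ⋙ rs L (gam m v)).obj U).map φ.op a =
        (ext1 L (Corr.pull m (v.map φ) (v.obj U))).hom a := fun U W W' φ a =>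
    congrArg (fun k => (ext1 L k).hom a)
      (AddMonoidHom.ext fun c => Corr.graph_comp (v.map φ) c :
        Corr.preHom (Corr.graph m (v.map φ)) (v.obj U) = Corr.pull m (v.map φ) (v.obj U))
  have hinj : ∀ {A X : C} (i : A ⟶ X), IsOpenImmersion (v.map i).left →
      LocInj (v ⋙ Over.forget T) (((trData m v L).ρ ⋙ rs L (gam m v)).map i) := by
    intro A X i hi W a ha
    have h1 : (ext1 L (Corr.push m (v.obj W) (v.map i))).hom a = 0 := (hmap i W a).symm.trans ha
    have h2 : a = 0 := Cyc.lTensor_pushHom_injective (m := m) (Corr.rmap (v.obj W) (v.map i))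
      (Corr.rmap_fst _ _) L (h1.trans (map_zero _).symm)
    rw [h2]
    exact Site_el_zero _ W
  have hw : ∀ S : NisSq (v ⋙ Over.forget T), v.map S.j ≫ v.map S.f = v.map S.g ≫ v.map S.i :=
    fun S => by rw [← v.map_comp, ← v.map_comp, S.w]
  have hS : ∀ S : NisSq (v ⋙ Over.forget T),
      LocSurjA (v ⋙ Over.forget T) (TrLB_phi m v (hw S)) := by
    intro S
    have h1 : IsOpenImmersion (v.map S.i).left := S.open_i
    have h2 : Etale (v.map S.f).left := S.etale_f
    have h3 := hl S.X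
    refine TrLB_surjA hu (hw S) fun x hx => ?_
    obtain ⟨y, hy, -⟩ := S.uniq x hx
    exact ⟨y, hy, S.res y (by rw [hy]; exact hx)⟩
  have hI : ∀ S : NisSq (v ⋙ Over.forget T),
      LocInjA (v ⋙ Over.forget T) (TrLB_phi m v (hw S)) := by
    intro S
    have h1 : IsOpenImmersion (v.map S.i).left := S.open_i
    have h2 : Etale (v.map S.f).left := S.etale_f
    exact TrLB_injA hu (hw S) S.pb (fun y y' hy e => (S.uniq _ hy).unique rfl e.symm) S.res
  refine ⟨fun U hU => ?_, fun S => hinj S.j ?_, fun S => hinj S.i S.open_i, ?_, ?_⟩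
  · refine (locZero_iff _).2 fun W a => ?_
    have h1 : IsEmpty (v.obj U).left := hU
    have h2 : IsEmpty ↑(pullback (v.obj W).hom (v.obj U).hom) :=
      Function.isEmpty (pullback.snd (v.obj W).hom (v.obj U).hom)
    have h3 : ∀ b : L ⊗[ℤ] Corr m (v.obj W) (v.obj U), b = 0 := fun b => by
      induction b using TensorProduct.induction_on with
      | zero => rfl
      | tmul l c => rw [Cyc.eq_zero_of_isEmpty c, tmul_zero]
      | add x y hx hy => rw [hx, hy, add_zero]
    have h4 : a = 0 := h3 a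
    rw [h4]
    exact Site_el_zero _ W
  · exact MorphismProperty.of_isPullback (P := @IsOpenImmersion) S.pb.flip S.open_i
  · intro S V a y hay x
    have h1 : (ext1 L (Corr.push m (v.obj V) (v.map S.i))).hom a =
        (ext1 L (Corr.push m (v.obj V) (v.map S.f))).hom y :=
      (hmap S.i V a).symm.trans (hay.trans (hmap S.f V y))
    have h2 : (Functor.whiskerRight (TrLB_phi m v (hw S)) (coef L)).app (op V)
        ((ext1 L (QuotientAddGroup.mk' (Corr.push m (v.obj V) (v.map S.j)).range)).hom y) = 0 := by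
      refine (TrLB_sq L (g := QuotientAddGroup.map _ _ (Corr.push m (v.obj V) (v.map S.f))
        (TrLB_push_le _ (hw S))) (f' := Corr.push m (v.obj V) (v.map S.f))
        (g' := QuotientAddGroup.mk' _) (fun _ => rfl) y).trans ?_
      rw [← h1]
      exact TrLB_zero L (fun c => (QuotientAddGroup.eq_zero_iff _).2
        (AddMonoidHom.mem_range.2 ⟨c, rfl⟩)) a
    refine (LocInjA.coef L (hI S) (hS S) V _ h2 x).mono fun V' φ hφ => ?_
    obtain ⟨b, hb⟩ := TrLB_exact L (Corr.push m (v.obj V') (v.map S.j))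
      ((ext1 L (Corr.pull m (v.map φ) (v.obj S.Y))).hom y)
      ((TrLB_sq L (g := QuotientAddGroup.map _ _ (Corr.pull m (v.map φ) (v.obj S.Y))
        (TrLB_pull_le _ (v.map S.j))) (f' := Corr.pull m (v.map φ) (v.obj S.Y))
        (g' := QuotientAddGroup.mk' _) (fun _ => rfl) y).symm.trans hφ)
    exact ⟨b, (hmap S.j V' b).trans (hb.trans (hres S.Y φ y).symm)⟩
  · intro S V z x
    refine (LocSurjA.coef L (hS S) V
      ((ext1 L (QuotientAddGroup.mk' (Corr.push m (v.obj V) (v.map S.i)).range)).hom z) x).mono ?_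
    rintro V' φ ⟨b, hb⟩
    obtain ⟨y, rfl⟩ := TrLB_surj L (Corr.push m (v.obj V') (v.map S.j)).range b
    have h1 := (TrLB_sq L (g := QuotientAddGroup.map _ _ (Corr.push m (v.obj V') (v.map S.f))
        (TrLB_push_le _ (hw S))) (f' := Corr.push m (v.obj V') (v.map S.f))
        (g' := QuotientAddGroup.mk' _) (fun _ => rfl) y).symm.trans (hb.trans
      (TrLB_sq L (g := QuotientAddGroup.map _ _ (Corr.pull m (v.map φ) (v.obj S.X))
        (TrLB_pull_le _ (v.map S.i))) (f' := Corr.pull m (v.map φ) (v.obj S.X))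
        (g' := QuotientAddGroup.mk' _) (fun _ => rfl) z))
    obtain ⟨a, ha⟩ := TrLB_exact L (Corr.push m (v.obj V') (v.map S.i))
      ((ext1 L (Corr.pull m (v.map φ) (v.obj S.X))).hom z -
        (ext1 L (Corr.push m (v.obj V') (v.map S.f))).hom y) (by rw [map_sub, h1, sub_self])
    refine ⟨a, y, ?_⟩
    have h2 : (ext1 L (Corr.push m (v.obj V') (v.map S.i))).hom a +
        (ext1 L (Corr.push m (v.obj V') (v.map S.f))).hom y =
        (ext1 L (Corr.pull m (v.map φ) (v.obj S.X))).hom z := by rw [ha, sub_add_cancel]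
    exact (congrArg₂ (· + ·) (hmap S.i V' a) (hmap S.f V' y)).trans (h2.trans (hres S.X φ z).symm)

end

end Pool.Agent.KEW
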