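import Pool.Agent.P.MP_6277db_ag.KEW.L3.Spc

/-!
The groups of finite and quasi-finite relative cycles with coefficients in the ring of rational
numbers whose denominator is prime to `m`.
-/

noncomputable section

open CategoryTheory Limits AlgebraicGeometry IsLocalRing Function

namespace Pool.Agent.KEW

variable {X X' X'' Y Y' W W' W'' : Scheme.{0}}

/-- Rational numbers with denominator prime to `m`. -/
def Lam0 (m : ℕ) : Subring ℚ where
  carrier := {q | Nat.Coprime q.den m}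
  mul_mem' {a b} ha hb :=
    Nat.Coprime.coprime_dvd_left (Rat.mul_den_dvd a b) (Nat.Coprime.mul_left ha hb)
  one_mem' := by simp
  add_mem' {a b} ha hb :=
    Nat.Coprime.coprime_dvd_left (Rat.add_den_dvd a b) (Nat.Coprime.mul_left ha hb)
  zero_mem' := by simp
  neg_mem' {a} ha := by simpa using ha

variable (m : ℕ)

/-- Quasi-finite relative cycles: the closure of the support has finite geometric fibres. -/
def QCyc (p : X ⟶ W) : AddSubgroup (X → ℚ) where
  carrier := {c | (∀ x, c x ∈ Lam0 m) ∧ Specialises p c ∧ GFin p (closure (support c))}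
  add_mem' ha hb := ⟨fun x => add_mem (ha.1 x) (hb.1 x),
    ha.2.1.add' hb.2.1 (ha.2.2.mono subset_closure) (hb.2.2.mono subset_closure),
    (ha.2.2.union hb.2.2).mono
      ((closure_mono (support_add _ _)).trans (by rw [closure_union]))⟩
  zero_mem' := ⟨fun _ => zero_mem _, Specialises.zero p, by simpa using GFin.empty⟩
  neg_mem' ha := ⟨fun x => neg_mem (ha.1 x), ha.2.1.neg, by simpa using ha.2.2⟩

variable {m}

theorem mem_Lam0 {q : ℚ} : q ∈ Lam0 m ↔ Nat.Coprime q.den m := Iff.rfl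

theorem mem_Cyc {p : X ⟶ W} [IsSeparated p] {c : X → ℚ} :
    c ∈ Cyc m p ↔ (∀ x, c x ∈ Lam0 m) ∧ Specialises p c ∧ FinOver p (support c) := Iff.rfl

theorem mem_QCyc {p : X ⟶ W} {c : X → ℚ} :
    c ∈ QCyc m p ↔ (∀ x, c x ∈ Lam0 m) ∧ Specialises p c ∧ GFin p (closure (support c)) := Iff.rfl

namespace Cyc

variable {p : X ⟶ W} [IsSeparated p]

theorem gfin (c : Cyc m p) : GFin p (support c.1) := c.2.2.2.gfin

theorem pull_mem {p' : X' ⟶ W'} [IsSeparated p'] {f : X' ⟶ X} {g : W' ⟶ W}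
    (sq : IsPullback f p' p g) {c : X → ℚ} (h : c ∈ Cyc m p) : c ∘ f ∈ Cyc m p' :=
  (Cyc.pull m sq ⟨c, h⟩).2

theorem push_mem {p' : X' ⟶ W} [IsSeparated p'] {f : X ⟶ X'} (hf : f ≫ p' = p)
    {c : X → ℚ} (h : c ∈ Cyc m p) : push f c ∈ Cyc m p' := by
  subst hf
  have : IsSeparated f := IsSeparated.of_comp f p'
  exact ⟨fun x => KEW.push_mem (Lam0 m).toAddSubgroup h.1 x,
    h.2.1.push h.2.2.of_comp h.2.2.gfin, (h.2.2.image _ _).mono support_push⟩

theorem mul_mem {q : Y ⟶ X} [IsSeparated q] {c : X → ℚ} {d : Y → ℚ} (h : c ∈ Cyc m p)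
    (hd : d ∈ Cyc m q) : (c ∘ q) * d ∈ Cyc m (q ≫ p) :=
  ⟨fun _ => (Lam0 m).mul_mem (h.1 _) (hd.1 _), h.2.1.mul hd.2.1 h.2.2.gfin hd.2.2.gfin,
    (h.2.2.comp hd.2.2).mono fun _ hx =>
      ⟨right_ne_zero_of_mul hx, (left_ne_zero_of_mul hx :)⟩⟩

variable (m) in
/-- Push forward of cycles along a map of separated `W`-schemes. -/
def pushHom {p' : X' ⟶ W} [IsSeparated p'] (f : X ⟶ X') (hf : f ≫ p' = p) :
    Cyc m p →+ Cyc m p' where
  toFun c := ⟨push f c.1, push_mem hf c.2⟩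
  map_zero' := Subtype.ext push_zero
  map_add' c c' := Subtype.ext
    (push_add (GFin.of_comp (q := p') (by rw [hf]; exact gfin c))
      (GFin.of_comp (q := p') (by rw [hf]; exact gfin c')))

@[simp] theorem pull_coe {p' : X' ⟶ W'} [IsSeparated p'] {f : X' ⟶ X} {g : W' ⟶ W}
    (sq : IsPullback f p' p g) (c : Cyc m p) : (pull m sq c).1 = c.1 ∘ f := rfl

@[simp] theorem pushHom_coe {p' : X' ⟶ W} [IsSeparated p'] (f : X ⟶ X')
    (hf : f ≫ p' = p) (c : Cyc m p) : (pushHom m f hf c).1 = push f c.1 := rfl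

end Cyc

end Pool.Agent.KEW
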