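import Pool.Agent.P.MP_6277db_ag.KEW.L3.Cyc

/-!
Further properties of the groups of relative cycles.
-/

noncomputable section

open CategoryTheory Limits AlgebraicGeometry IsLocalRing Function TensorProduct

namespace Pool.Agent.KEW

variable {X X' X'' Y Y' W W' W'' : Scheme.{0}} {m : ℕ}

theorem inv_mem_Lam0 {n : ℕ} (h : Nat.Coprime n m) : ((n : ℚ))⁻¹ ∈ Lam0 m := by
  rw [mem_Lam0, Rat.inv_natCast_den]
  split_ifs
  · simp
  · exact h

/-- If `m` is nonzero in a field then the exponential characteristic is invertible in `Lam0 m`. -/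
theorem inv_expChar_mem_Lam0 {k : Type} [Field k] (h : (m : k) ≠ 0) :
    ((ringExpChar k : ℚ))⁻¹ ∈ Lam0 m := by
  refine inv_mem_Lam0 ?_
  rcases expChar_is_prime_or_one k (ringExpChar k) with hp | hp
  · have hc : ExpChar k (ringExpChar k) := inferInstance
    rw [Nat.Prime.coprime_iff_not_dvd hp]
    intro hd
    generalize ringExpChar k = q at hc hp hd
    cases hc with
    | zero => exact Nat.not_prime_one hp
    | prime hq => exact h ((CharP.cast_eq_zero_iff k _ m).2 hd)
  · rw [hp]
    simp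

theorem CycL_indicator_val {c : X → ℚ} (h : ∀ x, c x ∈ Lam0 m) (S : Set X) (x : X) :
    S.indicator c x ∈ Lam0 m := by
  by_cases hx : x ∈ S
  · rw [Set.indicator_of_mem hx]
    exact h x
  · rw [Set.indicator_of_notMem hx]
    exact zero_mem _

theorem CycL_support_indicator (S : Set X) (c : X → ℚ) : support (S.indicator c) ⊆ support c := by
  rw [Set.support_indicator]
  exact Set.inter_subset_right

theorem CycL_support_nsmul {n : ℕ} (hn : n ≠ 0) (c : X → ℚ) : support (n • c) = support c := by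
  ext x
  simp [hn]

theorem CycL_tf_quot {G : Type} [AddCommGroup G] (H : AddSubgroup G)
    (h : ∀ n : ℕ, n ≠ 0 → ∀ c : G, n • c ∈ H → c ∈ H) : IsAddTorsionFree (G ⧸ H) := by
  refine ⟨fun n hn a b hab => ?_⟩
  obtain ⟨a, rfl⟩ := QuotientAddGroup.mk_surjective a
  obtain ⟨b, rfl⟩ := QuotientAddGroup.mk_surjective b
  refine QuotientAddGroup.eq_iff_sub_mem.2 (h n hn _ ?_)
  rw [nsmul_sub]
  exact QuotientAddGroup.eq_iff_sub_mem.1 hab

theorem CycL_lqf (p : X ⟶ W) [Etale p] : LocallyQuasiFinite p := by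
  refine ⟨fun hU V hV e => ?_⟩
  have h := p.etale_appLE hU hV e
  algebraize [(p.appLE _ V e).hom]
  unfold RingHom.QuasiFinite
  infer_instance

theorem CycL_closure_push {p : X ⟶ W} {p' : X' ⟶ W} [IsSeparated p] [IsSeparated p']
    (f : X ⟶ X') (hf : f ≫ p' = p) (c : Cyc m p) :
    closure (support (push f c.1)) ⊆ f '' closure (support c.1) := by
  refine closure_minimal (support_push.trans (Set.image_mono subset_closure))
    (FinOver.isClosed_image' (p := p') ?_ isClosed_closure)
  rw [hf]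
  exact c.2.2.2.closure

namespace Cyc

variable {p : X ⟶ W} [IsSeparated p]

theorem smul_mem {r : ℚ} (hr : r ∈ Lam0 m) {c : X → ℚ} (h : c ∈ Cyc m p) : r • c ∈ Cyc m p := by
  exact ⟨fun x => (Lam0 m).mul_mem hr (h.1 x), h.2.1.smul r,
    h.2.2.mono (Function.support_const_smul_subset r c)⟩

/-- A rational multiple of a cycle with values in `Lam0 m` is a cycle. -/
theorem smul_mem_of_val (r : ℚ) {c : X → ℚ} (h : c ∈ Cyc m p) (hr : ∀ x, r * c x ∈ Lam0 m) :
    r • c ∈ Cyc m p := by
  exact ⟨hr, h.2.1.smul r, h.2.2.mono (Function.support_const_smul_subset r c)⟩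

theorem le_QCyc : Cyc m p ≤ QCyc m p := by
  exact fun c h => ⟨h.1, h.2.1, h.2.2.closure.gfin⟩

theorem mem_of_QCyc {c : X → ℚ} (h : c ∈ QCyc m p) (hf : FinOver p (support c)) :
    c ∈ Cyc m p := by
  exact ⟨h.1, h.2.1, hf⟩

theorem one_mem (p : X ⟶ W) [Etale p] [IsFinite p] : (1 : X → ℚ) ∈ Cyc m p := by
  exact ⟨fun _ => (Lam0 m).one_mem, Specialises.one p, FinOver.of_isFinite p _⟩

theorem indicator_mem {S S' : Set X} {c : X → ℚ} (h : c ∈ Cyc m p) (hS : IsClosed S)
    (hS' : IsClosed S') (hd : Disjoint S S') (hc : support c ⊆ S ∪ S') :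
    S.indicator c ∈ Cyc m p := by
  exact ⟨CycL_indicator_val h.1 S, h.2.1.indicator hS hS' hd hc,
    h.2.2.mono (CycL_support_indicator S c)⟩

theorem restrict_mem {j : Y ⟶ X} [IsImmersion j] {c : X → ℚ} (h : c ∈ Cyc m p)
    (hc : closure (support c) ⊆ Set.range j) : c ∘ j ∈ Cyc m (j ≫ p) := by
  exact ⟨fun y => h.1 (j y), h.2.1.comp_immersion (subset_closure.trans hc),
    h.2.2.preimage hc⟩

theorem comp_finite_etale_mem {q : W ⟶ W'} [Etale q] [IsFinite q] {c : X → ℚ}
    (h : c ∈ Cyc m p) : c ∈ Cyc m (p ≫ q) := by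
  exact ⟨h.1, h.2.1.etale_base, h.2.2.comp_isFinite⟩

theorem eq_zero_of_isEmpty [IsEmpty X] (c : Cyc m p) : c = 0 := by
  exact Subtype.ext (funext fun x => isEmptyElim x)

instance : IsAddTorsionFree (Cyc m p) := by
  refine ⟨fun n hn a b hab => Subtype.ext ?_⟩
  exact nsmul_right_injective hn (congrArg Subtype.val hab : n • a.1 = n • b.1)

instance : Module.Flat ℤ (Cyc m p) := by
  infer_instance

theorem cycOff_inf (T T' : Set X) : CycOff m p T ⊓ CycOff m p T' = CycOff m p (T ∪ T') := by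
  ext c
  exact Set.disjoint_union_right.symm

theorem cycOff_anti {T T' : Set X} (h : T ⊆ T') : CycOff m p T' ≤ CycOff m p T := by
  exact fun c hc => Set.disjoint_of_subset_right h hc

theorem nsmul_mem_cycOff_iff {T : Set X} {n : ℕ} (hn : n ≠ 0) (c : Cyc m p) :
    n • c ∈ CycOff m p T ↔ c ∈ CycOff m p T := by
  change Disjoint (closure (support (n • c.1))) T ↔ Disjoint (closure (support c.1)) T
  rw [CycL_support_nsmul hn]

instance (T : Set X) : Module.Flat ℤ (Cyc m p ⧸ CycOff m p T) := by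
  have := CycL_tf_quot (CycOff m p T) fun n hn c hc => (nsmul_mem_cycOff_iff hn c).1 hc
  infer_instance

instance (T T' : Set X) :
    Module.Flat ℤ (CycOff m p T ⧸ (CycOff m p T').addSubgroupOf (CycOff m p T)) := by
  have := CycL_tf_quot ((CycOff m p T').addSubgroupOf (CycOff m p T))
    fun n hn c hc => (nsmul_mem_cycOff_iff hn c.1).1 hc
  infer_instance

section

variable {p' : X' ⟶ W} [IsSeparated p'] (f : X ⟶ X') (hf : f ≫ p' = p)

theorem pushHom_injective [Mono f] : Function.Injective (pushHom m f hf) := by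
  exact fun a b hab => Subtype.ext (push_injective_of_mono (congrArg Subtype.val hab))

theorem mem_range_pushHom [IsImmersion f] (c : Cyc m p') :
    c ∈ (pushHom m f hf).range ↔ closure (support c.1) ⊆ Set.range f := by
  constructor
  · rintro ⟨d, rfl⟩
    exact (CycL_closure_push f hf d).trans (Set.image_subset_range _ _)
  · intro hc
    subst hf
    exact ⟨⟨c.1 ∘ f, restrict_mem c.2 hc⟩,
      Subtype.ext (push_comp_of_mono (subset_closure.trans hc))⟩

instance [IsImmersion f] : IsAddTorsionFree (Cyc m p' ⧸ (pushHom m f hf).range) := by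
  refine CycL_tf_quot _ fun n hn c hc => ?_
  rw [mem_range_pushHom] at hc ⊢
  rwa [← CycL_support_nsmul hn]

instance [IsImmersion f] : Module.Flat ℤ (Cyc m p' ⧸ (pushHom m f hf).range) := by
  infer_instance

/-- Extension by zero stays injective with coefficients
(`LinearMap.lTensor_injective_of_exact_of_flat`). -/
theorem lTensor_pushHom_injective [IsImmersion f] (L : Type 1) [AddCommGroup L] :
    Function.Injective (LinearMap.lTensor L (pushHom m f hf).toIntLinearMap) := by
  refine LinearMap.lTensor_injective_of_exact_of_flat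
    (QuotientAddGroup.mk' (pushHom m f hf).range).toIntLinearMap
    (QuotientAddGroup.mk'_surjective _) _ (pushHom_injective f hf) (fun c => ?_) L
  exact QuotientAddGroup.eq_zero_iff c

theorem range_pushHom [IsImmersion f] :
    (pushHom m f hf).range = CycOff m p' (Set.range f)ᶜ := by
  ext c
  rw [mem_range_pushHom]
  exact Set.disjoint_compl_right_iff_subset.symm

theorem pushHom_mem_cycOff {T : Set X} {T' : Set X'} (h : f ⁻¹' T' ⊆ T) {c : Cyc m p}
    (hc : c ∈ CycOff m p T) : pushHom m f hf c ∈ CycOff m p' T' := by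
  refine Set.disjoint_left.2 fun x hx hx' => ?_
  obtain ⟨y, hy, rfl⟩ := CycL_closure_push f hf c hx
  exact Set.disjoint_left.1 hc hy (h hx')

theorem mem_cycOff_of_pushHom [Mono f] {T' : Set X'} {c : Cyc m p}
    (hc : pushHom m f hf c ∈ CycOff m p' T') : c ∈ CycOff m p (f ⁻¹' T') := by
  refine Set.disjoint_left.2 fun x hx hx' => Set.disjoint_left.1 hc ?_ hx'
  change f x ∈ closure (support (push f c.1))
  rw [support_push_of_mono]
  exact image_closure_subset_closure_image f.continuous ⟨x, hx, rfl⟩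

theorem ext0_eq_pushHom [IsClosedImmersion f] : Cyc.ext0 m f hf = pushHom m f hf := by
  exact AddMonoidHom.ext fun c => Subtype.ext push_eq_extend.symm

theorem pushHom_pushHom {p'' : X'' ⟶ W} [IsSeparated p''] (g : X' ⟶ X'') (hg : g ≫ p'' = p')
    (c : Cyc m p) : pushHom m g hg (pushHom m f hf c) =
      pushHom m (f ≫ g) (by rw [Category.assoc, hg, hf]) c := by
  refine Subtype.ext (push_comp (GFin.of_comp (q := p'') ?_)).symm
  rw [Category.assoc, hg, hf]
  exact gfin c

/-- Base change commutes with push forward. -/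
theorem pull_pushHom {q : Y ⟶ W'} {q' : Y' ⟶ W'} [IsSeparated q] [IsSeparated q'] {a : Y ⟶ X}
    {b : Y' ⟶ X'} {g : W' ⟶ W} (sa : IsPullback a q p g) (sb : IsPullback b q' p' g)
    (f' : Y ⟶ Y') (hf' : f' ≫ q' = q) (h : f' ≫ b = a ≫ f) (c : Cyc m p) :
    pull m sb (pushHom m f hf c) = pushHom m f' hf' (pull m sa c) := by
  have sq : IsPullback a f' f b := by
    refine IsPullback.of_bot ?_ h.symm sb
    rw [hf, hf']
    exact sa
  refine Subtype.ext (push_pullback sq (GFin.of_comp (q := p') ?_))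
  rw [hf]
  exact gfin c

end

theorem pushHom_id (c : Cyc m p) : pushHom m (𝟙 X) (Category.id_comp p) c = c := by
  exact Subtype.ext push_id

/-- Radicial invariance. -/
theorem pull_bijective [LocallyOfFiniteType p] {p' : X' ⟶ W'} [IsSeparated p'] {f : X' ⟶ X}
    {g : W' ⟶ W} (sq : IsPullback f p' p g) [IsIntegralHom g] [AlgebraicGeometry.Surjective g]
    [UniversallyInjective g] : Function.Bijective (pull m sq) := by
  have h1 : AlgebraicGeometry.Surjective f :=
    MorphismProperty.of_isPullback (P := @AlgebraicGeometry.Surjective) sq.flip ‹_›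
  have h2 : UniversallyInjective f :=
    MorphismProperty.of_isPullback (P := @UniversallyInjective) sq.flip ‹_›
  have hs : Function.Surjective f := f.surjective
  have hi : Function.Injective f := f.injective
  refine ⟨fun a b hab => Subtype.ext (hs.injective_comp_right (congrArg Subtype.val hab)),
    fun d => ?_⟩
  have e : Function.extend f d.1 0 ∘ f = d.1 := Function.extend_comp hi _ _
  refine ⟨⟨Function.extend f d.1 0, fun x => ?_, Specialises.of_radicial sq ?_,
    FinOver.of_radicial sq ?_⟩, Subtype.ext e⟩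
  · obtain ⟨y, rfl⟩ := hs x
    rw [hi.extend_apply]
    exact d.2.1 y
  · rw [e]
    exact d.2.2.1
  · rw [← Function.support_comp_eq_preimage, e]
    exact d.2.2.2

/-- An element of `Z / m ⊗ Cyc` given by a cycle vanishes iff all values are divisible by `m`. -/
theorem exists_nsmul_iff (hm : m ≠ 0) (c : Cyc m p) :
    (∃ d : Cyc m p, m • d = c) ↔ ∀ x, c.1 x / m ∈ Lam0 m := by
  have hm' : (m : ℚ) ≠ 0 := Nat.cast_ne_zero.2 hm
  constructor
  · rintro ⟨d, rfl⟩ x
    have : (m • d).1 x / m = d.1 x := by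
      change (m • d.1 x) / m = d.1 x
      rw [nsmul_eq_mul, mul_div_cancel_left₀ _ hm']
    rw [this]
    exact d.2.1 x
  · intro h
    refine ⟨⟨(m : ℚ)⁻¹ • c.1, smul_mem_of_val _ c.2 fun x => ?_⟩, Subtype.ext (funext fun x => ?_)⟩
    · rw [inv_mul_eq_div]
      exact h x
    · change m • ((m : ℚ)⁻¹ * c.1 x) = c.1 x
      rw [nsmul_eq_mul, mul_inv_cancel_left₀ hm']

end Cyc

namespace QCyc

variable {p : X ⟶ W}

theorem pull_mem {p' : X' ⟶ W'} {f : X' ⟶ X} {g : W' ⟶ W} (sq : IsPullback f p' p g)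
    {c : X → ℚ} (h : c ∈ QCyc m p) : c ∘ f ∈ QCyc m p' := by
  exact ⟨fun x => h.1 (f x), h.2.1.pull sq,
    (h.2.2.pullback sq).mono (f.continuous.closure_preimage_subset (support c))⟩

theorem mul_mem {q : Y ⟶ X} {c : X → ℚ} {d : Y → ℚ} (h : c ∈ QCyc m p) (hd : d ∈ QCyc m q) :
    (c ∘ q) * d ∈ QCyc m (q ≫ p) := by
  refine ⟨fun _ => (Lam0 m).mul_mem (h.1 _) (hd.1 _),
    h.2.1.mul hd.2.1 (h.2.2.mono subset_closure) (hd.2.2.mono subset_closure),
    (h.2.2.comp hd.2.2).mono (closure_minimal (fun x hx => ?_)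
      (isClosed_closure.inter (isClosed_closure.preimage q.continuous)))⟩
  exact ⟨subset_closure (right_ne_zero_of_mul hx), subset_closure (left_ne_zero_of_mul hx :)⟩

theorem one_mem (p : X ⟶ W) [Etale p] [QuasiCompact p] : (1 : X → ℚ) ∈ QCyc m p := by
  have := CycL_lqf p
  exact ⟨fun _ => (Lam0 m).one_mem, Specialises.one p, GFin.of_locallyQuasiFinite p _⟩

theorem comp_etale_mem {q : Y ⟶ X} [Etale q] [QuasiCompact q] {c : X → ℚ} (h : c ∈ QCyc m p) :
    c ∘ q ∈ QCyc m (q ≫ p) := by
  have := CycL_lqf q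
  refine ⟨fun y => h.1 (q y), h.2.1.comp_etale,
    (h.2.2.comp (GFin.of_locallyQuasiFinite q Set.univ)).mono fun x hx => ⟨trivial, ?_⟩⟩
  exact q.continuous.closure_preimage_subset _ hx

theorem etale_base_mem {q : W ⟶ W'} [Etale q] [QuasiCompact q] {c : X → ℚ} (h : c ∈ QCyc m p) :
    c ∈ QCyc m (p ≫ q) := by
  have := CycL_lqf q
  exact ⟨h.1, h.2.1.etale_base,
    ((GFin.of_locallyQuasiFinite q Set.univ).comp h.2.2).mono fun x hx => ⟨hx, trivial⟩⟩

theorem push_mem {f : X ⟶ X'} {p' : X' ⟶ W} [IsSeparated f] {c : X → ℚ}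
    (h : c ∈ QCyc m (f ≫ p')) (hf : FinOver f (support c)) : push f c ∈ QCyc m p' := by
  refine ⟨fun x => KEW.push_mem (Lam0 m).toAddSubgroup h.1 x,
    h.2.1.push hf (h.2.2.mono subset_closure), h.2.2.image.mono (closure_minimal ?_ ?_)⟩
  · exact support_push.trans (Set.image_mono subset_closure)
  · exact hf.closure.isClosed_image isClosed_closure

theorem indicator_mem {S S' : Set X} {c : X → ℚ} (h : c ∈ QCyc m p) (hS : IsClosed S)
    (hS' : IsClosed S') (hd : Disjoint S S') (hc : support c ⊆ S ∪ S') :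
    S.indicator c ∈ QCyc m p := by
  exact ⟨CycL_indicator_val h.1 S, h.2.1.indicator hS hS' hd hc,
    h.2.2.mono (closure_mono (CycL_support_indicator S c))⟩

theorem smul_mem_of_val (r : ℚ) {c : X → ℚ} (h : c ∈ QCyc m p) (hr : ∀ x, r * c x ∈ Lam0 m) :
    r • c ∈ QCyc m p := by
  exact ⟨hr, h.2.1.smul r,
    h.2.2.mono (closure_mono (Function.support_const_smul_subset r c))⟩

end QCyc

end Pool.Agent.KEW
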