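import Pool.Agent.P.MP_6277db_ag.KEW.L3.DivE

/-!
The rules for the divisor of a function on a relative cycle over the affine line.
-/

noncomputable section

open CategoryTheory Limits AlgebraicGeometry IsLocalRing Function Polynomial

namespace Pool.Agent.KEW

variable {X X' Y T T' : Scheme.{0}} {m : ℕ} {p : X ⟶ T} {u φ ψ : Γ(X, ⊤)} {c c' : X → ℚ}

theorem DivR1_congr {α : Type} {S S' : Set α} {f g : α → ℚ}
    (h : ∀ a, a ∈ S → f a ≠ 0 → a ∈ S') (h' : ∀ a, a ∈ S' → g a ≠ 0 → a ∈ S)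
    (e : ∀ a, a ∈ S → a ∈ S' → f a = g a) : ∑ᶠ a ∈ S, f a = ∑ᶠ a ∈ S', g a := by
  rw [finsum_mem_inter_support_eq' f S (S ∩ S') fun a ha => ⟨fun h1 => ⟨h1, h a h1 ha⟩, And.left⟩,
    finsum_mem_inter_support_eq' g S' (S ∩ S') fun a ha =>
      ⟨fun h1 => ⟨h' a h1 ha, h1⟩, And.right⟩]
  exact finsum_mem_congr rfl fun a ha => e a ha.1 ha.2

/-- Summation along the fibres of a map. -/
theorem DivR1_fib {α β : Type} (π : α → β) {S : Set α} {S' : Set β} (hπ : Set.MapsTo π S S')
    {F : β → ℚ} {G : α → ℚ} (hT : (S' ∩ support F).Finite)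
    (hS : ∀ b ∈ S', ({a | a ∈ S ∧ π a = b} ∩ support G).Finite) {r : ℚ}
    (hr : ∀ b ∈ S', ∑ᶠ a ∈ {a | a ∈ S ∧ π a = b}, G a = r) :
    ∑ᶠ a ∈ S, F (π a) * G a = (∑ᶠ b ∈ S', F b) * r := by
  have h1 : (S' ∩ support F).PairwiseDisjoint fun b => {a | a ∈ S ∧ π a = b} ∩ support G :=
    fun b _ b' _ hb => Set.disjoint_left.2 fun a ha ha' => hb (ha.1.2.symm.trans ha'.1.2)
  rw [finsum_mem_inter_support_eq' _ S
      (⋃ b ∈ S' ∩ support F, {a | a ∈ S ∧ π a = b} ∩ support G) fun a ha => ⟨fun h =>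
        Set.mem_biUnion (x := π a) ⟨hπ h, left_ne_zero_of_mul ha⟩
          ⟨⟨h, rfl⟩, right_ne_zero_of_mul ha⟩, fun h => by
        obtain ⟨b, -, hb⟩ := Set.mem_iUnion₂.1 h
        exact hb.1.1⟩,
    finsum_mem_biUnion h1 hT fun b hb => hS b hb.1, ← finsum_mem_inter_support F,
    finsum_mem_mul]
  refine finsum_mem_congr rfl fun b hb => ?_
  rw [← hr b hb.1, ← finsum_mem_inter_support G, mul_finsum_mem]
  exact finsum_mem_congr rfl fun a ha => by rw [ha.1.2]

section

variable {k O : Type} [Field k] [CommRing O] [IsDomain O] [IsLocalRing O]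

theorem DivR1_gen (j : k →+* O) (z : Spec (.of k) ⟶ X) : gen (spm j ≫ z) = gen z :=
  gen_spm_comp j.injective z

omit [IsDomain O] in
theorem DivR1_gen_res (j : k →+* O) (z : Spec (.of k) ⟶ X) :
    gen (resPt O ≫ spm j ≫ z) = gen z := by
  rw [← Category.assoc, show resPt O ≫ spm j = spm ((residue O).comp j) from spm_comp _ _]
  exact gen_spm_comp (RingHom.injective _) z

omit [IsDomain O] in
theorem DivR1_unit (x : Spec (.of O) ⟶ X) (a : Γ(X, ⊤)) :
    gen (resPt O ≫ x) ∉ zl a ↔ IsUnit (ev x a) := by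
  rw [← residue_ne_zero_iff_isUnit, ← ev_spm_comp (residue O) x a]
  exact not_congr (gen_mem_zeroLocus _ _)

theorem DivR1_fin (h : GFin (lineMap p u) (support c)) (z : Spec (.of O) ⟶ X) (e : O)
    (w : (Spec (.of O) ⟶ X) → ℚ) :
    ({x : Spec (.of O) ⟶ X | x ≫ p = z ≫ p ∧ ev x u = ev z u + e ∧ resPt O ≫ x = resPt O ≫ z} ∩
      support fun x => c (gen x) * w x).Finite :=
  (h.finite_lifts (lineMap (z ≫ p) (fn (ev z u + e))) (resPt O ≫ z)).subset fun x hx =>
    ⟨(comp_lineMap_eq_iff' p u x _ _).2 ⟨hx.1.1, hx.1.2.1⟩, hx.1.2.2, left_ne_zero_of_mul hx.2⟩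

theorem DivR1_pullback {p' : X' ⟶ T'} {f : X' ⟶ X} {g : T' ⟶ T} (sq : IsPullback f p' p g)
    (z : Spec (.of O) ⟶ X') (e : O) :
    dv p' (f.appTop u) (f.appTop φ) (c ∘ f) z e = dv p u φ c (z ≫ f) e := by
  refine finsum_mem_eq_of_bijOn (fun x => x ≫ f) ⟨fun x hx => ⟨?_, ?_, ?_⟩,
    fun x hx x' hx' h => sq.hom_ext h (hx.1.trans hx'.1.symm), fun x hx => ?_⟩ fun x _ => ?_
  · rw [Category.assoc, Category.assoc, sq.w, ← Category.assoc, hx.1, Category.assoc]
  · rw [ev_comp, ev_comp, hx.2.1]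
  · rw [← Category.assoc, hx.2.2, Category.assoc]
  · have h1 : x ≫ p = (z ≫ p') ≫ g := by rw [hx.1, Category.assoc, sq.w, Category.assoc]
    refine ⟨sq.lift x (z ≫ p') h1, ⟨sq.lift_snd _ _ _, ?_, sq.hom_ext ?_ ?_⟩, sq.lift_fst _ _ _⟩
    · rw [← ev_comp, sq.lift_fst, hx.2.1, ev_comp]
    · rw [Category.assoc, sq.lift_fst, hx.2.2, Category.assoc]
    · rw [Category.assoc, sq.lift_snd, Category.assoc]
  · rw [Function.comp_apply, gen_comp, ev_comp]

end

theorem DivR1_comp {q : Y ⟶ X} {d : Y → ℚ} (h : DivOK m p u φ c) (hd : Specialises q d)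
    (hf : ∀ (O : Type) [CommRing O] [IsDomain O] [ValuationRing O] [IsAlgClosed (FractionRing O)]
      (x : Spec (.of O) ⟶ X) (y : Spec (.of (ResidueField O)) ⟶ Y), y ≫ q = resPt O ≫ x →
      {y' : Spec (.of O) ⟶ Y | y' ≫ q = x ∧ resPt O ≫ y' = y ∧ gen y' ∈ support d}.Finite) :
    Div (q ≫ p) (q.appTop u) (q.appTop φ) ((c ∘ q) * d) = (Div p u φ c ∘ q) * d := by
  funext y
  have h1 := Div_eq h (geo y ≫ q) (datJ (geoF y)) (datE_ne_zero _) (datE_not_isUnit _)
  rw [gen_comp, gen_geo, ← Category.assoc] at h1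
  rw [Pi.mul_apply, Function.comp_apply, h1, Div]
  have h2 : gen (resPt _ ≫ spm (datJ (geoF y)) ≫ geo y) = y := by rw [DivR1_gen_res, gen_geo]
  generalize spm (datJ (geoF y)) ≫ geo y = z at h2 ⊢
  generalize datE (geoF y) = e
  have h3 : ∀ x ∈ {x : Spec (.of (datV (geoF y))) ⟶ X | x ≫ p = (z ≫ q) ≫ p ∧
      ev x u = ev (z ≫ q) u + e ∧ resPt _ ≫ x = resPt _ ≫ z ≫ q},
      {a | a ∈ {x : Spec (.of (datV (geoF y))) ⟶ Y | x ≫ q ≫ p = z ≫ q ≫ p ∧
        ev x (q.appTop u) = ev z (q.appTop u) + e ∧ resPt _ ≫ x = resPt _ ≫ z} ∧ a ≫ q = x} =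
      {a | a ≫ q = x ∧ resPt _ ≫ a = resPt _ ≫ z} := fun x hx => by
    refine Set.ext fun a => ⟨fun ha => ⟨ha.2, ha.1.2.2⟩, fun ha => ⟨⟨?_, ?_, ha.2⟩, ha.1⟩⟩
    · rw [← Category.assoc, ha.1, hx.1, Category.assoc]
    · rw [← ev_comp, ← ev_comp, ha.1, hx.2.1]
  refine Eq.trans ?_ (DivR1_fib (fun a => a ≫ q) (G := fun a => d (gen a))
    (S := {x : Spec (.of (datV (geoF y))) ⟶ Y | x ≫ q ≫ p = z ≫ q ≫ p ∧
        ev x (q.appTop u) = ev z (q.appTop u) + e ∧ resPt _ ≫ x = resPt _ ≫ z})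
    (fun a ha => ?_) (DivR1_fin (h.mem.2.2.mono subset_closure) _ _ _)
    (fun x hx => ?_) (fun x hx => ?_))
  · refine finsum_mem_congr rfl fun a _ => ?_
    rw [Pi.mul_apply, Function.comp_apply, gen_comp, ev_comp]
    ring
  · refine ⟨?_, ?_, ?_⟩
    · rw [Category.assoc, ha.1, Category.assoc]
    · rw [ev_comp, ev_comp, ha.2.1]
    · rw [← Category.assoc, ha.2.2, Category.assoc]
  · rw [h3 x hx]
    exact (hf _ x (resPt _ ≫ z) (by rw [hx.2.2, Category.assoc])).subset
      fun a ha => ⟨ha.1.1, ha.1.2, ha.2⟩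
  · have h4 := hd _ x (resPt _ ≫ z) (by rw [hx.2.2, Category.assoc])
    rw [h3 x hx, ← finsum_set_coe_eq_finsum_mem]
    exact h4.symm.trans (congrArg d h2)

theorem support_Div : support (Div p u φ c) ⊆ closure (support c) ∩ zl φ := by
  intro x hx
  by_contra hc
  refine hx (finsum_mem_eq_zero_of_forall_eq_zero fun y hy => ?_)
  have h1 : gen (resPt _ ≫ y) = x := by rw [hy.2.2, DivR1_gen_res, gen_geo]
  by_contra h
  refine hc ⟨h1 ▸ gen_res_mem y isClosed_closure (subset_closure (left_ne_zero_of_mul h)), ?_⟩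
  by_contra h2
  exact right_ne_zero_of_mul h (ord_of_isUnit (datE_ne_zero _) (datE_not_isUnit _)
    ((DivR1_unit y φ).1 (by rwa [h1])))

theorem Div_mem (h : DivOK m p u φ c) : Div p u φ c ∈ QCyc m p :=   ⟨Div_val h, Div_specialises h, h.fin.mono
    (closure_minimal support_Div (isClosed_closure.inter (X.zeroLocus_isClosed _)))⟩

theorem Div_mem_Cyc [IsSeparated p] (h : DivOK m p u φ c)
    (hf : FinOver p (closure (support c) ∩ zl φ)) :
    Div p u φ c ∈ Cyc m p :=   ⟨Div_val h, Div_specialises h, hf.mono support_Div⟩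

theorem Div_zero : Div p u φ 0 = 0 := by
  funext x
  exact finsum_mem_eq_zero_of_forall_eq_zero fun y _ => zero_mul _

theorem Div_add (h : GFin (lineMap p u) (support c)) (h' : GFin (lineMap p u) (support c')) :
    Div p u φ (c + c') = Div p u φ c + Div p u φ c' := by
  funext x
  refine Eq.trans ?_ (finsum_mem_add_distrib' (DivR1_fin h _ _ _) (DivR1_fin h' _ _ _))
  exact finsum_mem_congr rfl fun y _ => add_mul _ _ _

theorem Div_neg : Div p u φ (-c) = -Div p u φ c := by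
  funext x
  simp only [Div, dv, Pi.neg_apply, neg_mul, finsum_neg_distrib]

theorem Div_smul (r : ℚ) : Div p u φ (r • c) = r • Div p u φ c := by
  funext x
  refine Eq.trans ?_ (mul_finsum_mem _ r).symm
  exact finsum_mem_congr rfl fun y _ => mul_assoc _ _ _

theorem Div_mul (h : DivOK m p u φ c) (h' : DivOK m p u ψ c) :
    Div p u (φ * ψ) c = Div p u φ c + Div p u ψ c := by
  funext x
  have hf := h.mem.2.2.mono subset_closure
  refine Eq.trans ?_ (finsum_mem_add_distrib' (DivR1_fin hf _ _ _) (DivR1_fin hf _ _ _))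
  refine finsum_mem_congr rfl fun y hy => ?_
  by_cases hc : c (gen y) = 0
  · simp only [hc, zero_mul, add_zero]
  have h1 : y ≫ p = spm (datJ (geoF x)) ≫ geo x ≫ p := by rw [hy.1, Category.assoc]
  have h2 : ev y u = datJ (geoF x) (ev (geo x) u) + datE (geoF x) := by rw [hy.2.1, ev_spm_comp]
  rw [map_mul, ord_mul (datE_ne_zero _) (datE_not_isUnit _)
    (h.comm _ _ (datE_ne_zero _) (datE_not_isUnit _) y h1 h2 (subset_closure hc))
    (h'.comm _ _ (datE_ne_zero _) (datE_not_isUnit _) y h1 h2 (subset_closure hc)), mul_add]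

theorem Div_mul_apply_of_notMem {x : X} (hx : x ∉ zl ψ) :
    Div p u (ψ * φ) c x = Div p u φ c x := by
  refine finsum_mem_congr rfl fun y hy => ?_
  have h1 : gen (resPt _ ≫ y) = x := by rw [hy.2.2, DivR1_gen_res, gen_geo]
  rw [map_mul, ord_congr (datE_ne_zero _) (datE_not_isUnit _)
    (associated_unit_mul_left _ _ ((DivR1_unit y ψ).1 (by rwa [h1])))]

theorem Div_unit_mul (h : IsUnit ψ) : Div p u (ψ * φ) c = Div p u φ c := by
  funext x
  refine finsum_mem_congr rfl fun y _ => ?_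
  rw [map_mul, ord_congr (datE_ne_zero _) (datE_not_isUnit _)
    (associated_unit_mul_left _ _ (h.map _))]

/-- Only the values of `u` and `φ` on the support matter. -/
theorem Div_congr {u' : Γ(X, ⊤)} (hu : support c ⊆ zl (u - u'))
    (h : support c ⊆ zl (φ - ψ)) : Div p u φ c = Div p u' ψ c := by
  funext x
  have key : ∀ y : Spec (.of (datV (geoF x))) ⟶ X,
      resPt _ ≫ y = resPt _ ≫ spm (datJ (geoF x)) ≫ geo x → c (gen y) ≠ 0 →
      ev y u = ev y u' ∧ ev (spm (datJ (geoF x)) ≫ geo x) u =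
        ev (spm (datJ (geoF x)) ≫ geo x) u' := fun y hy hc => by
    have h1 := gen_res_mem y (X.zeroLocus_isClosed _) (hu hc)
    rw [hy, DivR1_gen_res, ← DivR1_gen (datJ (geoF x))] at h1
    have h2 := (gen_mem_zeroLocus _ _).1 h1
    have h3 := (gen_mem_zeroLocus _ _).1 (hu hc)
    rw [map_sub, sub_eq_zero] at h2 h3
    exact ⟨h3, h2⟩
  refine DivR1_congr (fun y hy hc => ?_) (fun y hy hc => ?_) fun y _ _ => ?_
  · obtain ⟨h1, h2⟩ := key y hy.2.2 (left_ne_zero_of_mul hc)
    exact ⟨hy.1, by rw [← h1, ← h2, hy.2.1], hy.2.2⟩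
  · obtain ⟨h1, h2⟩ := key y hy.2.2 (left_ne_zero_of_mul hc)
    exact ⟨hy.1, by rw [h1, h2, hy.2.1], hy.2.2⟩
  · by_cases hc : c (gen y) = 0
    · rw [hc, zero_mul, zero_mul]
    have h3 := (gen_mem_zeroLocus _ _).1 (h hc)
    rw [map_sub, sub_eq_zero] at h3
    rw [h3]

/-- Base change. -/
theorem Div_pullback {p' : X' ⟶ T'} {f : X' ⟶ X} {g : T' ⟶ T} (sq : IsPullback f p' p g)
    (h : DivOK m p u φ c) :
    Div p' (f.appTop u) (f.appTop φ) (c ∘ f) = Div p u φ c ∘ f := by
  funext x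
  have h1 := Div_eq h (geo x ≫ f) (datJ (geoF x)) (datE_ne_zero _) (datE_not_isUnit _)
  rw [gen_comp, gen_geo, ← Category.assoc] at h1
  rw [Function.comp_apply, h1, Div, DivR1_pullback sq]

/-- Composition with a cycle on `Y / X`. -/
theorem Div_comp_mul {q : Y ⟶ X} {d : Y → ℚ} (h : DivOK m p u φ c) (hd : Specialises q d)
    (hf : GFin q (support d)) :
    Div (q ≫ p) (q.appTop u) (q.appTop φ) ((c ∘ q) * d) = (Div p u φ c ∘ q) * d :=
  DivR1_comp h hd fun _ _ _ _ _ x y _ => hf.finite_lifts x y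

/-- The construction is etale local. -/
theorem Div_etale (q : Y ⟶ X) [Etale q] (h : DivOK m p u φ c) :
    Div (q ≫ p) (q.appTop u) (q.appTop φ) (c ∘ q) = Div p u φ c ∘ q := by
  have h1 := DivR1_comp h (Specialises.one q) fun O _ _ _ _ x y hy =>
    Set.Subsingleton.finite fun a ha b hb =>
      (lift_etale q x y hy).unique ⟨ha.1, ha.2.1⟩ ⟨hb.1, hb.2.1⟩
  rwa [mul_one, mul_one] at h1

/-- Composition with a cycle on the base (`GFin.const`). -/
theorem Div_base_mul {p0 : T ⟶ T'} {c0 : T → ℚ} (h : GFin p0 (support c0)) :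
    Div (p ≫ p0) u φ ((c0 ∘ p) * c) = (c0 ∘ p) * Div p u φ c := by
  funext x
  refine Eq.trans ?_ (mul_finsum_mem _ (c0 (p x))).symm
  refine DivR1_congr (fun y hy hc => ⟨?_, hy.2⟩) (fun y hy _ => ⟨?_, hy.2⟩) fun y _ hy => ?_
  · rw [Category.assoc]
    refine h.const (datJ (geoF x)) (geo x ≫ p) (y ≫ p) ?_ ?_ ?_
    · simpa only [Category.assoc] using hy.1
    · rw [← Category.assoc, hy.2.2, Category.assoc, Category.assoc]
    · rw [gen_comp]
      exact left_ne_zero_of_mul (left_ne_zero_of_mul hc)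
  · rw [← Category.assoc, hy.1, Category.assoc]
  · have h1 : p (gen y) = p x := by rw [← gen_comp, hy.1, gen_comp, DivR1_gen, gen_geo]
    rw [Pi.mul_apply, Function.comp_apply, h1, mul_assoc]

theorem DivR2_fubini {α β : Type*} {W : Set α} {F : α → ℚ} (hfin : (W ∩ support F).Finite)
    (π : α → β) (S : Set β) (hS : ∀ w ∈ W, F w ≠ 0 → π w ∈ S) :
    ∑ᶠ w ∈ W, F w = ∑ᶠ b ∈ S, ∑ᶠ w ∈ {w | w ∈ W ∧ π w = b}, F w := by
  classical
  have h1 : ∀ b, ∑ᶠ w ∈ {w | w ∈ W ∧ π w = b}, F w =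
      ∑ w ∈ hfin.toFinset with π w = b, F w := fun b =>
    finsum_mem_eq_sum_of_inter_support_eq _ (by
      ext w
      simp only [Set.mem_inter_iff, Set.mem_ofPred_eq, Finset.coe_filter, Set.Finite.mem_toFinset]
      tauto)
  rw [finsum_mem_eq_sum_of_inter_support_eq F (t := hfin.toFinset) (by simp),
    ← Finset.sum_fiberwise_of_maps_to (t := hfin.toFinset.image π) (g := π)
      fun w hw => Finset.mem_image_of_mem π hw]
  simp only [h1]
  refine (finsum_mem_eq_sum_of_inter_support_eq _ (Set.ext fun b => ?_)).symm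
  refine and_congr_left fun hb => ?_
  obtain ⟨w, hw, hw'⟩ := Finset.exists_ne_zero_of_sum_ne_zero hb
  obtain ⟨hw1, rfl⟩ := Finset.mem_filter.1 hw
  exact iff_of_true (hS w (hfin.mem_toFinset.1 hw1).1 hw')
    (Finset.mem_coe.2 (Finset.mem_image_of_mem π hw1))

theorem DivR2_push_val (f : Y ⟶ X) [IsSeparated f] {d : Y → ℚ} (hf : FinOver f (support d))
    {O : Type} [CommRing O] [IsDomain O] [ValuationRing O] [IsAlgClosed (FractionRing O)]
    (x : Spec (.of O) ⟶ X) :
    push f d (gen x) = ∑ᶠ w ∈ {w : Spec (.of O) ⟶ Y | w ≫ f = x}, d (gen w) := by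
  rw [← gen_genM, push_geo hf.gfin,
    finsum_subtype_eq_finsum_cond (f := fun y : Spec (.of (FractionRing O)) ⟶ Y => d (gen y))]
  have h1 := finsum_mem_image (s := {w : Spec (.of O) ⟶ Y | w ≫ f = x})
    (f := fun y : Spec (.of (FractionRing O)) ⟶ Y => d (gen y)) (g := fun w => genM O ≫ w)
    (fun w hw w' hw' h => ext_gen_sep f (hw.trans hw'.symm) h)
  simp only [gen_genM] at h1
  rw [← h1]
  refine finsum_mem_inter_support_eq' _ {y | y ≫ f = genM O ≫ x} _ fun y hy => ⟨fun h => ?_, ?_⟩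
  · obtain ⟨w, hw, hw'⟩ := hf.lift_val x y h hy
    exact ⟨w, hw, hw'⟩
  · rintro ⟨w, hw, rfl⟩
    change (genM O ≫ w) ≫ f = _
    rw [Category.assoc, show w ≫ f = x from hw]

/-- Projection formula. -/
theorem push_Div (f : Y ⟶ X) [IsSeparated f] {d : Y → ℚ} (hf : FinOver f (support d))
    (h : DivOK m (f ≫ p) (f.appTop u) (f.appTop φ) d) :
    push f (Div (f ≫ p) (f.appTop u) (f.appTop φ) d) = Div p u φ (push f d) := by
  funext x
  have he0 := datE_ne_zero (geoF x)
  have he := datE_not_isUnit (geoF x)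
  set O := datV (geoF x)
  set j : geoF x →+* O := datJ (geoF x)
  set e : O := datE (geoF x)
  set z : Spec (.of O) ⟶ X := spm j ≫ geo x with hz
  let S : Set (Spec (.of O) ⟶ X) :=
    {x' | x' ≫ p = z ≫ p ∧ ev x' u = ev z u + e ∧ resPt O ≫ x' = resPt O ≫ z}
  let F : (Spec (.of O) ⟶ Y) → ℚ := fun w => d (gen w) * ord e (ev w (f.appTop φ))
  let W : Set (Spec (.of O) ⟶ Y) := {w | w ≫ f ∈ S}
  have hF : ∀ w, F w ≠ 0 → gen w ∈ support d := fun w hw => left_ne_zero_of_mul hw
  have hfin : (W ∩ support F).Finite := by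
    refine Set.Finite.of_finite_image (f := fun w => genM O ≫ w) ((h.mem.2.2 (FractionRing O)
      (genM O ≫ lineMap (z ≫ p) (fn (ev z u + e)))).subset ?_) ?_
    · rintro _ ⟨w, ⟨hw, hw'⟩, rfl⟩
      refine ⟨?_, by rw [gen_genM]; exact subset_closure (hF w hw')⟩
      rw [Category.assoc, (comp_lineMap_eq_iff' _ _ w (z ≫ p) (ev z u + e)).2
        ⟨by rw [← Category.assoc]; exact hw.1, by rw [← ev_comp]; exact hw.2.1⟩]
    · rintro w ⟨hw, -⟩ w' ⟨hw', -⟩ hh
      have hh' : genM O ≫ w = genM O ≫ w' := hh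
      refine ext_gen_sep f (ext_gen_res ?_ ?_) hh'
      · rw [hw.2.2, hw'.2.2]
      · rw [← Category.assoc, hh', Category.assoc]
  have hR : Div p u φ (push f d) x = ∑ᶠ w ∈ W, F w := by
    rw [DivR2_fubini hfin (fun w => w ≫ f) S fun w hw _ => hw]
    refine finsum_mem_congr rfl fun x' hx' => ?_
    rw [DivR2_push_val f hf x', finsum_mem_def, finsum_mem_def, finsum_mul]
    refine finsum_congr fun w => ?_
    by_cases hw : w ≫ f = x'
    · have h1 : w ∈ {w : Spec (.of O) ⟶ Y | w ≫ f = x'} := hw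
      have h2 : w ∈ {w | w ∈ W ∧ w ≫ f = x'} := ⟨by
        change w ≫ f ∈ S
        rwa [hw], hw⟩
      rw [Set.indicator_of_mem h1, Set.indicator_of_mem h2, ← hw, ev_comp]
    · have h1 : w ∉ {w : Spec (.of O) ⟶ Y | w ≫ f = x'} := hw
      have h2 : w ∉ {w | w ∈ W ∧ w ≫ f = x'} := fun h => hw h.2
      rw [Set.indicator_of_notMem h1, Set.indicator_of_notMem h2, zero_mul]
  let ι : {y : Spec (.of (geoF x)) ⟶ Y // y ≫ f = geo x} → (Spec (.of (ResidueField O)) ⟶ Y) :=
    fun y => spm ((residue O).comp j) ≫ y.1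
  have hι : Function.Injective ι := fun y y' hy => Subtype.ext (spm_cancel _ hy)
  have hres : resPt O ≫ spm j = spm ((residue O).comp j) := spm_comp _ _
  rw [hR, DivR2_fubini hfin (fun w => resPt O ≫ w) (Set.range ι), finsum_mem_range hι]
  · refine finsum_congr fun y => ?_
    rw [Div_eq h y.1 j he0 he]
    refine finsum_mem_congr (Set.ext fun w => ?_) fun _ _ => rfl
    have e1 : (spm j ≫ y.1) ≫ f = z := by rw [Category.assoc, y.2]
    have e2 : resPt O ≫ spm j ≫ y.1 = ι y := by rw [← Category.assoc, hres]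
    simp only [Set.mem_ofPred_eq, ← ev_comp, ← Category.assoc, e1, W, S]
    simp only [Category.assoc, e2]
    refine ⟨fun hw => ⟨⟨hw.1, hw.2.1, ?_⟩, hw.2.2⟩, fun hw => ⟨hw.1.1, hw.1.2.1, hw.2⟩⟩
    rw [← Category.assoc, hw.2.2, ← e2, ← e1]
    simp only [Category.assoc]
  · intro w hw hw'
    obtain ⟨y, hy, hy'⟩ := hf.closure.gfin.descend ((residue O).comp j) (geo x) (resPt O ≫ w)
      (by rw [Category.assoc, hw.2.2, hz, ← Category.assoc, hres])
      (gen_res_mem w isClosed_closure (subset_closure (hF w hw')))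
    exact ⟨⟨y, hy⟩, hy'⟩

theorem DivR2_dv_one [Etale (lineMap p u)] {O : Type} [CommRing O] [IsDomain O]
    [ValuationRing O] [IsAlgClosed (FractionRing O)] (z : Spec (.of O) ⟶ X) {e : O}
    (he : ¬IsUnit e) : ∃ x : Spec (.of O) ⟶ X, x ≫ p = z ≫ p ∧ ev x u = ev z u + e ∧
      resPt O ≫ x = resPt O ≫ z ∧ ∀ φ, dv p u φ 1 z e = ord e (ev x φ) := by
  obtain ⟨x, ⟨h1, h2⟩, h3⟩ := lift_etale (lineMap p u) (lineMap (z ≫ p) (fn (ev z u + e)))
    (resPt O ≫ z) (by
      rw [comp_lineMap (resPt O), appTop_spm_fn, comp_lineMap_eq_iff']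
      refine ⟨Category.assoc _ _ _, ?_⟩
      rw [ev_spm_comp, map_add, (residue_eq_zero_iff e).2 he, add_zero])
  rw [comp_lineMap_eq_iff'] at h1
  refine ⟨x, h1.1, h1.2, h2, fun φ => ?_⟩
  have h4 : {x : Spec (.of O) ⟶ X | x ≫ p = z ≫ p ∧ ev x u = ev z u + e ∧
      resPt O ≫ x = resPt O ≫ z} = {x} := by
    refine Set.eq_singleton_iff_unique_mem.2 ⟨⟨h1.1, h1.2, h2⟩, fun x' hx' => h3 x' ⟨?_, hx'.2.2⟩⟩
    exact (comp_lineMap_eq_iff' _ _ _ _ _).2 ⟨hx'.1, hx'.2.1⟩
  rw [dv, h4, finsum_mem_singleton, Pi.one_apply, one_mul]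

/-- The divisor of a polynomial in an etale coordinate. -/
theorem Div_one_poly [Etale (lineMap p u)] (P : Γ(T, ⊤)[X]) {k : Type} [Field k]
    (y : Spec (.of k) ⟶ X) (hP : P.map (ev (y ≫ p)) ≠ 0) :
    Div p u (eval₂ p.appTop.hom u P) 1 (gen y) =
      ((P.map (ev (y ≫ p))).rootMultiplicity (ev y u) : ℚ) := by
  obtain ⟨j', hj'⟩ := geo_factor (spm (algebraMap k (AlgebraicClosure k)) ≫ y) (gen y)
    (gen_spm_comp (algebraMap k (AlgebraicClosure k)).injective y)
  have h1 : (P.map (ev (geo (gen y) ≫ p))).map j' =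
      (P.map (ev (y ≫ p))).map (algebraMap k (AlgebraicClosure k)) := by
    rw [Polynomial.map_map, Polynomial.map_map]
    congr 1
    ext a
    rw [RingHom.comp_apply, RingHom.comp_apply, ← ev_spm_comp, ← ev_spm_comp, ← Category.assoc,
      hj', Category.assoc]
  have h2 : j' (ev (geo (gen y)) u) = algebraMap k (AlgebraicClosure k) (ev y u) := by
    rw [← ev_spm_comp, hj', ev_spm_comp]
  have h3 : P.map (ev (geo (gen y) ≫ p)) ≠ 0 := fun h0 => by
    rw [h0, Polynomial.map_zero, eq_comm, Polynomial.map_eq_zero] at h1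
    exact hP h1
  rw [eq_rootMultiplicity_map (algebraMap k (AlgebraicClosure k)).injective, ← h1, ← h2,
    ← eq_rootMultiplicity_map j'.injective]
  obtain ⟨x0, hp, hu, -, h⟩ := DivR2_dv_one (p := p) (u := u) (spm (datJ (geoF (gen y))) ≫
    geo (gen y)) (datE_not_isUnit _)
  rw [Div, h, ← ord_eval (datE_ne_zero _) (datE_not_isUnit _) (datJ _) _ h3, hom_eval₂, hu,
    ev_spm_comp, eval₂_map]
  congr 2
  ext a : 1
  change ev x0 (p.appTop a) = _
  rw [← ev_comp, hp, Category.assoc, ev_spm_comp, RingHom.comp_apply]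

open Classical in
theorem Div_one_sub [Etale (lineMap p u)] (a : Γ(T, ⊤)) (x : X) :
    Div p u (u - p.appTop a) 1 x = if x ∈ zl (u - p.appTop a) then 1 else 0 := by
  have h := Div_one_poly (p := p) (u := u) (Polynomial.X - C a) (geo x) (by
    rw [Polynomial.map_sub, map_X, map_C]
    exact X_sub_C_ne_zero _)
  rw [gen_geo, eval₂_sub, eval₂_X, eval₂_C, Polynomial.map_sub, map_X, map_C,
    rootMultiplicity_X_sub_C] at h
  have h1 : x ∈ zl (u - p.appTop a) ↔ ev (geo x) u = ev (geo x ≫ p) a := by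
    conv_lhs => rw [← gen_geo x]
    rw [gen_mem_zeroLocus, map_sub, sub_eq_zero, ev_comp]
  refine h.trans ?_
  by_cases hx : ev (geo x) u = ev (geo x ≫ p) a
  · rw [if_pos hx, if_pos (h1.2 hx), Nat.cast_one]
  · rw [if_neg hx, if_neg (mt h1.1 hx), Nat.cast_zero]

/-- The degree of the divisor of a monic polynomial on an open part of the line that contains all
the roots. -/
theorem push_Div_one_poly [IsOpenImmersion (lineMap p u)] {P : Γ(T, ⊤)[X]} (hP : P.Monic)
    (h : ∀ (k : Type) [Field k] [IsAlgClosed k] (t : Spec (.of k) ⟶ T) (a : k),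
      (P.map (ev t)).IsRoot a → ∃ y : Spec (.of k) ⟶ X, y ≫ p = t ∧ ev y u = a) :
    push p (Div p u (eval₂ p.appTop.hom u P) 1) = fun _ => (P.natDegree : ℚ) := by
  classical
  funext t
  have hF : (P.map (ev (geo t))).Monic := hP.map _
  let g : {y : Spec (.of (geoF t)) ⟶ X // y ≫ p = geo t} → geoF t := fun y => ev y.1 u
  have hg : Function.Injective g := fun y y' hy => Subtype.ext (by
    rw [← cancel_mono (lineMap p u), comp_lineMap_eq_iff]
    exact ⟨y.2.trans y'.2.symm, hy⟩)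
  have h1 : push p (Div p u (eval₂ p.appTop.hom u P) 1) t =
      ∑ᶠ a ∈ Set.range g, ((P.map (ev (geo t))).rootMultiplicity a : ℚ) := by
    rw [finsum_mem_range hg]
    refine finsum_congr fun y => ?_
    rw [Div_one_poly P y.1 (by rw [y.2]; exact hF.ne_zero), y.2]
  rw [h1, finsum_mem_eq_sum_of_inter_support_eq _ (t := (P.map (ev (geo t))).roots.toFinset),
    ← hP.natDegree_map (ev (geo t)), (IsAlgClosed.splits _).natDegree_eq_card_roots,
    ← Multiset.toFinset_sum_count_eq, Nat.cast_sum]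
  · simp only [count_roots]
  · refine Set.ext fun a => and_congr_left fun ha => ?_
    have hr : (P.map (ev (geo t))).IsRoot a := by
      by_contra hr
      exact ha (by simp only [rootMultiplicity_eq_zero hr, Nat.cast_zero])
    obtain ⟨y, hy, hy'⟩ := h _ (geo t) a hr
    exact iff_of_true ⟨⟨y, hy⟩, hy'⟩
      (Finset.mem_coe.2 (Multiset.mem_toFinset.2 ((mem_roots hF.ne_zero).2 hr)))

namespace DivOK

theorem DivOK_mem_zl (x : X) (φ : Γ(X, ⊤)) : x ∈ zl φ ↔ ev (geo x) φ = 0 := by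
  rw [← gen_mem_zeroLocus, gen_geo]

theorem DivOK_zl_mul (x : X) (φ ψ : Γ(X, ⊤)) : x ∈ zl (φ * ψ) ↔ x ∈ zl φ ∨ x ∈ zl ψ := by
  rw [DivOK_mem_zl, DivOK_mem_zl, DivOK_mem_zl, map_mul, mul_eq_zero]

theorem DivOK_zl_comp (f : Y ⟶ X) (y : Y) (φ : Γ(X, ⊤)) : y ∈ zl (f.appTop φ) ↔ f y ∈ zl φ := by
  rw [DivOK_mem_zl, ← ev_comp, ← gen_mem_zeroLocus, gen_comp, gen_geo]

theorem DivOK_inv (f : Y ⟶ X) (h : IsUnit ((m : ℕ) : Γ(X, ⊤))) :
    IsUnit ((m : ℕ) : Γ(Y, ⊤)) := by
  have h1 := h.map f.appTop.hom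
  rwa [map_natCast] at h1

theorem DivOK_clos (f : Y ⟶ X) (c : X → ℚ) {y : Y} (h : y ∈ closure (support (c ∘ f))) :
    f y ∈ closure (support c) :=
  f.continuous.closure_preimage_subset _ h

theorem DivOK_left {a b : X → ℚ} {x : X} (h : x ∈ closure (support (a * b))) :
    x ∈ closure (support a) :=
  closure_mono (fun _ hx => left_ne_zero_of_mul hx) h

theorem DivOK_right {a b : X → ℚ} {x : X} (h : x ∈ closure (support (a * b))) :
    x ∈ closure (support b) :=
  closure_mono (fun _ hx => right_ne_zero_of_mul hx) h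

theorem DivOK_lft (p : X ⟶ T) (u : Γ(X, ⊤)) [Etale (lineMap p u)] : LocallyOfFiniteType p := by
  rw [← lineMap_over p u]
  infer_instance

theorem DivOK_qc (p : X ⟶ T) (u : Γ(X, ⊤)) [QuasiCompact p] : QuasiCompact (lineMap p u) := by
  have : QuasiCompact (lineMap p u ≫ 𝔸(Unit; T) ↘ T) := by rwa [lineMap_over]
  exact QuasiCompact.of_comp _ (𝔸(Unit; T) ↘ T)

theorem add (h : DivOK m p u φ c) (h' : DivOK m p u φ c') : DivOK m p u φ (c + c') :=   ⟨h.lft, h.inv, add_mem h.mem h'.mem, (h.fin.union h'.fin).mono fun x hx => by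
    have h1 := closure_mono (support_add c c') hx.1
    rw [closure_union] at h1
    exact h1.imp (fun a => ⟨a, hx.2⟩) fun a => ⟨a, hx.2⟩⟩

theorem neg (h : DivOK m p u φ c) : DivOK m p u φ (-c) :=   ⟨h.lft, h.inv, neg_mem h.mem, by simpa using h.fin⟩

theorem mul (h : DivOK m p u φ c) (h' : DivOK m p u ψ c) : DivOK m p u (φ * ψ) c :=   ⟨h.lft, h.inv, h.mem, (h.fin.union h'.fin).mono fun x hx =>
    ((DivOK_zl_mul x φ ψ).1 hx.2).imp (fun a => ⟨hx.1, a⟩) fun a => ⟨hx.1, a⟩⟩

theorem of_mul (h : DivOK m p u (φ * ψ) c) : DivOK m p u φ c :=   ⟨h.lft, h.inv, h.mem, h.fin.mono fun x hx => ⟨hx.1, (DivOK_zl_mul x φ ψ).2 (Or.inl hx.2)⟩⟩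

theorem pullback {p' : X' ⟶ T'} {f : X' ⟶ X} {g : T' ⟶ T} (sq : IsPullback f p' p g)
    (h : DivOK m p u φ c) : DivOK m p' (f.appTop u) (f.appTop φ) (c ∘ f) :=   ⟨MorphismProperty.of_isPullback (P := @LocallyOfFiniteType) sq h.lft, DivOK_inv f h.inv,
    QCyc.pull_mem (isPullback_lineMap sq u) h.mem, (h.fin.pullback sq).mono fun x hx =>
      ⟨DivOK_clos f c hx.1, (DivOK_zl_comp f x φ).1 hx.2⟩⟩

theorem comp_mul {q : Y ⟶ X} [LocallyOfFiniteType q] {d : Y → ℚ} (h : DivOK m p u φ c)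
    (hd : d ∈ QCyc m q) : DivOK m (q ≫ p) (q.appTop u) (q.appTop φ) ((c ∘ q) * d) := by
  have := h.lft
  refine ⟨inferInstance, DivOK_inv q h.inv, ?_, (h.fin.comp hd.2.2).mono fun x hx =>
    ⟨DivOK_right hx.1, DivOK_clos q c (DivOK_left hx.1), (DivOK_zl_comp q x φ).1 hx.2⟩⟩
  rw [← comp_lineMap]
  exact QCyc.mul_mem h.mem hd

theorem etale (q : Y ⟶ X) [Etale q] [QuasiCompact q] (h : DivOK m p u φ c) :
    DivOK m (q ≫ p) (q.appTop u) (q.appTop φ) (c ∘ q) := by
  have h1 := h.comp_mul (QCyc.one_mem q)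
  rwa [mul_one] at h1

theorem base_mul {p0 : T ⟶ T'} [LocallyOfFiniteType p0] {c0 : T → ℚ} (h0 : c0 ∈ QCyc m p0)
    (h : DivOK m p u φ c) : DivOK m (p ≫ p0) u φ ((c0 ∘ p) * c) := by
  have := h.lft
  refine ⟨inferInstance, h.inv, ?_, (h0.2.2.comp h.fin).mono fun x hx =>
    ⟨⟨DivOK_right hx.1, hx.2⟩, DivOK_clos p c0 (DivOK_left hx.1)⟩⟩
  have h1 := QCyc.mul_mem (QCyc.pull_mem (AffineSpace.isPullback_map p0).flip h0) h.mem
  have h2 : (c0 ∘ (𝔸(Unit; T) ↘ T)) ∘ lineMap p u = c0 ∘ p := by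
    funext x
    simp only [Function.comp_apply]
    rw [← Scheme.Hom.comp_apply, lineMap_over]
  rwa [h2, lineMap_comp_map] at h1

theorem push (f : Y ⟶ X) [IsSeparated f] [LocallyOfFiniteType p] {d : Y → ℚ}
    (hm : IsUnit ((m : ℕ) : Γ(X, ⊤))) (hf : FinOver f (support d))
    (h : DivOK m (f ≫ p) (f.appTop u) (f.appTop φ) d) : DivOK m p u φ (push f d) := by
  refine ⟨inferInstance, hm, QCyc.push_mem ?_ hf, h.fin.image.mono fun x hx => ?_⟩
  · rw [comp_lineMap]
    exact h.mem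
  · obtain ⟨y, hy, rfl⟩ := closure_minimal
      (support_push.trans (Set.image_mono subset_closure))
      (hf.closure.isClosed_image isClosed_closure) hx.1
    exact ⟨y, ⟨hy, (DivOK_zl_comp f y φ).2 hx.2⟩, rfl⟩

theorem one [Etale (lineMap p u)] [QuasiCompact p] (hm : IsUnit ((m : ℕ) : Γ(X, ⊤)))
    (hf : GFin p (zl φ)) : DivOK m p u φ 1 := by
  have := DivOK_qc p u
  exact ⟨DivOK_lft p u, hm, QCyc.one_mem _, hf.mono Set.inter_subset_right⟩

/-- A cycle over a scheme `E` that is etale over the line. -/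
theorem of_etale_base {E : Scheme.{0}} {q : X ⟶ E} [LocallyOfFiniteType q] {r : E ⟶ T}
    {v : Γ(E, ⊤)} [Etale (lineMap r v)] [QuasiCompact r] (hm : IsUnit ((m : ℕ) : Γ(X, ⊤)))
    (hc : c ∈ QCyc m q) (hf : GFin (q ≫ r) (closure (support c) ∩ zl φ)) :
    DivOK m (q ≫ r) (q.appTop v) φ c := by
  have := DivOK_qc r v
  have := DivOK_lft r v
  refine ⟨inferInstance, hm, ?_, hf⟩
  rw [← comp_lineMap]
  exact QCyc.etale_base_mem hc

end DivOK

section ring

variable {R A : Type} [CommRing R] [CommRing A]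

theorem zl_fn (σ : A) :
    zl (fn σ) = (PrimeSpectrum.zeroLocus (Ideal.span {σ} : Ideal A) : Set (PrimeSpectrum A)) := by
  have h := Spec_zeroLocus_eq_zeroLocus (R := .of A) {σ}
  rw [Set.image_singleton] at h
  rw [PrimeSpectrum.zeroLocus_span]
  exact h

theorem DivR2_mem (i : R →+* A) (u σ : A) (het : (eval₂RingHom i u).Etale) (s : A →+* R)
    (hs : s.comp i = RingHom.id R) (hk : RingHom.ker s = Ideal.span {σ}) :
    σ ∈ Ideal.span {σ ^ 2, u - i (s u)} := by
  have hsi : ∀ r, s (i r) = r := RingHom.congr_fun hs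
  set J : Ideal A := Ideal.span {σ ^ 2, u - i (s u)}
  algebraize [eval₂RingHom i u]
  let g : A →ₐ[R[X]] A ⧸ J :=
    { ((Ideal.Quotient.mk J).comp i).comp s with
      commutes' := RingHom.congr_fun (f := (((Ideal.Quotient.mk J).comp i).comp s).comp
        (eval₂RingHom i u)) (g := (Ideal.Quotient.mk J).comp (eval₂RingHom i u))
        (Polynomial.ringHom_ext (fun r => by simp [hsi]) (by
          simpa using (Ideal.Quotient.eq.2 (Ideal.subset_span (by simp) :
            u - i (s u) ∈ J)).symm)) }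
  have h := Algebra.FormallyUnramified.ext (Ideal.span {Ideal.Quotient.mk J σ})
    ⟨2, by
      rw [Ideal.span_singleton_pow, ← map_pow, Ideal.Quotient.eq_zero_iff_mem.2
        (Ideal.subset_span (by simp) : σ ^ 2 ∈ J)]
      simp⟩ (g₁ := Ideal.Quotient.mkₐ R[X] J) (g₂ := g) fun a => by
    have : a - i (s a) ∈ Ideal.span {σ} := by
      rw [← hk, RingHom.mem_ker, map_sub, hsi, sub_self]
    obtain ⟨b, hb⟩ := Ideal.mem_span_singleton'.1 this
    refine Ideal.Quotient.eq.2 (Ideal.mem_span_singleton'.2 ⟨Ideal.Quotient.mk J b, ?_⟩)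
    rw [← map_mul, hb, map_sub]
    rfl
  have h1 : Ideal.Quotient.mk J σ = Ideal.Quotient.mk J (i (s σ)) := AlgHom.congr_fun h σ
  have hσ : s σ = 0 := by
    rw [← RingHom.mem_ker, hk]
    exact Ideal.mem_span_singleton_self σ
  rw [hσ, map_zero, map_zero] at h1
  exact Ideal.Quotient.eq_zero_iff_mem.1 h1

/-- The section rule. Hint: at a point `y0` of the section, `u - i (s u) = σ τ`; the kernel of
`A / (u - i (s u)) → R` is generated by an idempotent, hence `τ` is a unit at the point. -/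
theorem Div_one_sec (i : R →+* A) (u σ : A) (het : (eval₂RingHom i u).Etale) (s : A →+* R)
    (hs : s.comp i = RingHom.id R) (hk : RingHom.ker s = Ideal.span {σ}) :
    Div (spm i) (fn u) (fn σ) 1 = push (spm s) 1 := by
  have := (etale_lineMap_spm i u).2 het
  have hsi : ∀ r, s (i r) = r := RingHom.congr_fun hs
  have hm : spm s ≫ spm i = 𝟙 _ := by rw [spm_comp, hs, spm_id]
  have : Mono (spm s) := mono_of_mono_fac hm
  have hσ : s σ = 0 := by
    rw [← RingHom.mem_ker, hk]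
    exact Ideal.mem_span_singleton_self σ
  funext x
  have he0 := datE_ne_zero (geoF x)
  have he := datE_not_isUnit (geoF x)
  obtain ⟨x0, hp, hu, hr, h⟩ := DivR2_dv_one (p := spm i) (u := fn u)
    (spm (datJ (geoF x)) ≫ geo x) he
  rw [Div, h]
  obtain ⟨χ, rfl⟩ := spm_surjective x0
  obtain ⟨g, hg⟩ := spm_surjective (geo x)
  have hx : gen (spm g) = x := by rw [hg, gen_geo]
  rw [← hg] at hp hu hr
  simp only [spm_comp] at hp hu hr
  rw [ev_spm_fn, ev_spm_fn] at hu
  rw [ev_spm_fn]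
  have hr' : ∀ a, residue _ (χ a) = residue _ (datJ _ (g a)) :=
    RingHom.congr_fun (spm_injective hr)
  have hp' : ∀ r, χ (i r) = datJ _ (g (i r)) := RingHom.congr_fun (spm_injective hp)
  by_cases hg0 : g σ = 0
  · have h1 : ∀ a, g (i (s a)) = g a := fun a => by
      have : a - i (s a) ∈ Ideal.span {σ} := by
        rw [← hk, RingHom.mem_ker, map_sub, hsi, sub_self]
      obtain ⟨b, hb⟩ := Ideal.mem_span_singleton'.1 this
      rw [eq_comm, ← sub_eq_zero, ← map_sub, ← hb, map_mul, hg0, mul_zero]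
    have h2 : x = spm s (gen (spm (g.comp i))) := by
      rw [← gen_comp, spm_comp, show (g.comp i).comp s = g from RingHom.ext h1, hx]
    have h3 : push (spm s) 1 x = 1 := by
      conv_lhs => rw [h2, push_apply_of_mono]
      rfl
    obtain ⟨τ, hτ⟩ : ∃ τ, τ * σ = u - i (s u) := Ideal.mem_span_singleton'.1 (by
      rw [← hk, RingHom.mem_ker, map_sub, hsi, sub_self])
    have h4 : χ τ * χ σ = datE (geoF x) := by
      rw [← map_mul, hτ, map_sub, hu, hp', h1, RingHom.comp_apply, add_sub_cancel_left]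
    have h5 : χ σ ≠ 0 := fun h0 => he0 (by rw [← h4, h0, mul_zero])
    have h6 : ¬IsUnit (χ σ) := (residue_eq_zero_iff _).1 (by rw [hr', hg0, map_zero, map_zero])
    obtain ⟨a, b, hab⟩ := Ideal.mem_span_pair.1 (DivR2_mem i u σ het s hs hk)
    have h7 : χ a * χ σ + χ b * χ τ = 1 := by
      apply mul_right_cancel₀ h5
      have := congrArg χ hab
      rw [← hτ] at this
      simp only [map_add, map_mul, map_pow] at this
      linear_combination this
    have h8 : IsUnit (χ τ) := by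
      rcases isUnit_or_isUnit_of_add_one h7 with h | h
      · exact (h6 (isUnit_of_mul_isUnit_right h)).elim
      · exact isUnit_of_mul_isUnit_right h
    rw [h3, ← ord_self he0 he]
    refine ord_congr he0 he ?_
    rw [← h4]
    exact associated_unit_mul_right _ _ h8
  · have h1 : IsUnit (χ σ) := by
      rw [← residue_ne_zero_iff_isUnit, hr', residue_ne_zero_iff_isUnit]
      exact (Ne.isUnit hg0).map _
    rw [ord_of_isUnit he0 he h1, push_eq_zero_of_notMem]
    rintro ⟨y, hy⟩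
    have h2 : σ ∈ (spm s y : PrimeSpectrum A).asIdeal := by
      change s σ ∈ (y : PrimeSpectrum R).asIdeal
      rw [hσ]
      exact zero_mem _
    rw [hy, ← hx, gen_spm_asIdeal] at h2
    exact hg0 h2

section DivN

variable {O Y : Type} [CommRing O] [CommRing Y]

theorem DivN_det {K n : Type} [Field K] [IsAlgClosed K] [Fintype n] [DecidableEq n]
    (M : Matrix n n K) (s : K[X]) :
    (aeval M s).det = (M.charpoly.roots.map fun r => s.eval r).prod := by
  have h := IsAlgClosed.splits M.charpoly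
  have hn : M.charpoly.roots.card = Fintype.card n := by
    rw [← h.natDegree_eq_card_roots, Matrix.charpoly_natDegree_eq_dim]
  induction IsAlgClosed.splits s using Submonoid.closure_induction with
  | mem x hx =>
    rcases hx with ⟨a, rfl⟩ | ⟨a, rfl⟩
    · simp [Algebra.algebraMap_eq_smul_one, hn]
    · have h1 := h.eval_eq_prod_roots_of_monic M.charpoly_monic (-a)
      have h2 : aeval M (Polynomial.X + C a) = -(Matrix.scalar n (-a) - M) := by
        rw [map_add, aeval_X, aeval_C, map_neg, neg_sub, sub_neg_eq_add]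
        rfl
      rw [h2, Matrix.det_neg, ← Matrix.eval_charpoly, h1, ← hn,
        ← Multiset.card_map fun r => -a - r, ← Multiset.prod_map_neg, Multiset.map_map]
      congr 2
      funext r
      simp [add_comm]
  | one => simp
  | mul x y _ _ hx hy =>
    rw [map_mul, Matrix.det_mul, hx, hy, ← Multiset.prod_map_mul]
    simp only [eval_mul]

theorem DivN_norm [IsDomain O] {P : A[X]} (hP : P.Monic) (x : A →+* O) (hs : (P.map x).Splits)
    (s : A[X]) : x (Algebra.norm A (AdjoinRoot.mk P s)) =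
      ((P.map x).roots.map fun r => eval₂ x r s).prod := by
  have hi : Function.Injective (algebraMap O (AlgebraicClosure (FractionRing O))) :=
    (algebraMap (FractionRing O) _).injective.comp (IsFractionRing.injective O (FractionRing O))
  generalize algebraMap O (AlgebraicClosure (FractionRing O)) = ι at hi
  have h1 : P = minpoly A (AdjoinRoot.root P) :=
    minpoly.unique' A _ hP (by rw [AdjoinRoot.aeval_eq, AdjoinRoot.mk_self]) fun q hq =>
      or_iff_not_imp_left.2 fun h0 => by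
        rw [AdjoinRoot.aeval_eq]
        exact AdjoinRoot.mk_ne_zero_of_degree_lt hP h0 hq
  have h2 := (charpoly_leftMulMatrix (AdjoinRoot.powerBasis' hP)).trans h1.symm
  apply hi
  rw [Algebra.norm_eq_matrix_det (AdjoinRoot.powerBasis' hP).basis, ← AdjoinRoot.aeval_eq,
    ← aeval_algHom_apply, ← RingHom.comp_apply, RingHom.map_det,
    map_aeval_eq_aeval_map (φ := ι.comp x) (RingHom.ext fun a => by
      ext k l
      by_cases h : k = l <;> simp [Matrix.algebraMap_eq_diagonal, h]),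
    DivN_det, RingHom.mapMatrix_apply, Matrix.charpoly_map]
  erw [h2]
  rw [← Polynomial.map_map (p := P), hs.roots_map_of_injective hi, map_multiset_prod, Multiset.map_map,
    Multiset.map_map]
  congr 2
  funext r
  simp only [Function.comp_apply, Polynomial.eval_map, hom_eval₂]

/-- `x` is a lift of the datum through `z`. -/
def DivN_Lf [IsLocalRing O] {k : Type} [Field k] (i : R →+* A) (u : A) (j : k →+* O) (e : O)
    (z : A →+* k) (x : A →+* O) : Prop :=
  x.comp i = (j.comp z).comp i ∧ x u = j (z u) + e ∧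
    (residue O).comp x = (residue O).comp (j.comp z)

theorem DivN_lift [IsDomain O] [ValuationRing O] [IsAlgClosed (FractionRing O)] {k : Type}
    [Field k] {i : R →+* A} {u : A} (het : (eval₂RingHom i u).Etale) (j : k →+* O) {e : O}
    (he : ¬IsUnit e) (z : A →+* k) : ∃! x, DivN_Lf i u j e z x := by
  let _ := (eval₂RingHom i u).toAlgebra
  have : Algebra.Etale R[X] A := het
  have h0 : algebraMap R[X] A = eval₂RingHom i u := rfl
  obtain ⟨x, ⟨h1, h2⟩, h3⟩ := etale_lift (R := R[X]) (E := A)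
    (eval₂RingHom ((j.comp z).comp i) (j (z u) + e)) ((residue O).comp (j.comp z)) (by
      rw [h0]
      ext r
      · simp
      · simp [(residue_eq_zero_iff e).2 he])
  rw [h0] at h1 h3
  refine ⟨x, ⟨RingHom.ext fun r => ?_, ?_, h2⟩, fun x' hx' => h3 x' ⟨?_, hx'.2.2⟩⟩
  · simpa using RingHom.congr_fun h1 (C r)
  · simpa using RingHom.congr_fun h1 Polynomial.X
  · ext r
    · simpa using RingHom.congr_fun hx'.1 r
    · simpa using hx'.2.1

theorem DivN_val [IsDomain O] [ValuationRing O] [IsAlgClosed (FractionRing O)] {k : Type}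
    [Field k] {i : R →+* A} {u a : A} (het : (eval₂RingHom i u).Etale)
    (h : DivOK m (spm i) (fn u) (fn a) 1) {j : k →+* O} {e : O} (he0 : e ≠ 0) (he : ¬IsUnit e)
    {z : A →+* k} {x : A →+* O} (hx : DivN_Lf i u j e z x) :
    Div (spm i) (fn u) (fn a) 1 (gen (spm z)) = ord e (x a) ∧ Comm e (x a) := by
  constructor
  · have h1 : {x' : Spec (.of O) ⟶ Spec (.of A) | x' ≫ spm i = (spm j ≫ spm z) ≫ spm i ∧
        ev x' (fn u) = ev (spm j ≫ spm z) (fn u) + e ∧
        resPt O ≫ x' = resPt O ≫ spm j ≫ spm z} = {spm x} := by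
      ext x'
      obtain ⟨x', rfl⟩ := spm_surjective x'
      simp only [Set.mem_ofPred_eq, Set.mem_singleton_iff, spm_comp, ev_spm_fn]
      exact ⟨fun h2 => congrArg spm ((DivN_lift het j he z).unique
        ⟨spm_injective h2.1, h2.2.1, spm_injective h2.2.2⟩ hx), fun h2 =>
        spm_injective h2 ▸ ⟨congrArg spm hx.1, hx.2.1, congrArg spm hx.2.2⟩⟩
    rw [Div_eq h (spm z) j he0 he, dv, h1, finsum_mem_singleton, ev_spm_fn, Pi.one_apply, one_mul]
  · rw [← ev_spm_fn]
    refine h.comm (spm z) j he0 he (spm x) ?_ ?_ (subset_closure one_ne_zero)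
    · simp only [spm_comp]
      exact congrArg spm hx.1
    · simp only [ev_spm_fn]
      exact hx.2.1

/-- `Y` is the localisation of `A[X] / P` at `q`. -/
structure DivN_Pres (P q : A[X]) (t : A[X] →+* Y) : Prop where
  zero : t P = 0
  unit : IsUnit (t q)
  ext : ∀ (D : Type) [CommRing D] (w w' : Y →+* D), w.comp t = w'.comp t → w = w'
  lift : ∀ (D : Type) [CommRing D] (x : A →+* D) (r : D), eval₂ x r P = 0 →
    IsUnit (eval₂ x r q) → ∃ w : Y →+* D, w.comp t = eval₂RingHom x r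

theorem DivN_pres (P q : A[X]) [Algebra (AdjoinRoot P) Y]
    [IsLocalization.Away (AdjoinRoot.mk P q) Y] :
    DivN_Pres P q ((algebraMap (AdjoinRoot P) Y).comp (AdjoinRoot.mk P)) := by
  refine ⟨by simp, IsLocalization.Away.algebraMap_isUnit _, fun D _ w w' h => ?_,
    fun D _ x r h1 h2 => ?_⟩
  · refine IsLocalization.ringHom_ext (Submonoid.powers (AdjoinRoot.mk P q))
      (RingHom.ext fun b => ?_)
    obtain ⟨b, rfl⟩ := AdjoinRoot.mk_surjective b
    exact RingHom.congr_fun h b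
  · refine ⟨IsLocalization.Away.lift (g := AdjoinRoot.lift x r h1) (AdjoinRoot.mk P q) h2, ?_⟩
    exact RingHom.ext fun b => IsLocalization.Away.lift_eq (g := AdjoinRoot.lift x r h1) _ h2 _

theorem DivN_eval (t : A[X] →+* Y) (w : Y →+* O) (s : A[X]) :
    eval₂ (w.comp (t.comp C)) (w (t Polynomial.X)) s = w (t s) := by
  rw [← hom_eval₂, ← hom_eval₂, eval₂_C_X]

theorem DivN_of_comp {t : A[X] →+* Y} {w : Y →+* O} {x : A →+* O} {r : O}
    (h : w.comp t = eval₂RingHom x r) : w.comp (t.comp C) = x ∧ w (t Polynomial.X) = r :=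
  ⟨RingHom.ext fun a => by simpa using RingHom.congr_fun h (C a),
    by simpa using RingHom.congr_fun h Polynomial.X⟩

theorem DivN_Pres.ext' {P q : A[X]} {t : A[X] →+* Y} (H : DivN_Pres P q t) {w w' : Y →+* O}
    (h : w.comp (t.comp C) = w'.comp (t.comp C)) (h' : w (t Polynomial.X) = w' (t Polynomial.X)) :
    w = w' :=
  H.ext O w w' (Polynomial.ringHom_ext' h h')

/-- The roots that come from points of an unramified algebra are simple. -/
theorem DivN_simple {S : Type} [CommRing S] {P q : A[X]} {t : A[X] →+* Y} (H : DivN_Pres P q t)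
    {f : S →+* A} (het : ((t.comp C).comp f).Etale) [Nontrivial O] (w : Y →+* O) :
    ¬(derivative (P.map (w.comp (t.comp C)))).IsRoot (w (t Polynomial.X)) := by
  intro h
  have h0 : ∀ s : A[X], eval₂ ((algebraMap O (DualNumber O)).comp (w.comp (t.comp C)))
      (algebraMap O (DualNumber O) (w (t Polynomial.X)) + DualNumber.eps) s =
      algebraMap O (DualNumber O) (w (t s)) + algebraMap O (DualNumber O)
        (eval (w (t Polynomial.X)) (derivative (s.map (w.comp (t.comp C))))) * DualNumber.eps := by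
    intro s
    rw [← eval₂_map, ← aeval_def, aeval_add_of_sq_eq_zero _ _ _ DualNumber.eps_pow_two,
      aeval_algebraMap_apply_eq_algebraMap_eval, aeval_algebraMap_apply_eq_algebraMap_eval,
      Polynomial.eval_map, DivN_eval]
  obtain ⟨w', hw⟩ := H.lift (DualNumber O) ((algebraMap O (DualNumber O)).comp (w.comp (t.comp C)))
    (algebraMap O (DualNumber O) (w (t Polynomial.X)) + DualNumber.eps)
    (by rw [h0, H.zero, h.eq_zero]; simp)
    (by
      rw [h0, TrivSqZeroExt.isUnit_iff_isUnit_fst]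
      simpa [TrivSqZeroExt.algebraMap_eq_inl] using H.unit.map w)
  obtain ⟨h1, h2⟩ := DivN_of_comp hw
  have h3 : (TrivSqZeroExt.fstHom O O O : DualNumber O →+* O).comp w' = w :=
    H.ext O _ _ (RingHom.ext fun s => by
      rw [RingHom.comp_assoc, hw, RingHom.comp_apply, coe_eval₂RingHom, h0]
      simp [TrivSqZeroExt.algebraMap_eq_inl])
  let _ := ((t.comp C).comp f).toAlgebra
  let _ := (w'.comp ((t.comp C).comp f)).toAlgebra
  have : Algebra.Etale S Y := het
  have h4 := Algebra.FormallyUnramified.ext' (R := S)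
    (TrivSqZeroExt.fstHom O O O : DualNumber O →+* O) ⟨2, TrivSqZeroExt.kerIdeal_sq O O⟩
    ⟨w', fun _ => rfl⟩ ⟨(algebraMap O (DualNumber O)).comp w, fun r =>
      (RingHom.congr_fun h1 (f r)).symm⟩ fun y => (RingHom.congr_fun h3 y).trans rfl
  have h5 : w' (t Polynomial.X) = algebraMap O (DualNumber O) (w (t Polynomial.X)) :=
    AlgHom.congr_fun h4 _
  have h6 := congrArg TrivSqZeroExt.snd (h2.symm.trans h5)
  simp [TrivSqZeroExt.algebraMap_eq_inl] at h6

theorem DivN_sum [IsDomain O] [ValuationRing O] [IsAlgClosed (FractionRing O)] {k : Type}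
    [Field k] [IsAlgClosed k] {P q s : A[X]} {t : A[X] →+* Y} (H : DivN_Pres P q t) (hP : P.Monic)
    (hc : IsCoprime (AdjoinRoot.mk P s) (AdjoinRoot.mk P q)) {i : R →+* A} {u : A}
    (het : (eval₂RingHom i u).Etale) (het' : (eval₂RingHom ((t.comp C).comp i) (t (C u))).Etale)
    {j : k →+* O} {e : O} (he0 : e ≠ 0) (he : ¬IsUnit e) {z : A →+* k} {x : A →+* O}
    (hx : DivN_Lf i u j e z x) {v : (Y →+* k) → ℚ}
    (hv : ∀ y w, DivN_Lf ((t.comp C).comp i) (t (C u)) j e y w →
      v y = ord e (w (t s)) ∧ Comm e (w (t s))) :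
    ∑ᶠ y : {y : Y →+* k // y.comp (t.comp C) = z}, v y.1 =
      ord e ((P.map x).roots.map fun r => eval₂ x r s).prod := by
  classical
  choose w hw using fun y : Y →+* k => (DivN_lift het' j he y).exists
  have h0 := (hP.map x).ne_zero
  have h1 : ∀ y : Y →+* k, y.comp (t.comp C) = z → (w y).comp (t.comp C) = x := by
    rintro y rfl
    exact (DivN_lift het j he _).unique ⟨(hw y).1, (hw y).2.1,
      congrArg (fun g => RingHom.comp g (t.comp C)) (hw y).2.2⟩ hx
  have h2 : ∀ r ∈ (P.map x).roots, ¬IsUnit (eval₂ x r s) →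
      ∃ y : Y →+* k, y.comp (t.comp C) = z ∧ w y (t Polynomial.X) = r := by
    intro r hr hs
    have h3 : eval₂ x r P = 0 := by rw [← Polynomial.eval_map]; exact (mem_roots h0).1 hr
    have h4 : IsUnit (eval₂ x r q) := by
      obtain ⟨a, b, hab⟩ := hc.map (AdjoinRoot.lift x r h3)
      rw [AdjoinRoot.lift_mk, AdjoinRoot.lift_mk] at hab
      exact isUnit_of_mul_isUnit_right
        ((isUnit_or_isUnit_of_add_one hab).resolve_left fun h => hs (isUnit_of_mul_isUnit_right h))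
    obtain ⟨w', hw'⟩ := H.lift O x r h3 h4
    have h5 : residue O r ∈ ((P.map z).map ((residue O).comp j)).roots := by
      rw [Polynomial.map_map, RingHom.comp_assoc, ← hx.2.2, mem_roots (hP.map _).ne_zero,
        IsRoot.def, Polynomial.eval_map, ← hom_eval₂, h3, map_zero]
    rw [(IsAlgClosed.splits _).roots_map] at h5
    obtain ⟨r0, h6, h7⟩ := Multiset.mem_map.1 h5
    have h8 : ∀ b : A[X], residue O (j (eval₂ z r0 b)) = residue O (eval₂ x r b) := fun b => by
      rw [hom_eval₂, hom_eval₂, hom_eval₂, hx.2.2, ← h7, RingHom.comp_apply]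
    obtain ⟨y, hy⟩ := H.lift k z r0 (by rw [← Polynomial.eval_map]; exact (mem_roots (hP.map z).ne_zero).1 h6)
      (IsUnit.mk0 _ fun h9 => (h4.map (residue O)).ne_zero (by rw [← h8, h9, map_zero, map_zero]))
    obtain ⟨h9, -⟩ := DivN_of_comp hy
    obtain ⟨h10, h11⟩ := DivN_of_comp hw'
    refine ⟨y, h9, h11 ▸ RingHom.congr_fun ((DivN_lift het' j he y).unique (hw y)
      ⟨?_, ?_, H.ext _ _ _ (RingHom.ext fun b => ?_)⟩) _⟩
    · rw [← RingHom.comp_assoc, h10, hx.1, ← h9]
      rfl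
    · exact (RingHom.congr_fun h10 u).trans (hx.2.1.trans (h9 ▸ rfl))
    · rw [RingHom.comp_assoc, hw', RingHom.comp_assoc, RingHom.comp_assoc, hy]
      exact (h8 b).symm
  have h3 : ∀ y : Y →+* k, y.comp (t.comp C) = z → ∀ b : A[X],
      eval₂ x (w y (t Polynomial.X)) b = w y (t b) := fun y hy b => by rw [← h1 y hy, DivN_eval]
  have h4 : ∀ r ∈ (P.map x).roots.toFinset, Comm e (eval₂ x r s) := fun r hr => by
    by_cases hs : IsUnit (eval₂ x r s)
    · exact Comm.of_isUnit e hs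
    · obtain ⟨y, hy, rfl⟩ := h2 r (Multiset.mem_toFinset.1 hr) hs
      rw [h3 y hy]
      exact (hv y _ (hw y)).2
  rw [Finset.prod_multiset_map_count, ord_prod he0 he _ _ fun r hr => (h4 r hr).pow _,
    Finset.sum_congr rfl fun r hr => ord_pow he0 he (h4 r hr) _,
    ← finsum_eq_sum_of_support_subset _ fun r hr => by
      simpa using Multiset.count_ne_zero.1 (Nat.cast_ne_zero.1 (left_ne_zero_of_mul hr))]
  refine CycB_finsum (fun y => w y.1 (t Polynomial.X)) (fun y y' h => Subtype.ext ?_)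
    (fun y => ?_) fun r hr => ?_
  · have h5 := H.ext' ((h1 _ y.2).trans (h1 _ y'.2).symm) h
    have h6 := (hw y.1).2.2.symm.trans (h5 ▸ (hw y'.1).2.2)
    exact RingHom.ext fun b => ((residue O).comp j).injective (RingHom.congr_fun h6 b)
  · have h5 : (P.map x).IsRoot (w y.1 (t Polynomial.X)) := by
      rw [IsRoot.def, Polynomial.eval_map, h3 _ y.2, H.zero, map_zero]
    have h6 := DivN_simple H (f := eval₂RingHom i u) (by
      convert het'
      ext r <;> simp) (w y.1)
    rw [h1 _ y.2] at h6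
    have h7 := mt (one_lt_rootMultiplicity_iff_isRoot h0).1 fun h => h6 h.2
    have h8 := (rootMultiplicity_pos h0).2 h5
    rw [count_roots, h3 _ y.2, (hv _ _ (hw y.1)).1, le_antisymm (not_lt.1 h7) h8, Nat.cast_one,
      one_mul]
  · obtain ⟨y, hy, h5⟩ := h2 r
      (Multiset.count_ne_zero.1 (Nat.cast_ne_zero.1 (left_ne_zero_of_mul hr)))
      fun h => right_ne_zero_of_mul hr (ord_of_isUnit he0 he h)
    exact ⟨⟨y, hy⟩, h5⟩

end DivN

/-- The norm rule for a monogenic finite free algebra. -/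
theorem push_Div_norm {Y : Type} [CommRing Y] (hm : IsUnit ((m : ℕ) : R)) (i : R →+* A) (u : A)
    (P : A[X]) (hP : P.Monic) (Q σ : AdjoinRoot P) [Algebra (AdjoinRoot P) Y]
    [IsLocalization.Away Q Y] (hc : IsCoprime σ Q) (het : (eval₂RingHom i u).Etale)
    (j : A →+* Y) (hj : j = (algebraMap (AdjoinRoot P) Y).comp (AdjoinRoot.of P))
    (het' : (eval₂RingHom (j.comp i) (j u)).Etale)
    (hf : ((Ideal.Quotient.mk (Ideal.span {algebraMap _ Y σ})).comp (j.comp i)).Finite) :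
    push (spm j) (Div (spm (j.comp i)) (fn (j u)) (fn (algebraMap _ Y σ)) 1) =
      Div (spm i) (fn u) (fn (Algebra.norm A σ)) 1 := by
  obtain ⟨q, rfl⟩ := AdjoinRoot.mk_surjective Q
  obtain ⟨s, rfl⟩ := AdjoinRoot.mk_surjective σ
  have H := DivN_pres (Y := Y) P q
  have h0 : algebraMap _ Y (AdjoinRoot.mk P s) =
      (algebraMap (AdjoinRoot P) Y).comp (AdjoinRoot.mk P) s := rfl
  replace hj : j = ((algebraMap (AdjoinRoot P) Y).comp (AdjoinRoot.mk P)).comp C := hj
  rw [h0] at hf ⊢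
  generalize (algebraMap (AdjoinRoot P) Y).comp (AdjoinRoot.mk P) = t at H hj hf
  subst hj
  have := (etale_lineMap_spm _ _).2 het
  have := (etale_lineMap_spm _ _).2 het'
  have h1 : GFin (spm ((t.comp C).comp i)) (zl (fn (t s))) := by
    rw [zl_fn]
    exact (finOver_spm _ _ hf).gfin
  have h2 := DivOK.one (m := m) (u := fn (t.comp C u))
    (by simpa using hm.map (fn.comp ((t.comp C).comp i))) h1
  rw [← spm_comp] at h1
  have h3 : GFin (spm i) (zl (fn (Algebra.norm A (AdjoinRoot.mk P s)))) := by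
    refine h1.image.mono fun a ha => ?_
    obtain ⟨z, hz⟩ := spm_surjective (geo a)
    rw [← gen_geo a, ← hz] at ha ⊢
    rw [gen_mem_zeroLocus, ev_spm_fn, DivN_norm hP z (IsAlgClosed.splits _),
      Multiset.prod_eq_zero_iff, Multiset.mem_map] at ha
    obtain ⟨r, h4, h5⟩ := ha
    have h6 : eval₂ z r P = 0 := by rw [← Polynomial.eval_map]; exact (mem_roots (hP.map z).ne_zero).1 h4
    have h7 := hc.map (AdjoinRoot.lift z r h6)
    rw [AdjoinRoot.lift_mk, AdjoinRoot.lift_mk, h5, isCoprime_zero_left] at h7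
    obtain ⟨y, hy⟩ := H.lift _ z r h6 h7
    refine ⟨gen (spm y), ?_, ?_⟩
    · rw [gen_mem_zeroLocus, ev_spm_fn]
      exact (RingHom.congr_fun hy s).trans h5
    · rw [← gen_comp, spm_comp, (DivN_of_comp hy).1]
  have h4 := DivOK.one (m := m) (u := fn u) (by simpa using hm.map (fn.comp i)) h3
  refine funext_geo fun k _ _ z => ?_
  obtain ⟨z, rfl⟩ := spm_surjective z
  obtain ⟨x, hx⟩ := (DivN_lift het (datJ k) (datE_not_isUnit k) z).exists
  rw [push_geo (h1.of_comp.mono fun a ha => (support_Div ha).2),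
    (DivN_val het h4 (datE_ne_zero k) (datE_not_isUnit k) hx).1,
    DivN_norm hP x (FactA_splits (hP.map x)),
    ← DivN_sum H hP hc het het' (datE_ne_zero k) (datE_not_isUnit k) hx fun y w hw =>
      DivN_val het' h2 (datE_ne_zero k) (datE_not_isUnit k) hw]
  symm
  refine finsum_eq_of_bijective (fun y => ⟨spm y.1, by rw [spm_comp, y.2]⟩)
    ⟨fun y y' h => Subtype.ext (spm_injective (congrArg Subtype.val h)), fun y => ?_⟩ fun _ => rfl
  obtain ⟨y', hy⟩ := spm_surjective y.1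
  exact ⟨⟨y', spm_injective (by rw [← spm_comp, hy, y.2])⟩, Subtype.ext hy⟩

end ring

end Pool.Agent.KEW
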