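import Mathlib

/-!
Valuation rings with algebraically closed fraction field.
-/

noncomputable section

open Polynomial IsLocalRing

namespace Pool.Agent.KEW

instance algClosed_frac_field (k : Type) [Field k] [IsAlgClosed k] :
    IsAlgClosed (FractionRing k) := by
  exact IsAlgClosed.of_ringEquiv k (FractionRing k) (FractionRing.algEquiv k k).symm.toRingEquiv

instance algClosed_frac_valSub {Om : Type} [Field Om] [IsAlgClosed Om] (V : ValuationSubring Om) :
    IsAlgClosed (FractionRing V) := by
  exact IsAlgClosed.of_ringEquiv Om (FractionRing V) (FractionRing.algEquiv V Om).symm.toRingEquiv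

/-- A prime ideal containing the kernel of a map to a field is the centre of a valuation.
Hint: `IsLocalRing.exists_factor_valuationRing` for the localisation of `A` at `P`, or
`LocalSubring.exists_le_valuationSubring`. -/
theorem exists_dom {A Om : Type} [CommRing A] [Field Om] (f : A →+* Om) (P : Ideal A) [P.IsPrime]
    (hP : RingHom.ker f ≤ P) :
    ∃ (V : ValuationSubring Om) (h : A →+* V), (∀ a, (h a : Om) = f a) ∧
      ∀ a, ¬IsUnit (h a) ↔ a ∈ P := by
  have hu : ∀ s : P.primeCompl, IsUnit (f s) := fun s =>
    isUnit_iff_ne_zero.2 fun h => s.2 (hP h)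
  obtain ⟨V, hV, hloc⟩ := IsLocalRing.exists_factor_valuationRing
    (IsLocalization.lift (S := Localization.AtPrime P) hu)
  refine ⟨V, ((IsLocalization.lift (S := Localization.AtPrime P) hu).codRestrict V.toSubring
    hV).comp (algebraMap A (Localization.AtPrime P)), fun a => IsLocalization.lift_eq hu a,
    fun a => ?_⟩
  have h1 := isUnit_map_iff ((IsLocalization.lift (S := Localization.AtPrime P) hu).codRestrict
    V.toSubring hV) (algebraMap A (Localization.AtPrime P) a)
  have h2 := IsLocalization.AtPrime.isUnit_to_map_iff (Localization.AtPrime P) P a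
  exact (not_congr (h1.trans h2)).trans not_not

theorem FactA_lift {St O Om : Type} [CommRing St] [CommRing O] [CommRing Om] (i : O →+* Om)
    (hi : Function.Injective i) (ψ : St →+* Om) (h : ∀ s, ∃ y, i y = ψ s) :
    ∃ x : St →+* O, i.comp x = ψ := by
  choose g hg using h
  exact ⟨{ toFun := g
           map_one' := hi (by rw [hg, map_one, map_one])
           map_mul' := fun a b => hi (by rw [hg, map_mul, map_mul, hg, hg])
           map_zero' := hi (by rw [hg, map_zero, map_zero])
           map_add' := fun a b => hi (by rw [hg, map_add, map_add, hg, hg]) },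
    RingHom.ext hg⟩

/-- Points of an integral algebra with values in the fraction field of an integrally closed
domain are integral points. -/
theorem lift_integral {A St O Om : Type} [CommRing A] [CommRing St] [CommRing O] [IsDomain O]
    [IsIntegrallyClosed O] [Field Om] [Algebra O Om] [IsFractionRing O Om] (i : A →+* St)
    (hi : i.IsIntegral) (h : A →+* O) (ψ : St →+* Om)
    (hψ : ψ.comp i = (algebraMap O Om).comp h) :
    ∃ ψ' : St →+* O, (algebraMap O Om).comp ψ' = ψ ∧ ψ'.comp i = h := by
  obtain ⟨ψ', h1⟩ := FactA_lift (algebraMap O Om) (IsFractionRing.injective O Om) ψ fun s => by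
    obtain ⟨p, hp, h0⟩ := hi s
    refine IsIntegrallyClosed.isIntegral_iff.1 ⟨p.map h, hp.map h, ?_⟩
    rw [eval₂_map, ← hψ, ← hom_eval₂, h0, map_zero]
  refine ⟨ψ', h1, RingHom.ext fun a => IsFractionRing.injective O Om ?_⟩
  exact (RingHom.congr_fun h1 (i a)).trans (RingHom.congr_fun hψ a)

variable {B : Type} [CommRing B] [IsDomain B] [ValuationRing B] [IsAlgClosed (FractionRing B)]

theorem FactA_splits {F : B[X]} (hF : F.Monic) : F.Splits := by
  refine Splits.of_splits_map_of_injective (IsFractionRing.injective B (FractionRing B))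
    (IsAlgClosed.splits _) fun a ha => ?_
  have h1 := (mem_roots'.1 ha).2
  rw [IsRoot.def, eval_map] at h1
  exact IsIntegrallyClosed.isIntegral_iff.1 ⟨F, hF, h1⟩

omit [IsDomain B] [ValuationRing B] [IsAlgClosed (FractionRing B)] in
theorem FactA_root {St : Type} [CommRing St] (i : B →+* St) (q : Ideal St) [hq : q.IsPrime]
    (d : St) (as : Multiset B) (h : eval₂ i d (as.map fun a => X - C a).prod ∈ q) :
    ∃ a ∈ as, d - i a ∈ q := by
  rw [eval₂_multiset_prod, Multiset.map_map] at h
  obtain ⟨_, hx, h1⟩ := (hq.multiset_prod_mem_iff_exists_mem _).1 h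
  obtain ⟨a, ha, rfl⟩ := Multiset.mem_map.1 hx
  exact ⟨a, ha, by simpa using h1⟩

instance algClosed_residue : IsAlgClosed (ResidueField B) := by
  refine IsAlgClosed.of_exists_root _ fun p hp hirr => ?_
  obtain ⟨q, rfl, -, hq⟩ := lifts_and_natDegree_eq_and_monic
    (mem_lifts_of_surjective (f := residue B) residue_surjective p) hp
  exact ((FactA_splits hq).map (residue B)).exists_eval_eq_zero (degree_pos_of_irreducible hirr).ne'

/-- A field of constants extends to any algebraic extension. -/
theorem exists_ext_algebraic {k k0 : Type} [Field k] [Field k0] [Algebra k k0]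
    [Algebra.IsAlgebraic k k0] (j0 : k →+* B) :
    ∃ j : k0 →+* B, j.comp (algebraMap k k0) = j0 := by
  let : Algebra k (FractionRing B) := ((algebraMap B (FractionRing B)).comp j0).toAlgebra
  have : Module.IsTorsionFree k (FractionRing B) := DivisionSemiring.to_moduleIsTorsionFree
  let φ : k0 →ₐ[k] FractionRing B := IsAlgClosed.lift
  obtain ⟨j, -, hj⟩ := lift_integral (algebraMap k k0)
    (fun x => (Algebra.IsAlgebraic.isAlgebraic (R := k) x).isIntegral) j0 (φ : k0 →+* FractionRing B)
    φ.comp_algebraMap
  exact ⟨j, hj⟩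

/-- Points of an integral algebra over `B` with values in a field containing `B` are
`B`-points. -/
theorem lift_section {St Om : Type} [CommRing St] [Field Om] (i : B →+* Om)
    (hi : Function.Injective i) (ψ : St →+* Om) (hψ : ∀ s, i.IsIntegralElem (ψ s)) :
    ∃ x : St →+* B, i.comp x = ψ := by
  refine FactA_lift i hi ψ fun s => ?_
  obtain ⟨p, hp, h0⟩ := hψ s
  rw [(FactA_splits hp).eq_prod_roots_of_monic hp] at h0
  obtain ⟨a, -, ha⟩ := FactA_root i ⊥ (ψ s) _ (Ideal.mem_bot.2 h0)
  exact ⟨a, (sub_eq_zero.1 (Ideal.mem_bot.1 ha)).symm⟩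

omit [IsAlgClosed (FractionRing B)] in
theorem FactA_prod (s : Multiset (FractionRing B)) :
    ∃ (u : FractionRing B) (as bs : Multiset B), u ≠ 0 ∧ (∀ b ∈ bs, b ∈ maximalIdeal B) ∧
      (s.map fun r => X - C r).prod = C u * ((as.map fun a => X - C a).prod *
        (bs.map fun b => 1 - C b * X).prod).map (algebraMap B (FractionRing B)) := by
  induction s using Multiset.induction_on with
  | empty => exact ⟨1, 0, 0, one_ne_zero, by simp, by simp⟩
  | cons r s ih =>
    obtain ⟨u, as, bs, hu, hbs, h⟩ := ih
    by_cases hr : ∃ a, algebraMap B (FractionRing B) a = r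
    · obtain ⟨a, rfl⟩ := hr
      refine ⟨u, a ::ₘ as, bs, hu, hbs, ?_⟩
      simp only [Multiset.map_cons, Multiset.prod_cons, h, Polynomial.map_mul, Polynomial.map_sub,
        map_X, map_C]
      ring
    · have hr0 : r ≠ 0 := fun h0 => hr ⟨0, by rw [map_zero, h0]⟩
      obtain ⟨b, hb⟩ := (ValuationRing.isInteger_or_isInteger B r).resolve_left hr
      have hbm : b ∈ maximalIdeal B := by
        by_contra hn
        obtain ⟨v, hv⟩ := (notMem_maximalIdeal.1 hn).exists_right_inv
        refine hr ⟨v, ?_⟩
        have h1 := congrArg (algebraMap B (FractionRing B)) hv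
        rw [map_mul, map_one, hb, inv_mul_eq_one₀ hr0] at h1
        exact h1.symm
      refine ⟨-r * u, as, b ::ₘ bs, mul_ne_zero (neg_ne_zero.2 hr0) hu, fun c hc => ?_, ?_⟩
      · rcases Multiset.mem_cons.1 hc with rfl | hc
        · exact hbm
        · exact hbs c hc
      · have h1 : (X - C r : (FractionRing B)[X]) = C (-r) * (1 - C r⁻¹ * X) := by
          rw [mul_sub, ← mul_assoc, ← C_mul, neg_mul, mul_inv_cancel₀ hr0]
          simp only [map_neg, map_one]
          ring
        simp only [Multiset.map_cons, Multiset.prod_cons, h, Polynomial.map_mul,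
          Polynomial.map_sub, map_X, map_C, Polynomial.map_one, hb, h1, C_mul]
        ring

omit [IsAlgClosed (FractionRing B)] in
theorem FactA_red {bs : Multiset B} (hbs : ∀ b ∈ bs, b ∈ maximalIdeal B) :
    (bs.map fun b => 1 - C b * X).prod.map (residue B) = 1 := by
  rw [Polynomial.map_multiset_prod, Multiset.map_map]
  refine Multiset.prod_eq_one fun p hp => ?_
  obtain ⟨b, hb, rfl⟩ := Multiset.mem_map.1 hp
  simp [(residue_eq_zero_iff b).2 (hbs b hb)]

/-- Factorisation of polynomials.
Hint: factor over the fraction field; a root outside `B` has its inverse in the maximal ideal;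
the product `G` of the normalised linear factors has nonzero reduction, hence a unit
coefficient, so the constant lies in `B`. -/
theorem fact_poly {F : B[X]} (hF : F ≠ 0) :
    ∃ (c : B) (as bs : Multiset B), c ≠ 0 ∧ (∀ b ∈ bs, b ∈ maximalIdeal B) ∧
      F = C c * (as.map fun a => X - C a).prod * (bs.map fun b => 1 - C b * X).prod := by
  have hinj := IsFractionRing.injective B (FractionRing B)
  have hF' : F.map (algebraMap B (FractionRing B)) ≠ 0 := (Polynomial.map_ne_zero_iff hinj).2 hF
  obtain ⟨u, as, bs, hu, hbs, h1⟩ := FactA_prod (F.map (algebraMap B (FractionRing B))).roots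
  have h2 := (IsAlgClosed.splits (F.map (algebraMap B (FractionRing B)))).eq_prod_roots
  rw [h1, ← mul_assoc, ← C_mul] at h2
  set G : B[X] := (as.map fun a => X - C a).prod * (bs.map fun b => 1 - C b * X).prod with hG
  have h3 : G.map (residue B) ≠ 0 := by
    rw [hG, Polynomial.map_mul, FactA_red hbs, mul_one]
    exact ((monic_multiset_prod_of_monic _ _ fun a _ => monic_X_sub_C a).map _).ne_zero
  obtain ⟨n, hn⟩ : ∃ n, (G.map (residue B)).coeff n ≠ 0 := by
    by_contra hc
    exact h3 (Polynomial.ext fun n => not_not.1 fun h => hc ⟨n, h⟩)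
  rw [coeff_map, ne_eq, residue_eq_zero_iff, notMem_maximalIdeal] at hn
  obtain ⟨v, hv⟩ := hn.exists_right_inv
  have h4 := congrArg (fun p => coeff p n) h2
  simp only [coeff_map, coeff_C_mul] at h4
  have h5 : algebraMap B (FractionRing B) (F.coeff n * v) =
      (F.map (algebraMap B (FractionRing B))).leadingCoeff * u := by
    rw [map_mul, h4, mul_assoc, ← map_mul, hv, map_one, mul_one]
  have h6 : F = C (F.coeff n * v) * G := by
    refine map_injective _ hinj ?_
    rw [Polynomial.map_mul, map_C, h5]
    exact h2
  refine ⟨F.coeff n * v, as, bs, fun h => hF ?_, hbs, h6.trans (mul_assoc _ _ _).symm⟩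
  rw [h6, h, C_0, zero_mul]

/-- Conservation of the number of roots under specialisation. -/
theorem rootMult_spec {F : B[X]} (hF : F.map (residue B) ≠ 0) (ub : ResidueField B) :
    ((F.map (residue B)).rootMultiplicity ub : ℚ) =
      ∑ᶠ a ∈ {a : B | residue B a = ub},
        ((F.map (algebraMap B (FractionRing B))).rootMultiplicity
          (algebraMap B (FractionRing B) a) : ℚ) := by
  classical
  have hF0 : F ≠ 0 := fun h => hF (by rw [h, Polynomial.map_zero])
  obtain ⟨c, as, bs, hc, hbs, h1⟩ := fact_poly hF0
  have h2 : F.map (residue B) =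
      C (residue B c) * ((as.map (residue B)).map fun a => X - C a).prod := by
    rw [h1, Polynomial.map_mul, FactA_red hbs, mul_one, Polynomial.map_mul, map_C,
      Polynomial.map_multiset_prod, Multiset.map_map, Multiset.map_map]
    congr 2
    exact Multiset.map_congr rfl fun a _ => by simp
  have hc' : residue B c ≠ 0 := fun h => hF (by rw [h2, h, C_0, zero_mul])
  have h3 : (F.map (residue B)).roots = as.map (residue B) := by
    rw [h2, roots_C_mul _ hc', roots_multiset_prod_X_sub_C]
  have h4 : F.roots = as := by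
    have h5 : (bs.map fun b => 1 - C b * X).prod.roots = 0 := by
      refine Multiset.eq_zero_of_forall_notMem fun a ha => ?_
      have h6 := (mem_roots'.1 ha).2.map (f := residue B)
      rw [FactA_red hbs] at h6
      exact one_ne_zero ((eval_one).symm.trans h6)
    have h7 := hF0
    rw [h1] at h7
    rw [h1, roots_mul h7, h5, add_zero, roots_C_mul _ hc, roots_multiset_prod_X_sub_C]
  have h8 : ∀ a : B, (F.map (algebraMap B (FractionRing B))).rootMultiplicity
      (algebraMap B (FractionRing B) a) = as.count a := fun a => by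
    rw [← eq_rootMultiplicity_map (IsFractionRing.injective B (FractionRing B)), ← count_roots, h4]
  simp only [h8]
  rw [← count_roots, h3, Multiset.count_map, finsum_mem_eq_sum_of_inter_support_eq _
    (t := (as.filter fun a => ub = residue B a).toFinset), ← Multiset.toFinset_sum_count_eq,
    Nat.cast_sum]
  · refine Finset.sum_congr rfl fun a ha => ?_
    rw [Multiset.count_filter_of_pos (p := fun a => ub = residue B a)
      (Multiset.mem_filter.1 (Multiset.mem_toFinset.1 ha)).2]
  · ext a
    simp only [Set.mem_inter_iff, Set.mem_ofPred_eq, Function.mem_support, ne_eq,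
      Nat.cast_eq_zero, Multiset.count_eq_zero, not_not, Finset.mem_coe, Multiset.mem_toFinset,
      Multiset.mem_filter]
    exact ⟨fun h => ⟨⟨h.2, h.1.symm⟩, h.2⟩, fun h => ⟨h.1.2.symm, h.2⟩⟩

theorem rootMult_finite {F : B[X]} (hF : F ≠ 0) :
    {a : B | (F.map (algebraMap B (FractionRing B))).rootMultiplicity
      (algebraMap B (FractionRing B) a) ≠ 0}.Finite := by
  refine (finite_setOfPred_isRoot hF).subset fun a ha => ?_
  rw [Set.mem_ofPred_eq, ← eq_rootMultiplicity_map (IsFractionRing.injective B (FractionRing B))]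
    at ha
  exact (rootMultiplicity_pos hF).1 (Nat.pos_of_ne_zero ha)

/-- A domain all of whose elements are algebraic over the image of `B` is local: two maximal
ideals containing such a prime coincide.
Hint: by `fact_poly` every element of `St / q` is the image of an element of `B` or is a unit. -/
theorem eq_of_algebraic_mod {St : Type} [CommRing St] (i : B →+* St) (q p p' : Ideal St)
    [q.IsPrime] [p.IsMaximal] [p'.IsMaximal] (hp : q ≤ p) (hp' : q ≤ p')
    (halg : ∀ d : St, ∃ F : B[X], (∃ n, i (F.coeff n) ∉ q) ∧ eval₂ i d F ∈ q) : p = p' := by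
  have key : ∀ d : St, (∃ a, d - i a ∈ q) ∨ ∃ b, 1 - i b * d ∈ q := by
    intro d
    obtain ⟨F, ⟨n, hn⟩, h0⟩ := halg d
    have hF : F ≠ 0 := fun h => hn (by rw [h, coeff_zero, map_zero]; exact q.zero_mem)
    obtain ⟨c, as, bs, -, -, h1⟩ := fact_poly hF
    have hc : i c ∉ q := fun h => hn (by
      rw [h1, mul_assoc, coeff_C_mul, map_mul]
      exact q.mul_mem_right _ h)
    rw [h1, eval₂_mul, eval₂_mul, eval₂_C] at h0
    rcases Ideal.IsPrime.mem_or_mem inferInstance h0 with h2 | h2
    · obtain ⟨a, -, ha⟩ := FactA_root i q d as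
        ((Ideal.IsPrime.mem_or_mem inferInstance h2).resolve_left hc)
      exact Or.inl ⟨a, ha⟩
    · rw [eval₂_multiset_prod, Multiset.map_map] at h2
      obtain ⟨_, hx, h3⟩ := (Ideal.IsPrime.multiset_prod_mem_iff_exists_mem inferInstance _).1 h2
      obtain ⟨b, -, rfl⟩ := Multiset.mem_map.1 hx
      exact Or.inr ⟨b, by simpa [eval₂_sub] using h3⟩
  have main : ∀ (r r' : Ideal St) [r.IsMaximal] [r'.IsMaximal], q ≤ r → q ≤ r' →
      r.comap i ≤ r'.comap i → r = r' := by
    intro r r' hr hr' h1 h2 h3
    refine hr.eq_of_le hr'.ne_top fun d hd => ?_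
    rcases key d with ⟨a, ha⟩ | ⟨b, hb⟩
    · have h4 : i a ∈ r := by simpa using r.sub_mem hd (h1 ha)
      simpa using r'.add_mem (h2 ha) (h3 h4)
    · refine absurd ((Ideal.eq_top_iff_one r).2 ?_) hr.ne_top
      simpa using r.add_mem (h1 hb) (r.mul_mem_left (i b) hd)
  rcases (ValuationRing.le_total_ideal (A := B)).total (p.comap i) (p'.comap i) with h | h
  · exact main p p' hp hp' h
  · exact (main p' p hp' hp h).symm

/-- Henselian property: a simple root of the reduction of a monic polynomial lifts. -/
theorem exists_root_lift {F : B[X]} (hF : F.Monic) (ub : ResidueField B)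
    (h : (F.map (residue B)).IsRoot ub) : ∃ a : B, F.IsRoot a ∧ residue B a = ub := by
  have h1 := (FactA_splits hF).eq_prod_roots_of_monic hF
  rw [IsRoot.def, eval_map, h1] at h
  obtain ⟨a, ha, h2⟩ := FactA_root (residue B) ⊥ ub _ (Ideal.mem_bot.2 h)
  exact ⟨a, (mem_roots'.1 ha).2, (sub_eq_zero.1 (Ideal.mem_bot.1 h2)).symm⟩

end Pool.Agent.KEW
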