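import Pool.Agent.P.MP_6277db_ag.KEW.L3.Ord
import Pool.Agent.P.MP_6277db_ag.KEW.L3.Fact

/-!
A finite model near a point of a quasi-finite algebra over the affine line, and a function on it
which is a unit at the other points of the fibre.
-/

noncomputable section

open Polynomial IsLocalRing

namespace Pool.Agent.KEW

theorem Phi_alg {B K : Type} [CommRing B] [Field K] [Algebra B K] [Algebra.QuasiFinite B K]
    (x : K) : ∃ F : B[X], (∃ n, algebraMap B K (F.coeff n) ≠ 0) ∧ aeval x F = 0 := by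
  have hP : (RingHom.ker (algebraMap B K)).IsPrime := RingHom.ker_isPrime _
  let _ : Algebra (B ⧸ RingHom.ker (algebraMap B K)) K :=
    (RingHom.kerLift (algebraMap B K)).toAlgebra
  have hinj : Function.Injective (algebraMap (B ⧸ RingHom.ker (algebraMap B K)) K) :=
    RingHom.kerLift_injective _
  have : FaithfulSMul (B ⧸ RingHom.ker (algebraMap B K)) K :=
    (faithfulSMul_iff_algebraMap_injective _ _).2 hinj
  have : IsScalarTower B (B ⧸ RingHom.ker (algebraMap B K)) K :=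
    .of_algebraMap_eq fun b => (RingHom.kerLift_mk _ b).symm
  let _ := FractionRing.liftAlgebra (B ⧸ RingHom.ker (algebraMap B K)) K
  have : IsScalarTower B (FractionRing (B ⧸ RingHom.ker (algebraMap B K))) K :=
    .of_algebraMap_eq fun b => by
      rw [IsScalarTower.algebraMap_apply B (B ⧸ RingHom.ker (algebraMap B K)) (FractionRing _),
        ← IsScalarTower.algebraMap_apply, ← IsScalarTower.algebraMap_apply]
  have : Algebra.QuasiFinite (FractionRing (B ⧸ RingHom.ker (algebraMap B K))) K :=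
    .of_restrictScalars B _ _
  have : Module.Finite (FractionRing (B ⧸ RingHom.ker (algebraMap B K))) K := .of_quasiFinite
  have h1 : IsAlgebraic (FractionRing (B ⧸ RingHom.ker (algebraMap B K))) x :=
    Algebra.IsAlgebraic.isAlgebraic x
  obtain ⟨G, hG0, hG⟩ := (IsFractionRing.isAlgebraic_iff (B ⧸ RingHom.ker (algebraMap B K))
    (FractionRing (B ⧸ RingHom.ker (algebraMap B K))) K).2 h1
  obtain ⟨F, rfl⟩ := Polynomial.map_surjective
    (algebraMap B (B ⧸ RingHom.ker (algebraMap B K))) Ideal.Quotient.mk_surjective G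
  refine ⟨F, ?_, by rwa [aeval_map_algebraMap] at hG⟩
  by_contra hc
  push Not at hc
  refine hG0 (Polynomial.ext fun n => hinj ?_)
  rw [coeff_map, ← IsScalarTower.algebraMap_apply, hc, coeff_zero, map_zero]

/-- Elements are algebraic at the primes of a quasi-finite quotient.
Hint: the residue field of `Q` is finite over the residue field of its contraction; clear
denominators in the minimal polynomial. -/
theorem alg_of_qf {B Y : Type} [CommRing B] [CommRing Y] [Algebra B Y] (φ : Y)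
    [Algebra.QuasiFinite B (Y ⧸ Ideal.span {φ})] (Q : Ideal Y) [Q.IsPrime] (hφ : φ ∈ Q) (d : Y) :
    ∃ F : B[X], (∃ n, algebraMap B Y (F.coeff n) ∉ Q) ∧ aeval d F ∈ Q := by
  have hle : Ideal.span {φ} ≤ Q := (Ideal.span_singleton_le_iff_mem _).2 hφ
  have : Algebra.QuasiFinite B (Y ⧸ Q) :=
    .of_surjective_algHom (Ideal.Quotient.factorₐ B hle) (Ideal.Quotient.factor_surjective hle)
  have : Algebra.QuasiFinite B Q.ResidueField := .trans _ (Y ⧸ Q) _
  obtain ⟨F, ⟨n, hn⟩, hF⟩ := Phi_alg (B := B) (algebraMap Y Q.ResidueField d)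
  refine ⟨F, ⟨n, fun h => hn ?_⟩, ?_⟩
  · rw [IsScalarTower.algebraMap_apply B Y Q.ResidueField, Ideal.algebraMap_residueField_eq_zero]
    exact h
  · rwa [aeval_algebraMap_apply, Ideal.algebraMap_residueField_eq_zero] at hF

/-- At a point where the coordinate is transcendental the function `φ` does not vanish. -/
theorem ne_zero_of_transc {B Y O : Type} [CommRing B] [CommRing Y] [Algebra B Y] [Algebra B[X] Y]
    [IsScalarTower B B[X] Y] (φ : Y) [Algebra.QuasiFinite B (Y ⧸ Ideal.span {φ})] [CommRing O]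
    [IsDomain O] (x : Y →+* O)
    (hx : ∀ F : B[X], x (algebraMap B[X] Y F) = 0 → ∀ n, x (algebraMap B Y (F.coeff n)) = 0) :
    x φ ≠ 0 := by
  intro h0
  have := RingHom.ker_isPrime x
  obtain ⟨F, ⟨n, hn⟩, hF⟩ := alg_of_qf (B := B) φ (RingHom.ker x) h0 (algebraMap B[X] Y X)
  rw [aeval_algebraMap_apply, aeval_X_left_apply] at hF
  exact hn (hx F hF n)

section

variable {A Y : Type} [CommRing A] [CommRing Y] [Algebra A Y] (St : Subalgebra A Y) (r : St)

/-- Points of `St` at which `r` is a unit extend uniquely to `Y`. -/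
theorem ext_of_unit (hr : ∀ y : Y, ∃ n : ℕ, (r : Y) ^ n * y ∈ St) {O : Type} [CommRing O]
    (ψ : St →+* O) (hψ : IsUnit (ψ r)) :
    ∃! x : Y →+* O, x.comp St.val.toRingHom = ψ := by
  have : IsLocalization.Away r (Localization.Away (r : Y)) := by
    refine IsLocalization.Away.mk r
      (IsLocalization.Away.algebraMap_isUnit (S := Localization.Away (r : Y)) (r : Y)) ?_ ?_
    · intro s
      obtain ⟨n, y, hy⟩ := IsLocalization.Away.surj (r : Y) s
      obtain ⟨m, hm⟩ := hr y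
      refine ⟨n + m, ⟨_, hm⟩, ?_⟩
      change s * algebraMap Y _ (r : Y) ^ (n + m) = algebraMap Y _ ((r : Y) ^ m * y)
      rw [pow_add, ← mul_assoc, hy, map_mul, map_pow, mul_comm]
    · intro a b hab
      obtain ⟨n, hn⟩ := IsLocalization.Away.exists_of_eq (S := Localization.Away (r : Y)) (r : Y)
        (a := (a : Y)) (b := (b : Y)) hab
      exact ⟨n, Subtype.ext hn⟩
  refine ⟨(IsLocalization.Away.lift (S := Localization.Away (r : Y)) r hψ).comp (algebraMap Y _),
    RingHom.ext fun s => IsLocalization.Away.lift_eq (S := Localization.Away (r : Y)) r hψ s,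
    fun x hx => RingHom.ext fun y => ?_⟩
  obtain ⟨n, hn⟩ := hr y
  have h1 : ∀ s : St, x s = ψ s := fun s => RingHom.congr_fun hx s
  have h2 : ∀ s : St, (IsLocalization.Away.lift (S := Localization.Away (r : Y)) r hψ).comp
      (algebraMap Y _) s = ψ s := fun s =>
    IsLocalization.Away.lift_eq (S := Localization.Away (r : Y)) r hψ s
  have h3 := (h1 ⟨_, hn⟩).trans (h2 ⟨_, hn⟩).symm
  rw [map_mul, map_mul, map_pow, map_pow, h1, h2] at h3
  exact (hψ.pow n).mul_left_cancel h3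

theorem ext_of_ne (hr : ∀ y : Y, ∃ n : ℕ, (r : Y) ^ n * y ∈ St) {O : Type} [CommRing O]
    [IsDomain O] {x x' : Y →+* O} (hx : x r ≠ 0)
    (h : x.comp St.val.toRingHom = x'.comp St.val.toRingHom) : x = x' := by
  refine RingHom.ext fun y => ?_
  obtain ⟨n, hn⟩ := hr y
  have h1 : ∀ s : St, x s = x' s := fun s => RingHom.congr_fun h s
  have h3 := h1 ⟨_, hn⟩
  rw [map_mul, map_mul, map_pow, map_pow, ← h1] at h3
  exact mul_left_cancel₀ (pow_ne_zero n hx) h3

theorem Phi_le (hr : ∀ y : Y, ∃ n : ℕ, (r : Y) ^ n * y ∈ St) {Q Q' : Ideal Y} [hQ : Q'.IsPrime]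
    (h : (r : Y) ∉ Q') (he : Q.comap St.val.toRingHom = Q'.comap St.val.toRingHom) : Q ≤ Q' := by
  intro y hy
  obtain ⟨n, hn⟩ := hr y
  have h1 : (⟨_, hn⟩ : St) ∈ Q.comap St.val.toRingHom := Q.mul_mem_left _ hy
  rw [he] at h1
  exact (hQ.mem_or_mem h1).resolve_left fun h2 => h (hQ.mem_of_pow_mem n h2)

theorem Phi_lift (hr : ∀ y : Y, ∃ n : ℕ, (r : Y) ^ n * y ∈ St) (q : Ideal St) [q.IsPrime]
    (h : r ∉ q) : ∃ Q : Ideal Y, Q.IsPrime ∧ Q.comap St.val.toRingHom = q := by
  obtain ⟨x, hx, -⟩ := ext_of_unit St r hr (algebraMap St q.ResidueField)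
    (by rw [isUnit_iff_ne_zero, ne_eq, Ideal.algebraMap_residueField_eq_zero]; exact h)
  refine ⟨RingHom.ker x, RingHom.ker_isPrime x, ?_⟩
  rw [RingHom.comap_ker, hx, Ideal.ker_algebraMap_residueField]

/-- Transport of a function on the primes of `Y` to the primes of `St` (zero on `V(r)`). -/
theorem exists_omega (hr : ∀ y : Y, ∃ n : ℕ, (r : Y) ^ n * y ∈ St) (c : PrimeSpectrum Y → ℚ) :
    ∃ om : PrimeSpectrum St → ℚ, (∀ q, om q = 0 ∨ ∃ Q, om q = c Q) ∧
      (∀ q : PrimeSpectrum St, r ∈ q.asIdeal → om q = 0) ∧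
      ∀ (O : Type) [CommRing O] [IsDomain O] (x : Y →+* O), x r ≠ 0 →
        om (gp (x.comp St.val.toRingHom)) = c (gp x) := by
  classical
  refine ⟨fun q => if h : ∃ Q : PrimeSpectrum Y, (r : Y) ∉ Q.asIdeal ∧
      Q.asIdeal.comap St.val.toRingHom = q.asIdeal then c h.choose else 0, fun q => ?_,
    fun q hq => ?_, fun O _ _ x hx => ?_⟩
  · dsimp only
    split_ifs with h
    · exact Or.inr ⟨_, rfl⟩
    · exact Or.inl rfl
  · refine dif_neg ?_
    rintro ⟨Q, h1, h2⟩
    rw [← h2] at hq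
    exact h1 hq
  · have h : ∃ Q : PrimeSpectrum Y, (r : Y) ∉ Q.asIdeal ∧
        Q.asIdeal.comap St.val.toRingHom = (gp (x.comp St.val.toRingHom)).asIdeal :=
      ⟨gp x, hx, rfl⟩
    dsimp only
    rw [dif_pos h]
    congr 1
    obtain ⟨h1, h2⟩ := h.choose_spec
    exact PrimeSpectrum.ext (le_antisymm (Phi_le St r hr (Q' := (gp x).asIdeal) hx h2)
      (Phi_le St r hr h1 h2.symm))

end

/-- The finite model. Hint: Zariski's main theorem
(`Algebra.QuasiFiniteAt.exists_fg_and_exists_notMem_and_awayMap_bijective`) gives `St`, `r`; put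
`φ0 = r ^ a * φ ∈ St`, `pS = p.comap St.val` (a maximal ideal, as `St[1/r] = Y[1/r]` and `St` is
integral over `B[X]`; or use that `pS` lies over the maximal ideal `n`),
`aa = {x | ∃ t ∉ pS, t * x ∈ span {φ0 ^ 2}}`. A maximal ideal `p' ≠ pS` does not contain `aa`:
otherwise a minimal prime `q` of `aa` inside `p'` comes from `St_pS / φ0 ^ 2` (minimal primes lift
along the injective map), so `q ≤ pS`, `φ0 ∈ q`, `r ∉ q`; `q` is the contraction of a prime of `Y`
containing `φ`, and `alg_of_qf`, `eq_of_algebraic_mod` give `p' = pS`. There are finitely many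
primes over `n`; write `1 = α + β` with `α ∈ aa` and `β` in all other maximal ideals over `n`,
and put `φ' = φ0 * β + α`. -/
theorem finite_model {B Y : Type} [CommRing B] [IsDomain B] [ValuationRing B]
    [IsAlgClosed (FractionRing B)] [CommRing Y] [Algebra B Y] [Algebra B[X] Y]
    [IsScalarTower B B[X] Y] [Algebra.FiniteType B[X] Y] [Algebra.QuasiFinite B[X] Y] (φ : Y)
    [Algebra.QuasiFinite B (Y ⧸ Ideal.span {φ})] (p : Ideal Y) [p.IsPrime]
    (hn : (p.comap (algebraMap B[X] Y)).IsMaximal) (hφ : φ ∈ p) :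
    ∃ (St : Subalgebra B[X] Y) (r φ' : St), Module.Finite B[X] St ∧ (r : Y) ∉ p ∧
      (∀ y : Y, ∃ n : ℕ, (r : Y) ^ n * y ∈ St) ∧
      (∃ t1 t2 : Y, t1 ∉ p ∧ t2 ∉ p ∧ t1 * φ' = t2 * φ) ∧
      ∀ p' : Ideal St, p'.IsPrime →
        p'.comap (algebraMap B[X] St) = p.comap (algebraMap B[X] Y) →
        p' ≠ p.comap St.val.toRingHom → φ' ∉ p' := by
  classical
  have hp : p.IsPrime := inferInstance
  obtain ⟨St, hfg, r, hrp, hb⟩ :=
    Algebra.QuasiFiniteAt.exists_fg_and_exists_notMem_and_awayMap_bijective (R := B[X]) p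
  have hfin : Module.Finite B[X] St := ⟨(Submodule.fg_top _).mpr hfg⟩
  have hr : ∀ y : Y, ∃ n : ℕ, (r : Y) ^ n * y ∈ St := by
    intro y
    obtain ⟨b, m, hm⟩ := Localization.awayMap_surjective_iff.1 hb.2 y
    exact ⟨m, by rw [show (r : Y) ^ m * y = b from hm.symm]; exact b.2⟩
  obtain ⟨a, ha⟩ := hr φ
  let φ0 : St := ⟨_, ha⟩
  set n := p.comap (algebraMap B[X] Y) with hndef
  set pS := p.comap St.val.toRingHom with hpS
  have hpSp : pS.IsPrime := Ideal.comap_isPrime _ _
  have hmax : ∀ p' : Ideal St, p'.IsPrime → p'.comap (algebraMap B[X] St) = n → p'.IsMaximal :=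
    fun p' _ h => Ideal.isMaximal_of_isIntegral_of_isMaximal_comap (R := B[X]) p' (h ▸ hn)
  have hpSm : pS.IsMaximal := hmax pS hpSp rfl
  have hφ0 : φ0 ∈ pS := p.mul_mem_left _ hφ
  let aa : Ideal St :=
    { carrier := {x | ∃ t ∉ pS, φ0 ^ 2 ∣ t * x}
      zero_mem' := ⟨1, (Ideal.ne_top_iff_one _).1 hpSp.ne_top, by simp⟩
      add_mem' := by
        rintro x y ⟨t, ht, hx⟩ ⟨u, hu, hy⟩
        refine ⟨t * u, hpSp.mul_notMem ht hu, ?_⟩
        rw [show t * u * (x + y) = u * (t * x) + t * (u * y) by ring]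
        exact dvd_add (hx.mul_left _) (hy.mul_left _)
      smul_mem' := by
        rintro c x ⟨t, ht, hx⟩
        refine ⟨t, ht, ?_⟩
        rw [smul_eq_mul, mul_left_comm]
        exact hx.mul_left _ }
  have haa : ∀ x, x ∈ aa ↔ ∃ t ∉ pS, φ0 ^ 2 ∣ t * x := fun x => Iff.rfl
  have hcop : ∀ p' : Ideal St, p'.IsPrime → p'.comap (algebraMap B[X] St) = n → p' ≠ pS →
      IsCoprime aa p' := by
    intro p' hp' hc hne
    have hm := hmax p' hp' hc
    rw [Ideal.isCoprime_iff_sup_eq]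
    by_contra hcon
    have hle : aa ≤ p' := le_sup_left.trans (hm.eq_of_le hcon le_sup_right).ge
    obtain ⟨q, hq, hqp'⟩ := Ideal.exists_minimalPrimes_le hle
    have hqp : q.IsPrime := hq.1.1
    have hqS : q ≤ pS := by
      intro x hx
      by_contra hxS
      obtain ⟨y, hy, t, ht, hty⟩ := Ideal.exists_mul_mem_of_mem_minimalPrimes hq hx
      exact hy ⟨t * x, hpSp.mul_notMem ht hxS, by rwa [mul_assoc]⟩
    have hφq : φ0 ∈ q := hqp.mem_of_pow_mem 2
      (hq.1.2 ((haa _).2 ⟨1, (Ideal.ne_top_iff_one _).1 hpSp.ne_top, by simp⟩))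
    have hrq : r ∉ q := fun h => hrp (hqS h)
    obtain ⟨Q, hQ, hQq⟩ := Phi_lift St r hr q hrq
    have hmem : ∀ s : St, s ∈ q ↔ (s : Y) ∈ Q := fun s => by rw [← hQq]; rfl
    have hφQ : φ ∈ Q := (hQ.mem_or_mem ((hmem φ0).1 hφq)).resolve_left fun h =>
      hrq ((hmem r).2 (hQ.mem_of_pow_mem a h))
    have hi : St.val.toRingHom.comp ((algebraMap B[X] St).comp C) = algebraMap B Y := by
      ext b
      rw [IsScalarTower.algebraMap_apply B B[X] Y]
      rfl
    refine hne (eq_of_algebraic_mod ((algebraMap B[X] St).comp C) q p' pS hqp' hqS fun d => ?_)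
    obtain ⟨F, ⟨k, hk⟩, hF⟩ := alg_of_qf (B := B) φ Q hφQ (d : Y)
    refine ⟨F, ⟨k, fun h => hk ?_⟩, (hmem _).2 ?_⟩
    · rw [← hi]
      exact (hmem _).1 h
    · have h1 := hom_eval₂ F ((algebraMap B[X] St).comp C) St.val.toRingHom d
      rw [hi] at h1
      rw [aeval_def] at hF
      exact (congrArg (· ∈ Q) h1).mpr hF
  have hZ : {p' ∈ n.primesOver St | p' ≠ pS}.Finite :=
    (Algebra.QuasiFinite.finite_primesOver (R := B[X]) (S := St) n).subset fun _ h => h.1
  have hco : IsCoprime aa (∏ p' ∈ hZ.toFinset, p') := IsCoprime.prod_right fun p' hp' => by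
    obtain ⟨⟨h1, h2⟩, h3⟩ := hZ.mem_toFinset.1 hp'
    exact hcop p' h1 h2.over.symm h3
  obtain ⟨α, ⟨t, ht, s, hs⟩, β, hβ, hαβ⟩ := Ideal.isCoprime_iff_exists.1 hco
  have hα : α ∈ pS := (hpSp.mem_or_mem (hs ▸ pS.mul_mem_right s
    (pS.pow_mem_of_mem hφ0 2 two_pos))).resolve_left ht
  have hβS : β ∉ pS := fun h =>
    hpSp.ne_top ((Ideal.eq_top_iff_one _).2 (hαβ ▸ pS.add_mem hα h))
  refine ⟨St, r, φ0 * β + α, hfin, hrp, hr, ⟨t, ((t * β + φ0 * s : St) : Y) * (r : Y) ^ a, ht,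
    hp.mul_notMem ?_ fun h => hrp (hp.mem_of_pow_mem a h), ?_⟩, fun p' hp' hc hne hmem => ?_⟩
  · intro h
    have h1 : t * β + φ0 * s ∈ pS := h
    exact hpSp.mul_notMem ht hβS ((pS.add_mem_iff_left (pS.mul_mem_right s hφ0)).1 h1)
  · have h1 : t * (φ0 * β + α) = (t * β + φ0 * s) * φ0 := by linear_combination hs
    have h2 := congrArg Subtype.val h1
    rw [mul_assoc]
    exact h2
  · have h1 : β ∈ p' := by
      refine (Ideal.prod_le_inf.trans (Finset.inf_le (f := fun p' => p') ?_)) hβ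
      exact hZ.mem_toFinset.2 ⟨⟨hp', ⟨hc.symm⟩⟩, hne⟩
    have h2 : α ∈ p' := (p'.add_mem_iff_right (p'.mul_mem_left φ0 h1)).1 hmem
    exact hp'.ne_top ((Ideal.eq_top_iff_one _).2 (hαβ ▸ p'.add_mem h2 h1))

end Pool.Agent.KEW
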