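import Pool.Agent.P.MP_6277db_ag.KEW.L3.CycL
import Pool.Agent.P.MP_6277db_ag.KEW.L3.Phi

/-!
The divisor of a function on a relative cycle over the affine line: definitions.
-/

noncomputable section

open CategoryTheory Limits AlgebraicGeometry IsLocalRing Function Polynomial

namespace Pool.Agent.KEW

variable {X T : Scheme.{0}}

/-- The map to the affine line over `T` given by the function `u`. -/
def lineMap (p : X ⟶ T) (u : Γ(X, ⊤)) : X ⟶ 𝔸(Unit; T) := AffineSpace.homOfVector p fun _ => u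

/-- The sum of `c(x) ord_e(φ(x))` over the `O`-points `x` of `X` with the same image in `T` and
the same reduction as `z`, and with `u(x) = u(z) + e`. -/
def dv (p : X ⟶ T) (u φ : Γ(X, ⊤)) (c : X → ℚ) {O : Type} [CommRing O] [IsDomain O]
    [IsLocalRing O] (z : Spec (.of O) ⟶ X) (e : O) : ℚ :=
  ∑ᶠ x ∈ {x : Spec (.of O) ⟶ X | x ≫ p = z ≫ p ∧ ev x u = ev z u + e ∧
    resPt O ≫ x = resPt O ≫ z}, c (gen x) * ord e (ev x φ)

theorem exists_datum (k : Type) [Field k] :
    ∃ (V : ValuationSubring (AlgebraicClosure (FractionRing k[X]))) (j : k →+* V) (e : V),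
      e ≠ 0 ∧ ¬IsUnit e := by
  have hi : Function.Injective (algebraMap k[X] (AlgebraicClosure (FractionRing k[X]))) :=
    (algebraMap (FractionRing k[X]) _).injective.comp
      (IsFractionRing.injective k[X] (FractionRing k[X]))
  have : (Ideal.span {(Polynomial.X : k[X])}).IsPrime :=
    (Ideal.span_singleton_prime X_ne_zero).2 prime_X
  obtain ⟨V, h, h1, h2⟩ := exists_dom (algebraMap k[X] (AlgebraicClosure (FractionRing k[X])))
    (Ideal.span {Polynomial.X}) (by rw [(RingHom.injective_iff_ker_eq_bot _).1 hi]; exact bot_le)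
  refine ⟨V, h.comp C, h Polynomial.X, fun h0 => ?_, (h2 _).2 (Ideal.mem_span_singleton_self _)⟩
  have h3 := h1 Polynomial.X
  rw [h0] at h3
  exact X_ne_zero (hi (by rw [← h3, map_zero]; rfl))

/-- A valuation ring with algebraically closed fraction field that contains `k`. -/
def datV (k : Type) [Field k] : ValuationSubring (AlgebraicClosure (FractionRing k[X])) :=
  (exists_datum k).choose

/-- The constants of `datV k`. -/
def datJ (k : Type) [Field k] : k →+* datV k := (exists_datum k).choose_spec.choose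

/-- A nonzero element of the maximal ideal of `datV k`. -/
def datE (k : Type) [Field k] : datV k := (exists_datum k).choose_spec.choose_spec.choose

theorem datE_ne_zero (k : Type) [Field k] : datE k ≠ 0 :=
  (exists_datum k).choose_spec.choose_spec.choose_spec.1

theorem datE_not_isUnit (k : Type) [Field k] : ¬IsUnit (datE k) :=
  (exists_datum k).choose_spec.choose_spec.choose_spec.2

/-- The divisor of `φ` on the cycle `c` over the affine line with coordinate `u`. -/
def Div (p : X ⟶ T) (u φ : Γ(X, ⊤)) (c : X → ℚ) : X → ℚ := fun x =>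
  dv p u φ c (spm (datJ (geoF x)) ≫ geo x) (datE (geoF x))

/-- The zero locus of a global function. -/
abbrev zl (φ : Γ(X, ⊤)) : Set X := X.zeroLocus (U := ⊤) {φ}

/-- The hypotheses under which `Div p u φ c` is a quasi-finite cycle over `T`. -/
structure DivOK (m : ℕ) (p : X ⟶ T) (u φ : Γ(X, ⊤)) (c : X → ℚ) : Prop where
  lft : LocallyOfFiniteType p
  inv : IsUnit ((m : ℕ) : Γ(X, ⊤))
  mem : c ∈ QCyc m (lineMap p u)
  fin : GFin p (closure (support c) ∩ zl φ)

@[reassoc] theorem lineMap_over (p : X ⟶ T) (u : Γ(X, ⊤)) : lineMap p u ≫ 𝔸(Unit; T) ↘ T = p :=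
  AffineSpace.homOfVector_over _ _

theorem comp_lineMap {Y : Scheme.{0}} (h : Y ⟶ X) (p : X ⟶ T) (u : Γ(X, ⊤)) :
    h ≫ lineMap p u = lineMap (h ≫ p) (h.appTop u) :=
  AffineSpace.comp_homOfVector _ _ _

theorem DivD_coord (p : X ⟶ T) (u : Γ(X, ⊤)) :
    (lineMap p u).appTop (AffineSpace.coord T ()) = u :=
  AffineSpace.homOfVector_appTop_coord _ _ _

theorem DivD_ext {g : X ⟶ 𝔸(Unit; T)} {p : X ⟶ T} {u : Γ(X, ⊤)} (h1 : g ≫ 𝔸(Unit; T) ↘ T = p)
    (h2 : g.appTop (AffineSpace.coord T ()) = u) : g = lineMap p u :=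
  AffineSpace.hom_ext (by rw [h1, lineMap_over]) fun _ => by rw [h2, DivD_coord]

theorem DivD_inj {p q : X ⟶ T} {u v : Γ(X, ⊤)} : lineMap p u = lineMap q v ↔ p = q ∧ u = v := by
  constructor
  · intro h
    exact ⟨by rw [← lineMap_over p u, h, lineMap_over], by rw [← DivD_coord p u, h, DivD_coord]⟩
  · rintro ⟨rfl, rfl⟩
    rfl

theorem comp_lineMap_eq_iff {O : Type} [CommRing O] {Y : Scheme.{0}} (p : X ⟶ T) (u : Γ(X, ⊤))
    (q : Y ⟶ T) (v : Γ(Y, ⊤)) (x : Spec (.of O) ⟶ X) (y : Spec (.of O) ⟶ Y) :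
    x ≫ lineMap p u = y ≫ lineMap q v ↔ x ≫ p = y ≫ q ∧ ev x u = ev y v := by
  rw [comp_lineMap, comp_lineMap, DivD_inj, ← fn_ev, ← fn_ev, fn_bijective.1.eq_iff]

theorem exists_eq_lineMap {O : Type} [CommRing O] (g : Spec (.of O) ⟶ 𝔸(Unit; T)) :
    ∃ (t : Spec (.of O) ⟶ T) (a : O), g = lineMap t (fn a) :=   ⟨_, ev g (AffineSpace.coord T ()), DivD_ext rfl (fn_ev _ _).symm⟩

theorem comp_lineMap_eq_iff' {O : Type} [CommRing O] (p : X ⟶ T) (u : Γ(X, ⊤))
    (x : Spec (.of O) ⟶ X) (t : Spec (.of O) ⟶ T) (a : O) :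
    x ≫ lineMap p u = lineMap t (fn a) ↔ x ≫ p = t ∧ ev x u = a := by
  rw [comp_lineMap, DivD_inj, ← fn_ev, fn_bijective.1.eq_iff]

theorem DivD_comp_map {T' : Scheme.{0}} (p : X ⟶ T) (g : T ⟶ T') (u : Γ(X, ⊤)) :
    lineMap p u ≫ AffineSpace.map Unit g = lineMap (p ≫ g) u := by
  refine DivD_ext ?_ ?_
  · rw [Category.assoc, AffineSpace.map_over, lineMap_over_assoc]
  · rw [Scheme.Hom.comp_appTop, CommRingCat.comp_apply, AffineSpace.map_appTop_coord, DivD_coord]

theorem isPullback_lineMap {X' T' : Scheme.{0}} {p : X ⟶ T} {p' : X' ⟶ T'} {f : X' ⟶ X}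
    {g : T' ⟶ T} (sq : IsPullback f p' p g) (u : Γ(X, ⊤)) :
    IsPullback f (lineMap p' (f.appTop u)) (lineMap p u) (AffineSpace.map Unit g) := by
  refine IsPullback.of_bot ?_ ?_ (AffineSpace.isPullback_map g)
  · rwa [lineMap_over, lineMap_over]
  · rw [comp_lineMap, sq.w, DivD_comp_map]

theorem lineMap_comp_map {T' : Scheme.{0}} (p : X ⟶ T) (g : T ⟶ T') (u : Γ(X, ⊤)) :
    lineMap p u ≫ AffineSpace.map Unit g = lineMap (p ≫ g) u :=   DivD_comp_map p g u

theorem lineMap_coord : lineMap (𝔸(Unit; T) ↘ T) (AffineSpace.coord T ()) = 𝟙 _ :=   (DivD_ext (Category.id_comp _) (by rw [Scheme.Hom.id_appTop]; rfl)).symm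

/-- On spectra of rings the coordinate map is `Spec` of `R[X] → Y` up to the isomorphism
`AffineSpace.SpecIso` and `MvPolynomial.pUnitAlgEquiv`. -/
theorem exists_lineMap_spm (R : Type) [CommRing R] :
    ∃ ι : Spec (.of R[X]) ⟶ 𝔸(Unit; Spec (.of R)), IsIso ι ∧
      ∀ (Y : Type) [CommRing Y] (i : R →+* Y) (u : Y),
        lineMap (spm i) (fn u) = spm (eval₂RingHom i u) ≫ ι := by
  refine ⟨lineMap (spm C) (fn Polynomial.X), ?_, fun Y _ i u => ?_⟩
  · let e := (MvPolynomial.uniqueAlgEquiv R Unit).toRingEquiv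
    have h : spm e.toRingHom ≫ (AffineSpace.SpecIso Unit (.of R)).inv =
        lineMap (spm C) (fn Polynomial.X) := by
      refine DivD_ext ?_ ?_
      · rw [Category.assoc, AffineSpace.SpecIso_inv_over]
        refine (spm_comp _ _).trans (congrArg spm ?_)
        ext r : 1
        simp [e]
      · rw [Scheme.Hom.comp_appTop, CommRingCat.comp_apply, AffineSpace.SpecIso_inv_appTop_coord]
        refine (appTop_spm_fn _ _).trans (congrArg fn ?_)
        simp [e]
    have : IsIso (CommRingCat.ofHom e.toRingHom) := e.toCommRingCatIso.isIso_hom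
    rw [← h]
    infer_instance
  · rw [comp_lineMap, spm_comp, appTop_spm_fn, coe_eval₂RingHom, eval₂_X]
    congr 2
    ext r : 1
    simp

theorem etale_lineMap_spm {R Y : Type} [CommRing R] [CommRing Y] (i : R →+* Y) (u : Y) :
    Etale (lineMap (spm i) (fn u)) ↔ (eval₂RingHom i u).Etale := by
  obtain ⟨ι, hι, h⟩ := exists_lineMap_spm R
  have h1 : Etale (spm (eval₂RingHom i u)) ↔ (eval₂RingHom i u).Etale :=
    HasRingHomProperty.Spec_iff (P := @Etale)
  rw [h, ← h1]
  exact ⟨fun _ => Etale.of_comp _ ι, fun _ => inferInstance⟩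

end Pool.Agent.KEW
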