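import Pool.Agent.P.MP_6277db_ag.KEW.L3.RB

/-!
Independence of the datum, integrality and specialisation of the divisor of a function.
-/

noncomputable section

open CategoryTheory Limits AlgebraicGeometry IsLocalRing Function Polynomial

namespace Pool.Agent.KEW

variable {X T : Scheme.{0}}

theorem gen_spm {A O : Type} [CommRing A] [CommRing O] [IsDomain O] (x : A →+* O) :
    gen (spm x) = gp x := PrimeSpectrum.ext (gen_spm_asIdeal x)

/-- The conclusion of `exists_chart`. -/
structure Chart (p : X ⟶ T) (S : Set X) {B A : Type} [CommRing B] [CommRing A]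
    (t : Spec (.of B) ⟶ T) (i : B →+* A) (h : Spec (.of A) ⟶ X) : Prop where
  ft : i.FiniteType
  w : h ≫ p = spm i ≫ t
  range : Set.range h ⊆ S
  inj : ∀ (O : Type) [CommRing O] (x x' : A →+* O), x.comp i = x'.comp i →
    spm x ≫ h = spm x' ≫ h → x = x'
  surj : ∀ (O : Type) [CommRing O] [IsDomain O] [IsLocalRing O] (g : B →+* O)
    (x : Spec (.of O) ⟶ X) (x0 : A →+* ResidueField O), x ≫ p = spm g ≫ t → gen x ∈ S →
    x0.comp i = (residue O).comp g → spm x0 ≫ h = resPt O ≫ x →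
    ∃ x' : A →+* O, x'.comp i = g ∧ spm x' ≫ h = x ∧ (residue O).comp x' = x0

namespace Chart

variable {p : X ⟶ T} {S : Set X} {B A : Type} [CommRing B] [CommRing A] {t : Spec (.of B) ⟶ T}
  {i : B →+* A} {h : Spec (.of A) ⟶ X}

theorem ovr (C : Chart p S t i h) {O : Type} [CommRing O] (x : A →+* O) :
    (spm x ≫ h) ≫ p = spm (x.comp i) ≫ t := by
  rw [Category.assoc, C.w, ← Category.assoc, spm_comp]

theorem sum (C : Chart p S t i h) {O : Type} [CommRing O] [IsDomain O] [IsLocalRing O]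
    (g : B →+* O) (x0 : A →+* ResidueField O) (h0 : x0.comp i = (residue O).comp g)
    (Q : (Spec (.of O) ⟶ X) → Prop) (F : (Spec (.of O) ⟶ X) → ℚ) (hF : ∀ x, F x ≠ 0 → gen x ∈ S) :
    ∑ᶠ x ∈ {x | x ≫ p = spm g ≫ t ∧ Q x ∧ resPt O ≫ x = spm x0 ≫ h}, F x =
      ∑ᶠ x ∈ {x : A →+* O | x.comp i = g ∧ Q (spm x ≫ h) ∧ (residue O).comp x = x0},
        F (spm x ≫ h) := by
  rw [← finsum_mem_image (f := F) (g := fun x : A →+* O => spm x ≫ h)
    fun x hx x' hx' e => C.inj O x x' (hx.1.trans hx'.1.symm) e]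
  apply finsum_mem_inter_support_eq
  ext x
  constructor
  · rintro ⟨⟨h1, h2, h3⟩, h4⟩
    obtain ⟨x', e1, rfl, e3⟩ := C.surj O g x x0 h1 (hF x h4) h0 h3.symm
    exact ⟨⟨x', ⟨e1, h2, e3⟩, rfl⟩, h4⟩
  · rintro ⟨⟨x', ⟨e1, h2, e3⟩, rfl⟩, h4⟩
    exact ⟨⟨by rw [C.ovr, e1], h2, by rw [← Category.assoc, spm_comp, e3]⟩, h4⟩

theorem ev_eq {O : Type} [CommRing O] (x : A →+* O) (a : Γ(X, ⊤)) :
    ev (spm x ≫ h) a = x (ev h a) := ev_spm_comp x h a

theorem gen_eq {O : Type} [CommRing O] [IsDomain O] (x : A →+* O) :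
    gen (spm x ≫ h) = h (gp x) := by rw [gen_comp, gen_spm]

theorem comp_eq_iff {O : Type} [CommRing O] (u : A) (x : A →+* O) (g : B[X] →+* O) :
    x.comp (eval₂RingHom i u) = g ↔ x.comp i = g.comp C ∧ x u = g Polynomial.X := by
  constructor
  · rintro rfl
    exact ⟨RingHom.ext fun b => by simp, by simp⟩
  · rintro ⟨h1, h2⟩
    refine Polynomial.ringHom_ext (fun b => ?_) (by simpa using h2)
    simpa using RingHom.congr_fun h1 b

end Chart

variable {m : ℕ} {p : X ⟶ T} {u φ : Γ(X, ⊤)} {c : X → ℚ}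

theorem exists_chart' (p : X ⟶ T) [LocallyOfFiniteType p] {S : Set X} (hS : IsClosed S)
    {B : Type} [CommRing B] (t : Spec (.of B) ⟶ T) {k : Type} [Field k] (y : Spec (.of k) ⟶ X)
    (yb : B →+* k) (hy : y ≫ p = spm yb ≫ t) (hyS : gen y ∈ S) :
    ∃ (A : Type) (_ : CommRing A) (i : B →+* A) (h : Spec (.of A) ⟶ X) (y' : A →+* k),
      Chart p S t i h ∧ spm y' ≫ h = y ∧ y'.comp i = yb := by
  obtain ⟨A, _, i, h, y', h1, h2, h3, h4, h5, h6, h7⟩ := exists_chart p hS t y yb hy hyS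
  exact ⟨A, inferInstance, i, h, y', ⟨h1, h2, h5, h6, h7⟩, h3, h4⟩

section

variable {B A : Type} [CommRing B] [CommRing A] [Algebra B A] [Algebra B[X] A]
  {t : Spec (.of B) ⟶ T} {h : Spec (.of A) ⟶ X}

theorem Chart.qf (C : Chart p (closure (support c)) t (algebraMap B A) h) (H : DivOK m p u φ c)
    (hu : algebraMap B[X] A = eval₂RingHom (algebraMap B A) (ev h u))
    [Algebra.FiniteType B[X] A] : Algebra.QuasiFinite B[X] A := by
  refine quasiFinite_of_finite_hom fun Om _ _ τ => ?_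
  refine Set.Finite.of_finite_image (f := fun x : A →+* Om => spm x ≫ h)
    ((H.mem.2.2 Om (lineMap (spm (τ.comp Polynomial.C) ≫ t) (fn (τ Polynomial.X)))).subset ?_) ?_
  · rintro _ ⟨x, hx, rfl⟩
    obtain ⟨h1, h2⟩ := (Chart.comp_eq_iff _ x τ).1 (hu ▸ hx)
    exact ⟨(comp_lineMap_eq_iff' _ _ _ _ _).2 ⟨by rw [C.ovr, h1], by rw [Chart.ev_eq, h2]⟩,
      C.range ⟨_, (gen_comp _ _).symm⟩⟩
  · intro x hx x' hx' e
    exact C.inj Om x x' ((((Chart.comp_eq_iff _ x τ).1 (hu ▸ hx)).1).trans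
      ((Chart.comp_eq_iff _ x' τ).1 (hu ▸ hx')).1.symm) e

theorem Chart.qf0 (C : Chart p (closure (support c)) t (algebraMap B A) h) (H : DivOK m p u φ c) :
    Algebra.QuasiFinite B (A ⧸ Ideal.span {ev h φ}) := by
  have : Algebra.FiniteType B A := RingHom.finiteType_algebraMap.1 C.ft
  refine quasiFinite_of_finite_hom fun Om _ _ τ => ?_
  refine Set.Finite.of_finite_image
    (f := fun x : A ⧸ Ideal.span {ev h φ} →+* Om => spm (x.comp (Ideal.Quotient.mk _)) ≫ h)
    ((H.fin Om (spm τ ≫ t)).subset ?_) ?_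
  · rintro _ ⟨x, hx, rfl⟩
    refine ⟨(C.ovr _).trans (congrArg (fun g => spm g ≫ t) hx), C.range ⟨_, (gen_comp _ _).symm⟩, ?_⟩
    rw [gen_mem_zeroLocus, Chart.ev_eq, RingHom.comp_apply,
      Ideal.Quotient.eq_zero_iff_mem.2 (Ideal.mem_span_singleton_self _), map_zero]
  · intro x hx x' hx' e
    exact Ideal.Quotient.ringHom_ext (C.inj Om _ _ (hx.trans hx'.symm) e)

theorem Chart.aspec (C : Chart p (closure (support c)) t (algebraMap B A) h) (H : DivOK m p u φ c)
    (hu : algebraMap B[X] A = eval₂RingHom (algebraMap B A) (ev h u)) :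
    ASpec B[X] (fun Q : PrimeSpectrum A => c (h Q)) := by
  intro O _ _ _ _ g y hy
  obtain ⟨y1, y2⟩ := (Chart.comp_eq_iff _ y _).1 (hu ▸ hy)
  have key := H.mem.2.1 O (lineMap (spm (g.comp Polynomial.C) ≫ t) (fn (g Polynomial.X)))
    (spm y ≫ h) (by
      rw [comp_lineMap (resPt O), appTop_spm_fn, comp_lineMap_eq_iff', C.ovr, y1, Chart.ev_eq, y2,
        ← Category.assoc, spm_comp]
      exact ⟨rfl, rfl⟩)
  have e1 : c ((spm y ≫ h) (genPt _)) = c (h (gp y)) := congrArg c (Chart.gen_eq y)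
  refine e1.symm.trans (key.trans ?_)
  refine (finsum_set_coe_eq_finsum_mem (f := fun x : Spec (.of O) ⟶ X => c (gen x))
    {x | x ≫ lineMap p u = lineMap (spm (g.comp Polynomial.C) ≫ t) (fn (g Polynomial.X)) ∧
      resPt O ≫ x = spm y ≫ h}).trans ?_
  refine (finsum_mem_congr (Set.ext fun x => ?_) fun _ _ => rfl).trans
    ((C.sum (g.comp Polynomial.C) y y1 (fun x => ev x u = g Polynomial.X) (fun x => c (gen x))
      fun x hx => subset_closure hx).trans
      (finsum_mem_congr (Set.ext fun x => ?_) fun x _ => congrArg c (Chart.gen_eq x)))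
  · simp only [Set.mem_ofPred_eq, comp_lineMap_eq_iff', and_assoc]
  · simp only [Set.mem_ofPred_eq, hu, Chart.comp_eq_iff, Chart.ev_eq, and_assoc]

theorem Chart.dv_eq (C : Chart p (closure (support c)) t (algebraMap B A) h)
    (hu : algebraMap B[X] A = eval₂RingHom (algebraMap B A) (ev h u)) {O : Type} [CommRing O]
    [IsDomain O] [IsLocalRing O] (z : A →+* O) (e : O) :
    dv p u φ c (spm z ≫ h) e = sumA B[X] (ev h φ) (fun Q : PrimeSpectrum A => c (h Q))
      (eval₂RingHom (z.comp (algebraMap B A)) (z (ev h u) + e)) ((residue O).comp z) e := by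
  unfold dv sumA
  rw [C.ovr, ← Category.assoc (resPt O), spm_comp, Chart.ev_eq]
  refine (C.sum (z.comp (algebraMap B A)) ((residue O).comp z) rfl
    (fun x => ev x u = z (ev h u) + e) (fun x => c (gen x) * ord e (ev x φ))
    fun x hx => subset_closure (left_ne_zero_of_mul hx)).trans
    (finsum_mem_congr (Set.ext fun x => ?_) fun x _ => by rw [Chart.gen_eq, Chart.ev_eq])
  have : (eval₂RingHom (z.comp (algebraMap B A)) (z (ev h u) + e)).comp Polynomial.C =
      z.comp (algebraMap B A) := RingHom.ext fun b => by simp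
  simp only [Set.mem_ofPred_eq, hu, Chart.comp_eq_iff, Chart.ev_eq, and_assoc, this,
    coe_eval₂RingHom, eval₂_X]

end

theorem dv_eq_zero {O : Type} [CommRing O] [IsDomain O] [IsLocalRing O] (z : Spec (.of O) ⟶ X)
    (e : O) (hz : gen (resPt O ≫ z) ∉ closure (support c)) : dv p u φ c z e = 0 := by
  refine finsum_mem_of_eqOn_zero fun x hx => ?_
  by_contra h
  exact hz (hx.2.2 ▸ gen_res_mem x isClosed_closure (subset_closure (left_ne_zero_of_mul h)))

theorem gen_res_const {k O : Type} [Field k] [CommRing O] [IsLocalRing O] (j : k →+* O)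
    (z : Spec (.of k) ⟶ X) : gen (resPt O ≫ spm j ≫ z) = gen z := by
  rw [← Category.assoc, spm_comp, gen_spm_comp ((residue O).comp j).injective]

/-- The polynomial algebra structure on a chart. -/
theorem chart_tower {B A : Type} [CommRing B] [CommRing A] [Algebra B A] (a : A) :
    letI := (eval₂RingHom (algebraMap B A) a).toAlgebra
    IsScalarTower B B[X] A :=
  letI := (eval₂RingHom (algebraMap B A) a).toAlgebra
  IsScalarTower.of_algebraMap_eq fun b => (eval₂_C _ _).symm

theorem DivOK.exists_val (H : DivOK m p u φ c) {k : Type} [Field k] [IsAlgClosed k]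
    (z : Spec (.of k) ⟶ X) :
    ∃ D ∈ Lam0 m, ∀ (O : Type) [CommRing O] [IsDomain O] [ValuationRing O]
      [IsAlgClosed (FractionRing O)] (j : k →+* O) (e : O), e ≠ 0 → ¬IsUnit e →
      dv p u φ c (spm j ≫ z) e = D := by
  by_cases hz : gen z ∈ closure (support c)
  swap
  · exact ⟨0, zero_mem _, fun O _ _ _ _ j e _ _ => dv_eq_zero _ _ (by rwa [gen_res_const])⟩
  have := H.lft
  obtain ⟨A, _, i, h, y, C, h1, h2⟩ := exists_chart' p isClosed_closure (z ≫ p) z (RingHom.id k)
    (by rw [spm_id, Category.id_comp]) hz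
  let := i.toAlgebra
  let := (eval₂RingHom (algebraMap k A) (ev h u)).toAlgebra
  have := chart_tower (B := k) (ev h u)
  have : Algebra.FiniteType k A := C.ft
  have : Algebra.FiniteType k[X] A := Algebra.FiniteType.of_restrictScalars_finiteType k _ _
  have := Chart.qf (B := k) C H rfl
  have := Chart.qf0 (B := k) C H
  have hm : (m : k) ≠ 0 := by
    rw [← map_natCast (ev z)]
    exact (H.inv.map _).ne_zero
  obtain ⟨D, hD, hD'⟩ := ra (ev h φ) (fun Q : PrimeSpectrum A => c (h Q)) y h2 (Lam0 m)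
    (fun Q => H.mem.1 _) (inv_expChar_mem_Lam0 hm)
  refine ⟨D, hD, fun O _ _ _ _ j e he0 he => ?_⟩
  rw [← h1, ← Category.assoc, spm_comp, Chart.dv_eq (B := k) C rfl, ← hD' O j e he0 he]
  have h3 : algebraMap k[X] A Polynomial.X = ev h u := eval₂_X _ _
  have h4 : (j.comp y).comp (algebraMap k A) = j := by
    rw [RingHom.comp_assoc]
    exact (congrArg j.comp h2).trans j.comp_id
  rw [h3, h4]
  rfl

/-- Independence of the datum. -/
theorem Div_eq (h : DivOK m p u φ c) {k O : Type} [Field k] [CommRing O] [IsDomain O]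
    [ValuationRing O] [IsAlgClosed (FractionRing O)] (z : Spec (.of k) ⟶ X) (j : k →+* O) {e : O}
    (he0 : e ≠ 0) (he : ¬IsUnit e) : Div p u φ c (gen z) = dv p u φ c (spm j ≫ z) e := by
  obtain ⟨jb, hjb⟩ := exists_ext_algebraic (k0 := AlgebraicClosure k) j
  obtain ⟨j', hj'⟩ := geo_factor (spm (algebraMap k (AlgebraicClosure k)) ≫ z) (gen z)
    (gen_spm_comp (algebraMap k (AlgebraicClosure k)).injective z)
  obtain ⟨D, -, hD⟩ := h.exists_val (geo (gen z))
  have : spm j ≫ z = spm (jb.comp j') ≫ geo (gen z) := by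
    rw [← spm_comp, Category.assoc, hj', ← Category.assoc, spm_comp, hjb]
  rw [this, hD O _ e he0 he]
  exact hD _ _ _ (datE_ne_zero _) (datE_not_isUnit _)

theorem DivOK.comm (h : DivOK m p u φ c) {k O : Type} [Field k] [CommRing O] [IsDomain O]
    [ValuationRing O] (z : Spec (.of k) ⟶ X) (j : k →+* O) {e : O} (he0 : e ≠ 0) (he : ¬IsUnit e)
    (x : Spec (.of O) ⟶ X) (hx : x ≫ p = spm j ≫ z ≫ p) (hu : ev x u = j (ev z u) + e)
    (hc : gen x ∈ closure (support c)) : Comm e (ev x φ) := by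
  have := h.lft
  obtain ⟨A, _, i, f, y, C, h1, h2⟩ := exists_chart' p isClosed_closure (z ≫ p) (resPt O ≫ x)
    ((residue O).comp j) (by rw [Category.assoc, hx, ← Category.assoc, spm_comp])
    (gen_res_mem x isClosed_closure hc)
  obtain ⟨x', e1, rfl, -⟩ := C.surj O j x y hx hc h2 h1
  let := i.toAlgebra
  let := (eval₂RingHom (algebraMap k A) (ev f u)).toAlgebra
  have := chart_tower (B := k) (ev f u)
  have : Algebra.FiniteType k A := C.ft
  have : Algebra.FiniteType k[X] A := Algebra.FiniteType.of_restrictScalars_finiteType k _ _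
  have := Chart.qf (B := k) C h rfl
  have := Chart.qf0 (B := k) C h
  rw [Chart.ev_eq] at hu ⊢
  refine comm_ring (B := k) _ he0 he (RingHom.id k) j (ev z u) x' ?_
  refine (Chart.comp_eq_iff _ x' _).2 ⟨e1.trans (RingHom.ext fun b => by simp), ?_⟩
  rw [hu, coe_eval₂RingHom, eval₂_X]

theorem Div_val (h : DivOK m p u φ c) (x : X) : Div p u φ c x ∈ Lam0 m := by
  obtain ⟨D, hD, hD'⟩ := h.exists_val (geo x)
  have : Div p u φ c x = D := hD' _ _ _ (datE_ne_zero _) (datE_not_isUnit _)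
  rwa [this]

theorem Div_eq_zero_of_notMem {x : X} (hx : x ∉ closure (support c)) : Div p u φ c x = 0 :=
  dv_eq_zero _ _ (by rwa [gen_res_const, gen_geo])

theorem Div_specialises (h : DivOK m p u φ c) : Specialises p (Div p u φ c) := by
  intro O _ _ _ _ g y hy
  refine Eq.trans ?_ (finsum_set_coe_eq_finsum_mem
    (f := fun x : Spec (.of O) ⟶ X => Div p u φ c (gen x)) {x | x ≫ p = g ∧ resPt O ≫ x = y}).symm
  have hS : ∀ x : Spec (.of O) ⟶ X, Div p u φ c (gen x) ≠ 0 → gen x ∈ closure (support c) :=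
    fun x hx => by_contra fun h' => hx (Div_eq_zero_of_notMem h')
  by_cases hz : gen y ∈ closure (support c)
  swap
  · refine (Div_eq_zero_of_notMem hz).trans (finsum_mem_of_eqOn_zero fun x hx => ?_).symm
    by_contra h'
    exact hz (hx.2 ▸ gen_res_mem x isClosed_closure (hS x h'))
  have := h.lft
  obtain ⟨A, _, i, f, y', C, rfl, h2⟩ := exists_chart' p isClosed_closure g y (residue O) hy hz
  let := i.toAlgebra
  let := (eval₂RingHom (algebraMap O A) (ev f u)).toAlgebra
  have := chart_tower (B := O) (ev f u)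
  have : Algebra.FiniteType O A := C.ft
  have : Algebra.FiniteType O[X] A := Algebra.FiniteType.of_restrictScalars_finiteType O _ _
  have := Chart.qf (B := O) C h rfl
  have := Chart.qf0 (B := O) C h
  have h3 : algebraMap O[X] A Polynomial.X = ev f u := eval₂_X _ _
  have key := rb (B := O) (φ := ev f φ) (Chart.aspec C h rfl)
    (fun Q : PrimeSpectrum A => Div p u φ c (f Q)) (fun k O' _ _ _ _ _ x0 j e he0 he => by
      rw [← Chart.gen_eq, Div_eq h _ j he0 he, ← Category.assoc, spm_comp,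
        Chart.dv_eq (B := O) C rfl, h3]
      rfl) y' h2
  refine (congrArg _ (Chart.gen_eq y')).trans (key.trans ?_)
  have key2 := C.sum (RingHom.id O) y' h2 (fun _ => True) (fun x => Div p u φ c (gen x)) hS
  simp only [true_and, spm_id, Category.id_comp, Chart.gen_eq] at key2
  exact key2.symm

end Pool.Agent.KEW
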