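import Pool.Agent.P.MP_6277db_ag.KEW.L3.Norm
import Pool.Agent.P.MP_6277db_ag.KEW.L3.Phi

/-!
Points of a finite model with values in a valuation ring whose residue field contains a second
local domain.
-/

noncomputable section

open Polynomial IsLocalRing Function

namespace Pool.Agent.KEW

theorem finsum_fibres {α β γ : Type} {H : Set α} {X2 : Set β} {X1 : β → Set γ} {F : α → ℚ}
    {G : β → γ → ℚ} (π : β → γ → α) (hH : H.Finite)
    (hmap : ∀ b ∈ X2, ∀ c ∈ X1 b, π b c ∈ H ∧ F (π b c) = G b c)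
    (hinj : ∀ b ∈ X2, ∀ c ∈ X1 b, ∀ b' ∈ X2, ∀ c' ∈ X1 b', π b c = π b' c' → b = b' ∧ c = c')
    (hsurj : ∀ a ∈ H, F a ≠ 0 → ∃ b ∈ X2, ∃ c ∈ X1 b, π b c = a) :
    ∑ᶠ a ∈ H, F a = ∑ᶠ b ∈ X2, ∑ᶠ c ∈ X1 b, G b c := by
  classical
  let P : Set (β × γ) := {q | q.1 ∈ X2 ∧ q.2 ∈ X1 q.1}
  have hi : P.InjOn fun q => π q.1 q.2 := fun q hq q' hq' h =>
    Prod.ext (hinj _ hq.1 _ hq.2 _ hq'.1 _ hq'.2 h).1 (hinj _ hq.1 _ hq.2 _ hq'.1 _ hq'.2 h).2
  have hP : P.Finite := Set.Finite.of_finite_image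
    (hH.subset (by rintro _ ⟨q, hq, rfl⟩; exact (hmap _ hq.1 _ hq.2).1)) hi
  have h1 : ∑ᶠ a ∈ H, F a = ∑ᶠ a ∈ (fun q : β × γ => π q.1 q.2) '' P, F a := by
    apply finsum_mem_inter_support_eq
    ext a
    constructor
    · rintro ⟨ha, h0⟩
      obtain ⟨b, hb, c, hc, rfl⟩ := hsurj a ha h0
      exact ⟨⟨(b, c), ⟨hb, hc⟩, rfl⟩, h0⟩
    · rintro ⟨⟨q, hq, rfl⟩, h0⟩
      exact ⟨(hmap _ hq.1 _ hq.2).1, h0⟩
  rw [h1, finsum_mem_image hi,
    finsum_mem_congr rfl (fun q (hq : q ∈ P) => (hmap _ hq.1 _ hq.2).2), finsum_mem_def,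
    finsum_curry _ (hP.subset (Set.support_indicator_subset))]
  refine finsum_congr fun b => ?_
  by_cases hb : b ∈ X2
  · rw [finsum_eq_if, if_pos hb, finsum_mem_def]
    refine finsum_congr fun c => ?_
    by_cases hc : c ∈ X1 b
    · rw [Set.indicator_of_mem (show (b, c) ∈ P from ⟨hb, hc⟩), Set.indicator_of_mem hc]
    · rw [Set.indicator_of_notMem (show (b, c) ∉ P from fun h => hc h.2),
        Set.indicator_of_notMem hc]
  · rw [finsum_eq_if, if_neg hb]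
    exact finsum_eq_zero_of_forall_eq_zero fun c =>
      Set.indicator_of_notMem (show (b, c) ∉ P from fun h => hb h.1) _

theorem isUnit_iff_residue {O : Type} [CommRing O] [IsLocalRing O] (a : O) :
    IsUnit a ↔ residue O a ≠ 0 := by
  rw [ne_eq, residue_eq_zero_iff, mem_maximalIdeal, mem_nonunits_iff, not_not]

/-- The centre of a point is determined by its reduction. -/
theorem centre_iff {B Y k O : Type} [CommRing B] [CommRing Y] [Field k] [CommRing O]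
    [IsLocalRing O] (i : B →+* Y) (yb : Y →+* k) (hs : Surjective (yb.comp i))
    (j : k →+* ResidueField O) (x : Y →+* O)
    (hx : ((residue O).comp x).comp i = (j.comp yb).comp i) :
    (∀ y, ¬IsUnit (x y) ↔ y ∈ RingHom.ker yb) ↔ (residue O).comp x = j.comp yb := by
  constructor
  · intro h
    ext y
    obtain ⟨b, hb⟩ := hs (yb y)
    have h1 : y - i b ∈ RingHom.ker yb := by
      rw [RingHom.mem_ker, map_sub, ← hb]
      simp
    have h2 := (h _).2 h1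
    rw [isUnit_iff_residue, not_not, map_sub, map_sub, sub_eq_zero] at h2
    have h3 := RingHom.congr_fun hx b
    simp only [RingHom.comp_apply] at h3 hb ⊢
    rw [h2, h3, hb]
  · intro h y
    have h3 := RingHom.congr_fun h y
    simp only [RingHom.comp_apply] at h3
    rw [isUnit_iff_residue, not_not, h3, RingHom.mem_ker, map_eq_zero_iff _ j.injective]

/-- A finite model of `Y` at the prime `p`. -/
structure Model {A Y : Type} [CommRing A] [CommRing Y] [Algebra A Y] (p : Ideal Y) (φ : Y)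
    (St : Subalgebra A Y) (r φ' : St) : Prop where
  fin : Module.Finite A St
  notMem : (r : Y) ∉ p
  loc : ∀ y : Y, ∃ n : ℕ, (r : Y) ^ n * y ∈ St
  assoc : ∃ t1 t2 : Y, t1 ∉ p ∧ t2 ∉ p ∧ t1 * φ' = t2 * φ
  unit : ∀ p' : Ideal St, p'.IsPrime → p'.comap (algebraMap A St) = p.comap (algebraMap A Y) →
    p' ≠ p.comap St.val.toRingHom → φ' ∉ p'

section two

variable {A Y O1 O2 : Type} [CommRing A] [CommRing Y] [Algebra A Y] {p : Ideal Y} [p.IsPrime]
  {φ : Y} {St : Subalgebra A Y} {r φ' : St} [CommRing O1] [IsDomain O1] [IsLocalRing O1]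
  [CommRing O2] [IsDomain O2] [IsLocalRing O2]

omit [p.IsPrime] in
theorem Model.associated (M : Model p φ St r φ') {O : Type} [CommRing O] (x : Y →+* O)
    (hx : ∀ y, y ∉ p → IsUnit (x y)) : Associated (x φ') (x φ) := by
  obtain ⟨t1, t2, h1, h2, h⟩ := M.assoc
  have h3 : x t1 * x φ' = x t2 * x φ := by rw [← map_mul, h, map_mul]
  have h4 : Associated (x t1 * x φ') (x t2 * x φ) := h3 ▸ Associated.refl _
  rwa [associated_isUnit_mul_left_iff (hx _ h1), associated_isUnit_mul_right_iff (hx _ h2)] at h4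

theorem Model.dich (M : Model p φ St r φ') {ι : O2 →+* ResidueField O1} (hι : Injective ι)
    {h2 : A →+* O2} (hn : ∀ a, ¬IsUnit (h2 a) ↔ algebraMap A Y a ∈ p) {ψ : St →+* O1}
    {ψ2 : St →+* O2} (hψ2 : ψ2.comp (algebraMap A St) = h2)
    (hψ : ι.comp ψ2 = (residue O1).comp ψ) :
    IsUnit (ψ2 φ') ∨ ∃ (x2 : Y →+* O2) (x1 : Y →+* O1), x2.comp St.val.toRingHom = ψ2 ∧
      x1.comp St.val.toRingHom = ψ ∧ (∀ y, ¬IsUnit (x2 y) ↔ y ∈ p) ∧
      (residue O1).comp x1 = ι.comp x2 := by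
  let p' : Ideal St := (maximalIdeal O2).comap ψ2
  have hp' : ∀ s, s ∈ p' ↔ ¬IsUnit (ψ2 s) := fun s => Iff.rfl
  by_cases hpp : p' = p.comap St.val.toRingHom
  · right
    have hr2 : IsUnit (ψ2 r) := by
      by_contra h
      have := (hp' r).2 h
      rw [hpp] at this
      exact M.notMem this
    have hr1' : residue O1 (ψ r) ≠ 0 := by
      have := RingHom.congr_fun hψ r
      simp only [RingHom.comp_apply] at this
      rw [← this, map_ne_zero_iff _ hι]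
      exact hr2.ne_zero
    have hr1 : IsUnit (ψ r) := (isUnit_iff_residue _).2 hr1'
    obtain ⟨x2, hx2, -⟩ := ext_of_unit St r M.loc ψ2 hr2
    obtain ⟨x1, hx1, -⟩ := ext_of_unit St r M.loc ψ hr1
    refine ⟨x2, x1, hx2, hx1, fun y => ?_, ?_⟩
    · obtain ⟨n, hn'⟩ := M.loc y
      have e1 : ψ2 ⟨_, hn'⟩ = ψ2 r ^ n * x2 y := by
        rw [← hx2]
        simp
      have e2 : (⟨_, hn'⟩ : St) ∈ p' ↔ (r : Y) ^ n * y ∈ p := by rw [hpp]; rfl
      rw [hp', e1, (hr2.pow n).mul_left_iff] at e2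
      rw [e2, Ideal.IsPrime.mul_mem_iff_mem_or_mem ‹_›]
      exact ⟨fun h => h.resolve_left fun h' => M.notMem (‹p.IsPrime›.mem_of_pow_mem _ h'), Or.inr⟩
    · refine ext_of_ne St r M.loc ?_ ?_
      · have := RingHom.congr_fun hx1 r
        simp only [RingHom.comp_apply] at this ⊢
        erw [this]
        exact hr1'
      · rw [RingHom.comp_assoc, RingHom.comp_assoc, hx1, hx2, hψ]
  · left
    by_contra h
    refine M.unit p' inferInstance ?_ hpp ((hp' _).2 h)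
    ext a
    rw [Ideal.mem_comap, hp', Ideal.mem_comap, ← hn, ← hψ2]
    rfl

theorem Model.two_level (M : Model p φ St r φ') {ι : O2 →+* ResidueField O1} (hι : Injective ι)
    {h1 : A →+* O1} {h2 : A →+* O2} (hh : (residue O1).comp h1 = ι.comp h2)
    (hn : ∀ a, ¬IsUnit (h2 a) ↔ algebraMap A Y a ∈ p)
    (hl : ∀ ψ : St →+* O1, ψ.comp (algebraMap A St) = h1 →
      ∃ ψ2 : St →+* O2, ι.comp ψ2 = (residue O1).comp ψ)
    (F : (St →+* O1) → ℚ) (G : (Y →+* O2) → (Y →+* O1) → ℚ)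
    (hF0 : ∀ (ψ : St →+* O1) (ψ2 : St →+* O2), ψ.comp (algebraMap A St) = h1 →
      ι.comp ψ2 = (residue O1).comp ψ → IsUnit (ψ2 φ') → F ψ = 0)
    (hFG : ∀ (x2 : Y →+* O2) (x1 : Y →+* O1), (∀ y, ¬IsUnit (x2 y) ↔ y ∈ p) →
      x1.comp (algebraMap A Y) = h1 → (residue O1).comp x1 = ι.comp x2 →
      F (x1.comp St.val.toRingHom) = G x2 x1) :
    ∑ᶠ ψ ∈ {ψ : St →+* O1 | ψ.comp (algebraMap A St) = h1}, F ψ =
      ∑ᶠ x2 ∈ {x2 : Y →+* O2 | x2.comp (algebraMap A Y) = h2 ∧ ∀ y, ¬IsUnit (x2 y) ↔ y ∈ p},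
        ∑ᶠ x1 ∈ {x1 : Y →+* O1 | x1.comp (algebraMap A Y) = h1 ∧
          (residue O1).comp x1 = ι.comp x2}, G x2 x1 := by
  have := M.fin
  have hv : St.val.toRingHom.comp (algebraMap A St) = algebraMap A Y := rfl
  have hc : ∀ {Z : Type} [CommRing Z] {a b : Z →+* O2}, ι.comp a = ι.comp b → a = b :=
    fun h => RingHom.ext fun z => hι (RingHom.congr_fun h z)
  refine finsum_fibres (fun _ x1 => x1.comp St.val.toRingHom) (finite_hom h1) ?_ ?_ ?_
  · rintro x2 ⟨-, b2⟩ x1 ⟨a1, b1⟩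
    exact ⟨(RingHom.comp_assoc _ _ _).trans (by rw [hv, a1]), hFG x2 x1 b2 a1 b1⟩
  · rintro x2 ⟨-, b2⟩ x1 ⟨-, b1⟩ x2' - x1' ⟨-, b1'⟩ h
    have h0 : x1 r ≠ 0 := by
      intro h0
      have := RingHom.congr_fun b1 r
      simp only [RingHom.comp_apply, h0, map_zero] at this
      have h3 : x2 r = 0 := hι (by rw [← this, map_zero])
      exact M.notMem ((b2 _).1 (by rw [h3]; exact not_isUnit_zero))
    have e := ext_of_ne St r M.loc h0 h
    subst e
    exact ⟨hc (b1.symm.trans b1'), rfl⟩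
  · intro ψ hψ hF
    obtain ⟨ψ2, e2⟩ := hl ψ hψ
    have e3 : ψ2.comp (algebraMap A St) = h2 := hc (by
      rw [← RingHom.comp_assoc, e2, RingHom.comp_assoc, hψ, hh])
    rcases M.dich hι hn e3 e2 with h | ⟨x2, x1, a2, a1, b2, b1⟩
    · exact absurd (hF0 ψ ψ2 hψ e2 h) hF
    · refine ⟨x2, ⟨?_, b2⟩, x1, ⟨?_, b1⟩, a1⟩
      · rw [← hv, ← RingHom.comp_assoc, a2, e3]
      · rw [← hv, ← RingHom.comp_assoc, a1, hψ]

end two

end Pool.Agent.KEW
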