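import Pool.Agent.P.MP_6277db_ag.KEW.L3.Fact

/-!
Unique lifting of residue field points along etale maps.
-/

noncomputable section

open Polynomial IsLocalRing

namespace Pool.Agent.KEW

variable {B : Type} [CommRing B] [IsDomain B] [ValuationRing B] [IsAlgClosed (FractionRing B)]

/-- The standard etale case. -/
theorem FactB_std {R S : Type} [CommRing R] [CommRing S] [Algebra R S] [Algebra R B]
    (P : StandardEtalePresentation R S) (y : S →ₐ[R] ResidueField B) :
    ∃! x : S →ₐ[R] B, (IsScalarTower.toAlgHom R B (ResidueField B)).comp x = y := by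
  let ρ := IsScalarTower.toAlgHom R B (ResidueField B)
  have hρ : ∀ b, ρ b = residue B b := fun b => rfl
  have hy : P.P.HasMap (y P.x) := P.hasMap.map y
  have hroot : ((P.f.map (algebraMap R B)).map (residue B)).IsRoot (y P.x) := by
    have h := hy.1
    rw [aeval_def, eval₂_eq_eval_map, IsScalarTower.algebraMap_eq R B (ResidueField B),
      ← Polynomial.map_map] at h
    exact h
  obtain ⟨a, ha, hau⟩ := exists_root_lift (P.monic_f.map (algebraMap R B)) (y P.x) hroot
  have hfa : aeval a P.f = 0 := by
    rw [aeval_def, eval₂_eq_eval_map]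
    exact ha
  have hga : IsUnit (aeval a P.g) := by
    rw [← residue_ne_zero_iff_isUnit, ← hρ, ← aeval_algHom_apply, hρ, hau]
    exact hy.2.ne_zero
  have hPa : P.P.HasMap a := ⟨hfa, hga⟩
  have hx : ((P.P.lift a hPa).comp P.equivRing.toAlgHom) P.x = a := by simp
  refine ⟨(P.P.lift a hPa).comp P.equivRing.toAlgHom, P.hom_ext ?_, fun x hx' => P.hom_ext ?_⟩
  · rw [AlgHom.comp_apply, hx]
    exact hau
  · rw [hx]
    have h1 : P.P.HasMap (x P.x) := P.hasMap.map x
    have h2 : residue B (x P.x) = y P.x := by
      rw [← hx']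
      rfl
    refine (eq_of_eval_eq_zero_of_not_isUnit_sub (f := P.f.map (algebraMap R B)) ha ?_ ?_ ?_).symm
    · rw [← eval₂_eq_eval_map, ← aeval_def]
      exact h1.1
    · rw [← residue_ne_zero_iff_isUnit, map_sub, hau, h2, sub_self]
      exact fun h => h rfl
    · rw [derivative_map, ← eval₂_eq_eval_map, ← aeval_def]
      exact hPa.isUnit_derivative_f

/-- Unique lifting of residue field points along etale maps. -/
theorem etale_lift {R E : Type} [CommRing R] [CommRing E] [Algebra R E] [Algebra.Etale R E]
    (g : R →+* B) (y : E →+* ResidueField B) (hy : y.comp (algebraMap R E) = (residue B).comp g) :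
    ∃! x : E →+* B, x.comp (algebraMap R E) = g ∧ (residue B).comp x = y := by
  let _ : Algebra R B := g.toAlgebra
  have : (RingHom.ker y).IsPrime := RingHom.ker_isPrime y
  obtain ⟨f, hf, hstd⟩ := Algebra.IsEtaleAt.exists_isStandardEtale (R := R) (RingHom.ker y)
  obtain ⟨P⟩ := hstd.nonempty_standardEtalePresentation
  have hf0 : y f ≠ 0 := hf
  let yA : E →ₐ[R] ResidueField B := { y with commutes' := fun r => RingHom.congr_fun hy r }
  let y' : Localization.Away f →ₐ[R] ResidueField B :=
    IsLocalization.Away.liftAlgHom f (f := yA) (IsUnit.mk0 _ hf0)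
  have hy' : ∀ e, y' (algebraMap E _ e) = y e := fun e => by simp [y', yA]
  obtain ⟨x, hx, hu⟩ := FactB_std P y'
  refine ⟨(x : Localization.Away f →+* B).comp (algebraMap E _), ⟨?_, ?_⟩, ?_⟩
  · ext r
    show x (algebraMap E _ (algebraMap R E r)) = g r
    rw [← IsScalarTower.algebraMap_apply, x.commutes]
    rfl
  · ext e
    rw [← hy', ← hx]
    rfl
  · rintro z ⟨hz1, hz2⟩
    have hz : ∀ e, residue B (z e) = y e := RingHom.congr_fun hz2
    let zA : E →ₐ[R] B := { z with commutes' := fun r => RingHom.congr_fun hz1 r }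
    have hzf : IsUnit (zA f) := by
      rw [← residue_ne_zero_iff_isUnit]
      exact fun h => hf0 ((hz f).symm.trans h)
    let z' : Localization.Away f →ₐ[R] B := IsLocalization.Away.liftAlgHom f (f := zA) hzf
    have hz' : ∀ e, z' (algebraMap E _ e) = z e := fun e => by simp [z', zA]
    have h1 : z' = x := by
      refine hu z' (AlgHom.coe_ringHom_injective ?_)
      refine IsLocalization.ringHom_ext (Submonoid.powers f) ?_
      ext e
      show residue B (z' (algebraMap E _ e)) = y' (algebraMap E _ e)
      rw [hz', hy', hz]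
    ext e
    rw [← hz', h1]
    rfl

end Pool.Agent.KEW
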