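import Pool.Agent.P.MP_6277db_ag.KEW.L3.Ord
import Pool.Agent.P.MP_6277db_ag.KEW.L3.Fact

/-!
Norms along the level sets of a weight function on the geometric points of a finite algebra.
-/

noncomputable section

open Polynomial IsLocalRing

namespace Pool.Agent.KEW

/-- A finite algebra has finitely many points over a given point with values in a domain. -/
theorem finite_hom {A St O : Type} [CommRing A] [CommRing St] [Algebra A St] [Module.Finite A St]
    [CommRing O] [IsDomain O] (h : A →+* O) :
    {ψ : St →+* O | ψ.comp (algebraMap A St) = h}.Finite := by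
  classical
  obtain ⟨s, hs⟩ := Module.Finite.fg_top (R := A) (M := St)
  have hint : ∀ x : St, ∃ p : A[X], p.Monic ∧ eval₂ (algebraMap A St) x p = 0 := fun x =>
    Algebra.IsIntegral.isIntegral (R := A) x
  choose p hp hp0 using hint
  have hfin : (Set.pi Set.univ fun x : s => {y : O | ((p x).map h).IsRoot y}).Finite :=
    Set.Finite.pi fun x => finite_setOfPred_isRoot ((hp x).map h).ne_zero
  refine Set.Finite.of_finite_image (f := fun (ψ : St →+* O) (x : s) => ψ x) (hfin.subset ?_) ?_
  · rintro _ ⟨ψ, hψ, rfl⟩ x -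
    have h1 := congrArg ψ (hp0 x)
    rw [hom_eval₂, map_zero, show ψ.comp (algebraMap A St) = h from hψ] at h1
    simpa [IsRoot, eval_map] using h1
  · intro ψ hψ χ hχ he
    have ha : ∀ a, ψ (algebraMap A St a) = χ (algebraMap A St a) := fun a =>
      (RingHom.congr_fun hψ a).trans (RingHom.congr_fun hχ a).symm
    ext y
    have hy : y ∈ Submodule.span A (s : Set St) := hs ▸ Submodule.mem_top
    induction hy using Submodule.span_induction with
    | mem x hx => exact congrFun he ⟨x, hx⟩
    | zero => simp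
    | add x y _ _ h1 h2 => rw [map_add, map_add, h1, h2]
    | smul a x _ h1 => rw [Algebra.smul_def, map_mul, map_mul, ha, h1]

/-- A quasi-finite algebra has finitely many points over a given point with values in a domain.
Hint: finitely many primes over the kernel of `h`, each with finite residue field extension. -/
theorem finite_hom_qf {A Y O : Type} [CommRing A] [CommRing Y] [Algebra A Y]
    [Algebra.QuasiFinite A Y] [CommRing O] [IsDomain O] (h : A →+* O) :
    {ψ : Y →+* O | ψ.comp (algebraMap A Y) = h}.Finite := by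
  classical
  let K := FractionRing O
  let hK : A →+* K := (algebraMap O K).comp h
  let P : Ideal A := RingHom.ker hK
  haveI : P.IsPrime := RingHom.ker_isPrime hK
  letI : Algebra A K := hK.toAlgebra
  let hb : P.ResidueField →ₐ[A] K := Ideal.ResidueField.liftₐ P (Algebra.ofId A K) le_rfl
    (fun a ha => isUnit_iff_ne_zero.2 ha)
  have hfin := finite_hom (A := P.ResidueField) (St := P.Fiber Y) (O := K) hb.toRingHom
  refine Set.Finite.of_finite_image (f := fun ψ : Y →+* O => (algebraMap O K).comp ψ)
    ((hfin.image fun χ => χ.comp (Algebra.TensorProduct.includeRight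
      (R := A) (A := P.ResidueField) (B := Y)).toRingHom).subset ?_) ?_
  · rintro _ ⟨ψ, hψ, rfl⟩
    let ψ' : Y →ₐ[A] K :=
      { toRingHom := (algebraMap O K).comp ψ
        commutes' := fun a => congrArg (algebraMap O K) (RingHom.congr_fun hψ a) }
    refine ⟨(Algebra.TensorProduct.lift hb ψ' fun _ _ => Commute.all _ _).toRingHom, ?_, ?_⟩
    · ext a
      simp
    · ext y
      simp [ψ']
  · intro ψ _ χ _ he
    ext y
    exact IsFractionRing.injective O K (RingHom.congr_fun he y)

/-- An element of the algebraic closure fixed by all automorphisms is purely inseparable.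
Hint: `Normal.minpoly_eq_iff_mem_orbit`, `minpoly.natSepDegree_eq_one_iff_pow_mem`, or the fixed
field API. -/
theorem pow_mem_of_fixed {L : Type} [Field L] (x : AlgebraicClosure L)
    (hx : ∀ σ : AlgebraicClosure L ≃ₐ[L] AlgebraicClosure L, σ x = x) :
    ∃ (e : ℕ) (y : L), x ^ (ringExpChar L ^ e) = algebraMap L _ y := by
  classical
  have hi : IsIntegral L x := Algebra.IsIntegral.isIntegral x
  have h1 : (minpoly L x).natSepDegree = 1 := by
    rw [natSepDegree_eq_of_isAlgClosed (E := AlgebraicClosure L), Finset.card_eq_one]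
    refine ⟨x, Finset.eq_singleton_iff_unique_mem.2 ⟨?_, fun y hy => ?_⟩⟩
    · rw [Multiset.mem_toFinset, mem_aroots]
      exact ⟨minpoly.ne_zero hi, minpoly.aeval L x⟩
    · rw [Multiset.mem_toFinset, mem_aroots] at hy
      obtain ⟨σ, hσ⟩ := minpoly.exists_algEquiv_of_root' hi.isAlgebraic hy.2
      rw [← hσ, hx]
  obtain ⟨n, y, hy⟩ := (minpoly.natSepDegree_eq_one_iff_pow_mem (ringExpChar L)).1 h1
  exact ⟨n, y, hy.symm⟩

theorem Norm_gp {St B K : Type} [CommRing St] [CommRing B] [IsDomain B] [CommRing K] [IsDomain K]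
    (τ : B →+* K) (hτ : Function.Injective τ) (x : St →+* B) : gp (τ.comp x) = gp x :=
  PrimeSpectrum.ext (RingHom.ker_comp_of_injective x hτ)

theorem Norm_prod {A St B K : Type} [CommRing A] [CommRing St] [Algebra A St]
    [Module.Finite A St] [CommRing B] [IsDomain B] [CommRing K] [IsDomain K]
    (om : PrimeSpectrum St → ℚ) (f : St) (τ : B →+* K) (hτ : Function.Injective τ) (h : A →+* B)
    (hs : ∀ χ : St →+* K, χ.comp (algebraMap A St) = τ.comp h → ∃ x : St →+* B, τ.comp x = χ)
    (w : ℚ) :
    τ (∏ᶠ ψ ∈ {ψ : St →+* B | ψ.comp (algebraMap A St) = h ∧ om (gp ψ) = w}, ψ f) =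
      ∏ᶠ χ ∈ {χ : St →+* K | χ.comp (algebraMap A St) = τ.comp h ∧ om (gp χ) = w}, χ f := by
  have hinj : ∀ {Z : Type} [CommRing Z] {x y : Z →+* B}, τ.comp x = τ.comp y → x = y :=
    fun he => RingHom.ext fun z => hτ (RingHom.congr_fun he z)
  have h1 := τ.toMonoidHom.map_finprod_mem (fun ψ : St →+* B => ψ f)
    ((finite_hom (St := St) h).subset (t := {ψ : St →+* B |
      ψ.comp (algebraMap A St) = h ∧ om (gp ψ) = w}) fun _ hψ => hψ.1)
  refine h1.trans (finprod_mem_eq_of_bijOn (fun ψ => τ.comp ψ) ⟨?_, ?_, ?_⟩ fun _ _ => rfl)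
  · rintro ψ ⟨h2, h3⟩
    exact ⟨by rw [RingHom.comp_assoc, h2], by rw [Norm_gp τ hτ, h3]⟩
  · exact fun _ _ _ _ he => hinj he
  · rintro χ ⟨h2, h3⟩
    obtain ⟨x, rfl⟩ := hs χ h2
    exact ⟨x, ⟨hinj h2, by rwa [Norm_gp τ hτ] at h3⟩, rfl⟩

/-- Norm data. Hint: `L = FractionRing A`, `Lb` its algebraic closure; the product of the values
of `f` over the points `St → Lb` of weight `w` is fixed by all automorphisms of `Lb / L` and
integral over `A`; take a common exponent `e` over the finitely many weights (empty products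
are `1`). For `O` as in the statement choose `Lb → FractionRing O` over `A`
(`IsAlgClosed.lift`); composition with it is a bijection on points (`lift_section`-type
argument or roots of split polynomials), then use `lift_integral`. -/
theorem normData {A St : Type} [CommRing A] [IsDomain A] [IsIntegrallyClosed A] [CommRing St]
    [Algebra A St] [Module.Finite A St] (om : PrimeSpectrum St → ℚ) (f : St) :
    ∃ (W : Finset ℚ) (ν : ℚ → A) (e : ℕ), (∀ w ∈ W, ∃ P, om P = w) ∧
      ∀ (O : Type) [CommRing O] [IsDomain O] [ValuationRing O] [IsAlgClosed (FractionRing O)]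
        (h : A →+* O), Function.Injective h →
        (∀ ψ : St →+* O, ψ.comp (algebraMap A St) = h → om (gp ψ) ∈ W) ∧
        ∀ w, (∏ᶠ ψ ∈ {ψ : St →+* O | ψ.comp (algebraMap A St) = h ∧ om (gp ψ) = w}, ψ f) ^
          (ringExpChar A ^ e) = h (ν w) := by
  classical
  let L := FractionRing A
  let Lb := AlgebraicClosure L
  let h0 : A →+* Lb := algebraMap A Lb
  have hfin := finite_hom (St := St) h0
  let N : ℚ → Lb := fun w =>
    ∏ᶠ ψ ∈ {ψ : St →+* Lb | ψ.comp (algebraMap A St) = h0 ∧ om (gp ψ) = w}, ψ f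
  let W : Finset ℚ := hfin.toFinset.image fun ψ => om (gp ψ)
  have hq : ringExpChar L = ringExpChar A := by
    haveI := expChar_of_injective_algebraMap (IsFractionRing.injective A L) (ringExpChar A)
    exact ringExpChar.eq L _
  have hfix : ∀ w, ∃ (e : ℕ) (y : L), N w ^ (ringExpChar A ^ e) = algebraMap L _ y := by
    intro w
    rw [← hq]
    refine pow_mem_of_fixed (N w) fun σ => ?_
    have hσ : ∀ σ : Lb ≃ₐ[L] Lb, (σ : Lb →+* Lb).comp h0 = h0 := fun σ => RingHom.ext fun a => by
      change σ (algebraMap A Lb a) = algebraMap A Lb a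
      rw [IsScalarTower.algebraMap_apply A L Lb, σ.commutes]
    have h1 := Norm_prod om f (σ : Lb →+* Lb) σ.injective h0 (fun χ _ =>
      ⟨(σ.symm : Lb →+* Lb).comp χ, RingHom.ext fun y => σ.apply_symm_apply _⟩) w
    rw [hσ] at h1
    exact h1
  choose ex y hy using hfix
  have hint : ∀ w, IsIntegral A (N w) := fun w => by
    refine finprod_mem_induction (fun z => IsIntegral A z) isIntegral_one
      (fun _ _ => IsIntegral.mul) fun ψ hψ => ?_
    let ψ' : St →ₐ[A] Lb := { toRingHom := ψ, commutes' := fun a => RingHom.congr_fun hψ.1 a }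
    exact (Algebra.IsIntegral.isIntegral (R := A) f).map ψ'
  have hA : ∀ w, ∃ a : A, N w ^ (ringExpChar A ^ W.sup ex) = h0 a := fun w => by
    by_cases hw : w ∈ W
    · have h1 : IsIntegral A (y w) := by
        rw [← isIntegral_algHom_iff (IsScalarTower.toAlgHom A L Lb) (algebraMap L Lb).injective]
        change IsIntegral A (algebraMap L Lb (y w))
        rw [← hy]
        exact (hint w).pow _
      obtain ⟨a, ha⟩ := IsIntegrallyClosed.algebraMap_eq_of_integral h1
      obtain ⟨d, hd⟩ := Nat.exists_eq_add_of_le (Finset.le_sup (f := ex) hw)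
      refine ⟨a ^ (ringExpChar A ^ d), ?_⟩
      rw [hd, pow_add, pow_mul, hy, ← ha, map_pow, ← IsScalarTower.algebraMap_apply]
    · refine ⟨1, ?_⟩
      have h1 : {ψ : St →+* Lb | ψ.comp (algebraMap A St) = h0 ∧ om (gp ψ) = w} = ∅ :=
        Set.eq_empty_of_forall_notMem fun ψ hψ =>
          hw (Finset.mem_image.2 ⟨ψ, hfin.mem_toFinset.2 hψ.1, hψ.2⟩)
      simp only [N, h1, finprod_mem_empty, one_pow, map_one]
  choose ν hν using hA
  refine ⟨W, ν, W.sup ex, fun w hw => ?_, fun O _ _ _ _ h hh => ?_⟩
  · obtain ⟨ψ, -, h1⟩ := Finset.mem_image.1 hw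
    exact ⟨_, h1⟩
  let K := FractionRing O
  have hOK := IsFractionRing.injective O K
  have hK : Function.Injective ((algebraMap O K).comp h) := hOK.comp hh
  letI : Algebra L K := (IsFractionRing.lift hK).toAlgebra
  let τ : Lb →+* K := (IsAlgClosed.lift (R := L) (S := Lb) (M := K)).toRingHom
  have hτ : τ.comp h0 = (algebraMap O K).comp h := RingHom.ext fun a => by
    change (IsAlgClosed.lift (R := L) (S := Lb) (M := K)) (algebraMap A Lb a) = _
    rw [IsScalarTower.algebraMap_apply A L Lb, AlgHom.commutes]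
    exact IsFractionRing.lift_algebraMap hK a
  have hs : ∀ χ : St →+* K, χ.comp (algebraMap A St) = τ.comp h0 →
      ∃ x : St →+* Lb, τ.comp x = χ := fun χ hχ => by
    refine lift_section τ τ.injective χ fun s => ?_
    obtain ⟨p, hp, hp0⟩ := Algebra.IsIntegral.isIntegral (R := A) s
    refine ⟨p.map h0, hp.map h0, ?_⟩
    rw [eval₂_map, ← hχ, ← hom_eval₂, hp0, map_zero]
  refine ⟨fun ψ hψ => ?_, fun w => hOK ?_⟩
  · obtain ⟨x, hx⟩ := hs ((algebraMap O K).comp ψ) (by rw [RingHom.comp_assoc, hψ, hτ])
    refine Finset.mem_image.2 ⟨x, hfin.mem_toFinset.2 (RingHom.ext fun a => τ.injective ?_), ?_⟩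
    · have h1 := RingHom.congr_fun hx (algebraMap A St a)
      have h2 := RingHom.congr_fun hτ a
      have h3 := RingHom.congr_fun hψ a
      simp only [RingHom.comp_apply] at h1 h2 h3 ⊢
      rw [h1, h2, h3]
    · rw [← Norm_gp τ τ.injective, hx, Norm_gp _ hOK]
  · have h1 := Norm_prod om f τ τ.injective h0 hs w
    have h2 := Norm_prod om f (algebraMap O K) hOK h (fun χ hχ => by
      obtain ⟨ψ, h3, -⟩ := lift_integral (algebraMap A St)
        (fun s => Algebra.IsIntegral.isIntegral (R := A) s) h χ hχ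
      exact ⟨ψ, h3⟩) w
    rw [map_pow, h2, ← hτ, ← h1, ← map_pow]
    exact (congrArg τ (hν w)).trans (RingHom.congr_fun hτ _)

end Pool.Agent.KEW
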