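import Pool.Agent.P.MP_6277db_ag.KEW.L3.Pts
import Pool.Agent.P.MP_6277db_ag.KEW.L3.Norm

/-!
Sets of points with finite geometric fibres, and sets of points inside finite schemes.
-/

noncomputable section

open CategoryTheory Limits AlgebraicGeometry IsLocalRing

namespace Pool.Agent.KEW

variable {X X' Y W W' Z : Scheme.{0}}

/-- Above every geometric point of `W` there are only finitely many geometric points of `X` with
image in `S`. -/
def GFin (p : X ⟶ W) (S : Set X) : Prop :=
  ∀ (Om : Type) [Field Om] [IsAlgClosed Om] (t : Spec (.of Om) ⟶ W),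
    {y : Spec (.of Om) ⟶ X | y ≫ p = t ∧ gen y ∈ S}.Finite

theorem GFinA_ext {A S M : Type} [CommRing A] [IsDomain A] [Field S] [Field M] [IsAlgClosed M]
    [Algebra A S] [Algebra.IsAlgebraic A S] [FaithfulSMul A S] (g : A →+* M)
    (hg : Function.Injective g) : ∃ σ : S →+* M, ∀ a, σ (algebraMap A S a) = g a := by
  let _ := g.toAlgebra
  have : FaithfulSMul A M := (faithfulSMul_iff_algebraMap_injective A M).2 hg
  exact ⟨(IsAlgClosed.lift (R := A) (S := S) (M := M)).toRingHom, fun a =>
    (IsAlgClosed.lift (R := A) (S := S) (M := M)).commutes a⟩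

/-- Endomorphisms that raise a transcendental element to a power. -/
theorem GFinA_conj {k Om : Type} [Field k] [Field Om] [IsAlgClosed Om] [Algebra k Om] {b : Om}
    (hb : Transcendental k b) (n : ℕ) :
    ∃ σ : Om →+* Om, σ.comp (algebraMap k Om) = algebraMap k Om ∧ σ b = b ^ (n + 1) := by
  have h1 : AlgebraicIndepOn k id ({b} : Set Om) :=
    (algebraicIndependent_singleton_iff (⟨b, rfl⟩ : ({b} : Set Om))).2 hb
  obtain ⟨t, ht, hx⟩ := exists_isTranscendenceBasis_superset h1
  have := hx.isAlgebraic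
  let g : MvPolynomial t k →ₐ[k] Om :=
    (MvPolynomial.aeval Subtype.val).comp (MvPolynomial.expand (n + 1))
  have hg : Function.Injective g :=
    (algebraicIndependent_iff_injective_aeval.1 hx.1).comp
      (MvPolynomial.expand_injective n.succ_pos)
  obtain ⟨σ, hσ⟩ := GFinA_ext (S := Om) (g.comp hx.1.aevalEquiv.symm.toAlgHom).toRingHom
    (hg.comp hx.1.aevalEquiv.symm.injective)
  have h2 : ∀ q : MvPolynomial t k, σ (MvPolynomial.aeval Subtype.val q) = g q := fun q => by
    rw [← hx.1.algebraMap_aevalEquiv, hσ]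
    simp
  refine ⟨σ, RingHom.ext fun a => ?_, ?_⟩
  · simpa using h2 (algebraMap k _ a)
  · simpa [g] using h2 (MvPolynomial.X ⟨b, ht rfl⟩)

theorem GFinA_factor {A B C : Type} [CommRing A] [CommRing B] [CommRing C] (j : B →+* C)
    (hj : Function.Injective j) (φ : A →+* C) (h : ∀ a, ∃ b, j b = φ a) :
    ∃ ψ : A →+* B, j.comp ψ = φ := by
  choose f hf using h
  exact ⟨⟨⟨⟨f, hj (by simp [hf])⟩, fun a b => hj (by simp [hf])⟩, hj (by simp [hf]),
    fun a b => hj (by simp [hf])⟩, RingHom.ext hf⟩

namespace GFin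

variable {p : X ⟶ W} {S S' : Set X}

theorem mono (h : GFin p S) (hS : S' ⊆ S) : GFin p S' := by
  exact fun Om _ _ t => (h Om t).subset fun y hy => ⟨hy.1, hS hy.2⟩

theorem empty : GFin p ∅ := by
  exact fun Om _ _ t => Set.finite_empty.subset fun y hy => hy.2

theorem union (h : GFin p S) (h' : GFin p S') : GFin p (S ∪ S') := by
  exact fun Om _ _ t => ((h Om t).union (h' Om t)).subset fun y hy =>
    hy.2.imp (fun e => ⟨hy.1, e⟩) fun e => ⟨hy.1, e⟩

theorem of_comp {q : W ⟶ W'} (h : GFin (p ≫ q) S) : GFin p S := by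
  exact fun Om _ _ t => (h Om (t ≫ q)).subset fun y hy =>
    ⟨by rw [← Category.assoc, hy.1], hy.2⟩

theorem comp {q : Y ⟶ X} {T : Set Y} (h : GFin p S) (hq : GFin q T) :
    GFin (q ≫ p) (T ∩ q ⁻¹' S) := by
  intro Om _ _ t
  refine ((h Om t).biUnion fun z _ => hq Om z).subset fun y hy => ?_
  exact Set.mem_biUnion (x := y ≫ q)
    ⟨by rw [Category.assoc, hy.1], by rw [gen_comp]; exact hy.2.2⟩ ⟨rfl, hy.2.1⟩

theorem comp_mono {q : W ⟶ W'} [Mono q] (h : GFin p S) : GFin (p ≫ q) S := by
  intro Om _ _ t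
  rcases Set.eq_empty_or_nonempty {y : Spec (.of Om) ⟶ X | y ≫ p ≫ q = t ∧ gen y ∈ S} with
    e | ⟨z, hz⟩
  · rw [e]
    exact Set.finite_empty
  · refine (h Om (z ≫ p)).subset fun y hy => ⟨?_, hy.2⟩
    rw [← cancel_mono q, Category.assoc, Category.assoc, hy.1, hz.1]

theorem pullback {p' : X' ⟶ W'} {f : X' ⟶ X} {g : W' ⟶ W} (sq : IsPullback f p' p g)
    (h : GFin p S) : GFin p' (f ⁻¹' S) := by
  intro Om _ _ t
  refine Set.Finite.of_finite_image (f := (· ≫ f)) ((h Om (t ≫ g)).subset ?_)
    fun y hy y' hy' e => sq.hom_ext e (hy.1.trans hy'.1.symm)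
  rintro _ ⟨y, hy, rfl⟩
  exact ⟨by rw [Category.assoc, sq.w, ← Category.assoc, hy.1], by rw [gen_comp]; exact hy.2⟩

/-- Geometric points of `S` above a point defined over an algebraically closed field `k` are
defined over `k`. Hint: otherwise the image of the residue field contains an element `a` that is
transcendental over `k`; put it in a transcendence basis of `Om / k` and use `IsAlgClosed.lift`
to get `k`-endomorphisms of `Om` with `a ↦ a ^ n`; they give infinitely many points. -/
theorem descend (h : GFin p S) {k Om : Type} [Field k] [IsAlgClosed k] [Field Om]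
    (j : k →+* Om) (t : Spec (.of k) ⟶ W) (y : Spec (.of Om) ⟶ X) (hy : y ≫ p = spm j ≫ t)
    (hS : gen y ∈ S) : ∃ y0 : Spec (.of k) ⟶ X, y0 ≫ p = t ∧ spm j ≫ y0 = y := by
  let i := algebraMap Om (AlgebraicClosure Om)
  let _ := (i.comp j).toAlgebra
  have hg : gen (spm i ≫ y) = gen y := gen_spm_comp i.injective y
  obtain ⟨φ, hφ⟩ : ∃ φ : X.residueField (gen y) →+* AlgebraicClosure Om,
      spm φ ≫ X.fromSpecResidueField (gen y) = spm i ≫ y := by
    obtain ⟨φ, hφ⟩ := geo_factor (spm i ≫ y) (gen y) hg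
    refine ⟨φ.comp (algebraMap _ (geoF (gen y))), ?_⟩
    rw [← hφ, geo, ← spm_comp, Category.assoc]
  have key : ∀ a, ∃ b, (i.comp j) b = φ a := by
    intro a
    have h1 : IsAlgebraic k (φ a) := by
      by_contra hb
      choose σ h2 h3 using GFinA_conj (k := k) hb
      refine Set.infinite_of_injective_forall_mem (f := fun n => spm (σ n) ≫ spm i ≫ y)
        (fun n m e => ?_) (fun n => ?_) (h (AlgebraicClosure Om) (spm (i.comp j) ≫ t))
      · simp only [← hφ, ← Category.assoc, spm_comp] at e
        have e1 := RingHom.congr_fun (spm_injective ((cancel_mono _).1 e)) a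
        rw [RingHom.comp_apply, RingHom.comp_apply, h3, h3] at e1
        have e2 : (Polynomial.X ^ (n + 1) : Polynomial k) = Polynomial.X ^ (m + 1) :=
          transcendental_iff_injective.1 hb (by simpa using e1)
        simpa using congrArg Polynomial.natDegree e2
      · refine ⟨?_, by rw [gen_spm_comp (σ n).injective, hg]; exact hS⟩
        rw [Category.assoc, Category.assoc, hy, ← Category.assoc (spm i), spm_comp,
          ← Category.assoc, spm_comp]
        exact congrArg (fun u => spm u ≫ t) (h2 n)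
    exact minpoly.mem_range_of_degree_eq_one k (φ a)
      (IsAlgClosed.degree_eq_one_of_irreducible k (minpoly.irreducible h1.isIntegral))
  obtain ⟨ψ, hψ⟩ := GFinA_factor (i.comp j) (i.comp j).injective φ key
  have h4 : spm j ≫ spm ψ ≫ X.fromSpecResidueField (gen y) = y := by
    refine spm_cancel i ?_
    rw [← hφ, ← hψ, ← spm_comp, ← spm_comp, Category.assoc, Category.assoc]
  refine ⟨spm ψ ≫ X.fromSpecResidueField (gen y), spm_cancel j ?_, h4⟩
  rw [← Category.assoc, h4, hy]

/-- A point of `S` above the image of a geometric point is the image of a lift. -/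
theorem lift (h : GFin p S) {k : Type} [Field k] [IsAlgClosed k] (t : Spec (.of k) ⟶ W) {x : X}
    (hx : x ∈ S) (hp : p x = gen t) : ∃ y : Spec (.of k) ⟶ X, y ≫ p = t ∧ gen y = x := by
  obtain ⟨Om, _, _, j, y, h1, h2⟩ := exists_ext_lift p t x hp
  obtain ⟨y0, h3, h4⟩ := h.descend j t y h1 (h2 ▸ hx)
  exact ⟨y0, h3, by rw [← gen_spm_comp j.injective y0, h4, h2]⟩

theorem finite_fibre (h : GFin p S) (w : W) : (S ∩ p ⁻¹' {w}).Finite := by
  refine ((h _ (geo w)).image fun y => gen y).subset fun x hx => ?_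
  obtain ⟨y, h1, h2⟩ := h.lift (geo w) hx.1 (by rw [gen_geo]; exact hx.2)
  exact ⟨y, ⟨h1, h2 ▸ hx.1⟩, h2⟩

theorem image {f : Y ⟶ X} {T : Set Y} (h : GFin (f ≫ p) T) : GFin p (f '' T) := by
  intro Om _ _ t
  refine ((h Om t).image (· ≫ f)).subset ?_
  rintro y ⟨h1, x, hx, h2⟩
  obtain ⟨z, h3, h4⟩ := h.of_comp.lift y hx h2
  exact ⟨z, ⟨by rw [← Category.assoc, h3, h1], h4 ▸ hx⟩, h3⟩

theorem of_locallyQuasiFinite (p : X ⟶ W) [LocallyQuasiFinite p] [QuasiCompact p] (S : Set X) :
    GFin p S := by
  exact fun Om _ _ t => (CycA_finite p t).subset fun y hy => hy.1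

theorem of_mono (p : X ⟶ W) [Mono p] (S : Set X) : GFin p S := by
  exact fun Om _ _ t => Set.Subsingleton.finite fun y hy y' hy' =>
    (cancel_mono p).1 (hy.1.trans hy'.1.symm)

/-- Finiteness of the sums in the definition of `Specialises`. -/
theorem finite_lifts (h : GFin p S) {O : Type} [CommRing O] [IsDomain O] [IsLocalRing O]
    (g : Spec (.of O) ⟶ W) (y : Spec (.of (ResidueField O)) ⟶ X) :
    {x : Spec (.of O) ⟶ X | x ≫ p = g ∧ resPt O ≫ x = y ∧ gen x ∈ S}.Finite := by
  let i := algebraMap (FractionRing O) (AlgebraicClosure (FractionRing O))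
  refine Set.Finite.of_finite_image (f := fun x => spm i ≫ genM O ≫ x)
    ((h _ (spm i ≫ genM O ≫ g)).subset ?_) fun x hx x' hx' e =>
      ext_gen_res (by rw [hx.2.1, hx'.2.1]) (spm_cancel i e)
  rintro _ ⟨x, hx, rfl⟩
  exact ⟨by simp only [Category.assoc, hx.1],
    by rw [gen_spm_comp i.injective, gen_genM]; exact hx.2.2⟩

/-- A point of `S` with values in a local domain above a constant point is constant.
Hint: `descend` gives `y0` with the generic point of `x`; `x` and `spm j ≫ y0` factor through an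
affine neighbourhood of the image of the closed point, so they agree; then `spm_cancel`. -/
theorem const (h : GFin p S) {k O : Type} [Field k] [IsAlgClosed k] [CommRing O] [IsDomain O]
    [IsLocalRing O] (j : k →+* O) (z : Spec (.of k) ⟶ X) (x : Spec (.of O) ⟶ X)
    (hx : x ≫ p = spm j ≫ z ≫ p) (hr : resPt O ≫ x = resPt O ≫ spm j ≫ z) (hS : gen x ∈ S) :
    x = spm j ≫ z := by
  obtain ⟨y0, -, h2⟩ := h.descend ((algebraMap O (FractionRing O)).comp j) (z ≫ p) (genM O ≫ x)
    (by rw [Category.assoc, hx, ← spm_comp, Category.assoc]) (by rw [gen_genM]; exact hS)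
  obtain ⟨U, hU, hxU, -⟩ := exists_isAffineOpen_mem_and_subset (X := X) (U := ⊤)
    (x := gen (resPt O ≫ x)) trivial
  have : IsAffine U := hU
  obtain ⟨x', rfl⟩ := lift_open U.ι x (by simpa using hxU)
  obtain ⟨y', rfl⟩ := lift_immersion_field U.ι y0 (by
    rw [← gen_spm_comp ((algebraMap O (FractionRing O)).comp j).injective y0, h2, gen_genM,
      gen_comp]
    exact ⟨_, rfl⟩)
  have h3 : x' = spm j ≫ y' := by
    refine ext_gen_sep (terminal.from _) (terminal.hom_ext _ _) ?_
    rw [← cancel_mono U.ι, Category.assoc, ← h2, ← spm_comp]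
    simp only [Category.assoc]
  subst h3
  have h4 : y' ≫ U.ι = z := by
    refine spm_cancel ((residue O).comp j) ?_
    rw [← spm_comp]
    simpa only [Category.assoc] using hr
  rw [← h4, Category.assoc]

end GFin

/-- The ring version: a finite type algebra with finite geometric fibres is quasi-finite. -/
theorem quasiFinite_of_finite_hom {A B : Type} [CommRing A] [CommRing B] [Algebra A B]
    [Algebra.FiniteType A B]
    (h : ∀ (Om : Type) [Field Om] [IsAlgClosed Om] (t : A →+* Om),
      {y : B →+* Om | y.comp (algebraMap A B) = t}.Finite) : Algebra.QuasiFinite A B := by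
  have h1 : GFin (spm (algebraMap A B)) Set.univ := by
    intro Om _ _ t
    obtain ⟨t, rfl⟩ := spm_surjective t
    refine ((h Om t).image fun y => spm y).subset fun y hy => ?_
    obtain ⟨y, rfl⟩ := spm_surjective y
    exact ⟨y, spm_injective ((spm_comp _ _).symm.trans hy.1), rfl⟩
  exact Algebra.QuasiFinite.iff_finite_comap_preimage_singleton.2 fun x =>
    (h1.finite_fibre x).subset fun y hy => ⟨trivial, hy⟩

theorem GFinB_exists_closed (S : Set X) (hS : IsClosed S) :
    ∃ (Z : Scheme.{0}) (i : Z ⟶ X), IsClosedImmersion i ∧ Set.range i = S :=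
  ⟨_, (Scheme.IdealSheafData.vanishingIdeal ⟨S, hS⟩).subschemeι, inferInstance, by
    rw [Scheme.IdealSheafData.range_subschemeι,
      Scheme.IdealSheafData.coe_support_vanishingIdeal]
    rfl⟩

theorem GFinB_range_comp (f : X ⟶ Y) (g : Y ⟶ Z) :
    Set.range (f ≫ g) = g '' Set.range f := by
  rw [Scheme.Hom.comp_base, TopCat.coe_comp, Set.range_comp]

namespace FinOver

variable {p : X ⟶ W} {S S' : Set X}

theorem gfin (h : FinOver p S) : GFin p S := by
  obtain ⟨Z, i, hi, hS⟩ := h
  exact (GFin.image (GFin.of_locallyQuasiFinite (i ≫ p) Set.univ)).mono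
    (by rwa [Set.image_univ])

theorem of_isFinite (p : X ⟶ W) [IsFinite p] (S : Set X) : FinOver p S := by
  exact ⟨X, 𝟙 X, by rwa [Category.id_comp], fun x _ => ⟨x, rfl⟩⟩

theorem closure [IsSeparated p] (h : FinOver p S) : FinOver p (closure S) := by
  obtain ⟨Z, i, hi, hS⟩ := h
  have := IsFinite.of_comp i p
  exact ⟨Z, i, hi, closure_minimal hS i.isClosedMap.isClosed_range⟩

/-- The finite scheme can be taken to be a closed subscheme with underlying set `closure S`.
Hint: scheme theoretic image (`Scheme.Hom.imageι`, `toImage`) or, on affine opens of `W`, the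
image of a ring in a finite algebra; a closed subscheme `Z'` of `X` that is the image of a finite
`W`-scheme is universally closed over `W`. If finite type is needed use the version with
`LocallyOfFiniteType p`. -/
theorem exists_closed [IsSeparated p] [LocallyOfFiniteType p] (h : FinOver p S) :
    ∃ (Z : Scheme.{0}) (i : Z ⟶ X), IsClosedImmersion i ∧ IsFinite (i ≫ p) ∧
      Set.range i = _root_.closure S := by
  obtain ⟨Z, i, hi, hS⟩ := h.closure
  obtain ⟨Z', j, hj, hr⟩ := GFinB_exists_closed (_root_.closure S) isClosed_closure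
  refine ⟨Z', j, hj, ?_, hr⟩
  have h1 : Surjective (pullback.fst j i) := ⟨by
    rw [← Set.range_eq_univ, Scheme.Pullback.range_fst, Set.eq_univ_iff_forall]
    exact fun z => hS (hr ▸ Set.mem_range_self z)⟩
  have h2 : IsFinite (pullback.fst j i ≫ j ≫ p) := by
    rw [pullback.condition_assoc]
    infer_instance
  have h3 : UniversallyClosed (j ≫ p) := .of_comp_surjective (pullback.fst j i) _
  have h4 : IsProper (j ≫ p) := {}
  have h5 : LocallyQuasiFinite (j ≫ p) := .of_finite_preimage_singleton _ fun w => by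
    refine (((pullback.fst j i ≫ j ≫ p).finite_preimage_singleton w).image
      (pullback.fst j i)).subset fun z hz => ?_
    obtain ⟨y, rfl⟩ := h1.1 z
    refine ⟨y, ?_, rfl⟩
    rw [Set.mem_preimage, Scheme.Hom.comp_apply]
    exact hz
  exact .of_isProper_of_locallyQuasiFinite _

/-- The finite scheme can be taken with image exactly `closure S`. -/
theorem exists_range [IsSeparated p] (h : FinOver p S) :
    ∃ (Z : Scheme.{0}) (i : Z ⟶ X), IsFinite (i ≫ p) ∧ Set.range i = _root_.closure S := by
  obtain ⟨Z, i, hi, hS⟩ := h.closure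
  obtain ⟨Z', j, hj, hr⟩ := GFinB_exists_closed (i ⁻¹' _root_.closure S)
    (isClosed_closure.preimage i.continuous)
  refine ⟨Z', j ≫ i, ?_, ?_⟩
  · rw [Category.assoc]
    infer_instance
  · rw [GFinB_range_comp, hr, Set.image_preimage_eq_of_subset hS]

theorem comp {q : Y ⟶ X} {T : Set Y} (h : FinOver p S) (hq : FinOver q T) :
    FinOver (q ≫ p) (T ∩ q ⁻¹' S) := by
  obtain ⟨Z, i, hi, hS⟩ := h
  obtain ⟨V, j, hj, hT⟩ := hq
  refine ⟨pullback (j ≫ q) i, pullback.fst _ _ ≫ j, ?_, ?_⟩
  · rw [Category.assoc, ← Category.assoc j, pullback.condition_assoc]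
    infer_instance
  · rintro y ⟨hy, hy'⟩
    obtain ⟨v, rfl⟩ := hT hy
    rw [GFinB_range_comp, Scheme.Pullback.range_fst]
    refine ⟨v, ?_, rfl⟩
    rw [Set.mem_preimage, Scheme.Hom.comp_apply]
    exact hS hy'

theorem comp_isFinite {q : W ⟶ W'} [IsFinite q] (h : FinOver p S) : FinOver (p ≫ q) S := by
  obtain ⟨Z, i, hi, hS⟩ := h
  refine ⟨Z, i, ?_, hS⟩
  rw [← Category.assoc]
  infer_instance

theorem of_comp {q : W ⟶ W'} [IsSeparated q] (h : FinOver (p ≫ q) S) : FinOver p S := by
  obtain ⟨Z, i, hi, hS⟩ := h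
  rw [← Category.assoc] at hi
  exact ⟨Z, i, IsFinite.of_comp _ q, hS⟩

/-- Restriction to a subscheme containing the closure. Hint: pull the finite scheme of
`exists_range` back along `j`; a surjective immersion is a closed immersion. -/
theorem preimage [IsSeparated p] {j : Y ⟶ X} [IsImmersion j] (h : FinOver p S)
    (hS : _root_.closure S ⊆ Set.range j) : FinOver (j ≫ p) (j ⁻¹' S) := by
  obtain ⟨Z, i, hi, hr⟩ := h.exists_range
  have h1 : IsClosedImmersion (pullback.snd j i) := .of_isPreimmersion _ (by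
    have : Set.range (pullback.snd j i) = Set.univ := by
      rw [Scheme.Pullback.range_snd, Set.eq_univ_iff_forall]
      exact fun z => hS (hr ▸ Set.mem_range_self z)
    rw [this]
    exact isClosed_univ)
  refine ⟨pullback j i, pullback.fst _ _, ?_, ?_⟩
  · rw [pullback.condition_assoc]
    infer_instance
  · rw [Scheme.Pullback.range_fst, hr]
    exact Set.preimage_mono subset_closure

theorem isClosed_image (h : FinOver p S) (hS : IsClosed S) :
    IsClosed (p '' S) := by
  obtain ⟨Z, i, hi, hr⟩ := h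
  have := (i ≫ p).isClosedMap _ (hS.preimage i.continuous)
  rwa [Scheme.Hom.comp_base, TopCat.coe_comp, Set.image_comp,
    Set.image_preimage_eq_of_subset hr] at this

/-- Images of closed finite sets under maps of separated schemes are closed. -/
theorem isClosed_image' {f : Y ⟶ X} {T : Set Y} [IsSeparated p]
    (h : FinOver (f ≫ p) T) (hT : IsClosed T) : IsClosed (f '' T) := by
  exact h.of_comp.isClosed_image hT

/-- Valuative lifting of geometric points of `S`. -/
theorem lift_val (h : FinOver p S) {O : Type} [CommRing O] [IsDomain O] [ValuationRing O]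
    [IsAlgClosed (FractionRing O)] (g : Spec (.of O) ⟶ W) (y : Spec (.of (FractionRing O)) ⟶ X)
    (hy : y ≫ p = genM O ≫ g) (hS : gen y ∈ S) :
    ∃ x : Spec (.of O) ⟶ X, x ≫ p = g ∧ genM O ≫ x = y := by
  obtain ⟨Z, i, hi, hr⟩ := h
  obtain ⟨z, hz⟩ := hr hS
  obtain ⟨y', hy', -⟩ := (GFin.of_locallyQuasiFinite (i ≫ p) Set.univ).of_comp.lift y
    (Set.mem_univ z) hz
  obtain ⟨x, hx, hx'⟩ := lift_univClosed (i ≫ p) g y' (by rw [← Category.assoc, hy', hy])
  exact ⟨x ≫ i, by rw [Category.assoc, hx], by rw [← Category.assoc, hx', hy']⟩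

end FinOver

theorem finOver_spm {A B : Type} [CommRing A] [CommRing B] (i : A →+* B) (J : Ideal B)
    (h : ((Ideal.Quotient.mk J).comp i).Finite) :
    FinOver (spm i) (PrimeSpectrum.zeroLocus (J : Set B) : Set (PrimeSpectrum B)) := by
  refine ⟨_, spm (Ideal.Quotient.mk J), ?_, ?_⟩
  · rw [spm_comp]
    exact (IsFinite.SpecMap_iff _).2 h
  · have := range_comap_of_surjective _ (Ideal.Quotient.mk J) Ideal.Quotient.mk_surjective
    rw [Ideal.mk_ker] at this
    exact this.ge

end Pool.Agent.KEW
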