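import Mathlib

/-!
The order `ord e x` of an element `x` of a domain with respect to a non-unit `e`.
-/

noncomputable section

open Polynomial IsLocalRing

namespace Pool.Agent.KEW

variable {O : Type} [CommRing O]

/-- The generic point of a ring map to a domain. -/
def gp {Y : Type} [CommRing Y] [IsDomain O] (x : Y →+* O) : PrimeSpectrum Y :=
  ⟨RingHom.ker x, RingHom.ker_isPrime x⟩

/-- A power of `x` is associated to a power of `e`. -/
def Comm (e x : O) : Prop := ∃ a b : ℕ, 0 < b ∧ Associated (x ^ b) (e ^ a)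

open Classical in
/-- The rational number `a / b` such that `x ^ b` is associated to `e ^ a` (zero if there is
none). -/
def ord (e x : O) : ℚ :=
  if h : Comm e x then (h.choose : ℚ) / (h.choose_spec.choose : ℚ) else 0

theorem Ord_mul_aux {e x y : O} {a b c d : ℕ} (h : Associated (x ^ b) (e ^ a))
    (h' : Associated (y ^ d) (e ^ c)) : Associated ((x * y) ^ (b * d)) (e ^ (a * d + c * b)) := by
  rw [mul_pow, pow_add, pow_mul, mul_comm b d, pow_mul, pow_mul, pow_mul]
  exact (h.pow_pow).mul_mul (h'.pow_pow)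

theorem Ord_pow_aux {e x : O} {a b : ℕ} (h : Associated (x ^ b) (e ^ a)) (n : ℕ) :
    Associated ((x ^ n) ^ b) (e ^ (a * n)) := by
  rw [← pow_mul, mul_comm n b, pow_mul, pow_mul]
  exact h.pow_pow

theorem Comm.mul {e x y : O} (hx : Comm e x) (hy : Comm e y) : Comm e (x * y) := by
  obtain ⟨a, b, hb, h⟩ := hx
  obtain ⟨c, d, hd, h'⟩ := hy
  exact ⟨a * d + c * b, b * d, Nat.mul_pos hb hd, Ord_mul_aux h h'⟩

theorem Comm.pow {e x : O} (hx : Comm e x) (n : ℕ) : Comm e (x ^ n) := by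
  obtain ⟨a, b, hb, h⟩ := hx
  exact ⟨a * n, b, hb, Ord_pow_aux h n⟩

theorem Comm.of_isUnit (e : O) {x : O} (hx : IsUnit x) : Comm e x := by
  refine ⟨0, 1, one_pos, ?_⟩
  rw [pow_one, pow_zero]
  exact associated_one_iff_isUnit.2 hx

theorem Comm.of_associated {e x y : O} (h : Associated x y) (hx : Comm e x) : Comm e y := by
  obtain ⟨a, b, hb, h'⟩ := hx
  exact ⟨a, b, hb, (h.symm.pow_pow).trans h'⟩

theorem Comm.prod {ι : Type} {e : O} (s : Finset ι) (a : ι → O) (h : ∀ i ∈ s, Comm e (a i)) :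
    Comm e (∏ i ∈ s, a i) := by
  exact Finset.prod_induction a (Comm e) (fun _ _ => Comm.mul) (Comm.of_isUnit e isUnit_one) h

variable [IsDomain O] {e : O}

theorem Comm.ne_zero (he0 : e ≠ 0) {x : O} (hx : Comm e x) : x ≠ 0 := by
  obtain ⟨a, b, hb, h⟩ := hx
  rintro rfl
  rw [zero_pow hb.ne'] at h
  exact pow_ne_zero a he0 (h.eq_zero_iff.1 rfl)

theorem Ord_pow_inj (he0 : e ≠ 0) (he : ¬IsUnit e) {a b : ℕ} (h : Associated (e ^ a) (e ^ b)) :
    a = b :=
  le_antisymm ((pow_dvd_pow_iff he0 he).1 h.dvd) ((pow_dvd_pow_iff he0 he).1 h.symm.dvd)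

theorem ord_eq (he0 : e ≠ 0) (he : ¬IsUnit e) {x : O} {a b : ℕ} (hb : 0 < b)
    (h : Associated (x ^ b) (e ^ a)) : ord e x = (a : ℚ) / (b : ℚ) := by
  have hc : Comm e x := ⟨a, b, hb, h⟩
  rw [ord, dif_pos hc]
  obtain ⟨hb', h'⟩ := hc.choose_spec.choose_spec
  have h1 := (h.pow_pow (n := hc.choose_spec.choose)).symm
  have h2 := h'.pow_pow (n := b)
  rw [← pow_mul, ← pow_mul] at h1 h2
  rw [mul_comm b] at h1
  have h3 := Ord_pow_inj he0 he (h1.trans h2)
  rw [div_eq_div_iff (Nat.cast_ne_zero.2 hb'.ne') (Nat.cast_ne_zero.2 hb.ne')]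
  exact_mod_cast h3.symm

theorem ord_zero (he0 : e ≠ 0) : ord e (0 : O) = 0 := by
  exact dif_neg fun h => Comm.ne_zero he0 h rfl

theorem ord_of_isUnit (he0 : e ≠ 0) (he : ¬IsUnit e) {x : O} (hx : IsUnit x) : ord e x = 0 := by
  rw [ord_eq he0 he (a := 0) one_pos
    (by rw [pow_one, pow_zero]; exact associated_one_iff_isUnit.2 hx)]
  simp

theorem ord_congr (he0 : e ≠ 0) (he : ¬IsUnit e) {x y : O} (h : Associated x y) :
    ord e x = ord e y := by
  by_cases hx : Comm e x
  · obtain ⟨a, b, hb, h'⟩ := hx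
    rw [ord_eq he0 he hb h', ord_eq he0 he hb ((h.symm.pow_pow).trans h')]
  · rw [ord, ord, dif_neg hx, dif_neg fun hy => hx (Comm.of_associated h.symm hy)]

theorem ord_mul (he0 : e ≠ 0) (he : ¬IsUnit e) {x y : O} (hx : Comm e x) (hy : Comm e y) :
    ord e (x * y) = ord e x + ord e y := by
  obtain ⟨a, b, hb, h⟩ := hx
  obtain ⟨c, d, hd, h'⟩ := hy
  rw [ord_eq he0 he hb h, ord_eq he0 he hd h',
    ord_eq he0 he (Nat.mul_pos hb hd) (Ord_mul_aux h h')]
  have h1 : (b : ℚ) ≠ 0 := Nat.cast_ne_zero.2 hb.ne'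
  have h2 : (d : ℚ) ≠ 0 := Nat.cast_ne_zero.2 hd.ne'
  push_cast
  field_simp

theorem ord_pow (he0 : e ≠ 0) (he : ¬IsUnit e) {x : O} (hx : Comm e x) (n : ℕ) :
    ord e (x ^ n) = n * ord e x := by
  obtain ⟨a, b, hb, h⟩ := hx
  rw [ord_eq he0 he hb h, ord_eq he0 he hb (Ord_pow_aux h n)]
  push_cast
  ring

theorem ord_prod (he0 : e ≠ 0) (he : ¬IsUnit e) {ι : Type} (s : Finset ι) (a : ι → O)
    (h : ∀ i ∈ s, Comm e (a i)) : ord e (∏ i ∈ s, a i) = ∑ i ∈ s, ord e (a i) := by
  classical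
  induction s using Finset.induction_on with
  | empty => rw [Finset.prod_empty, Finset.sum_empty, ord_of_isUnit he0 he isUnit_one]
  | insert i s hi ih =>
    have h' : ∀ j ∈ s, Comm e (a j) := fun j hj => h j (Finset.mem_insert_of_mem hj)
    rw [Finset.prod_insert hi, Finset.sum_insert hi,
      ord_mul he0 he (h i (Finset.mem_insert_self i s)) (Comm.prod s a h'), ih h']

theorem ord_self (he0 : e ≠ 0) (he : ¬IsUnit e) : ord e e = 1 := by
  rw [ord_eq he0 he one_pos (Associated.refl (e ^ 1)), div_self (by norm_num)]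

theorem Ord_exists_min [ValuationRing O] {ι : Type} (s : Finset ι) (hs : s.Nonempty) (f : ι → O) :
    ∃ i ∈ s, ∀ j ∈ s, f i ∣ f j := by
  induction hs using Finset.Nonempty.cons_induction with
  | singleton a => exact ⟨a, Finset.mem_singleton_self a, fun j hj => by
      rw [Finset.mem_singleton.1 hj]⟩
  | cons a s ha hs ih =>
    obtain ⟨i, hi, h⟩ := ih
    rcases ValuationRing.dvd_total (f a) (f i) with h1 | h1
    · refine ⟨a, Finset.mem_cons_self a s, fun j hj => ?_⟩
      rcases Finset.mem_cons.1 hj with rfl | hj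
      · exact dvd_rfl
      · exact h1.trans (h j hj)
    · refine ⟨i, Finset.mem_cons_of_mem hi, fun j hj => ?_⟩
      rcases Finset.mem_cons.1 hj with rfl | hj
      · exact h1
      · exact h j hj

theorem Ord_comm_aux (he0 : e ≠ 0) (he : ¬IsUnit e) {x : O} (hx : x ≠ 0) {k l n m : ℕ}
    (hnm : n < m) (h : Associated (e ^ k * x ^ n) (e ^ l * x ^ m)) : Comm e x := by
  obtain ⟨d, rfl⟩ := Nat.exists_eq_add_of_lt hnm
  rw [add_assoc, add_comm n, pow_add, ← mul_assoc] at h
  have h1 := h.of_mul_right (Associated.refl _) (pow_ne_zero n hx)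
  obtain ⟨c, rfl⟩ := Nat.exists_eq_add_of_le
    ((pow_dvd_pow_iff he0 he).1 ((dvd_mul_right _ _).trans h1.symm.dvd))
  rw [pow_add] at h1
  exact ⟨c, d + 1, d.succ_pos, (h1.of_mul_left (Associated.refl _) (pow_ne_zero l he0)).symm⟩

/-- In a valuation ring, a nonzero root of a nonzero polynomial whose nonzero coefficients are
associated to powers of `e` is commensurable with `e`.
Hint: among the nonzero terms `P.coeff n * x ^ n` take one dividing all others; since the sum is
zero and `O` is local, another term is associated to it. -/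
theorem comm_of_root [ValuationRing O] (he0 : e ≠ 0) (he : ¬IsUnit e) {x : O} (hx : x ≠ 0)
    (P : O[X]) (hP : P ≠ 0) (hroot : P.eval x = 0)
    (hc : ∀ n, P.coeff n = 0 ∨ ∃ k : ℕ, Associated (P.coeff n) (e ^ k)) : Comm e x := by
  classical
  obtain ⟨n, hn, hd⟩ := Ord_exists_min P.support (support_nonempty.2 hP) fun n => P.coeff n * x ^ n
  choose! u hu using hd
  have hn0 : P.coeff n * x ^ n ≠ 0 := mul_ne_zero (mem_support_iff.1 hn) (pow_ne_zero n hx)
  rw [eval_eq_sum, sum_def, ← Finset.add_sum_erase _ _ hn,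
    Finset.sum_congr rfl fun m hm => hu m (Finset.mem_of_mem_erase hm), ← Finset.mul_sum,
    ← mul_one_add] at hroot
  have h1 := (mul_eq_zero.1 hroot).resolve_left hn0
  obtain ⟨m, hm, hmu⟩ : ∃ m ∈ P.support.erase n, IsUnit (u m) := by
    by_contra hne
    push Not at hne
    have h2 : ∑ m ∈ P.support.erase n, u m ∈ maximalIdeal O :=
      Ideal.sum_mem _ fun m hm => hne m hm
    rw [eq_neg_of_add_eq_zero_right h1] at h2
    exact h2 isUnit_one.neg
  have hm' := Finset.mem_of_mem_erase hm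
  obtain ⟨k, hk⟩ := (hc n).resolve_left (mem_support_iff.1 hn)
  obtain ⟨l, hl⟩ := (hc m).resolve_left (mem_support_iff.1 hm')
  have h3 : Associated (P.coeff n * x ^ n) (P.coeff m * x ^ m) := by
    rw [hu m hm']
    exact associated_mul_unit_right _ _ hmu
  have h4 : Associated (e ^ k * x ^ n) (e ^ l * x ^ m) :=
    ((hk.symm.mul_right _).trans h3).trans (hl.mul_right _)
  rcases lt_or_gt_of_ne (Finset.ne_of_mem_erase hm) with h | h
  · exact Ord_comm_aux he0 he hx h h4.symm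
  · exact Ord_comm_aux he0 he hx h h4

/-- The value of a polynomial over a field of constants at `u0 + e`.
Hint: `F = (X - C u0) ^ n * G` with `G.eval u0 ≠ 0`, and `G(u0 + e) - G(u0)` is divisible
by `e`. -/
theorem assoc_eval [IsLocalRing O] (he : ¬IsUnit e) {k : Type} [Field k] (j : k →+* O) (u0 : k)
    {F : k[X]} (hF : F ≠ 0) :
    Associated (eval₂ j (j u0 + e) F) (e ^ F.rootMultiplicity u0) := by
  obtain ⟨G, hG, hd⟩ := exists_eq_pow_rootMultiplicity_mul_and_not_dvd F hF u0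
  have h1 : IsUnit (j (G.eval u0)) := (Ne.isUnit fun h => hd (dvd_iff_isRoot.2 h)).map j
  obtain ⟨c, hc⟩ := sub_dvd_eval_sub (j u0 + e) (j u0) (G.map j)
  rw [eval_map, eval_map, eval₂_at_apply, add_sub_cancel_left] at hc
  have h2 : IsUnit (eval₂ j (j u0 + e) G) := by
    by_contra h
    have h3 : eval₂ j (j u0 + e) G - e * c ∈ maximalIdeal O :=
      sub_mem h (Ideal.mul_mem_right c _ he)
    rw [← hc, sub_sub_cancel] at h3
    exact h3 h1
  conv_lhs => rw [hG]
  rw [eval₂_mul, eval₂_pow, eval₂_sub, eval₂_X, eval₂_C, add_sub_cancel_left]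
  exact associated_mul_unit_left _ _ h2

theorem ord_eval [IsLocalRing O] (he0 : e ≠ 0) (he : ¬IsUnit e) {k : Type} [Field k]
    (j : k →+* O) (u0 : k) {F : k[X]} (hF : F ≠ 0) :
    ord e (eval₂ j (j u0 + e) F) = (F.rootMultiplicity u0 : ℚ) := by
  rw [ord_eq he0 he one_pos (by rw [pow_one]; exact assoc_eval he j u0 hF), Nat.cast_one, div_one]

/-- An element that is integral over the image of `k[X]` under `X ↦ u0 + e` is zero or
commensurable with `e`. -/
theorem comm_of_integral [ValuationRing O] (he0 : e ≠ 0) (he : ¬IsUnit e) {k : Type} [Field k]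
    (j : k →+* O) (u0 : k) {x : O} (hx : x ≠ 0)
    (hi : (eval₂RingHom j (j u0 + e)).IsIntegralElem x) : Comm e x := by
  obtain ⟨p, hp, h0⟩ := hi
  refine comm_of_root he0 he hx (p.map (eval₂RingHom j (j u0 + e))) (hp.map _).ne_zero
    (by rw [eval_map, h0]) fun n => ?_
  rw [coeff_map]
  by_cases h : p.coeff n = 0
  · exact Or.inl (by rw [h, map_zero])
  · exact Or.inr ⟨_, assoc_eval he j u0 h⟩

/-- Grouping a weighted sum of orders by the value of the weight. -/
theorem sum_ord_eq (he0 : e ≠ 0) (he : ¬IsUnit e) {ι : Type} {H : Set ι} (hH : H.Finite)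
    (om : ι → ℚ) (a : ι → O) (W : Finset ℚ) (hW : ∀ i ∈ H, om i ∈ W) {q : ℕ} (hq : 0 < q)
    (n : ℚ → O) (hn : ∀ w, (∏ᶠ i ∈ {i | i ∈ H ∧ om i = w}, a i) ^ q = n w)
    (hc : ∀ i ∈ H, om i ≠ 0 → Comm e (a i)) :
    ∑ᶠ i ∈ H, om i * ord e (a i) = ∑ w ∈ W, w / q * ord e (n w) := by
  classical
  rw [finsum_mem_eq_finite_toFinset_sum _ hH,
    ← Finset.sum_fiberwise_of_maps_to (g := om) (t := W) fun i hi => hW i (hH.mem_toFinset.1 hi)]
  refine Finset.sum_congr rfl fun w _ => ?_
  rw [Finset.sum_congr rfl fun i hi => by rw [(Finset.mem_filter.1 hi).2], ← Finset.mul_sum]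
  by_cases hw : w = 0
  · rw [hw, zero_div, zero_mul, zero_mul]
  have h1 : {i | i ∈ H ∧ om i = w} = ↑(hH.toFinset.filter fun i => om i = w) := by
    ext i
    simp
  have h2 : ∀ i ∈ hH.toFinset.filter fun i => om i = w, Comm e (a i) := fun i hi =>
    hc i (hH.mem_toFinset.1 (Finset.mem_filter.1 hi).1) ((Finset.mem_filter.1 hi).2 ▸ hw)
  have h3 : (q : ℚ) ≠ 0 := Nat.cast_ne_zero.2 hq.ne'
  rw [← hn w, h1, finprod_mem_coe_finset, ord_pow he0 he (Comm.prod _ a h2), ord_prod he0 he _ a h2]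
  field_simp

end Pool.Agent.KEW
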