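import Pool.Agent.P.MP_6277db_ag.KEW.DefsC
import Pool.Agent.P.MP_6277db_ag.KEW.L3.FactB

/-!
Points of schemes with values in fields and valuation rings.
-/

noncomputable section

open CategoryTheory Limits AlgebraicGeometry IsLocalRing

namespace Pool.Agent.KEW

variable {X Y W Z : Scheme.{0}}

/-- `Spec` of a ring map. -/
abbrev spm {R S : Type} [CommRing R] [CommRing S] (j : R →+* S) : Spec (.of S) ⟶ Spec (.of R) :=
  Spec.map (CommRingCat.ofHom j)

/-- The image of the generic point under a point with values in a domain. -/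
abbrev gen {O : Type} [CommRing O] [IsDomain O] (x : Spec (.of O) ⟶ X) : X := x (genPt O)

/-- The generic point of the spectrum of a domain, as a morphism. -/
abbrev genM (O : Type) [CommRing O] [IsDomain O] :
    Spec (.of (FractionRing O)) ⟶ Spec (.of O) := spm (algebraMap O (FractionRing O))

/-- Evaluation of global functions at a point with values in a ring. -/
def ev {O : Type} [CommRing O] (x : Spec (.of O) ⟶ X) : Γ(X, ⊤) →+* O :=
  (x.appTop ≫ (Scheme.ΓSpecIso (.of O)).hom).hom

/-- An element of a ring as a global function on its spectrum. -/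
def fn {R : Type} [CommRing R] : R →+* Γ(Spec (.of R), ⊤) := (Scheme.ΓSpecIso (.of R)).inv.hom

/-- The algebraic closure of the residue field. -/
abbrev geoF (x : X) : Type := AlgebraicClosure (X.residueField x)

/-- The geometric point above `x` with values in the algebraic closure of its residue field. -/
def geo (x : X) : Spec (.of (geoF x)) ⟶ X :=
  spm (algebraMap (X.residueField x) (geoF x)) ≫ X.fromSpecResidueField x

section

variable {R S O : Type} [CommRing R] [CommRing S] [CommRing O]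

theorem spm_comp (i : R →+* S) (j : S →+* O) : spm j ≫ spm i = spm (j.comp i) := by
  rw [← Spec.map_comp]
  rfl

theorem spm_id : spm (RingHom.id R) = 𝟙 _ := by
  exact Spec.map_id _

theorem spm_injective {i j : R →+* S} (h : spm i = spm j) : i = j := by
  have := Spec.map_injective h
  exact congrArg CommRingCat.Hom.hom this

theorem spm_surjective (x : Spec (.of S) ⟶ Spec (.of R)) : ∃ j : R →+* S, spm j = x := by
  obtain ⟨φ, rfl⟩ := Spec.map_surjective x
  exact ⟨φ.hom, rfl⟩

theorem ev_comp (x : Spec (.of O) ⟶ X) (f : X ⟶ Y) (a : Γ(Y, ⊤)) :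
    ev (x ≫ f) a = ev x (f.appTop a) := by
  unfold ev
  rw [Scheme.Hom.comp_appTop, Category.assoc]
  rfl

theorem ev_spm_comp (j : O →+* S) (x : Spec (.of O) ⟶ X) (a : Γ(X, ⊤)) :
    ev (spm j ≫ x) a = j (ev x a) := by
  unfold ev
  rw [Scheme.Hom.comp_appTop, Category.assoc, Scheme.ΓSpecIso_naturality]
  rfl

theorem ev_spm_fn (j : R →+* O) (r : R) : ev (spm j) (fn r) = j r := by
  unfold ev fn
  rw [Scheme.ΓSpecIso_naturality]
  change j (((Scheme.ΓSpecIso (.of R)).inv ≫ (Scheme.ΓSpecIso (.of R)).hom).hom r) = _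
  rw [Iso.inv_hom_id]
  rfl

theorem appTop_spm_fn (j : R →+* S) (r : R) : (spm j).appTop (fn r) = fn (j r) := by
  unfold fn
  change ((Scheme.ΓSpecIso (.of R)).inv ≫ (spm j).appTop).hom r = _
  rw [← Scheme.ΓSpecIso_inv_naturality]
  rfl

theorem fn_bijective : Function.Bijective (fn : R →+* _) := by
  exact (Scheme.ΓSpecIso (.of R)).symm.commRingCatIsoToRingEquiv.bijective

theorem fn_ev (x : Spec (.of O) ⟶ X) (a : Γ(X, ⊤)) : fn (ev x a) = x.appTop a := by
  unfold ev fn
  change ((x.appTop ≫ (Scheme.ΓSpecIso (.of O)).hom) ≫ (Scheme.ΓSpecIso (.of O)).inv).hom a = _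
  rw [Category.assoc, Iso.hom_inv_id, Category.comp_id]

theorem gen_comp [IsDomain O] (x : Spec (.of O) ⟶ X) (f : X ⟶ Y) : gen (x ≫ f) = f (gen x) := by
  exact Scheme.Hom.comp_apply x f _

theorem gen_spm_comp [IsDomain O] [IsDomain S] {j : O →+* S} (hj : Function.Injective j)
    (x : Spec (.of O) ⟶ X) : gen (spm j ≫ x) = gen x := by
  rw [gen_comp]
  congr 1
  apply PrimeSpectrum.ext
  change Ideal.comap j ⊥ = ⊥
  exact Ideal.comap_bot_of_injective j hj

theorem gen_genM [IsDomain O] (x : Spec (.of O) ⟶ X) : gen (genM O ≫ x) = gen x := by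
  exact gen_spm_comp (IsFractionRing.injective O (FractionRing O)) x

theorem gen_spm_asIdeal [IsDomain O] (j : R →+* O) :
    (gen (spm j) : PrimeSpectrum R).asIdeal = RingHom.ker j := by
  rfl

theorem gen_resPt [IsLocalRing O] (x : Spec (.of O) ⟶ X) :
    gen (resPt O ≫ x) = x (closedPoint O) := by
  rw [gen_comp]
  congr 1
  apply PrimeSpectrum.ext
  change RingHom.ker (residue O) = maximalIdeal O
  exact ker_residue

theorem gen_mem_basicOpen [IsDomain O] (x : Spec (.of O) ⟶ X) (a : Γ(X, ⊤)) :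
    gen x ∈ X.basicOpen a ↔ ev x a ≠ 0 := by
  have h1 : gen x ∈ X.basicOpen a ↔ genPt O ∈ x ⁻¹ᵁ X.basicOpen a := Iff.rfl
  rw [h1, Scheme.preimage_basicOpen_top, basicOpen_eq_of_affine']
  exact (PrimeSpectrum.mem_basicOpen _ _).trans Iff.rfl

theorem gen_mem_zeroLocus [IsDomain O] (x : Spec (.of O) ⟶ X) (a : Γ(X, ⊤)) :
    gen x ∈ X.zeroLocus (U := ⊤) {a} ↔ ev x a = 0 := by
  rw [Scheme.mem_zeroLocus_iff]
  simp only [Set.mem_singleton_iff, forall_eq]
  rw [gen_mem_basicOpen, not_not]

theorem mem_of_gen_mem [IsDomain O] (x : Spec (.of O) ⟶ X) {S : Set X} (hS : IsClosed S)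
    (h : gen x ∈ S) (t : Spec (.of O)) : x t ∈ S := by
  have h1 : genPt O ⤳ t := (PrimeSpectrum.le_iff_specializes _ _).1 bot_le
  exact (h1.map x.continuous).mem_closed hS h

theorem gen_res_mem [IsDomain O] [IsLocalRing O] (x : Spec (.of O) ⟶ X) {S : Set X}
    (hS : IsClosed S) (h : gen x ∈ S) : gen (resPt O ≫ x) ∈ S := by
  rw [gen_resPt]
  exact mem_of_gen_mem x hS h _

theorem mem_of_res_mem [IsLocalRing O] (x : Spec (.of O) ⟶ X) {S : Set X} (hS : IsOpen S)
    (h : gen (resPt O ≫ x) ∈ S) (t : Spec (.of O)) : x t ∈ S := by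
  rw [gen_resPt] at h
  have h1 : t ⤳ closedPoint O := specializes_closedPoint t
  exact (h1.map x.continuous).mem_open hS h

end

theorem gen_geo (x : X) : gen (geo x) = x := by
  unfold geo
  rw [gen_comp]
  exact Scheme.fromSpecResidueField_apply x _

/-- Every geometric point factors through the canonical one. -/
theorem geo_factor {Om : Type} [Field Om] [IsAlgClosed Om] (z : Spec (.of Om) ⟶ X) (x : X)
    (hx : gen z = x) : ∃ j : geoF x →+* Om, spm j ≫ geo x = z := by
  have hx' : z (closedPoint Om) = x := by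
    rw [← hx]
    congr 1
    exact Subsingleton.elim _ _
  subst hx'
  set φ := X.descResidueField (Scheme.stalkClosedPointTo z) with hφ
  have hz : Spec.map φ ≫ X.fromSpecResidueField (z (closedPoint Om)) = z :=
    Scheme.descResidueField_stalkClosedPointTo_fromSpecResidueField Om X z
  let : Algebra (X.residueField (z (closedPoint Om))) Om := φ.hom.toAlgebra
  let j : geoF (z (closedPoint Om)) →ₐ[X.residueField (z (closedPoint Om))] Om :=
    IsAlgClosed.lift
  refine ⟨j.toRingHom, ?_⟩
  unfold geo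
  rw [← Category.assoc, spm_comp]
  have : j.toRingHom.comp (algebraMap (X.residueField (z (closedPoint Om))) _) = φ.hom := by
    ext r
    exact j.commutes r
  rw [this]
  exact hz

/-- Functions on the points of a scheme are determined by their values on geometric points. -/
theorem funext_geo {α : Type} {c c' : X → α}
    (h : ∀ (Om : Type) [Field Om] [IsAlgClosed Om] (z : Spec (.of Om) ⟶ X),
      c (gen z) = c' (gen z)) : c = c' := by
  funext x
  have := h (geoF x) (geo x)
  rwa [gen_geo] at this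

/-- Field extensions induce epimorphisms. -/
theorem spm_cancel {k : Type} [Field k] {O : Type} [CommRing O] [Nontrivial O] (j : k →+* O)
    {y y' : Spec (.of k) ⟶ X} (h : spm j ≫ y = spm j ≫ y') : y = y' := by
  have : Flat (spm j) := by
    rw [HasRingHomProperty.Spec_iff (P := @Flat)]
    let : Algebra k O := j.toAlgebra
    exact (inferInstance : Module.Flat k O)
  have : Surjective (spm j) := ⟨fun t => by
    obtain ⟨p⟩ : Nonempty (PrimeSpectrum O) := inferInstance
    exact ⟨p, Subsingleton.elim (α := PrimeSpectrum k) _ _⟩⟩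
  have := Flat.epi_of_flat_of_surjective (spm j)
  exact (cancel_epi _).1 h

/-- A point of `Z` above the image of a field valued point is the image of a geometric point
above an extension of the field. -/
theorem exists_ext_lift (f : Z ⟶ X) {k : Type} [Field k] (y : Spec (.of k) ⟶ X) (z : Z)
    (h : f z = gen y) :
    ∃ (Om : Type) (_ : Field Om) (_ : IsAlgClosed Om) (j : k →+* Om) (y' : Spec (.of Om) ⟶ Z),
      y' ≫ f = spm j ≫ y ∧ gen y' = z := by
  obtain ⟨w, hw1, -⟩ := Scheme.Pullback.exists_preimage_pullback (f := f) (g := y) z (genPt k) h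
  obtain ⟨j, hj⟩ := spm_surjective (geo w ≫ pullback.snd f y)
  refine ⟨geoF w, inferInstance, inferInstance, j, geo w ≫ pullback.fst f y, ?_, ?_⟩
  · rw [hj, Category.assoc, Category.assoc, pullback.condition]
  · rw [gen_comp, gen_geo, hw1]

section

variable {O : Type} [CommRing O]

theorem PtsB_chart (z : X) : ∃ (A : Type) (_ : CommRing A) (u : Spec (.of A) ⟶ X),
    IsOpenImmersion u ∧ z ∈ Set.range u := by
  obtain ⟨R, u, h1, h2, -⟩ :=
    Scheme.exists_affine_mem_range_and_range_subset (x := z) (U := ⊤) trivial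
  exact ⟨R, inferInstance, u, h1, h2⟩

theorem PtsB_open [IsLocalRing O] (j : Y ⟶ X) [IsOpenImmersion j] (x : Spec (.of O) ⟶ X)
    (h : gen (resPt O ≫ x) ∈ Set.range j) : ∃ x' : Spec (.of O) ⟶ Y, x' ≫ j = x :=
  ⟨IsOpenImmersion.lift j x (by
    rintro _ ⟨t, rfl⟩
    exact mem_of_res_mem x (IsOpenImmersion.isOpen_range j) h t), IsOpenImmersion.lift_fac _ _ _⟩

/-- Points with values in a local domain are determined by their generic point and the image of
the closed point. Hint: both factor through an affine neighbourhood. -/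
theorem ext_gen_res [IsDomain O] [IsLocalRing O] {x x' : Spec (.of O) ⟶ X}
    (h0 : gen (resPt O ≫ x) = gen (resPt O ≫ x')) (h : genM O ≫ x = genM O ≫ x') : x = x' := by
  obtain ⟨A, _, u, hu, hz⟩ := PtsB_chart (gen (resPt O ≫ x))
  obtain ⟨a, rfl⟩ := PtsB_open u x hz
  obtain ⟨a', rfl⟩ := PtsB_open u x' (h0 ▸ hz)
  obtain ⟨b, rfl⟩ := spm_surjective a
  obtain ⟨b', rfl⟩ := spm_surjective a'
  rw [← Category.assoc, ← Category.assoc, cancel_mono, spm_comp, spm_comp] at h
  have h1 : b = b' := RingHom.ext fun r =>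
    IsFractionRing.injective O (FractionRing O) (RingHom.congr_fun (spm_injective h) r)
  rw [h1]

theorem ext_gen_sep [IsDomain O] (f : X ⟶ W) [IsSeparated f] {x x' : Spec (.of O) ⟶ X}
    (h0 : x ≫ f = x' ≫ f) (h : genM O ≫ x = genM O ≫ x') : x = x' := by
  have : IsDominant (genM O) := ⟨fun t => by
    refine mem_of_gen_mem (𝟙 (Spec (.of O))) isClosed_closure (subset_closure ?_) t
    rw [← gen_genM, Category.comp_id]
    exact ⟨_, rfl⟩⟩
  exact ext_of_isDominant_of_isSeparated f h0 (genM O) h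

theorem lift_univClosed [IsDomain O] [ValuationRing O] (f : X ⟶ W) [UniversallyClosed f]
    (g : Spec (.of O) ⟶ W) (y : Spec (.of (FractionRing O)) ⟶ X) (h : y ≫ f = genM O ≫ g) :
    ∃ x : Spec (.of O) ⟶ X, x ≫ f = g ∧ genM O ≫ x = y := by
  have h1 : (ValuativeCriterion.Existence ⊓ @QuasiCompact : MorphismProperty Scheme.{0}) f := by
    rw [← UniversallyClosed.eq_valuativeCriterion]
    assumption
  obtain ⟨l, h2, h3⟩ :=
    (h1.1 { R := O, K := FractionRing O, i₁ := y, i₂ := g, commSq := ⟨h⟩ }).exists_lift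
  exact ⟨l, h3, h2⟩

theorem lift_open [IsLocalRing O] (j : Y ⟶ X) [IsOpenImmersion j] (x : Spec (.of O) ⟶ X)
    (h : gen (resPt O ≫ x) ∈ Set.range j) : ∃ x' : Spec (.of O) ⟶ Y, x' ≫ j = x := by
  exact PtsB_open j x h

theorem lift_closed [IsDomain O] (i : Y ⟶ X) [IsClosedImmersion i] (x : Spec (.of O) ⟶ X)
    (h : gen x ∈ Set.range i) : ∃ x' : Spec (.of O) ⟶ Y, x' ≫ i = x := by
  have : Surjective (pullback.fst x i) := ⟨fun t => by
    have h1 : t ∈ Set.range (pullback.fst x i) := by
      rw [Scheme.Pullback.range_fst]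
      exact mem_of_gen_mem x i.isClosedEmbedding.isClosed_range h t
    exact h1⟩
  have := isIso_of_isClosedImmersion_of_surjective (pullback.fst x i)
  exact ⟨inv (pullback.fst x i) ≫ pullback.snd x i, by
    rw [Category.assoc, ← pullback.condition, IsIso.inv_hom_id_assoc]⟩

theorem lift_immersion [IsDomain O] [IsLocalRing O] (i : Y ⟶ X) [IsImmersion i]
    (x : Spec (.of O) ⟶ X) (h : gen x ∈ Set.range i) (h0 : gen (resPt O ≫ x) ∈ Set.range i) :
    ∃ x' : Spec (.of O) ⟶ Y, x' ≫ i = x := by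
  obtain ⟨Z, g₁, g₂, h1, h2, rfl⟩ := IsImmersion.isImmersion_iff_exists.1 ‹IsImmersion i›
  obtain ⟨x1, rfl⟩ := lift_open g₂ x (by
    obtain ⟨z, hz⟩ := h0
    exact ⟨g₁ z, by rw [← hz, Scheme.Hom.comp_apply]⟩)
  obtain ⟨x2, rfl⟩ := lift_closed g₁ x1 (by
    obtain ⟨z, hz⟩ := h
    rw [gen_comp, Scheme.Hom.comp_apply] at hz
    exact ⟨z, g₂.isOpenEmbedding.injective hz⟩)
  exact ⟨x2, (Category.assoc _ _ _).symm⟩

theorem lift_immersion_field {k : Type} [Field k] (i : Y ⟶ X) [IsImmersion i]
    (x : Spec (.of k) ⟶ X) (h : gen x ∈ Set.range i) : ∃ x' : Spec (.of k) ⟶ Y, x' ≫ i = x := by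
  refine lift_immersion i x h ?_
  rw [gen_resPt, Subsingleton.elim (α := PrimeSpectrum k) (closedPoint k) ⊥]
  exact h

/-- An affine chart of a base change around a given point. -/
theorem PtsB_core (p : X ⟶ W) {B : Type} [CommRing B] (t : Spec (.of B) ⟶ W) {k : Type} [Field k]
    (y : Spec (.of k) ⟶ X) (yb : B →+* k) (hy : y ≫ p = spm yb ≫ t) :
    ∃ (A : Type) (_ : CommRing A) (i : B →+* A) (u : Spec (.of A) ⟶ pullback p t) (y' : A →+* k),
      IsOpenImmersion u ∧ u ≫ pullback.snd p t = spm i ∧ spm y' ≫ u ≫ pullback.fst p t = y ∧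
      y'.comp i = yb ∧
      (∀ (O : Type) [CommRing O] (x x' : A →+* O), x.comp i = x'.comp i →
        spm x ≫ u ≫ pullback.fst p t = spm x' ≫ u ≫ pullback.fst p t → x = x') ∧
      ∀ (O : Type) [CommRing O] [IsLocalRing O] (g : B →+* O)
        (x : Spec (.of O) ⟶ X) (x0 : A →+* ResidueField O), x ≫ p = spm g ≫ t →
        x0.comp i = (residue O).comp g → spm x0 ≫ u ≫ pullback.fst p t = resPt O ≫ x →
        ∃ x' : A →+* O, x'.comp i = g ∧ spm x' ≫ u ≫ pullback.fst p t = x ∧
          (residue O).comp x' = x0 := by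
  obtain ⟨A, _, u, hu, hz⟩ := PtsB_chart (gen (pullback.lift y (spm yb) hy))
  obtain ⟨i, hi⟩ := spm_surjective (u ≫ pullback.snd p t)
  obtain ⟨y1, hy1⟩ := lift_immersion_field u _ hz
  obtain ⟨y', rfl⟩ := spm_surjective y1
  have huniq : ∀ (O : Type) [CommRing O] (x x' : A →+* O), x.comp i = x'.comp i →
      spm x ≫ u ≫ pullback.fst p t = spm x' ≫ u ≫ pullback.fst p t → x = x' := by
    intro O _ x x' h1 h2
    apply spm_injective
    rw [← cancel_mono u]
    apply pullback.hom_ext
    · simpa only [Category.assoc] using h2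
    · rw [Category.assoc, Category.assoc, ← hi, spm_comp, spm_comp, h1]
  refine ⟨A, inferInstance, i, u, y', hu, hi.symm, ?_, ?_, huniq, ?_⟩
  · rw [← Category.assoc, hy1, pullback.lift_fst]
  · apply spm_injective
    rw [← spm_comp, hi, ← Category.assoc, hy1, pullback.lift_snd]
  · intro O _ _ g x x0 h1 h2 h3
    have h4 : resPt O ≫ pullback.lift x (spm g) h1 = spm x0 ≫ u := by
      apply pullback.hom_ext
      · rw [Category.assoc, Category.assoc, pullback.lift_fst, h3]
      · rw [Category.assoc, Category.assoc, pullback.lift_snd, ← hi, spm_comp, spm_comp, h2]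
    obtain ⟨x1, hx1⟩ := lift_open u (pullback.lift x (spm g) h1) (by
      rw [h4, gen_comp]
      exact ⟨_, rfl⟩)
    obtain ⟨x', rfl⟩ := spm_surjective x1
    refine ⟨x', spm_injective ?_, ?_, spm_injective ?_⟩
    · rw [← spm_comp, hi, ← Category.assoc, hx1, pullback.lift_snd]
    · rw [← Category.assoc, hx1, pullback.lift_fst]
    · rw [← cancel_mono u, ← spm_comp, Category.assoc, hx1, h4]

/-- Unique lifting along etale maps. Hint: affine charts and `etale_lift`. -/
theorem lift_etale [IsDomain O] [ValuationRing O] [IsAlgClosed (FractionRing O)] (f : X ⟶ W)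
    [Etale f] (g : Spec (.of O) ⟶ W) (y : Spec (.of (ResidueField O)) ⟶ X)
    (h : y ≫ f = resPt O ≫ g) : ∃! x : Spec (.of O) ⟶ X, x ≫ f = g ∧ resPt O ≫ x = y := by
  obtain ⟨A, _, i, u, y', hu, h1, h2, h3, -, h5⟩ := PtsB_core f g y (residue O) h
  have he : i.Etale := by
    have h6 : Etale (spm i) := by
      rw [← h1]
      infer_instance
    exact HasRingHomProperty.Spec_iff.1 h6
  let _ := i.toAlgebra
  have : Algebra.Etale O A := he
  obtain ⟨s, ⟨hs1, hs2⟩, hs3⟩ := etale_lift (R := O) (E := A) (RingHom.id O) y' h3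
  have hs1' : s.comp i = RingHom.id O := hs1
  refine ⟨spm s ≫ u ≫ pullback.fst f g, ⟨?_, ?_⟩, fun x hx => ?_⟩
  · rw [Category.assoc, Category.assoc, pullback.condition, ← Category.assoc u, h1,
      ← Category.assoc, spm_comp, hs1', spm_id, Category.id_comp]
  · rw [← Category.assoc, spm_comp, hs2, h2]
  · obtain ⟨x', h6, h7, h8⟩ := h5 O (RingHom.id O) x y'
      (by rw [spm_id, Category.id_comp, hx.1]) h3 (by rw [h2, hx.2])
    rw [← h7, hs3 x' ⟨h6, h8⟩]

end

/-- An affine chart of the reduced closed subscheme on `S` of the base change of `p` along `t`,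
around a given point. Hint: take an affine open neighbourhood of the point in
`pullback p t` and divide by the vanishing ideal of the preimage of `S`. -/
theorem exists_chart (p : X ⟶ W) [LocallyOfFiniteType p] {S : Set X} (hS : IsClosed S)
    {B : Type} [CommRing B] (t : Spec (.of B) ⟶ W) {k : Type} [Field k] (y : Spec (.of k) ⟶ X)
    (yb : B →+* k) (hy : y ≫ p = spm yb ≫ t) (hyS : gen y ∈ S) :
    ∃ (A : Type) (_ : CommRing A) (i : B →+* A) (h : Spec (.of A) ⟶ X) (y' : A →+* k),
      i.FiniteType ∧ h ≫ p = spm i ≫ t ∧ spm y' ≫ h = y ∧ y'.comp i = yb ∧ Set.range h ⊆ S ∧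
      (∀ (O : Type) [CommRing O] (x x' : A →+* O), x.comp i = x'.comp i →
        spm x ≫ h = spm x' ≫ h → x = x') ∧
      ∀ (O : Type) [CommRing O] [IsDomain O] [IsLocalRing O] (g : B →+* O)
        (x : Spec (.of O) ⟶ X) (x0 : A →+* ResidueField O), x ≫ p = spm g ≫ t → gen x ∈ S →
        x0.comp i = (residue O).comp g → spm x0 ≫ h = resPt O ≫ x →
        ∃ x' : A →+* O, x'.comp i = g ∧ spm x' ≫ h = x ∧ (residue O).comp x' = x0 := by
  obtain ⟨A, _, i, u, y', hu, h1, h2, h3, h4, h5⟩ := PtsB_core p t y yb hy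
  have hf : i.FiniteType := by
    have h6 : LocallyOfFiniteType (spm i) := by
      rw [← h1]
      infer_instance
    exact HasRingHomProperty.Spec_iff.1 h6
  have hp : (u ≫ pullback.fst p t) ≫ p = spm i ≫ t := by
    rw [Category.assoc, pullback.condition, ← Category.assoc, h1]
  generalize u ≫ pullback.fst p t = h at h2 h4 h5 hp
  let T : Set (PrimeSpectrum A) := h ⁻¹' S
  have hT : IsClosed T := hS.preimage h.continuous
  let J : Ideal A := PrimeSpectrum.vanishingIdeal T
  have hJ : ∀ (O : Type) [CommRing O] [IsDomain O] (x : A →+* O), gen (spm x ≫ h) ∈ S →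
      ∀ a ∈ J, x a = 0 := by
    intro O _ _ x hx a ha
    rw [gen_comp] at hx
    have h6 := (PrimeSpectrum.mem_vanishingIdeal _ _).1 ha (gen (spm x)) hx
    rwa [gen_spm_asIdeal] at h6
  refine ⟨A ⧸ J, inferInstance, (Ideal.Quotient.mk J).comp i, spm (Ideal.Quotient.mk J) ≫ h,
    Ideal.Quotient.lift J y' (hJ k y' (h2 ▸ hyS)),
    (RingHom.FiniteType.of_surjective _ Ideal.Quotient.mk_surjective).comp hf, ?_, ?_, ?_, ?_,
    fun O _ x x' h6 h7 => ?_, fun O _ _ _ g x x0 h6 h7 h8 h9 => ?_⟩
  · rw [Category.assoc, hp, ← Category.assoc, spm_comp]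
  · rw [← Category.assoc, spm_comp, Ideal.Quotient.lift_comp_mk, h2]
  · rw [← RingHom.comp_assoc, Ideal.Quotient.lift_comp_mk, h3]
  · rintro _ ⟨z, rfl⟩
    rw [Scheme.Hom.comp_apply]
    have h6 : (spm (Ideal.Quotient.mk J) z : PrimeSpectrum A) ∈ PrimeSpectrum.zeroLocus J := by
      intro a ha
      show Ideal.Quotient.mk J a ∈ (z : PrimeSpectrum (A ⧸ J)).asIdeal
      rw [Ideal.Quotient.eq_zero_iff_mem.2 ha]
      exact zero_mem _
    rw [PrimeSpectrum.zeroLocus_vanishingIdeal_eq_closure, hT.closure_eq] at h6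
    exact h6
  · rw [← Category.assoc, ← Category.assoc, spm_comp, spm_comp] at h7
    exact Ideal.Quotient.ringHom_ext (h4 O _ _ h6 h7)
  · rw [← Category.assoc, spm_comp] at h9
    obtain ⟨x', h10, h11, h12⟩ := h5 O g x _ h6 h8 h9
    refine ⟨Ideal.Quotient.lift J x' (hJ O x' (h11 ▸ h7)), ?_, ?_, Ideal.Quotient.ringHom_ext ?_⟩
    · rw [← RingHom.comp_assoc, Ideal.Quotient.lift_comp_mk, h10]
    · rw [← Category.assoc, spm_comp, Ideal.Quotient.lift_comp_mk, h11]
    · rw [RingHom.comp_assoc, Ideal.Quotient.lift_comp_mk, h12]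

end Pool.Agent.KEW
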