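import Pool.Agent.P.MP_6277db_ag.KEW.L3.DvS

/-!
The norm description of the divisor sum; independence of the datum.
-/

noncomputable section

open Polynomial IsLocalRing Function

namespace Pool.Agent.KEW

/-- The sum of `c(x) ord_e(x φ)` over the points above `h` with reduction `y`. -/
def sumA (A : Type) {Y O : Type} [CommRing A] [CommRing Y] [Algebra A Y] [CommRing O] [IsDomain O]
    [IsLocalRing O] (φ : Y) (c : PrimeSpectrum Y → ℚ) (h : A →+* O) (y : Y →+* ResidueField O)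
    (e : O) : ℚ :=
  ∑ᶠ x ∈ {x : Y →+* O | x.comp (algebraMap A Y) = h ∧ (residue O).comp x = y},
    c (gp x) * ord e (x φ)

/-- Compatibility with specialisation, for rings. -/
def ASpec (A : Type) {Y : Type} [CommRing A] [CommRing Y] [Algebra A Y]
    (c : PrimeSpectrum Y → ℚ) : Prop :=
  ∀ (O : Type) [CommRing O] [IsDomain O] [ValuationRing O] [IsAlgClosed (FractionRing O)]
    (h : A →+* O) (y : Y →+* ResidueField O), y.comp (algebraMap A Y) = (residue O).comp h →
      c (gp y) = ∑ᶠ x ∈ {x : Y →+* O | x.comp (algebraMap A Y) = h ∧ (residue O).comp x = y},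
        c (gp x)

theorem gp_comp {Y O O' : Type} [CommRing Y] [CommRing O] [IsDomain O] [CommRing O'] [IsDomain O']
    {j : O →+* O'} (hj : Injective j) (x : Y →+* O) : gp (j.comp x) = gp x := by
  ext y
  change j (x y) = 0 ↔ x y = 0
  exact map_eq_zero_iff _ hj

theorem sumA_eq_zero {A Y O : Type} [CommRing A] [CommRing Y] [Algebra A Y] [CommRing O]
    [IsDomain O] [IsLocalRing O] {φ : Y} (c : PrimeSpectrum Y → ℚ) (h : A →+* O)
    {y : Y →+* ResidueField O} {e : O} (he0 : e ≠ 0) (he : ¬IsUnit e) (hy : y φ ≠ 0) :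
    sumA A φ c h y e = 0 := by
  refine finsum_mem_of_eqOn_zero fun x hx => ?_
  have : IsUnit (x φ) := (isUnit_iff_residue _).2 (by rw [← hx.2] at hy; exact hy)
  simp only [ord_of_isUnit he0 he this, mul_zero, Pi.zero_apply]

theorem eval₂_comp_eq {B k O : Type} [CommRing B] [CommRing k] [CommRing O] (jb : B →+* k)
    (j : k →+* O) (a : O) (F : B[X]) :
    eval₂RingHom (j.comp jb) a F = eval₂ j a (F.map jb) := by
  rw [coe_eval₂RingHom, eval₂_map]

theorem eval₂_datum_eq_zero {k O : Type} [Field k] [CommRing O] [IsDomain O] [IsLocalRing O]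
    {e : O} (he0 : e ≠ 0) (he : ¬IsUnit e) (j : k →+* O) (u0 : k) {F : k[X]}
    (h : eval₂ j (j u0 + e) F = 0) : F = 0 := by
  by_contra hF
  have := assoc_eval he j u0 hF
  rw [h] at this
  exact pow_ne_zero _ he0 ((associated_zero_iff_eq_zero _).1 this.symm)

theorem ord_eval' {k O : Type} [Field k] [CommRing O] [IsDomain O] [IsLocalRing O]
    {e : O} (he0 : e ≠ 0) (he : ¬IsUnit e) (j : k →+* O) (u0 : k) (F : k[X]) :
    ord e (eval₂ j (j u0 + e) F) = (F.rootMultiplicity u0 : ℚ) := by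
  by_cases hF : F = 0
  · subst hF
    simp [ord_zero he0]
  · exact ord_eval he0 he j u0 hF

variable {B Y : Type} [CommRing B] [CommRing Y] [Algebra B Y] [Algebra B[X] Y]
  [IsScalarTower B B[X] Y]

theorem comm_ring [Algebra.QuasiFinite B[X] Y] (φ : Y)
    [Algebra.QuasiFinite B (Y ⧸ Ideal.span {φ})] {k O : Type} [Field k] [CommRing O] [IsDomain O]
    [ValuationRing O] {e : O} (he0 : e ≠ 0) (he : ¬IsUnit e) (jb : B →+* k) (j : k →+* O) (u0 : k)
    (x : Y →+* O) (hx : x.comp (algebraMap B[X] Y) = eval₂RingHom (j.comp jb) (j u0 + e)) :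
    Comm e (x φ) := by
  have h1 : ∀ F : B[X], x (algebraMap B[X] Y F) = eval₂ j (j u0 + e) (F.map jb) := fun F => by
    rw [← eval₂_comp_eq, ← hx]
    rfl
  have h0 : x φ ≠ 0 := ne_zero_of_transc (B := B) φ x fun F hF n => by
    rw [h1] at hF
    have h2 := eval₂_datum_eq_zero he0 he j u0 hF
    have h3 : jb (F.coeff n) = 0 := by rw [← coeff_map, h2, coeff_zero]
    rw [IsScalarTower.algebraMap_apply B B[X] Y, h1]
    simp [h3]
  have := RingHom.ker_isPrime x
  obtain ⟨F, ⟨n, hn⟩, hF⟩ := alg_of_qf (B := B[X]) (0 : Y) (RingHom.ker x) (zero_mem _) φ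
  refine comm_of_root he0 he h0 (F.map (x.comp (algebraMap B[X] Y))) (fun h => hn ?_) ?_ fun n => ?_
  · have := congrArg (fun P => P.coeff n) h
    simpa using this
  · rw [RingHom.mem_ker, aeval_def, hom_eval₂] at hF
    rw [eval_map]
    exact hF
  · rw [coeff_map, RingHom.comp_apply, h1]
    by_cases h : (F.coeff n).map jb = 0
    · left
      rw [h, eval₂_zero]
    · exact Or.inr ⟨_, assoc_eval he j u0 h⟩

/-- A finite model together with norm data. -/
structure Pkg {A Y : Type} [CommRing A] [CommRing Y] [Algebra A Y] (p : Ideal Y) (φ : Y)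
    (c : PrimeSpectrum Y → ℚ) (St : Subalgebra A Y) (r φ' : St) (om : PrimeSpectrum St → ℚ)
    (W : Finset ℚ) (ν : ℚ → A) (q : ℕ) : Prop extends Model p φ St r φ' where
  om_eq : ∀ (O : Type) [CommRing O] [IsDomain O] (x : Y →+* O), x r ≠ 0 →
    om (gp (x.comp St.val.toRingHom)) = c (gp x)
  val : ∀ w ∈ W, w = 0 ∨ ∃ Q, w = c Q
  pos : 0 < q
  norm : ∀ (O : Type) [CommRing O] [IsDomain O] [ValuationRing O] [IsAlgClosed (FractionRing O)]
    (h : A →+* O), Injective h →
      (∀ ψ : St →+* O, ψ.comp (algebraMap A St) = h → om (gp ψ) ∈ W) ∧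
      ∀ w, (∏ᶠ ψ ∈ {ψ : St →+* O | ψ.comp (algebraMap A St) = h ∧ om (gp ψ) = w}, ψ φ') ^ q =
        h (ν w)

variable [IsDomain B] [ValuationRing B] [IsAlgClosed (FractionRing B)]
  [Algebra.QuasiFinite B[X] Y] {φ : Y} [Algebra.QuasiFinite B (Y ⧸ Ideal.span {φ})]
  {p : Ideal Y} [p.IsPrime] {c : PrimeSpectrum Y → ℚ}

theorem exists_pkg [Algebra.FiniteType B[X] Y] (hn : (p.comap (algebraMap B[X] Y)).IsMaximal)
    (hφ : φ ∈ p) (c : PrimeSpectrum Y → ℚ) :
    ∃ (St : Subalgebra B[X] Y) (r φ' : St) (om : PrimeSpectrum St → ℚ) (W : Finset ℚ)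
      (ν : ℚ → B[X]) (n : ℕ), Pkg p φ c St r φ' om W ν (ringExpChar B[X] ^ n) := by
  obtain ⟨St, r, φ', h1, h2, h3, h4, h5⟩ := finite_model (B := B) φ p hn hφ
  obtain ⟨om, o1, -, o3⟩ := exists_omega St r h3 c
  obtain ⟨W, ν, n, w1, w2⟩ := normData (A := B[X]) om φ'
  refine ⟨St, r, φ', om, W, ν, n, ⟨h1, h2, h3, h4, h5⟩, o3, fun w hw => ?_,
    pow_pos (expChar_pos B[X] _) _, w2⟩
  obtain ⟨P, rfl⟩ := w1 w hw
  exact o1 P

variable {St : Subalgebra B[X] Y} {r φ' : St} {om : PrimeSpectrum St → ℚ} {W : Finset ℚ}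
  {ν : ℚ → B[X]} {q : ℕ}

/-- The sum over the sections with coordinate `a` centred at `p`. -/
theorem Pkg.generic (P : Pkg p φ c St r φ' om W ν q) {K O : Type} [Field K] [CommRing O]
    [IsDomain O] [ValuationRing O] [IsAlgClosed (FractionRing O)] {e : O} (he0 : e ≠ 0)
    (he : ¬IsUnit e) {jK : B →+* K} (hK : Injective jK) (j : K →+* O) (a : B)
    (hn : ∀ F : B[X], ¬IsUnit (F.eval a) ↔ algebraMap B[X] Y F ∈ p) :
    ∑ᶠ x0 ∈ {x0 : Y →+* B | x0.comp (algebraMap B[X] Y) = evalRingHom a ∧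
        ∀ y, ¬IsUnit (x0 y) ↔ y ∈ p},
      sumA B[X] φ c (eval₂RingHom (j.comp jK) (j (jK a) + e))
        ((((residue O).comp j).comp jK).comp x0) e =
      ∑ w ∈ W, w / q * (((ν w).map jK).rootMultiplicity (jK a) : ℚ) := by
  have := P.fin
  set h1 := eval₂RingHom (j.comp jK) (j (jK a) + e) with h1def
  set ι := ((residue O).comp j).comp jK with ιdef
  have hι : Injective ι := ((residue O).comp j).injective.comp hK
  have hre : residue O e = 0 := by
    by_contra h
    exact he ((isUnit_iff_residue _).2 h)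
  have hh : (residue O).comp h1 = ι.comp (evalRingHom a) := by
    refine Polynomial.ringHom_ext (fun b => ?_) ?_
    · simp [h1def, ιdef]
    · simp [h1def, ιdef, hre]
  have hinj : Injective h1 := (injective_iff_map_eq_zero _).2 fun F hF => by
    rw [h1def, eval₂_comp_eq] at hF
    exact (Polynomial.map_eq_zero_iff hK).1 (eval₂_datum_eq_zero he0 he j _ hF)
  have hl : ∀ ψ : St →+* O, ψ.comp (algebraMap B[X] St) = h1 →
      ∃ ψ2 : St →+* B, ι.comp ψ2 = (residue O).comp ψ := fun ψ hψ => by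
    refine lift_section ι hι _ fun s => ?_
    obtain ⟨F, hF, hs⟩ := Algebra.IsIntegral.isIntegral (R := B[X]) s
    refine ⟨F.map (evalRingHom a), hF.map _, ?_⟩
    rw [eval₂_map, ← hh, ← hψ, ← RingHom.comp_assoc, ← hom_eval₂, hs, map_zero]
  have hu : ∀ (x2 : Y →+* B) (x1 : Y →+* O), (∀ y, ¬IsUnit (x2 y) ↔ y ∈ p) →
      (residue O).comp x1 = ι.comp x2 → ∀ y, y ∉ p → IsUnit (x1 y) := fun x2 x1 b2 b1 y hy => by
    rw [isUnit_iff_residue]
    have := RingHom.congr_fun b1 y
    simp only [RingHom.comp_apply] at this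
    rw [this]
    exact ((not_not.1 ((b2 y).not.2 hy)).map ι).ne_zero
  have hu' : ∀ (ψ : St →+* O) (ψ2 : St →+* B), ι.comp ψ2 = (residue O).comp ψ →
      IsUnit (ψ2 φ') → IsUnit (ψ φ') := fun ψ ψ2 b h => by
    rw [isUnit_iff_residue]
    have := RingHom.congr_fun b φ'
    simp only [RingHom.comp_apply] at this
    rw [← this]
    exact (h.map ι).ne_zero
  have key := P.toModel.two_level hι hh hn hl (fun ψ => om (gp ψ) * ord e (ψ φ'))
    (fun _ x1 => c (gp x1) * ord e (x1 φ))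
    (fun ψ ψ2 _ b h => by rw [ord_of_isUnit he0 he (hu' ψ ψ2 b h), mul_zero])
    (fun x2 x1 b2 _ b1 => by
      rw [P.om_eq O x1 (hu x2 x1 b2 b1 _ P.notMem).ne_zero,
        ← ord_congr he0 he (P.toModel.associated x1 (hu x2 x1 b2 b1))]
      rfl)
  refine key.symm.trans ?_
  obtain ⟨n1, n2⟩ := P.norm O h1 hinj
  rw [sum_ord_eq he0 he (finite_hom h1) (fun ψ => om (gp ψ)) (fun ψ => ψ φ') W n1 P.pos
    (fun w => h1 (ν w)) n2 ?_]
  · refine Finset.sum_congr rfl fun w _ => ?_
    rw [h1def, eval₂_comp_eq, ord_eval' he0 he]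
  · intro ψ hψ _
    obtain ⟨ψ2, e2⟩ := hl ψ hψ
    have e3 : ψ2.comp (algebraMap B[X] St) = evalRingHom a :=
      RingHom.ext fun z => hι (RingHom.congr_fun (by
        rw [← RingHom.comp_assoc, e2, RingHom.comp_assoc, hψ, hh] :
          ι.comp (ψ2.comp (algebraMap B[X] St)) = ι.comp (evalRingHom a)) z)
    rcases P.toModel.dich hι hn e3 e2 with h | ⟨x2, x1, -, a1, b2, b1⟩
    · exact Comm.of_isUnit e (hu' ψ ψ2 e2 h)
    · have h3 : x1.comp (algebraMap B[X] Y) = h1 := by
        rw [← hψ, ← a1]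
        rfl
      have := Comm.of_associated (P.toModel.associated x1 (hu x2 x1 b2 b1)).symm
        (comm_ring φ he0 he jK j (jK a) x1 h3)
      rw [← a1]
      exact this

end Pool.Agent.KEW
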