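import Pool.Agent.P.MP_6277db_ag.KEW.L3.RA
import Pool.Agent.P.MP_6277db_ag.KEW.L3.DivD

/-!
Independence of the datum and compatibility of the divisor sum with specialisation, for rings.
-/

noncomputable section

open Polynomial IsLocalRing Function

namespace Pool.Agent.KEW

theorem comp_algebraMap_eq_eval₂ {B Y O : Type} [CommRing B] [CommRing Y] [Algebra B Y]
    [Algebra B[X] Y] [IsScalarTower B B[X] Y] [CommRing O] (x : Y →+* O) :
    x.comp (algebraMap B[X] Y) =
      eval₂RingHom (x.comp (algebraMap B Y)) (x (algebraMap B[X] Y X)) := by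
  refine Polynomial.ringHom_ext (fun b => ?_) ?_
  · simp [IsScalarTower.algebraMap_apply B B[X] Y]
  · simp

theorem ra {k Y : Type} [Field k] [IsAlgClosed k] [CommRing Y] [Algebra k Y] [Algebra k[X] Y]
    [IsScalarTower k k[X] Y] [Algebra.FiniteType k[X] Y] [Algebra.QuasiFinite k[X] Y] (φ : Y)
    [Algebra.QuasiFinite k (Y ⧸ Ideal.span {φ})] (c : PrimeSpectrum Y → ℚ) (z : Y →+* k)
    (hz : z.comp (algebraMap k Y) = RingHom.id k) (S : Subring ℚ) (hc : ∀ Q, c Q ∈ S)
    (hp : ((ringExpChar k : ℕ) : ℚ)⁻¹ ∈ S) :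
    ∃ D ∈ S, ∀ (O : Type) [CommRing O] [IsDomain O] [ValuationRing O]
      [IsAlgClosed (FractionRing O)] (j : k →+* O) (e : O), e ≠ 0 → ¬IsUnit e →
      sumA k[X] φ c (eval₂RingHom j (j (z (algebraMap k[X] Y X)) + e))
        (((residue O).comp j).comp z) e = D := by
  by_cases hφ : z φ = 0
  swap
  · exact ⟨0, zero_mem _, fun O _ _ _ _ j e he0 he => sumA_eq_zero c _ he0 he
      ((map_ne_zero_iff _ ((residue O).comp j).injective).2 hφ)⟩
  have := RingHom.ker_isPrime z
  set a := z (algebraMap k[X] Y X) with adef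
  have hza : z.comp (algebraMap k[X] Y) = evalRingHom a := by
    rw [comp_algebraMap_eq_eval₂, hz]
    rfl
  have hmax : ((RingHom.ker z).comap (algebraMap k[X] Y)).IsMaximal := by
    rw [RingHom.comap_ker, hza]
    exact RingHom.ker_isMaximal_of_surjective _ fun b => ⟨C b, by simp⟩
  obtain ⟨St, r, φ', om, W, ν, n, P⟩ := exists_pkg (B := k) hmax hφ c
  have hq : ringExpChar k[X] = ringExpChar k := ringExpChar.eq _ _
  refine ⟨∑ w ∈ W, w / (ringExpChar k[X] ^ n : ℕ) * ((ν w).rootMultiplicity a : ℚ),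
    sum_mem fun w hw => mul_mem ?_ (natCast_mem _ _), fun O _ _ _ _ j e he0 he => ?_⟩
  · rw [hq, div_eq_mul_inv, Nat.cast_pow, ← inv_pow]
    refine mul_mem ?_ (pow_mem hp _)
    rcases P.val w hw with rfl | ⟨Q, rfl⟩
    exacts [zero_mem _, hc Q]
  have hn : ∀ F : k[X], ¬IsUnit (F.eval a) ↔ algebraMap k[X] Y F ∈ RingHom.ker z := fun F => by
    have := RingHom.congr_fun hza F
    simp only [RingHom.comp_apply, coe_evalRingHom] at this
    rw [RingHom.mem_ker, this, isUnit_iff_ne_zero, not_not]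
  have key := P.generic he0 he (jK := RingHom.id k) injective_id j a hn
  have hset : {x0 : Y →+* k | x0.comp (algebraMap k[X] Y) = evalRingHom a ∧
      ∀ y, ¬IsUnit (x0 y) ↔ y ∈ RingHom.ker z} = {z} := by
    ext x0
    constructor
    · rintro ⟨h1, h2⟩
      have h3 : x0.comp (algebraMap k Y) = RingHom.id k := by
        ext b
        have := RingHom.congr_fun h1 (C b)
        simpa [IsScalarTower.algebraMap_apply k k[X] Y] using this
      have h4 := (centre_iff (algebraMap k Y) z (by rw [hz]; exact surjective_id) (residue k) x0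
        (by rw [RingHom.comp_assoc, RingHom.comp_assoc, h3, hz])).1 h2
      exact RingHom.ext fun y => (residue k).injective (RingHom.congr_fun h4 y)
    · rintro rfl
      exact ⟨hza, fun y => by rw [isUnit_iff_ne_zero, not_not, RingHom.mem_ker]⟩
  rw [hset, finsum_mem_singleton] at key
  simpa only [RingHom.comp_id, RingHom.id_apply, Polynomial.map_id] using key

variable {B Y : Type} [CommRing B] [CommRing Y] [Algebra B Y] [Algebra B[X] Y]
  [IsScalarTower B B[X] Y] [IsDomain B] [ValuationRing B] [IsAlgClosed (FractionRing B)]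
  [Algebra.QuasiFinite B[X] Y] {φ : Y} [Algebra.QuasiFinite B (Y ⧸ Ideal.span {φ})]
  {c : PrimeSpectrum Y → ℚ}

omit [IsAlgClosed (FractionRing B)] [Algebra.QuasiFinite B[X] Y] in
theorem yb_algebraMap {yb : Y →+* ResidueField B} (hy : yb.comp (algebraMap B Y) = residue B)
    (F : B[X]) :
    yb (algebraMap B[X] Y F) = (F.map (residue B)).eval (yb (algebraMap B[X] Y X)) := by
  have := RingHom.congr_fun (comp_algebraMap_eq_eval₂ (B := B) yb) F
  rw [hy] at this
  rw [eval_map]
  exact this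

omit [IsAlgClosed (FractionRing B)] in
/-- The Gauss valuation and a valuation of its residue field centred at a closed point. -/
theorem exists_gauss (ub : ResidueField B) :
    ∃ (G : ValuationSubring (AlgebraicClosure (FractionRing B[X])))
      (V : ValuationSubring (ResidueField G)) (hG : B[X] →+* G) (j : ResidueField B →+* V) (e : V),
      Injective hG ∧ e ≠ 0 ∧ ¬IsUnit e ∧
      (residue G).comp hG = V.subtype.comp (eval₂RingHom (j.comp (residue B)) (j ub + e)) := by
  have hi : Injective (algebraMap B[X] (AlgebraicClosure (FractionRing B[X]))) :=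
    (algebraMap (FractionRing B[X]) _).injective.comp
      (IsFractionRing.injective B[X] (FractionRing B[X]))
  have := RingHom.ker_isPrime (mapRingHom (residue B))
  obtain ⟨G, hG, g1, g2⟩ := exists_dom (algebraMap B[X] (AlgebraicClosure (FractionRing B[X])))
    (RingHom.ker (mapRingHom (residue B)))
    (by rw [(RingHom.injective_iff_ker_eq_bot _).1 hi]; exact bot_le)
  have g3 : ∀ F, residue G (hG F) = 0 ↔ F.map (residue B) = 0 := fun F => by
    have := g2 F
    rwa [isUnit_iff_residue, not_not] at this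
  have := RingHom.ker_isPrime (eval₂RingHom (residue B) ub)
  obtain ⟨V, hV, v1, v2⟩ := exists_dom ((residue G).comp hG)
    (RingHom.ker (eval₂RingHom (residue B) ub)) (fun F hF => by
      rw [RingHom.mem_ker, coe_eval₂RingHom, ← eval_map, (g3 F).1 hF, eval_zero])
  let j : ResidueField B →+* V := Ideal.Quotient.lift (maximalIdeal B) (hV.comp C) fun b hb =>
    Subtype.ext ((v1 (C b)).trans ((g3 _).2 (by
      rw [map_C, (residue_eq_zero_iff b).2 hb, C_0])))
  have hj : ∀ b, j (residue B b) = hV (C b) := fun b => rfl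
  obtain ⟨ut, hut⟩ := residue_surjective ub
  refine ⟨G, V, hG, j, hV (X - C ut), fun F F' h => hi (by rw [← g1, ← g1, h]), fun h => ?_,
    (v2 _).2 (by simp [RingHom.mem_ker, hut]), ?_⟩
  · have h1 := v1 (X - C ut)
    rw [h] at h1
    have h2 := (g3 _).1 h1.symm
    rw [Polynomial.map_sub, map_X, map_C] at h2
    exact X_sub_C_ne_zero _ h2
  · have : eval₂RingHom (j.comp (residue B)) (j ub + hV (X - C ut)) = hV := by
      refine Polynomial.ringHom_ext (fun b => ?_) ?_
      · simp [hj]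
      · simp [← hut, hj]
    rw [this]
    exact RingHom.ext fun F => (v1 F).symm

theorem Pkg.special {yb : Y →+* ResidueField B} {St : Subalgebra B[X] Y} {r φ' : St}
    {om : PrimeSpectrum St → ℚ} {W : Finset ℚ} {ν : ℚ → B[X]} {q : ℕ}
    (P : Pkg (RingHom.ker yb) φ c St r φ' om W ν q) (hc : ASpec B[X] c)
    (hy : yb.comp (algebraMap B Y) = residue B) :
    ∃ (V : Type) (_ : CommRing V) (_ : IsDomain V) (_ : ValuationRing V)
      (_ : IsAlgClosed (FractionRing V)) (j : ResidueField B →+* V) (e : V), e ≠ 0 ∧ ¬IsUnit e ∧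
      (∀ w, w ≠ 0 → (ν w).map (residue B) ≠ 0) ∧
      sumA B[X] φ c (eval₂RingHom (j.comp (residue B)) (j (yb (algebraMap B[X] Y X)) + e))
        (((residue V).comp j).comp yb) e =
      ∑ w ∈ W, w / q *
        (((ν w).map (residue B)).rootMultiplicity (yb (algebraMap B[X] Y X)) : ℚ) := by
  classical
  have := P.fin
  have := RingHom.ker_isPrime yb
  set ub := yb (algebraMap B[X] Y X) with ubdef
  obtain ⟨G, V, hG, j, e, hinj, he0, he, hh⟩ := exists_gauss ub
  set hV := eval₂RingHom (j.comp (residue B)) (j ub + e) with hVdef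
  have hι : Injective V.subtype := Subtype.val_injective
  have hre : residue V e = 0 := by
    by_contra h
    exact he ((isUnit_iff_residue _).2 h)
  have hVr : (residue V).comp hV = (((residue V).comp j).comp yb).comp (algebraMap B[X] Y) := by
    refine Polynomial.ringHom_ext (fun b => ?_) ?_
    · have := RingHom.congr_fun hy b
      simp only [RingHom.comp_apply, IsScalarTower.algebraMap_apply B B[X] Y, algebraMap_eq] at this
      simp [hVdef, this]
    · simp [hVdef, hre, ubdef]
  have hn : ∀ F, ¬IsUnit (hV F) ↔ algebraMap B[X] Y F ∈ RingHom.ker yb := fun F => by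
    have := RingHom.congr_fun hVr F
    simp only [RingHom.comp_apply] at this
    rw [isUnit_iff_residue, not_not, this, RingHom.mem_ker]
    exact map_eq_zero_iff _ ((residue V).comp j).injective
  have hl : ∀ ψ : St →+* G, ψ.comp (algebraMap B[X] St) = hG →
      ∃ ψ2 : St →+* V, V.subtype.comp ψ2 = (residue G).comp ψ := fun ψ hψ => by
    obtain ⟨ψ2, h, -⟩ := lift_integral (O := V) (Om := ResidueField G) (algebraMap B[X] St)
      (fun s => Algebra.IsIntegral.isIntegral s) hV ((residue G).comp ψ)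
      (by rw [RingHom.comp_assoc, hψ, hh]; rfl)
    exact ⟨ψ2, h⟩
  let a : (St →+* G) → V := fun ψ =>
    if h : residue G (ψ φ') ∈ V then ⟨_, h⟩ else 0
  have ha : ∀ (ψ : St →+* G) (ψ2 : St →+* V), V.subtype.comp ψ2 = (residue G).comp ψ →
      a ψ = ψ2 φ' := fun ψ ψ2 h => by
    have h1 : (ψ2 φ' : ResidueField G) = residue G (ψ φ') := RingHom.congr_fun h φ'
    have h2 : residue G (ψ φ') ∈ V := h1 ▸ (ψ2 φ').2
    exact Subtype.ext (by simp only [a, dif_pos h2, h1])
  have hu : ∀ x2 : Y →+* V, (∀ y, ¬IsUnit (x2 y) ↔ y ∈ RingHom.ker yb) →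
      ∀ y, y ∉ RingHom.ker yb → IsUnit (x2 y) := fun x2 b2 y hy => not_not.1 ((b2 y).not.2 hy)
  have key := P.toModel.two_level hι hh hn hl (fun ψ => om (gp ψ) * ord e (a ψ))
    (fun x2 x1 => c (gp x1) * ord e (x2 φ))
    (fun ψ ψ2 _ b h => by rw [ha ψ ψ2 b, ord_of_isUnit he0 he h, mul_zero])
    (fun x2 x1 b2 _ b1 => by
      have h0 : x1 r ≠ 0 := fun h0 => by
        have := RingHom.congr_fun b1 r
        simp only [RingHom.comp_apply, h0, map_zero] at this
        exact (hu x2 b2 _ P.notMem).ne_zero (hι (by rw [← this, map_zero]))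
      rw [P.om_eq G x1 h0, ha _ (x2.comp St.val.toRingHom)
        (by rw [← RingHom.comp_assoc, ← b1]; rfl),
        ← ord_congr he0 he (P.toModel.associated x2 (hu x2 b2))]
      rfl)
  obtain ⟨n1, n2⟩ := P.norm G hG hinj
  have hfin := finite_hom (St := St) hG
  have n3 : ∀ w, (∏ᶠ ψ ∈ {ψ | ψ ∈ {ψ : St →+* G | ψ.comp (algebraMap B[X] St) = hG} ∧
      om (gp ψ) = w}, a ψ) ^ q = hV (ν w) := fun w => by
    apply hι
    have h1 := congrArg (residue G) (n2 w)
    have h2 := RingHom.congr_fun hh (ν w)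
    simp only [RingHom.comp_apply] at h2
    have hf : {ψ : St →+* G | ψ.comp (algebraMap B[X] St) = hG ∧ om (gp ψ) = w}.Finite :=
      hfin.subset fun _ h => h.1
    rw [← h2, ← h1, map_pow, map_pow]
    congr 1
    refine (V.subtype.toMonoidHom.map_finprod_mem _ hf).trans
      (Eq.trans ?_ ((residue G).toMonoidHom.map_finprod_mem _ hf).symm)
    refine finprod_mem_congr rfl fun ψ hψ => ?_
    obtain ⟨ψ2, e2⟩ := hl ψ hψ.1
    rw [ha ψ ψ2 e2]
    exact RingHom.congr_fun e2 φ'
  have hcomm : ∀ ψ ∈ {ψ : St →+* G | ψ.comp (algebraMap B[X] St) = hG}, Comm e (a ψ) := by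
    intro ψ hψ
    obtain ⟨ψ2, e2⟩ := hl ψ hψ
    have e3 : ψ2.comp (algebraMap B[X] St) = hV :=
      RingHom.ext fun z => hι (RingHom.congr_fun (by
        rw [← RingHom.comp_assoc, e2, RingHom.comp_assoc, hψ, hh] :
          V.subtype.comp (ψ2.comp (algebraMap B[X] St)) = V.subtype.comp hV) z)
    rw [ha ψ ψ2 e2]
    rcases P.toModel.dich hι hn e3 e2 with h | ⟨x2, x1, a2, -, b2, -⟩
    · exact Comm.of_isUnit e h
    · have h3 : x2.comp (algebraMap B[X] Y) = hV := by
        rw [← e3, ← a2]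
        rfl
      have := Comm.of_associated (P.toModel.associated x2 (hu x2 b2)).symm
        (comm_ring φ he0 he (residue B) j ub x2 h3)
      rw [← a2]
      exact this
  refine ⟨V, inferInstance, inferInstance, inferInstance, inferInstance, j, e, he0, he,
    fun w _ h0 => ?_, ?_⟩
  · have h1 := n3 w
    rw [hVdef, eval₂_comp_eq, h0, eval₂_zero, finprod_mem_eq_finite_toFinset_prod _
      (hfin.subset fun _ h => h.1)] at h1
    obtain ⟨ψ, hψ, h2⟩ := Finset.prod_eq_zero_iff.1 (eq_zero_of_pow_eq_zero h1)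
    exact (hcomm ψ ((Set.Finite.mem_toFinset _).1 hψ).1).ne_zero he0 h2
  rw [sum_ord_eq he0 he hfin (fun ψ => om (gp ψ)) a W n1 P.pos (fun w => hV (ν w)) n3
    fun ψ hψ _ => hcomm ψ hψ] at key
  refine Eq.trans ?_ (key.symm.trans (Finset.sum_congr rfl fun w _ => by
    rw [hVdef, eval₂_comp_eq, ord_eval' he0 he])).symm.symm
  refine finsum_mem_congr (Set.ext fun x2 => and_congr_right fun h => ?_) fun x2 hx2 => ?_
  · refine (centre_iff (algebraMap B Y) yb (by rw [hy]; exact residue_surjective) _ x2 ?_).symm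
    rw [IsScalarTower.algebraMap_eq B B[X] Y, ← RingHom.comp_assoc, ← RingHom.comp_assoc, ← hVr,
      RingHom.comp_assoc _ x2, h]
  · rw [← gp_comp hι x2, hc G hG (V.subtype.comp x2) (by rw [RingHom.comp_assoc, hx2.1, hh]),
      finsum_mem_mul]

theorem rb [Algebra.FiniteType B[X] Y] (hc : ASpec B[X] c) (D : PrimeSpectrum Y → ℚ)
    (hD : ∀ (k O : Type) [Field k] [CommRing O] [IsDomain O] [ValuationRing O]
      [IsAlgClosed (FractionRing O)] (x0 : Y →+* k) (j : k →+* O) (e : O), e ≠ 0 → ¬IsUnit e →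
      D (gp x0) = sumA B[X] φ c (eval₂RingHom (j.comp (x0.comp (algebraMap B Y)))
        (j (x0 (algebraMap B[X] Y X)) + e)) (((residue O).comp j).comp x0) e)
    (yb : Y →+* ResidueField B) (hy : yb.comp (algebraMap B Y) = residue B) :
    D (gp yb) = ∑ᶠ x ∈ {x : Y →+* B | x.comp (algebraMap B Y) = RingHom.id B ∧
      (residue B).comp x = yb}, D (gp x) := by
  classical
  let K := FractionRing B
  let jK : B →+* K := algebraMap B K
  have hK : Injective jK := IsFractionRing.injective B K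
  have D0 : ∀ (k : Type) [Field k] (x0 : Y →+* k), x0 φ ≠ 0 → D (gp x0) = 0 := fun k _ x0 h => by
    rw [hD k _ x0 (datJ k) _ (datE_ne_zero k) (datE_not_isUnit k)]
    exact sumA_eq_zero c _ (datE_ne_zero k) (datE_not_isUnit k)
      ((map_ne_zero_iff _ ((residue _).comp (datJ k)).injective).2 h)
  have D1 : ∀ x : Y →+* B, x φ ≠ 0 → D (gp x) = 0 := fun x h => by
    rw [← gp_comp hK x]
    exact D0 K _ ((map_ne_zero_iff _ hK).2 h)
  by_cases hφ : yb φ = 0
  swap
  · rw [D0 _ yb hφ]
    refine (finsum_mem_of_eqOn_zero fun x hx => D1 x fun h => hφ ?_).symm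
    rw [← hx.2, RingHom.comp_apply, h, map_zero]
  have := RingHom.ker_isPrime yb
  set ub := yb (algebraMap B[X] Y X) with ubdef
  have hmax : ((RingHom.ker yb).comap (algebraMap B[X] Y)).IsMaximal := by
    rw [RingHom.comap_ker]
    refine RingHom.ker_isMaximal_of_surjective _ fun b => ?_
    obtain ⟨b, rfl⟩ := residue_surjective b
    exact ⟨C b, by rw [RingHom.comp_apply, yb_algebraMap hy]; simp⟩
  obtain ⟨St, r, φ', om, W, ν, n, P⟩ := exists_pkg (B := B) hmax hφ c
  set q := ringExpChar B[X] ^ n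
  obtain ⟨V, _, _, _, _, j, e, he0, he, hν, hs⟩ := P.special hc hy
  rw [hD _ V yb j e he0 he, hy, hs]
  have hsec : ∀ (a : B) (x : Y →+* B), x.comp (algebraMap B[X] Y) = evalRingHom a ↔
      x.comp (algebraMap B Y) = RingHom.id B ∧ x (algebraMap B[X] Y X) = a := fun a x => by
    constructor
    · intro h
      refine ⟨RingHom.ext fun b => ?_, by simpa using RingHom.congr_fun h X⟩
      simpa [IsScalarTower.algebraMap_apply B B[X] Y] using RingHom.congr_fun h (C b)
    · rintro ⟨h1, h2⟩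
      rw [comp_algebraMap_eq_eval₂, h1, h2]
      rfl
  have hcen : ∀ x : Y →+* B, x.comp (algebraMap B Y) = RingHom.id B →
      ((∀ y, ¬IsUnit (x y) ↔ y ∈ RingHom.ker yb) ↔ (residue B).comp x = yb) := fun x hx =>
    centre_iff (algebraMap B Y) yb (by rw [hy]; exact residue_surjective) (RingHom.id _) x
      (by rw [RingHom.comp_assoc, hx, RingHom.id_comp, hy]; rfl)
  have hgen : ∀ a ∈ {a : B | residue B a = ub},
      ∑ᶠ x ∈ {x : Y →+* B | (x.comp (algebraMap B Y) = RingHom.id B ∧ (residue B).comp x = yb ∧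
        x φ = 0) ∧ x (algebraMap B[X] Y X) = a}, D (gp x) =
      ∑ w ∈ W, w / q * (((ν w).map jK).rootMultiplicity (jK a) : ℚ) := fun a ha => by
    rw [← P.generic (datE_ne_zero K) (datE_not_isUnit K) hK (datJ K) a fun F => by
      rw [isUnit_iff_residue, not_not, RingHom.mem_ker, yb_algebraMap hy, ← ubdef, ← ha, eval_map,
        eval₂_at_apply]]
    have h1 : ∀ x ∈ {x0 : Y →+* B | x0.comp (algebraMap B[X] Y) = evalRingHom a ∧
        ∀ y, ¬IsUnit (x0 y) ↔ y ∈ RingHom.ker yb}, D (gp x) =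
        sumA B[X] φ c (eval₂RingHom ((datJ K).comp jK) (datJ K (jK a) + datE K))
          ((((residue _).comp (datJ K)).comp jK).comp x) (datE K) := fun x hx => by
      obtain ⟨h2, h3⟩ := (hsec a x).1 hx.1
      rw [← gp_comp hK x, hD K _ (jK.comp x) (datJ K) _ (datE_ne_zero K) (datE_not_isUnit K),
        RingHom.comp_assoc _ x, h2, RingHom.comp_id, RingHom.comp_apply, h3]
      rfl
    rw [← finsum_mem_congr rfl h1]
    apply finsum_mem_inter_support_eq
    ext x
    constructor
    · rintro ⟨⟨⟨h2, h3, -⟩, h4⟩, h5⟩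
      exact ⟨⟨(hsec a x).2 ⟨h2, h4⟩, (hcen x h2).2 h3⟩, h5⟩
    · rintro ⟨⟨h2, h3⟩, h5⟩
      obtain ⟨h2, h4⟩ := (hsec a x).1 h2
      exact ⟨⟨⟨h2, (hcen x h2).1 h3, by_contra fun h => h5 (D1 x h)⟩, h4⟩, h5⟩
  have hfin : {x : Y →+* B | x.comp (algebraMap B Y) = RingHom.id B ∧ (residue B).comp x = yb ∧
      x φ = 0}.Finite := by
    refine Set.Finite.subset ((finite_hom_qf (Y := Y ⧸ Ideal.span {φ}) (RingHom.id B)).image
      fun x => x.comp (Ideal.Quotient.mk _)) fun x hx => ?_
    refine ⟨Ideal.Quotient.lift _ x fun y hy => ?_, ?_, ?_⟩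
    · obtain ⟨t, rfl⟩ := Ideal.mem_span_singleton.1 hy
      rw [map_mul, hx.2.2, zero_mul]
    · exact hx.1
    · rfl
  have h2 : ∑ᶠ x ∈ {x : Y →+* B | x.comp (algebraMap B Y) = RingHom.id B ∧
      (residue B).comp x = yb}, D (gp x) =
      ∑ᶠ x ∈ {x : Y →+* B | x.comp (algebraMap B Y) = RingHom.id B ∧ (residue B).comp x = yb ∧
        x φ = 0}, D (gp x) := by
    apply finsum_mem_inter_support_eq
    ext x
    exact ⟨fun h => ⟨⟨h.1.1, h.1.2, by_contra fun h' => h.2 (D1 x h')⟩, h.2⟩,
      fun h => ⟨⟨h.1.1, h.1.2.1⟩, h.2⟩⟩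
  rw [h2, finsum_fibres (X2 := {a : B | residue B a = ub})
    (X1 := fun a => {x : Y →+* B | (x.comp (algebraMap B Y) = RingHom.id B ∧
      (residue B).comp x = yb ∧ x φ = 0) ∧ x (algebraMap B[X] Y X) = a})
    (G := fun _ x => D (gp x)) (fun _ x => x) hfin (fun _ _ _ hx => ⟨hx.1, rfl⟩)
    (fun _ _ _ hx _ _ _ hx' h => ⟨by rw [← hx.2, ← hx'.2, h], h⟩)
    (fun x hx _ => ⟨_, RingHom.congr_fun hx.2.1 _, x, ⟨hx, rfl⟩, rfl⟩),
    finsum_mem_congr rfl hgen, finsum_mem_def]
  have h3 : ∀ a, {a : B | residue B a = ub}.indicator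
      (fun a => ∑ w ∈ W, w / q * (((ν w).map jK).rootMultiplicity (jK a) : ℚ)) a =
      ∑ w ∈ W, {a : B | residue B a = ub}.indicator
        (fun a => w / q * (((ν w).map jK).rootMultiplicity (jK a) : ℚ)) a := fun a => by
    by_cases ha : a ∈ {a : B | residue B a = ub}
    · simp only [Set.indicator_of_mem ha]
    · simp only [Set.indicator_of_notMem ha, Finset.sum_const_zero]
  rw [finsum_congr h3, ← sum_finsum_comm]
  · refine Finset.sum_congr rfl fun w _ => ?_
    by_cases hw : w = 0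
    · simp [hw]
    rw [← finsum_mem_def, ← mul_finsum_mem, rootMult_spec (hν w hw)]
  · intro w _
    by_cases hw : w = 0
    · simp [hw, HasFiniteSupport]
    refine (rootMult_finite (F := ν w) fun h => hν w hw (by rw [h, Polynomial.map_zero])).subset
      fun a ha h => ha ?_
    by_cases h' : a ∈ {a : B | residue B a = ub}
    · rw [Set.indicator_of_mem h', h, Nat.cast_zero, mul_zero]
    · exact Set.indicator_of_notMem h' _

end Pool.Agent.KEW
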