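import Pool.Agent.P.MP_6277db_ag.KEW.L3.GFin

/-!
Push forward of functions, and the stability properties of `Specialises`.
-/

noncomputable section

open CategoryTheory Limits AlgebraicGeometry IsLocalRing Function

namespace Pool.Agent.KEW

variable {X X' X'' Y Y' W W' : Scheme.{0}}

/-- Push forward: the value at `x'` is the sum of the values at the lifts of the geometric point
above `x'`. -/
def push (f : X ⟶ X') (c : X → ℚ) : X' → ℚ := fun x' =>
  ∑ᶠ y : {y : Spec (.of (geoF x')) ⟶ X // y ≫ f = geo x'}, c (gen y.1)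

section push

variable {f : X ⟶ X'} {c c' : X → ℚ}

theorem SpcA_sub_eq {A : Type} (P : A → Prop) (F : A → ℚ) :
    ∑ᶠ a : {a // P a}, F a.1 = ∑ᶠ a ∈ {a | P a ∧ F a ≠ 0}, F a := by
  rw [finsum_subtype_eq_finsum_cond (f := F) P]
  exact (finsum_mem_inter_support F {a | P a}).symm

theorem SpcA_sub_sum {A : Type} (P : A → Prop) (F : A → ℚ) (T : Finset A)
    (h : ∀ a, F a ≠ 0 → (P a ↔ a ∈ T)) : ∑ᶠ a : {a // P a}, F a.1 = ∑ a ∈ T, F a := by
  rw [finsum_subtype_eq_finsum_cond (f := F) P]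
  exact finsum_cond_eq_sum_of_cond_iff F (fun {a} ha => h a ha)

theorem SpcA_fibre {A B : Type} (φ : A → B) (P : B → Prop) (F : A → ℚ)
    (h : {a | P (φ a) ∧ F a ≠ 0}.Finite) :
    ∑ᶠ a : {a // P (φ a)}, F a.1 = ∑ᶠ b : {b // P b}, ∑ᶠ a : {a // φ a = b.1}, F a.1 := by
  classical
  have h1 : ∑ᶠ a : {a // P (φ a)}, F a.1 = ∑ a ∈ h.toFinset, F a :=
    SpcA_sub_sum (fun a => P (φ a)) F h.toFinset (fun a ha => by simp [ha])
  have h2 : ∀ b : {b // P b}, ∑ᶠ a : {a // φ a = b.1}, F a.1 =
      ∑ a ∈ h.toFinset with φ a = b.1, F a := fun b =>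
    SpcA_sub_sum (fun a => φ a = b.1) F _ (fun a ha => by
      simp only [Finset.mem_filter, Set.Finite.mem_toFinset, Set.mem_ofPred_eq]
      exact ⟨fun e => ⟨⟨e ▸ b.2, ha⟩, e⟩, fun e => e.2⟩)
  have h3 : ∑ᶠ b : {b // P b}, ∑ a ∈ h.toFinset with φ a = b.1, F a =
      ∑ b ∈ h.toFinset.image φ, ∑ a ∈ h.toFinset with φ a = b, F a :=
    SpcA_sub_sum P (fun b => ∑ a ∈ h.toFinset with φ a = b, F a) _ (fun b hb => by
      obtain ⟨a, ha, -⟩ := Finset.exists_ne_zero_of_sum_ne_zero hb
      rw [Finset.mem_filter] at ha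
      have ha' := ha.1
      rw [Set.Finite.mem_toFinset] at ha'
      exact ⟨fun _ => Finset.mem_image.2 ⟨a, ha.1, ha.2⟩, fun _ => ha.2 ▸ ha'.1⟩)
  rw [h1, finsum_congr h2, h3]
  exact (Finset.sum_fiberwise_of_maps_to (fun a ha => Finset.mem_image_of_mem φ ha) F).symm

theorem SpcA_ext (h : GFin f (support c)) {k Om : Type} [Field k] [IsAlgClosed k] [Field Om]
    (j : k →+* Om) (t : Spec (.of k) ⟶ X') :
    ∑ᶠ y : {y : Spec (.of k) ⟶ X // y ≫ f = t}, c (gen y.1) =
      ∑ᶠ y : {y : Spec (.of Om) ⟶ X // y ≫ f = spm j ≫ t}, c (gen y.1) := by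
  rw [SpcA_sub_eq (fun y : Spec (.of k) ⟶ X => y ≫ f = t) (fun y => c (gen y)),
    SpcA_sub_eq (fun y : Spec (.of Om) ⟶ X => y ≫ f = spm j ≫ t) (fun y => c (gen y))]
  refine finsum_mem_eq_of_bijOn (fun y => spm j ≫ y) ⟨?_, ?_, ?_⟩ ?_
  · rintro y ⟨h1, h2⟩
    refine ⟨by rw [Category.assoc, h1], ?_⟩
    rwa [gen_spm_comp j.injective]
  · intro y _ y' _ e
    exact spm_cancel j e
  · rintro y ⟨h1, h2⟩
    obtain ⟨y0, e1, e2⟩ := h.descend j t y h1 h2
    refine ⟨y0, ⟨e1, ?_⟩, e2⟩
    rw [← gen_spm_comp j.injective, e2]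
    exact h2
  · intro y _
    rw [gen_spm_comp j.injective]

theorem SpcA_gen {x' : X'} (y : {y : Spec (.of (geoF x')) ⟶ X // y ≫ f = geo x'}) :
    f (gen y.1) = x' := by
  rw [← gen_comp, y.2, gen_geo]

/-- The push forward can be computed at any geometric point (`geo_factor`, `GFin.descend`). -/
theorem push_geo (h : GFin f (support c)) {Om : Type} [Field Om] [IsAlgClosed Om]
    (z : Spec (.of Om) ⟶ X') :
    push f c (gen z) = ∑ᶠ y : {y : Spec (.of Om) ⟶ X // y ≫ f = z}, c (gen y.1) := by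
  obtain ⟨j, hj⟩ := geo_factor z (gen z) rfl
  have := SpcA_ext h j (geo (gen z))
  rw [hj] at this
  exact this

theorem push_zero : push f 0 = 0 := by
  funext x'
  simp [push]

theorem SpcA_fin (h : GFin f (support c)) (x' : X') :
    (support fun y : {y : Spec (.of (geoF x')) ⟶ X // y ≫ f = geo x'} => c (gen y.1)).Finite :=
  ((h (geoF x') (geo x')).preimage Subtype.val_injective.injOn).subset fun y hy => ⟨y.2, hy⟩

theorem push_add (h : GFin f (support c)) (h' : GFin f (support c')) :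
    push f (c + c') = push f c + push f c' := by
  funext x'
  exact finsum_add_distrib (SpcA_fin h x') (SpcA_fin h' x')

theorem push_neg : push f (-c) = -push f c := by
  funext x'
  exact finsum_neg_distrib _

theorem push_smul (r : ℚ) : push f (r • c) = r • push f c := by
  funext x'
  exact (smul_finsum r _).symm

theorem push_mul (d : X' → ℚ) : push f ((d ∘ f) * c) = d * push f c := by
  funext x'
  refine Eq.trans (finsum_congr fun y => ?_) (smul_finsum (d x') _).symm
  change d (f (gen y.1)) * c (gen y.1) = d x' * c (gen y.1)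
  rw [SpcA_gen y]

theorem support_push : support (push f c) ⊆ f '' support c := by
  intro x' hx'
  by_contra hn
  apply hx'
  refine finsum_eq_zero_of_forall_eq_zero fun y => ?_
  by_contra hy
  exact hn ⟨gen y.1, hy, SpcA_gen y⟩

theorem push_mem (R : AddSubgroup ℚ) (h : ∀ x, c x ∈ R) (x' : X') : push f c x' ∈ R :=
  finsum_induction (fun q => q ∈ R) R.zero_mem (fun _ _ => R.add_mem) fun _ => h _

theorem push_id : push (𝟙 X) c = c := by
  funext x
  refine (finsum_eq_single _ ⟨geo x, Category.comp_id _⟩ fun y hy => ?_).trans ?_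
  · exact absurd (Subtype.ext ((Category.comp_id y.1).symm.trans y.2)) hy
  · rw [gen_geo]

theorem push_comp {g : X' ⟶ X''} (h : GFin (f ≫ g) (support c)) :
    push (f ≫ g) c = push g (push f c) := by
  funext x''
  have h1 := SpcA_fibre (fun y : Spec (.of (geoF x'')) ⟶ X => y ≫ f)
    (fun z => z ≫ g = geo x'') (fun y => c (gen y))
    ((h (geoF x'') (geo x'')).subset fun y hy => ⟨by rw [← Category.assoc]; exact hy.1, hy.2⟩)
  have h2 : push g (push f c) x'' =
      ∑ᶠ z : {z : Spec (.of (geoF x'')) ⟶ X' // z ≫ g = geo x''},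
        ∑ᶠ y : {y : Spec (.of (geoF x'')) ⟶ X // y ≫ f = z.1}, c (gen y.1) :=
    finsum_congr fun z => push_geo h.of_comp z.1
  rw [h2, ← h1]
  have e : (fun y : Spec (.of (geoF x'')) ⟶ X => y ≫ f ≫ g = geo x'') =
      fun y => (y ≫ f) ≫ g = geo x'' := by
    funext y
    rw [Category.assoc]
  change ∑ᶠ y : Subtype (fun y : Spec (.of (geoF x'')) ⟶ X => y ≫ f ≫ g = geo x''),
    c (gen y.1) = _
  rw [e]

/-- Base change. -/
theorem push_pullback {f' : Y ⟶ Y'} {a : Y ⟶ X} {b : Y' ⟶ X'} (sq : IsPullback a f' f b)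
    (h : GFin f (support c)) : push f c ∘ b = push f' (c ∘ a) := by
  funext y'
  have h1 := push_geo h (geo y' ≫ b)
  rw [gen_comp, gen_geo] at h1
  refine h1.trans (Eq.symm ?_)
  refine finsum_eq_of_bijective
    (fun y : {y : Spec (.of (geoF y')) ⟶ Y // y ≫ f' = geo y'} =>
      (⟨y.1 ≫ a, by rw [Category.assoc, sq.w, ← Category.assoc, y.2]⟩ :
        {y : Spec (.of (geoF y')) ⟶ X // y ≫ f = geo y' ≫ b})) ⟨?_, ?_⟩ ?_
  · intro y z e
    exact Subtype.ext (sq.hom_ext (congrArg Subtype.val e) (y.2.trans z.2.symm))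
  · intro y
    exact ⟨⟨sq.lift y.1 (geo y') y.2, sq.lift_snd _ _ _⟩, Subtype.ext (sq.lift_fst _ _ _)⟩
  · intro y
    change c (a (gen y.1)) = c (gen (y.1 ≫ a))
    rw [gen_comp]

/-- If `f` is injective on the geometric points of the support, the values are kept. -/
theorem push_apply_of_inj (h : GFin f (support c)) {Om : Type} [Field Om] [IsAlgClosed Om]
    (y : Spec (.of Om) ⟶ X)
    (hy : ∀ y' : Spec (.of Om) ⟶ X, y' ≫ f = y ≫ f → c (gen y') ≠ 0 → y' = y) :
    push f c (f (gen y)) = c (gen y) := by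
  rw [← gen_comp, push_geo h]
  refine finsum_eq_single (fun z : {z : Spec (.of Om) ⟶ X // z ≫ f = y ≫ f} => c (gen z.1))
    ⟨y, rfl⟩ fun z hz => ?_
  by_contra hn
  exact hz (Subtype.ext (hy z.1 z.2 hn))

theorem push_apply_of_mono [Mono f] (x : X) : push f c (f x) = c x := by
  have := push_apply_of_inj (GFin.of_mono f (support c)) (geo x)
    fun y' e _ => (cancel_mono f).1 e
  rwa [gen_geo] at this

theorem push_comp_self_of_mono [Mono f] : push f c ∘ f = c :=
  funext fun x => push_apply_of_mono x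

theorem push_eq_zero_of_notMem {x' : X'} (h : x' ∉ Set.range f) : push f c x' = 0 := by
  by_contra hn
  exact h (Set.image_subset_range _ _ (support_push hn))

theorem support_push_of_mono [Mono f] : support (push f c) = f '' support c := by
  refine support_push.antisymm ?_
  rintro _ ⟨x, hx, rfl⟩
  rw [mem_support, push_apply_of_mono]
  exact hx

theorem push_injective_of_mono [Mono f] : Function.Injective (push f) := by
  intro c c' e
  rw [← push_comp_self_of_mono (f := f) (c := c), e, push_comp_self_of_mono]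

theorem SpcA_ind {d : X' → ℚ} {V : Set X}
    (h : ∀ (Om : Type) [Field Om] [IsAlgClosed Om] (z : Spec (.of Om) ⟶ X'), d (gen z) ≠ 0 →
      ∃! y : Spec (.of Om) ⟶ X, y ≫ f = z ∧ gen y ∈ V) : push f (V.indicator (d ∘ f)) = d := by
  funext x'
  by_cases hx : d x' = 0
  · rw [hx]
    refine finsum_eq_zero_of_forall_eq_zero fun y => ?_
    refine Set.indicator_apply_eq_zero.2 fun _ => ?_
    change d (f (gen y.1)) = 0
    rw [SpcA_gen y, hx]
  · obtain ⟨y, ⟨h1, h2⟩, h3⟩ := h (geoF x') (geo x') (by rwa [gen_geo])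
    refine (finsum_eq_single _ ⟨y, h1⟩ fun z hz => ?_).trans ?_
    · refine Set.indicator_apply_eq_zero.2 fun hv => ?_
      exact absurd (Subtype.ext (h3 z.1 ⟨z.2, hv⟩)) hz
    · rw [Set.indicator_of_mem h2]
      exact congrArg d (SpcA_gen ⟨y, h1⟩)

/-- A function supported where geometric points lift uniquely is the push forward of its pull
back. -/
theorem push_comp_of_bij {d : X' → ℚ}
    (h : ∀ (Om : Type) [Field Om] [IsAlgClosed Om] (z : Spec (.of Om) ⟶ X'), d (gen z) ≠ 0 →
      ∃! y : Spec (.of Om) ⟶ X, y ≫ f = z) : push f (d ∘ f) = d := by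
  have := SpcA_ind (f := f) (d := d) (V := Set.univ) fun Om _ _ z hz => by
    simpa using h Om z hz
  rwa [Set.indicator_univ] at this

/-- The same for the part of the pull back supported in a set `V`. -/
theorem push_indicator_of_bij {d : X' → ℚ} {V : Set X}
    (h : ∀ (Om : Type) [Field Om] [IsAlgClosed Om] (z : Spec (.of Om) ⟶ X'), d (gen z) ≠ 0 →
      ∃! y : Spec (.of Om) ⟶ X, y ≫ f = z ∧ gen y ∈ V) : push f (V.indicator (d ∘ f)) = d :=
  SpcA_ind h

theorem push_comp_of_mono [Mono f] {d : X' → ℚ} (h : support d ⊆ Set.range f) :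
    push f (d ∘ f) = d := by
  funext x'
  by_cases hx : x' ∈ Set.range f
  · obtain ⟨x, rfl⟩ := hx
    exact push_apply_of_mono x
  · rw [push_eq_zero_of_notMem hx]
    by_contra hn
    exact hx (h (Ne.symm hn))

/-- For a monomorphism the push forward is extension by zero. -/
theorem push_eq_extend [Mono f] : push f c = Function.extend f c 0 := by
  funext x'
  by_cases hx : x' ∈ Set.range f
  · obtain ⟨x, rfl⟩ := hx
    have hf : c.FactorsThrough f := fun a b e => by
      rw [← push_apply_of_mono (f := f) (c := c) a, e, push_apply_of_mono]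
    rw [push_apply_of_mono, hf.extend_apply]
  · rw [push_eq_zero_of_notMem hx, Function.extend_apply' _ _ _ hx]
    rfl

end push

/-- Summation along the fibres of a map. -/
theorem SpcB_fib {A B : Type} {C : B → Type} (φ : A → B) (F : A → ℚ) (hF : (support F).Finite)
    (ι : ∀ b, C b → A) (hι : ∀ b, Injective (ι b)) (h1 : ∀ b c, φ (ι b c) = b)
    (h2 : ∀ a, a ∈ Set.range (ι (φ a))) : ∑ᶠ a, F a = ∑ᶠ b, ∑ᶠ c, F (ι b c) := by
  classical
  have h3 : ∀ b, ∑ᶠ c, F (ι b c) = ∑ a ∈ hF.toFinset, if φ a = b then F a else 0 := by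
    intro b
    rw [CycB_finsum (f := fun c => F (ι b c)) (g := fun a => if φ a = b then F a else 0) (ι b)
      (hι b) (fun c => (if_pos (h1 b c)).symm) fun a ha => ?_]
    · refine finsum_eq_sum_of_support_subset _ fun a ha => ?_
      rw [Set.Finite.coe_toFinset]
      intro h0
      exact ha (by simp only [h0, ite_self])
    · have h4 : φ a = b := by
        by_contra h5
        exact ha (if_neg h5)
      rw [← h4]
      exact h2 a
  rw [finsum_congr h3, finsum_sum_comm, finsum_eq_sum F hF]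
  · refine Finset.sum_congr rfl fun a _ => ?_
    rw [finsum_eq_single _ (φ a) fun b hb => if_neg hb.symm, if_pos rfl]
  · intro a _
    refine (Set.finite_singleton (φ a)).subset fun b hb => ?_
    by_contra h5
    exact hb (if_neg fun e => h5 e.symm)

theorem SpcB_congr {A : Type} {P Q : A → Prop} (F : A → ℚ) (h : ∀ a, P a ↔ Q a) :
    ∑ᶠ a : {a // P a}, F a.1 = ∑ᶠ a : {a // Q a}, F a.1 := by
  obtain rfl : P = Q := funext fun a => propext (h a)
  rfl

theorem SpcB_fin {p : X ⟶ W} {c : X → ℚ} (hf : GFin p (support c)) {O : Type} [CommRing O]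
    [IsDomain O] [IsLocalRing O] (g : Spec (.of O) ⟶ W) (y : Spec (.of (ResidueField O)) ⟶ X) :
    (support fun x : {x : Spec (.of O) ⟶ X // x ≫ p = g ∧ resPt O ≫ x = y} =>
      c (x.1 (genPt O))).Finite :=
  ((hf.finite_lifts g y).preimage Subtype.val_injective.injOn).subset
    fun x hx => ⟨x.2.1, x.2.2, hx⟩

/-- The push forward at the generic point of a point with values in a valuation ring. -/
theorem SpcB_push_val {f : X ⟶ X'} [IsSeparated f] {c : X → ℚ} (hf : FinOver f (support c))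
    {O : Type} [CommRing O] [IsDomain O] [ValuationRing O] [IsAlgClosed (FractionRing O)]
    (x' : Spec (.of O) ⟶ X') :
    push f c (gen x') = ∑ᶠ x : {x : Spec (.of O) ⟶ X // x ≫ f = x'}, c (gen x.1) := by
  rw [← gen_genM, push_geo hf.gfin]
  symm
  refine CycB_finsum (fun x => ⟨genM O ≫ x.1, by rw [Category.assoc, x.2]⟩)
    (fun x z e => Subtype.ext (ext_gen_sep f (x.2.trans z.2.symm) (congrArg Subtype.val e)))
    (fun x => congrArg c (gen_genM x.1).symm) fun y hy => ?_
  obtain ⟨x, h1, h2⟩ := hf.lift_val x' y.1 y.2 hy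
  exact ⟨⟨x, h1⟩, Subtype.ext h2⟩

theorem SpcB_gfin (g : W' ⟶ W) [UniversallyInjective g] (S : Set W') : GFin g S := by
  intro Om _ _ t
  have h : ∀ (K : Type) [Field K], Injective fun y : Spec (.of K) ⟶ W' => y ≫ g :=
    ((tfae_universallyInjective g).out 0 1).1 ‹_›
  exact Set.Subsingleton.finite fun y hy y' hy' => h Om (hy.1.trans hy'.1.symm)

namespace Specialises

variable {p : X ⟶ W} {c c' : X → ℚ}

theorem add' (h : Specialises p c) (h' : Specialises p c') (hf : GFin p (support c))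
    (hf' : GFin p (support c')) : Specialises p (c + c') := by
  intro O _ _ _ _ g y hy
  simp only [Pi.add_apply]
  rw [finsum_add_distrib (SpcB_fin hf g y) (SpcB_fin hf' g y), h O g y hy, h' O g y hy]

theorem smul (h : Specialises p c) (r : ℚ) : Specialises p (r • c) := by
  intro O _ _ _ _ g y hy
  simp only [Pi.smul_apply, smul_eq_mul]
  rw [h O g y hy, mul_finsum]

/-- Composition. -/
theorem mul {q : Y ⟶ X} {d : Y → ℚ} (h : Specialises p c) (hd : Specialises q d)
    (hf : GFin p (support c)) (hf' : GFin q (support d)) :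
    Specialises (q ≫ p) ((c ∘ q) * d) := by
  intro O _ _ _ _ g y hy
  have hg : GFin (q ≫ p) (support ((c ∘ q) * d)) :=
    (hf.comp hf').mono fun z hz => ⟨right_ne_zero_of_mul hz, left_ne_zero_of_mul hz⟩
  have e := h O g (y ≫ q) (by rw [Category.assoc, hy])
  rw [Scheme.Hom.comp_apply] at e
  rw [SpcB_fib
    (B := {x : Spec (.of O) ⟶ X // x ≫ p = g ∧ resPt O ≫ x = y ≫ q})
    (C := fun x => {z : Spec (.of O) ⟶ Y // z ≫ q = x.1 ∧ resPt O ≫ z = y})
    (fun z => ⟨z.1 ≫ q, by rw [Category.assoc, z.2.1], by rw [← Category.assoc, z.2.2]⟩) _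
    (SpcB_fin hg g y) (fun x z => ⟨z.1, by rw [← Category.assoc, z.2.1, x.2.1], z.2.2⟩)
    (fun x z z' e => Subtype.ext (congrArg (fun w => w.1) e)) (fun x z => Subtype.ext z.2.1)
    fun z => ⟨⟨z.1, rfl, z.2.2⟩, rfl⟩, Pi.mul_apply, Function.comp_apply, e, finsum_mul]
  refine finsum_congr fun x => ?_
  rw [hd O x.1 y x.2.2.symm, mul_finsum]
  refine finsum_congr fun z => ?_
  change _ = c (q (z.1 (genPt O))) * d (z.1 (genPt O))
  rw [← Scheme.Hom.comp_apply, z.2.1]

theorem one (p : X ⟶ W) [Etale p] : Specialises p 1 := by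
  intro O _ _ _ _ g y hy
  obtain ⟨x, hx, hu⟩ := lift_etale p g y hy
  rw [finsum_eq_single _ (⟨x, hx⟩ : {x : Spec (.of O) ⟶ X // x ≫ p = g ∧ resPt O ≫ x = y})
    fun z hz => absurd (Subtype.ext (hu z.1 z.2)) hz]
  rfl

theorem comp_etale {q : Y ⟶ X} [Etale q] (h : Specialises p c) : Specialises (q ≫ p) (c ∘ q) := by
  intro O _ _ _ _ g y hy
  have e := h O g (y ≫ q) (by rw [Category.assoc, hy])
  rw [Scheme.Hom.comp_apply] at e
  rw [Function.comp_apply, e]
  symm
  refine finsum_eq_of_bijective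
    (fun z => ⟨z.1 ≫ q, by rw [Category.assoc, z.2.1], by rw [← Category.assoc, z.2.2]⟩)
    ⟨fun z z' hz => ?_, fun x => ?_⟩ fun z => ?_
  · have h1 : z.1 ≫ q = z'.1 ≫ q := congrArg Subtype.val hz
    exact Subtype.ext ((lift_etale q (z'.1 ≫ q) y (by rw [← Category.assoc, z'.2.2])).unique
      ⟨h1, z.2.2⟩ ⟨rfl, z'.2.2⟩)
  · obtain ⟨z, hz, -⟩ := lift_etale q x.1 y x.2.2.symm
    exact ⟨⟨z, by rw [← Category.assoc, hz.1, x.2.1], hz.2⟩, Subtype.ext hz.1⟩
  · rw [Function.comp_apply, Scheme.Hom.comp_apply]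

theorem SpcB_iff {q : W ⟶ W'} [Etale q] {O : Type} [CommRing O] [IsDomain O] [ValuationRing O]
    [IsAlgClosed (FractionRing O)] {g : Spec (.of O) ⟶ W} {y : Spec (.of (ResidueField O)) ⟶ X}
    (hy : y ≫ p = resPt O ≫ g) (x : Spec (.of O) ⟶ X) :
    (x ≫ p ≫ q = g ≫ q ∧ resPt O ≫ x = y) ↔ (x ≫ p = g ∧ resPt O ≫ x = y) := by
  refine and_congr_left fun hx => ⟨fun h1 => ?_, fun h1 => by rw [← Category.assoc, h1]⟩
  exact (lift_etale q (g ≫ q) (y ≫ p) (by rw [hy, Category.assoc])).unique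
    ⟨by rw [Category.assoc, h1], by rw [← Category.assoc, hx]⟩ ⟨rfl, hy.symm⟩

/-- Change of the base along an etale map. -/
theorem etale_base {q : W ⟶ W'} [Etale q] (h : Specialises p c) : Specialises (p ≫ q) c := by
  intro O _ _ _ _ g' y hy
  obtain ⟨g, ⟨rfl, hg⟩, -⟩ := lift_etale q g' (y ≫ p) (by rw [Category.assoc, hy])
  rw [h O g y hg.symm]
  exact (SpcB_congr (fun x => c (x (genPt O))) (SpcB_iff (q := q) hg.symm)).symm

theorem of_etale_base {q : W ⟶ W'} [Etale q] (h : Specialises (p ≫ q) c) : Specialises p c := by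
  intro O _ _ _ _ g y hy
  rw [h O (g ≫ q) y (by rw [← Category.assoc, hy, Category.assoc])]
  exact SpcB_congr (fun x => c (x (genPt O))) (SpcB_iff (q := q) hy)

/-- Push forward. Hint: `x ↦ (x ≫ f, genM O ≫ x)` is a bijection on the supports
(`ext_gen_sep`, `FinOver.lift_val`); `algClosed_residue`, `push_geo`. -/
theorem push {f : X ⟶ X'} {p' : X' ⟶ W} [IsSeparated f] (h : Specialises (f ≫ p') c)
    (hf : FinOver f (support c)) (hp : GFin (f ≫ p') (support c)) :
    Specialises p' (push f c) := by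
  intro O _ _ _ _ g y' hy
  have hF : (support fun x : {x : Spec (.of O) ⟶ X //
      x ≫ f ≫ p' = g ∧ resPt O ≫ x ≫ f = y'} => c (gen x.1)).Finite := by
    refine Set.Finite.of_finite_image (f := fun x => genM O ≫ x.1)
      ((hp _ (genM O ≫ g)).subset ?_) fun x _ z _ e => ?_
    · rintro _ ⟨x, hx, rfl⟩
      refine ⟨by rw [Category.assoc, x.2.1], ?_⟩
      rw [gen_genM]
      exact hx
    · have e' : genM O ≫ x.1 = genM O ≫ z.1 := e
      refine Subtype.ext (ext_gen_sep f (ext_gen_res (by rw [x.2.2, z.2.2]) ?_) e')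
      rw [← Category.assoc, e', Category.assoc]
  have h1 := SpcB_fib
    (B := {y : Spec (.of (ResidueField O)) ⟶ X // y ≫ f = y'})
    (C := fun y => {x : Spec (.of O) ⟶ X // x ≫ f ≫ p' = g ∧ resPt O ≫ x = y.1})
    (fun x => ⟨resPt O ≫ x.1, by rw [Category.assoc, x.2.2]⟩) _ hF
    (fun y x => ⟨x.1, x.2.1, by rw [← Category.assoc, x.2.2, y.2]⟩)
    (fun y x x' e => Subtype.ext (congrArg (fun w => w.1) e)) (fun y x => Subtype.ext x.2.2)
    fun x => ⟨⟨x.1, x.2.1, rfl⟩, rfl⟩
  have h2 := SpcB_fib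
    (B := {x' : Spec (.of O) ⟶ X' // x' ≫ p' = g ∧ resPt O ≫ x' = y'})
    (C := fun x' => {x : Spec (.of O) ⟶ X // x ≫ f = x'.1})
    (fun x => ⟨x.1 ≫ f, by rw [Category.assoc, x.2.1], x.2.2⟩) _ hF
    (fun x' x => ⟨x.1, by rw [← Category.assoc, x.2, x'.2.1], by rw [x.2, x'.2.2]⟩)
    (fun x' x z e => Subtype.ext (congrArg (fun w => w.1) e)) (fun x' x => Subtype.ext x.2)
    fun x => ⟨⟨x.1, rfl⟩, rfl⟩
  refine (push_geo hf.gfin y').trans ?_
  refine (finsum_congr fun y : {y : Spec (.of (ResidueField O)) ⟶ X // y ≫ f = y'} =>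
    h O g y.1 (by rw [← Category.assoc, y.2, hy])).trans ?_
  exact h1.symm.trans (h2.trans (finsum_congr fun x' => (SpcB_push_val hf x'.1).symm))

/-- Restriction to an open and closed part of a closed set containing the support. -/
theorem indicator {S S' : Set X} (h : Specialises p c) (hS : IsClosed S) (hS' : IsClosed S')
    (hd : Disjoint S S') (hc : support c ⊆ S ∪ S') : Specialises p (S.indicator c) := by
  intro O _ _ _ _ g y hy
  by_cases h0 : y (genPt _) ∈ S
  · rw [Set.indicator_of_mem h0, h O g y hy]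
    refine finsum_congr fun x => (Set.indicator_apply_eq_self.2 fun hx => ?_).symm
    by_contra h1
    have h2 := gen_res_mem x.1 hS' ((hc h1).resolve_left hx)
    rw [x.2.2] at h2
    exact Set.disjoint_left.1 hd h0 h2
  · rw [Set.indicator_of_notMem h0]
    refine (finsum_eq_zero_of_forall_eq_zero fun x => Set.indicator_of_notMem (fun hx => ?_) _).symm
    have h2 := gen_res_mem x.1 hS hx
    rw [x.2.2] at h2
    exact h0 h2

/-- Restriction to a subscheme containing the support. -/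
theorem comp_immersion {i : Y ⟶ X} [IsImmersion i] (h : Specialises p c)
    (hc : support c ⊆ Set.range i) : Specialises (i ≫ p) (c ∘ i) := by
  intro O _ _ _ _ g y hy
  have e := h O g (y ≫ i) (by rw [Category.assoc, hy])
  rw [Scheme.Hom.comp_apply] at e
  rw [Function.comp_apply, e]
  symm
  refine CycB_finsum
    (fun z => ⟨z.1 ≫ i, by rw [Category.assoc, z.2.1], by rw [← Category.assoc, z.2.2]⟩)
    (fun z z' hz => Subtype.ext ((cancel_mono i).1 (congrArg Subtype.val hz))) (fun z => ?_)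
    fun x hx => ?_
  · rw [Function.comp_apply, Scheme.Hom.comp_apply]
  · obtain ⟨z, hz⟩ := lift_immersion i x.1 (hc hx) (by
      rw [x.2.2, gen_comp]
      exact ⟨_, rfl⟩)
    exact ⟨⟨z, by rw [← Category.assoc, hz, x.2.1],
      (cancel_mono i).1 (by rw [Category.assoc, hz, x.2.2])⟩, Subtype.ext hz⟩

/-- Descent along an integral universal bijection of the base. -/
theorem of_radicial {p' : X' ⟶ W'} {f : X' ⟶ X} {g : W' ⟶ W} (sq : IsPullback f p' p g)
    [IsIntegralHom g] [AlgebraicGeometry.Surjective g] [UniversallyInjective g]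
    (h : Specialises p' (c ∘ f)) : Specialises p c := by
  intro O _ _ _ _ t y hy
  obtain ⟨w, hw⟩ := g.surjective (gen (genM O ≫ t))
  obtain ⟨η, hη, -⟩ := (SpcB_gfin g Set.univ).lift (genM O ≫ t) (Set.mem_univ w) hw
  obtain ⟨t', rfl, -⟩ := lift_univClosed g t η hη
  have hy' : y ≫ p = (resPt O ≫ t') ≫ g := by rw [hy, Category.assoc]
  have e := h O t' (sq.lift y (resPt O ≫ t') hy') (sq.lift_snd _ _ _)
  rw [Function.comp_apply, ← Scheme.Hom.comp_apply, sq.lift_fst] at e
  rw [e]
  refine finsum_eq_of_bijective (fun x => ⟨x.1 ≫ f, ?_, ?_⟩) ⟨fun x x' hx => ?_, fun x => ?_⟩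
    fun x => ?_
  · rw [Category.assoc, sq.w, ← Category.assoc, x.2.1]
  · rw [← Category.assoc, x.2.2, sq.lift_fst]
  · exact Subtype.ext (sq.hom_ext (congrArg Subtype.val hx) (x.2.1.trans x'.2.1.symm))
  · refine ⟨⟨sq.lift x.1 t' x.2.1, sq.lift_snd _ _ _, sq.hom_ext ?_ ?_⟩,
      Subtype.ext (sq.lift_fst _ _ _)⟩
    · rw [Category.assoc, sq.lift_fst, sq.lift_fst, x.2.2]
    · rw [Category.assoc, sq.lift_snd, sq.lift_snd]
  · rw [Function.comp_apply, Scheme.Hom.comp_apply]

end Specialises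

/-- Hint: the image of the finite scheme is closed in `X`; the reduced closed subscheme on it is
proper and quasi-finite over `W`. -/
theorem FinOver.of_radicial {p : X ⟶ W} [IsSeparated p] [LocallyOfFiniteType p] {p' : X' ⟶ W'}
    {f : X' ⟶ X} {g : W' ⟶ W} (sq : IsPullback f p' p g) [IsIntegralHom g]
    [AlgebraicGeometry.Surjective g] [UniversallyInjective g] {S : Set X} (h : FinOver p' (f ⁻¹' S)) : FinOver p S := by
  obtain ⟨Z, i, hi, hZ⟩ := h
  have hf : AlgebraicGeometry.Surjective f :=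
    MorphismProperty.of_isPullback (P := @AlgebraicGeometry.Surjective) sq.flip ‹_›
  have e : (i ≫ f) ≫ p = (i ≫ p') ≫ g := by rw [Category.assoc, sq.w, Category.assoc]
  have e' : (i ≫ f).toImage ≫ (i ≫ f).imageι ≫ p = (i ≫ p') ≫ g := by
    rw [Scheme.Hom.toImage_imageι_assoc, e]
  have h1 : UniversallyClosed ((i ≫ f) ≫ p) := by
    rw [e]
    infer_instance
  have h2 : UniversallyClosed (i ≫ f) := .of_comp_of_isSeparated _ p
  have h3 : UniversallyClosed ((i ≫ f).toImage ≫ (i ≫ f).imageι ≫ p) := by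
    rw [e']
    infer_instance
  have h4 : UniversallyClosed (i ≫ f).toImage := .of_comp_of_isSeparated _ ((i ≫ f).imageι ≫ p)
  have h5 : AlgebraicGeometry.Surjective (i ≫ f).toImage :=
    surjective_of_isDominant_of_isClosed_range _ (i ≫ f).toImage.isClosedMap.isClosed_range
  have h6 : UniversallyClosed ((i ≫ f).imageι ≫ p) := .of_comp_surjective (i ≫ f).toImage _
  have h7 : IsProper ((i ≫ f).imageι ≫ p) := {}
  have h8 : LocallyQuasiFinite ((i ≫ f).imageι ≫ p) := by
    refine .of_finite_preimage_singleton _ fun w => ?_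
    have h9 : (((i ≫ p') ≫ g) ⁻¹' {w}).Finite := by
      refine ((i ≫ p').finite_preimage
        (Set.subsingleton_singleton.preimage g.injective (s := {w})).finite).subset fun z hz => ?_
      rw [Set.mem_preimage, Scheme.Hom.comp_apply] at hz
      exact hz
    refine (h9.image (i ≫ f).toImage).subset fun z hz => ?_
    obtain ⟨z', rfl⟩ := (i ≫ f).toImage.surjective z
    refine ⟨z', ?_, rfl⟩
    rw [Set.mem_preimage, ← e', Scheme.Hom.comp_apply]
    exact hz
  refine ⟨_, (i ≫ f).imageι, .of_isProper_of_locallyQuasiFinite _, fun x hx => ?_⟩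
  obtain ⟨x', rfl⟩ := f.surjective x
  obtain ⟨z, rfl⟩ := hZ hx
  exact ⟨(i ≫ f).toImage z, by
    rw [← Scheme.Hom.comp_apply, Scheme.Hom.toImage_imageι, Scheme.Hom.comp_apply]⟩

end Pool.Agent.KEW
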