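import Pool.Agent.P.MP_6277db_ag.KEW.DefsA
import Pool.Agent.P.MP_6277db_ag.KEW.L3.Corr

/-!
The category of finite correspondences on a site of separated schemes over `T`, the graph functor
and the presheaves with transfers `L ⊗ Cyc(- × U / -)`.
-/

noncomputable section

open CategoryTheory Limits AlgebraicGeometry IsLocalRing Function TensorProduct Opposite

namespace Pool.Agent.KEW

variable {T T' T'' : Scheme.{0}} {C : Type 1} [Category.{0} C]

/-- All objects of the site are separated over the base. -/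
class SepSite (v : C ⥤ Over T) : Prop where
  sep : ∀ U : C, IsSeparated (v.obj U).hom

instance {v : C ⥤ Over T} [h : SepSite v] (U : C) : IsSeparated (v.obj U).hom := h.sep U

/-- The category of finite correspondences between objects of the site `v : C ⥤ Over T`. -/
structure Tr (m : ℕ) (v : C ⥤ Over T) : Type 1 where
  /-- the underlying object of the site -/
  as : C

namespace Tr

variable {m : ℕ} {v : C ⥤ Over T} [SepSite v]

instance : Category.{0} (Tr m v) where
  Hom W U := Corr m (v.obj W.as) (v.obj U.as)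
  id W := Corr.graph m (𝟙 (v.obj W.as))
  comp c d := Corr.comp c d
  id_comp c := (Corr.graph_comp _ c).trans (Corr.pull_id c)
  comp_id c := (Corr.comp_graph c _).trans (Corr.push_id c)
  assoc c d e := Corr.comp_assoc c d e

instance : Preadditive (Tr m v) where
  homGroup W U := inferInstanceAs (AddCommGroup (Corr m (v.obj W.as) (v.obj U.as)))
  add_comp _ _ _ c c' d := Corr.add_comp c c' d
  comp_add _ _ _ c d d' := Corr.comp_add c d d'

theorem comp_def {W U V : Tr m v} (c : W ⟶ U) (d : U ⟶ V) : c ≫ d = Corr.comp c d := rfl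

end Tr

variable (m : ℕ) (v : C ⥤ Over T) [SepSite v]

/-- The graph functor. -/
def gam : C ⥤ Tr m v where
  obj U := ⟨U⟩
  map f := Corr.graph m (v.map f)
  map_id _ := congrArg (Corr.graph m) (v.map_id _)
  map_comp _ _ := (congrArg (Corr.graph m) (v.map_comp _ _)).trans
    ((Corr.comp_graph _ _).trans (Corr.push_graph _ _)).symm

variable (L : Type 1) [CommRing L]

/-- Precomposition with a correspondence as an additive map. -/
def Corr.preHom {m : ℕ} {W W' : Over T} [IsSeparated W'.hom] (c : Corr m W W') (U : Over T)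
    [IsSeparated U.hom] : Corr m W' U →+ Corr m W U :=
  AddMonoidHom.mk' (Corr.comp c) (Corr.comp_add c)

/-- Postcomposition with a correspondence as an additive map. -/
def Corr.postHom {m : ℕ} (W : Over T) {U U' : Over T} [IsSeparated U.hom] [IsSeparated U'.hom]
    (d : Corr m U U') : Corr m W U →+ Corr m W U' :=
  AddMonoidHom.mk' (fun c => Corr.comp c d) (fun c c' => Corr.add_comp c c' d)

/-- Extension of scalars of an additive map. -/
def ext1 {A B : Type} [AddCommGroup A] [AddCommGroup B] (f : A →+ B) :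
    ModuleCat.of L (L ⊗[ℤ] A) ⟶ ModuleCat.of L (L ⊗[ℤ] B) :=
  ModuleCat.ofHom (LinearMap.baseChange L f.toIntLinearMap)

section

variable {L} {A B D : Type} [AddCommGroup A] [AddCommGroup B] [AddCommGroup D]

@[simp] theorem ext1_tmul (f : A →+ B) (l : L) (a : A) :
    (ext1 L f).hom (l ⊗ₜ a) = l ⊗ₜ f a := rfl

theorem ext1_eq_coef (f : A →+ B) : ext1 L f = (coef L).map (AddCommGrpCat.ofHom f) := rfl

theorem ext1_id {f : A →+ A} (h : ∀ a, f a = a) : ext1 L f = 𝟙 _ := by
  ext a
  simp [ext1, h]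

theorem ext1_comp {f : A →+ B} {g : B →+ D} {k : A →+ D} (h : ∀ a, k a = g (f a)) :
    ext1 L k = ext1 L f ≫ ext1 L g := by
  ext a
  simp [ext1, h]

theorem ext1_add {f g k : A →+ B} (h : ∀ a, k a = f a + g a) :
    ext1 L k = ext1 L f + ext1 L g := by
  ext a
  simp [ext1, h, tmul_add]

end

/-- The presheaf with transfers `W ↦ L ⊗ Cyc(W × U / W)` of a separated `T`-scheme `U`. -/
def rho (U : Over T) [IsSeparated U.hom] : PSh (Tr m v) L where
  obj W := ModuleCat.of L (L ⊗[ℤ] Corr m (v.obj W.unop.as) U)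
  map c := ext1 L (Corr.preHom c.unop U)
  map_id _ := ext1_id fun d => (Corr.graph_comp _ d).trans (Corr.pull_id d)
  map_comp c c' := ext1_comp fun d => Corr.comp_assoc c'.unop c.unop d

instance (U : Over T) [IsSeparated U.hom] : (rho m v L U).Additive where
  map_add {_ _ c c'} := ext1_add fun d => Corr.add_comp c.unop c'.unop d

/-- Functoriality of `rho` in correspondences. -/
def rhoMap {U U' : Over T} [IsSeparated U.hom] [IsSeparated U'.hom] (d : Corr m U U') :
    rho m v L U ⟶ rho m v L U' where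
  app W := ext1 L (Corr.postHom (v.obj W.unop.as) d)
  naturality _ _ c := by
    refine (ext1_comp (k := (Corr.postHom _ d).comp (Corr.preHom c.unop U)) fun _ => rfl).symm.trans
      (ext1_comp fun e => Corr.comp_assoc c.unop e d)

/-- The functor `U ↦ L ⊗ Tr(-, U)`. -/
def rhoTr : Tr m v ⥤ PSh (Tr m v) L where
  obj U := rho m v L (v.obj U.as)
  map d := rhoMap m v L d
  map_id _ := NatTrans.ext (funext fun _ =>
    ext1_id fun c => (Corr.comp_graph c _).trans (Corr.push_id c))
  map_comp d d' := NatTrans.ext (funext fun _ =>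
    ext1_comp fun c => (Corr.comp_assoc c d d').symm)

/-- The presheaf `W ↦ L ⊗ Cyc(W × U / W)` on all `T`-schemes (no transfers). -/
def cycPre (U : Over T) [IsSeparated U.hom] : PSh (Over T) L where
  obj W := ModuleCat.of L (L ⊗[ℤ] Corr m W.unop U)
  map f := ext1 L (Corr.pull m f.unop U)
  map_id _ := ext1_id Corr.pull_id
  map_comp f g := ext1_comp fun c => (Corr.pull_pull f.unop g.unop c).symm

/-- Push forward along a map of separated `T`-schemes. -/
def cycPush {U U' : Over T} [IsSeparated U.hom] [IsSeparated U'.hom] (f : U ⟶ U') :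
    cycPre m L U ⟶ cycPre m L U' where
  app W := ext1 L (Corr.push m W.unop f)
  naturality _ _ g := by
    refine (ext1_comp (k := (Corr.push m _ f).comp (Corr.pull m g.unop U)) fun _ => rfl).symm.trans
      (ext1_comp fun c => (Corr.pull_push g.unop f c).symm)

/-- Forgetting the transfers of `rho U` gives `cycPre U`. -/
def gamRhoIso (U : Over T) [IsSeparated U.hom] :
    (gam m v).op ⋙ rho m v L U ≅ v.op ⋙ cycPre m L U :=
  NatIso.ofComponents (fun _ => Iso.refl _) fun f => by
    refine (Category.comp_id _).trans (Eq.trans ?_ (Category.id_comp _).symm)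
    exact congrArg (ext1 L) (AddMonoidHom.ext fun d => Corr.graph_comp (v.map f.unop) d)

/-- The map from the free presheaf on `U` to the presheaf with transfers, `f ↦ 1 ⊗ graph f`. -/
def repToRho (U : C) : (rep C L).obj U ⟶ (gam m v).op ⋙ rho m v L (v.obj U) where
  app W := ModuleCat.freeDesc (TypeCat.ofHom
    (fun f : ULift.{1} (W.unop ⟶ U) => (1 : L) ⊗ₜ[ℤ] Corr.graph m (v.map f.down)))
  naturality W W' g := by
    apply ModuleCat.free_hom_ext
    intro f
    erw [ModuleCat.comp_apply, ModuleCat.comp_apply, ModuleCat.free_map_apply,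
      ModuleCat.freeDesc_apply, ModuleCat.freeDesc_apply]
    exact congrArg (fun c => (1 : L) ⊗ₜ[ℤ] c) ((gam m v).map_comp g.unop f.down)

/-- Yoneda lemma for additive presheaves with transfers. -/
def rhoYoneda (U : Tr m v) (F : PSh (Tr m v) L) [F.Additive] (x : F.obj (op U)) :
    rho m v L (v.obj U.as) ⟶ F where
  app W := ModuleCat.ofHom (LinearMap.liftBaseChange L
    (AddMonoidHom.mk' (fun c : W.unop ⟶ U => (F.map c.op).hom x) fun c c' => by
      rw [op_add, F.map_add]; rfl).toIntLinearMap)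
  naturality W W' g := by
    refine ModuleCat.hom_ext (TensorProduct.AlgebraTensorModule.ext fun l c => ?_)
    change l • (F.map (g.unop ≫ c : W'.unop ⟶ U).op).hom x =
      (F.map g).hom (l • (F.map (Quiver.Hom.op (c : W.unop ⟶ U))).hom x)
    rw [map_smul, op_comp, F.map_comp]
    rfl

theorem TrF_rhoYoneda_app (U : Tr m v) (F : PSh (Tr m v) L) [F.Additive] (x : F.obj (op U))
    (W : (Tr m v)ᵒᵖ) (l : L) (c : W.unop ⟶ U) :
    ((rhoYoneda m v L U F x).app W).hom (l ⊗ₜ[ℤ] c) = l • (F.map c.op).hom x := rfl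

theorem TrF_rhoYoneda_one (U : Tr m v) (F : PSh (Tr m v) L) [F.Additive] (x : F.obj (op U)) :
    ((rhoYoneda m v L U F x).app (op U)).hom ((1 : L) ⊗ₜ[ℤ] (𝟙 U : U ⟶ U)) = x := by
  refine (TrF_rhoYoneda_app m v L U F x (op U) 1 (𝟙 U)).trans ?_
  rw [one_smul, op_id, F.map_id]
  rfl

theorem rhoYoneda_bijective (U : Tr m v) (F : PSh (Tr m v) L) [F.Additive] :
    Function.Bijective (rhoYoneda m v L U F) := by
  refine ⟨fun x y h => ?_, fun α => ?_⟩
  · rw [← TrF_rhoYoneda_one m v L U F x, h, TrF_rhoYoneda_one]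
  · refine ⟨(α.app (op U)).hom ((1 : L) ⊗ₜ[ℤ] (𝟙 U : U ⟶ U)), NatTrans.ext (funext fun W => ?_)⟩
    refine ModuleCat.hom_ext (TensorProduct.AlgebraTensorModule.ext fun l c => ?_)
    refine (TrF_rhoYoneda_app m v L U F _ W l c).trans ?_
    have h := congrArg (fun φ => φ.hom ((1 : L) ⊗ₜ[ℤ] (𝟙 U : U ⟶ U)))
      (α.naturality (Quiver.Hom.op (c : W.unop ⟶ U)))
    have h1 : (α.app W).hom ((1 : L) ⊗ₜ[ℤ] ((c : W.unop ⟶ U) ≫ 𝟙 U : W.unop ⟶ U)) =
        (F.map (Quiver.Hom.op (c : W.unop ⟶ U))).hom
          ((α.app (op U)).hom ((1 : L) ⊗ₜ[ℤ] (𝟙 U : U ⟶ U))) := h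
    rw [Category.comp_id] at h1
    rw [← h1, ← map_smul]
    refine congrArg (α.app W).hom ?_
    change l • ((1 : L) ⊗ₜ[ℤ] c : L ⊗[ℤ] Corr m (v.obj W.unop.as) (v.obj U.as)) = l ⊗ₜ[ℤ] c
    rw [TensorProduct.smul_tmul', smul_eq_mul, mul_one]

theorem rhoYoneda_app_one (U : Tr m v) (F : PSh (Tr m v) L) [F.Additive] (x : F.obj (op U)) :
    ((rhoYoneda m v L U F x).app (op U)).hom ((1 : L) ⊗ₜ[ℤ] (𝟙 U : U ⟶ U)) = x :=
  TrF_rhoYoneda_one m v L U F x

end Pool.Agent.KEW
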