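import Pool.Agent.P.MP_6277db_ag.KEW.L3.Tr

/-!
Base change of correspondences along `g : T' ⟶ T` followed by the forgetful functor along
`r : T' ⟶ T''`. The case `r = 𝟙` is base change of sites, the case `r = g` is the product with the
fixed `T`-scheme `T'` (cylinders, tori).
-/

noncomputable section

open CategoryTheory Limits AlgebraicGeometry IsLocalRing Function TensorProduct Opposite

namespace Pool.Agent.KEW

variable {T T' T'' T₁ T₂ : Scheme.{0}}

/-- `U'` is the base change of `U` along `g`, viewed over `T''` by `r`. -/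
structure BC (g : T' ⟶ T) (r : T' ⟶ T'') (U : Over T) (U' : Over T'') where
  /-- projection to `U` -/
  π : U'.left ⟶ U.left
  /-- projection to `T'` -/
  q : U'.left ⟶ T'
  hq : q ≫ r = U'.hom
  pb : IsPullback π q U.hom g

/-- The trivial base change datum. -/
def BC.refl (U : Over T) : BC (𝟙 T) (𝟙 T) U U :=
  ⟨𝟙 _, U.hom, Category.comp_id _, IsPullback.of_horiz_isIso ⟨by simp⟩⟩

namespace Corr

variable {m : ℕ} {g : T' ⟶ T} {r : T' ⟶ T''} {W U V : Over T} {W' U' V' : Over T''}

/-- The map `W' ×_T' U' ⟶ W ×_T U`. -/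
def bcPi (a : BC g r W W') (b : BC g r U U') : pullback a.q b.q ⟶ pullback W.hom U.hom :=
  pullback.map _ _ _ _ a.π b.π g a.pb.w.symm b.pb.w.symm

/-- The map `W' ×_T' U' ⟶ W' ×_T'' U'`. -/
def bcIota (a : BC g r W W') (b : BC g r U U') : pullback a.q b.q ⟶ pullback W'.hom U'.hom :=
  pullback.lift (pullback.fst _ _) (pullback.snd _ _)
    (by rw [← a.hq, ← b.hq, pullback.condition_assoc])

theorem isPullback_bcPi (a : BC g r W W') (b : BC g r U U') :
    IsPullback (bcPi a b) (pullback.fst _ _) (pullback.fst _ _) a.π := by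
  have h1 : bcPi a b ≫ pullback.snd _ _ = pullback.snd _ _ ≫ b.π := pullback.lift_snd _ _ _
  have h2 : bcPi a b ≫ pullback.fst _ _ = pullback.fst _ _ ≫ a.π := pullback.lift_fst _ _ _
  refine IsPullback.of_right ?_ h2 (IsPullback.of_hasPullback W.hom U.hom).flip
  rw [h1, a.pb.w]
  exact (IsPullback.of_hasPullback a.q b.q).flip.paste_horiz b.pb

theorem isSeparated_q [IsSeparated U'.hom] (b : BC g r U U') : IsSeparated b.q :=
  have : IsSeparated (b.q ≫ r) := by rw [b.hq]; infer_instance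
  IsSeparated.of_comp b.q r

variable (m) in
/-- Base change of correspondences. -/
def bc [IsSeparated U.hom] [IsSeparated U'.hom] (a : BC g r W W') (b : BC g r U U') :
    Corr m W U →+ Corr m W' U' :=
  have := isSeparated_q b
  (Cyc.pushHom m (bcIota a b) (pullback.lift_fst _ _ _)).comp (Cyc.pull m (isPullback_bcPi a b))

theorem TrF_bc_eq [IsSeparated U.hom] [IsSeparated U'.hom] (a : BC g r W W') (b : BC g r U U')
    [IsSeparated b.q] (c : Corr m W U) :
    bc m a b c = ofCyc m (pullback.fst a.q b.q) (pullback.snd a.q b.q)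
      (by rw [← a.hq, ← b.hq, pullback.condition_assoc])
      (Cyc.pull m (isPullback_bcPi a b) c) := rfl

open Classical in
theorem ent_bc [IsSeparated U.hom] [IsSeparated U'.hom] (a : BC g r W W') (b : BC g r U U')
    (c : Corr m W U) {Om : Type} [Field Om] [IsAlgClosed Om] (x : Spec (.of Om) ⟶ W'.left)
    (y : Spec (.of Om) ⟶ U'.left) :
    ent (bc m a b c) x y = if x ≫ a.q = y ≫ b.q then ent c (x ≫ a.π) (y ≫ b.π) else 0 := by
  have := isSeparated_q b
  rw [TrF_bc_eq, ent_ofCyc]
  split_ifs with h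
  · have hs : {z : Spec (.of Om) ⟶ pullback a.q b.q |
        z ≫ pullback.fst a.q b.q = x ∧ z ≫ pullback.snd a.q b.q = y} = {pullback.lift x y h} := by
      ext z
      simp only [Set.mem_ofPred_eq, Set.mem_singleton_iff]
      constructor
      · rintro ⟨h1, h2⟩
        apply pullback.hom_ext
        · rw [h1, pullback.lift_fst]
        · rw [h2, pullback.lift_snd]
      · rintro rfl
        exact ⟨pullback.lift_fst _ _ _, pullback.lift_snd _ _ _⟩
    rw [hs, finsum_mem_singleton, Cyc.pull_coe, Function.comp_apply, ← gen_comp, ← ent_fst_snd]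
    have h1 : bcPi a b ≫ pullback.snd _ _ = pullback.snd _ _ ≫ b.π := pullback.lift_snd _ _ _
    have h2 : bcPi a b ≫ pullback.fst _ _ = pullback.fst _ _ ≫ a.π := pullback.lift_fst _ _ _
    rw [Category.assoc, Category.assoc, h1, h2, pullback.lift_fst_assoc, pullback.lift_snd_assoc]
  · have hs : {z : Spec (.of Om) ⟶ pullback a.q b.q |
        z ≫ pullback.fst a.q b.q = x ∧ z ≫ pullback.snd a.q b.q = y} = ∅ := by
      ext z
      simp only [Set.mem_ofPred_eq, Set.mem_empty_iff_false, iff_false]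
      rintro ⟨h1, h2⟩
      apply h
      rw [← h1, ← h2, Category.assoc, Category.assoc, pullback.condition]
    rw [hs, finsum_mem_empty]

theorem bc_refl [IsSeparated U.hom] (c : Corr m W U) : bc m (BC.refl W) (BC.refl U) c = c := by
  refine ext_ent fun Om _ _ x y => ?_
  rw [ent_bc]
  split_ifs with h
  · change ent c (x ≫ 𝟙 _) (y ≫ 𝟙 _) = _
    rw [Category.comp_id, Category.comp_id]
  · exact (ent_of_ne c x y h).symm

open Classical in
/-- Sums over the points of a base change above a fixed point of the new base. -/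
theorem TrF_finsum (b : BC g r U U') {Z : Scheme.{0}} (t : Z ⟶ T') (F : (Z ⟶ U.left) → ℚ)
    (hF : ∀ u, u ≫ U.hom ≠ t ≫ g → F u = 0) :
    ∑ᶠ y : Z ⟶ U'.left, (if t = y ≫ b.q then F (y ≫ b.π) else 0) = ∑ᶠ u, F u := by
  have h1 : ∑ᶠ y : Z ⟶ U'.left, (if t = y ≫ b.q then F (y ≫ b.π) else 0) =
      ∑ᶠ y ∈ {y : Z ⟶ U'.left | t = y ≫ b.q}, F (y ≫ b.π) := by
    rw [finsum_mem_def]
    refine finsum_congr fun y => ?_
    rw [Set.indicator_apply]
    rfl
  have h2 : ∑ᶠ u, F u = ∑ᶠ u ∈ {u : Z ⟶ U.left | u ≫ U.hom = t ≫ g}, F u := by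
    rw [finsum_mem_def]
    refine finsum_congr fun u => ?_
    by_cases hu : u ≫ U.hom = t ≫ g
    · rw [Set.indicator_of_mem (by exact hu)]
    · rw [Set.indicator_of_notMem (by exact hu), hF u hu]
  rw [h1, h2]
  refine finsum_mem_eq_of_bijOn (fun y => y ≫ b.π) ⟨?_, ?_, ?_⟩ fun _ _ => rfl
  · intro y hy
    have hy' : t = y ≫ b.q := hy
    change (y ≫ b.π) ≫ U.hom = t ≫ g
    rw [hy', Category.assoc, Category.assoc, b.pb.w]
  · intro y hy y' hy' h
    have h3 : t = y ≫ b.q := hy
    have h4 : t = y' ≫ b.q := hy'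
    exact b.pb.hom_ext h (h3.symm.trans h4)
  · intro u hu
    exact ⟨b.pb.lift u t hu, (b.pb.lift_snd _ _ _).symm, b.pb.lift_fst _ _ _⟩

theorem bc_comp [IsSeparated U.hom] [IsSeparated V.hom] [IsSeparated U'.hom] [IsSeparated V'.hom]
    (a : BC g r W W') (b : BC g r U U') (e : BC g r V V') (c : Corr m W U) (d : Corr m U V) :
    bc m a e (comp c d) = comp (bc m a b c) (bc m b e d) := by
  classical
  refine ext_ent fun Om _ _ x z => ?_
  rw [ent_bc, ent_comp, ent_comp]
  split_ifs with h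
  · rw [← TrF_finsum b (x ≫ a.q) (fun u => ent c (x ≫ a.π) u * ent d u (z ≫ e.π))]
    · refine finsum_congr fun y => ?_
      rw [ent_bc, ent_bc]
      by_cases hy : x ≫ a.q = y ≫ b.q
      · rw [if_pos hy, if_pos hy, if_pos (hy.symm.trans h)]
      · rw [if_neg hy, if_neg hy, zero_mul]
    · intro u hu
      rw [ent_of_ne c, zero_mul]
      rw [Category.assoc, a.pb.w, ← Category.assoc]
      exact hu.symm
  · refine (finsum_eq_zero_of_forall_eq_zero fun y => ?_).symm
    rw [ent_bc, ent_bc]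
    by_cases hy : x ≫ a.q = y ≫ b.q
    · rw [if_neg (fun h' => h (hy.trans h')), mul_zero]
    · rw [if_neg hy, zero_mul]

theorem bc_graph [IsSeparated U.hom] [IsSeparated U'.hom] (a : BC g r W W') (b : BC g r U U')
    (f : W ⟶ U) (f' : W' ⟶ U') (h : f'.left ≫ b.π = a.π ≫ f.left) (h' : f'.left ≫ b.q = a.q) :
    bc m a b (graph m f) = graph m f' := by
  classical
  refine ext_ent fun Om _ _ x y => ?_
  rw [ent_bc, ent_graph, ent_graph]
  by_cases hy : x ≫ f'.left = y
  · subst hy
    rw [if_pos (by rw [Category.assoc, h']), if_pos (by rw [Category.assoc, Category.assoc, h]),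
      if_pos rfl]
  · rw [if_neg hy]
    split_ifs with h1 h2
    · exact absurd (b.pb.hom_ext (by rw [Category.assoc, h, ← Category.assoc, h2])
        (by rw [Category.assoc, h', h1])) hy
    · rfl
    · rfl

/-- Naturality of base change in the base: covers projections, sections and multiplication maps
of cylinders. -/
theorem bc_nat {g₁ : T₁ ⟶ T} {r₁ : T₁ ⟶ T''} {g₂ : T₂ ⟶ T} {r₂ : T₂ ⟶ T''} (φ : T₁ ⟶ T₂)
    {W₁ U₁ W₂ U₂ : Over T''} [IsSeparated U.hom] [IsSeparated U₁.hom] [IsSeparated U₂.hom]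
    (a₁ : BC g₁ r₁ W W₁) (b₁ : BC g₁ r₁ U U₁) (a₂ : BC g₂ r₂ W W₂) (b₂ : BC g₂ r₂ U U₂)
    (hφ : φ ≫ g₂ = g₁) (fW : W₁ ⟶ W₂) (fU : U₁ ⟶ U₂)
    (hW : fW.left ≫ a₂.π = a₁.π) (hW' : fW.left ≫ a₂.q = a₁.q ≫ φ)
    (hU : fU.left ≫ b₂.π = b₁.π) (hU' : fU.left ≫ b₂.q = b₁.q ≫ φ) (c : Corr m W U) :
    pull m fW U₂ (bc m a₂ b₂ c) = push m W₁ fU (bc m a₁ b₁ c) := by
  classical
  refine ext_ent fun Om _ _ x y => ?_
  rw [ent_pull, ent_push, ent_bc, Category.assoc, Category.assoc, hW, hW', finsum_mem_def]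
  split_ifs with h
  · have hw : (y ≫ b₂.π) ≫ U.hom = (x ≫ a₁.q) ≫ g₁ := by
      rw [Category.assoc, b₂.pb.w, ← Category.assoc, ← h, Category.assoc, Category.assoc, hφ,
        Category.assoc]
    have e1 : b₁.pb.lift _ _ hw ≫ b₁.π = y ≫ b₂.π := b₁.pb.lift_fst _ _ _
    have e2 : b₁.pb.lift _ _ hw ≫ b₁.q = x ≫ a₁.q := b₁.pb.lift_snd _ _ _
    have e3 : b₁.pb.lift _ _ hw ≫ fU.left = y :=
      b₂.pb.hom_ext (by rw [Category.assoc, hU, e1])
        (by rw [Category.assoc, hU', ← Category.assoc, e2, Category.assoc, h])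
    rw [finsum_eq_single _ (b₁.pb.lift _ _ hw), Set.indicator_of_mem (by exact e3), ent_bc,
      if_pos e2.symm, e1]
    intro y' hy'
    by_cases h1 : y' ≫ fU.left = y
    · rw [Set.indicator_of_mem (by exact h1), ent_bc, if_neg]
      intro h2
      exact hy' (b₁.pb.hom_ext (by rw [e1, ← h1, Category.assoc, hU]) (by rw [e2, h2]))
    · rw [Set.indicator_of_notMem (by exact h1)]
  · refine (finsum_eq_zero_of_forall_eq_zero fun y' => ?_).symm
    by_cases h1 : y' ≫ fU.left = y
    · rw [Set.indicator_of_mem (by exact h1), ent_bc, if_neg]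
      intro h2
      apply h
      rw [← h1, Category.assoc, hU', ← Category.assoc, h2, Category.assoc]
    · rw [Set.indicator_of_notMem (by exact h1)]

/-- Radicial invariance of correspondences under base change of the site. -/
theorem bc_bijective {g : T' ⟶ T} {W' U' : Over T'} [IsSeparated U.hom] [IsSeparated U'.hom]
    [LocallyOfFiniteType U.hom] (a : BC g (𝟙 T') W W') (b : BC g (𝟙 T') U U') [IsIntegralHom a.π]
    [AlgebraicGeometry.Surjective a.π] [UniversallyInjective a.π] :
    Function.Bijective (bc m a b) := by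
  have := isSeparated_q b
  have ha : a.q = W'.hom := (Category.comp_id _).symm.trans a.hq
  have hb : b.q = U'.hom := (Category.comp_id _).symm.trans b.hq
  let j : pullback W'.hom U'.hom ⟶ pullback a.q b.q :=
    pullback.lift (pullback.fst _ _) (pullback.snd _ _) (by rw [ha, hb, pullback.condition])
  have hj : j ≫ pullback.fst _ _ = pullback.fst _ _ := pullback.lift_fst _ _ _
  have hj' : j ≫ pullback.snd _ _ = pullback.snd _ _ := pullback.lift_snd _ _ _
  have hi : bcIota a b ≫ pullback.fst _ _ = pullback.fst _ _ := pullback.lift_fst _ _ _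
  have hi' : bcIota a b ≫ pullback.snd _ _ = pullback.snd _ _ := pullback.lift_snd _ _ _
  have h1 : j ≫ bcIota a b = 𝟙 _ := by
    apply pullback.hom_ext
    · rw [Category.assoc, hi, hj, Category.id_comp]
    · rw [Category.assoc, hi', hj', Category.id_comp]
  have h2 : bcIota a b ≫ j = 𝟙 _ := by
    apply pullback.hom_ext
    · rw [Category.assoc, hj, hi, Category.id_comp]
    · rw [Category.assoc, hj', hi', Category.id_comp]
  have : IsIso (bcIota a b) := ⟨j, h2, h1⟩
  have hpush : Function.Bijective (Cyc.pushHom m (bcIota a b) hi) := by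
    refine ⟨Cyc.pushHom_injective _ _, fun c => ⟨Cyc.pushHom m j hj c, ?_⟩⟩
    rw [Cyc.pushHom_pushHom]
    refine Subtype.ext ?_
    rw [Cyc.pushHom_coe, h1, KEW.push_id]
  exact hpush.comp (Cyc.pull_bijective (isPullback_bcPi a b))

end Corr

variable {C C' : Type 1} [Category.{0} C] [Category.{0} C']

/-- A functor between sites given by base change along `g` and composition with `r`. -/
structure CartF (v : C ⥤ Over T) (v' : C' ⥤ Over T'') (g : T' ⟶ T) (r : T' ⟶ T'') where
  /-- the functor -/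
  F : C ⥤ C'
  /-- the cartesian squares -/
  β : ∀ U : C, BC g r (v.obj U) (v'.obj (F.obj U))
  map_π : ∀ {W U : C} (f : W ⟶ U),
    (v'.map (F.map f)).left ≫ (β U).π = (β W).π ≫ (v.map f).left
  map_q : ∀ {W U : C} (f : W ⟶ U), (v'.map (F.map f)).left ≫ (β U).q = (β W).q

namespace CartF

variable {v : C ⥤ Over T} {v' : C' ⥤ Over T''} [SepSite v] [SepSite v']
  {g : T' ⟶ T} {r : T' ⟶ T''} (Φ : CartF v v' g r) (m : ℕ)

theorem bc_gam {W U : C} (f : W ⟶ U) :
    Corr.bc m (Φ.β W) (Φ.β U) (Corr.graph m (v.map f)) = Corr.graph m (v'.map (Φ.F.map f)) :=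
  Corr.bc_graph _ _ _ _ (Φ.map_π f) (Φ.map_q f)

/-- The induced functor on correspondences. -/
def tr : Tr m v ⥤ Tr m v' where
  obj U := ⟨Φ.F.obj U.as⟩
  map {W U} c := Corr.bc m (Φ.β W.as) (Φ.β U.as) c
  map_id U := Corr.bc_graph _ _ _ _ (by simp) (by simp)
  map_comp c d := Corr.bc_comp _ _ _ c d

instance : (Φ.tr m).Additive where
  map_add {W U c d} := map_add (Corr.bc m (Φ.β W.as) (Φ.β U.as)) c d

theorem tr_map_gam {W U : C} (f : W ⟶ U) :
    (Φ.tr m).map ((gam m v).map f) = (gam m v').map (Φ.F.map f) := Φ.bc_gam m f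

/-- Compatibility with the graph functors. -/
def gamIso : gam m v ⋙ Φ.tr m ≅ Φ.F ⋙ gam m v' :=
  NatIso.ofComponents (fun _ => Iso.refl _) fun f =>
    (Category.comp_id _).trans ((Φ.tr_map_gam m f).trans (Category.id_comp _).symm)

end CartF

end Pool.Agent.KEW
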